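import Mathlib
import Pool.Agent.Work.MP_4905b1_co.Statement

/-! Bundle of small proof modules (one section per former module). -/

section

/-!
Definitions for the proof of the fermionic formulas for bounded Hall-Littlewood sums
(problem MP_4905b1_co).  See the note in the team database for the paper proof.
-/

open Finset

namespace MP4905

universe u

variable {A : Type u} [CommRing A]

/-- `(q;q)_n` -/
def qf (q : A) (n : ℕ) : A := ∏ j ∈ range n, (1 - q ^ (j + 1))

/-- `1/(q;q)_n` (meaningful when `q` is nilpotent) -/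
noncomputable def iq (q : A) (n : ℕ) : A := Ring.inverse (qf q n)

/-- Gaussian binomial coefficients. -/
def gb (q : A) : ℕ → ℕ → A
  | _, 0 => 1
  | 0, _ + 1 => 0
  | n + 1, k + 1 => gb q n k + q ^ (k + 1) * gb q n (k + 1)

/-- `(a;q)_n` -/
def qpoch (q a : A) (n : ℕ) : A := ∏ j ∈ range n, (1 - a * q ^ j)

/-- `(z;q)_∞` for nilpotent `q` -/
noncomputable def qinf (q z : A) : A := ∏ j ∈ range (nilpotencyClass q), (1 - z * q ^ j)

/-- `1/(z;q)_∞` for nilpotent `q`, `z` -/
noncomputable def ez (q z : A) : A := Ring.inverse (qinf q z)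

/-- Partitions: weakly decreasing finitely supported sequences `μ 0 ≥ μ 1 ≥ …`. -/
abbrev Pt : Type := {μ : ℕ →₀ ℕ // Antitone (μ : ℕ → ℕ)}

/-- the free module on partitions -/
abbrev M (A : Type u) [CommRing A] : Type u := Pt →₀ A

open Classical in
/-- basis vectors; `0` if the sequence is not weakly decreasing -/
noncomputable def ket (A : Type u) [CommRing A] (μ : ℕ →₀ ℕ) : M A :=
  if h : Antitone (μ : ℕ → ℕ) then Finsupp.single (⟨μ, h⟩ : Pt) 1 else 0

/-- indicator function of a finite set -/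
noncomputable def ind (s : Finset ℕ) : ℕ →₀ ℕ := Finsupp.indicator s (fun _ _ => 1)

/-- weight of the vertical strip operators -/
def wE (q : A) (m : ℕ) (μ : ℕ →₀ ℕ) (s : Finset ℕ) : A :=
  ∏ i ∈ range m, (if i ∉ s ∧ i + 1 ∈ s then 1 - q ^ (μ i - μ (i + 1)) else 1)

/-- weight of the adjoint (removal) operators -/
def wEp (q : A) (m : ℕ) (μ : ℕ →₀ ℕ) (s : Finset ℕ) : A :=
  ∏ i ∈ range m, (if i ∈ s ∧ i + 1 ∉ s then 1 - q ^ (μ i - μ (i + 1)) else 1)

/-- weight of the horizontal strip operators -/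
noncomputable def wK (q : A) (m : ℕ) (μ : ℕ →₀ ℕ) (c : ℕ →₀ ℕ) : A :=
  iq q (c 0) * ∏ i ∈ range m, gb q (μ i - μ (i + 1)) (c (i + 1))

/-- `E_r` -/
noncomputable def E (q : A) (m r : ℕ) : Module.End A (M A) :=
  Finsupp.linearCombination A (fun μ : Pt =>
    ∑ s ∈ powersetCard r (range m), wE q m μ.1 s • ket A (μ.1 + ind s))

/-- `E^⊥_r` -/
noncomputable def Ep (q : A) (m r : ℕ) : Module.End A (M A) :=
  Finsupp.linearCombination A (fun μ : Pt =>
    ∑ s ∈ powersetCard r (range m), wEp q m μ.1 s • ket A (μ.1 - ind s))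

/-- `g_n` -/
noncomputable def g (q : A) (m n : ℕ) : Module.End A (M A) :=
  Finsupp.linearCombination A (fun μ : Pt =>
    ∑ c ∈ finsuppAntidiag (range m) n, wK q m μ.1 c • ket A (μ.1 + c))

/-- `E(x)` -/
noncomputable def Ex (q : A) (m : ℕ) (x : A) : Module.End A (M A) :=
  ∑ r ∈ range (m + 1), x ^ r • E q m r

/-- `E^⊥(x)` -/
noncomputable def Epx (q : A) (m : ℕ) (x : A) : Module.End A (M A) :=
  ∑ r ∈ range (m + 1), x ^ r • Ep q m r

/-- `K(y)` for nilpotent `y` -/
noncomputable def K (q : A) (m : ℕ) (y : A) : Module.End A (M A) :=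
  ∑ n ∈ range (nilpotencyClass y), y ^ n • g q m n

/-- the functional with given values on basis vectors -/
noncomputable def lin (φ : (ℕ →₀ ℕ) → A) : M A →ₗ[A] A :=
  Finsupp.linearCombination A (fun μ : Pt => φ μ.1)

/-- degree (size) of a sequence -/
def deg (μ : ℕ →₀ ℕ) : ℕ := μ.sum fun _ n => n

/-- `v(Y) = K(Y_1) ⋯ K(Y_n) |0⟩` -/
noncomputable def vY (q : A) (m : ℕ) (ys : List A) : M A :=
  ys.foldr (fun y v => K q m y v) (ket A 0)

/-- span of kets with at most `m` rows -/
noncomputable def Mle (A : Type u) [CommRing A] (m : ℕ) : Submodule A (M A) :=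
  Submodule.span A {v | ∃ μ : ℕ →₀ ℕ, μ m = 0 ∧ v = ket A μ}

end MP4905

end

section

/-!
Formal sums of power series and reduction modulo powers of `X`.
-/

open Finset

namespace MP4905

/-- reduction modulo `X^b` -/
noncomputable def rb (b : ℕ) : PowerSeries ℚ →+*
    (PowerSeries ℚ ⧸ Ideal.span {(PowerSeries.X : PowerSeries ℚ) ^ b}) := Ideal.Quotient.mk _

lemma rb_eq_iff (b : ℕ) (s s' : PowerSeries ℚ) :
    rb b s = rb b s' ↔ ∀ d < b, PowerSeries.coeff d s = PowerSeries.coeff d s' := by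
  unfold rb
  rw [Ideal.Quotient.eq, Ideal.mem_span_singleton, PowerSeries.X_pow_dvd_iff]
  constructor
  · intro h d hd
    have := h d hd
    rwa [map_sub, sub_eq_zero] at this
  · intro h d hd
    rw [map_sub, h d hd, sub_self]

lemma rb_X_pow (b : ℕ) : (rb b PowerSeries.X) ^ b = 0 := by
  rw [← map_pow]
  unfold rb
  rw [Ideal.Quotient.eq_zero_iff_mem]
  exact Ideal.subset_span rfl

lemma eq_of_rb {s s' : PowerSeries ℚ} (h : ∀ b, rb b s = rb b s') : s = s' := by
  ext d
  exact (rb_eq_iff (d + 1) s s').mp (h (d + 1)) d (Nat.lt_succ_self d)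

lemma rb_X_pow_mul (b n : ℕ) (h : b ≤ n) (s : PowerSeries ℚ) : rb b (PowerSeries.X ^ n * s) = 0 := by
  rw [map_mul, map_pow, pow_eq_zero_of_le h (rb_X_pow b), zero_mul]

lemma rb_fsum {ι : Type*} (a : ι → PowerSeries ℚ) (b : ℕ) (T : Finset ι)
    (hT : ∀ i, i ∉ T → rb b (a i) = 0) : rb b (St.fsum a) = ∑ i ∈ T, rb b (a i) := by
  rw [← map_sum, rb_eq_iff]
  intro d hd
  unfold St.fsum
  rw [PowerSeries.coeff_mk, map_sum]
  apply finsum_eq_sum_of_support_subset
  intro i hi
  rw [Finset.mem_coe]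
  by_contra hcon
  apply hi
  have h1 := hT i hcon
  rw [← map_zero (rb b), rb_eq_iff] at h1
  have := h1 d hd
  rwa [map_zero] at this

lemma fsummable_of {ι : Type*} (a : ι → PowerSeries ℚ)
    (h : ∀ b, ∃ T : Finset ι, ∀ i, i ∉ T → rb b (a i) = 0) : St.FSummable a := by
  intro d
  obtain ⟨T, hT⟩ := h (d + 1)
  apply Set.Finite.subset T.finite_toSet
  intro i hi
  rw [Finset.mem_coe]
  by_contra hcon
  apply hi
  have h1 := hT i hcon
  rw [← map_zero (rb (d + 1)), rb_eq_iff] at h1
  have := h1 d (Nat.lt_succ_self d)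
  rwa [map_zero] at this

/-- infinite products modulo `X^b` -/
lemma rb_pochInf (a c : PowerSeries ℚ) (hc : PowerSeries.X ∣ c) (b n : ℕ) (hn : b ≤ n) :
    rb b (St.pochInf a c) = rb b (St.poch a c n) := by
  have hstab : ∀ m n, m ≤ n → rb m (St.poch a c n) = rb m (St.poch a c m) := by
    intro m n hmn
    induction n, hmn using Nat.le_induction with
    | base => rfl
    | succ n hmn ih =>
      have h1 : St.poch a c (n + 1) = St.poch a c n * (1 - a * c ^ n) := by
        unfold St.poch
        rw [prod_range_succ]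
      obtain ⟨e, he⟩ := hc
      have h2 : rb m (a * c ^ n) = 0 := by
        have : a * c ^ n = PowerSeries.X ^ n * (a * e ^ n) := by rw [he, mul_pow]; ring
        rw [this]
        exact rb_X_pow_mul m n hmn _
      rw [h1, map_mul, map_sub, map_one, h2, sub_zero, mul_one, ih]
  rw [rb_eq_iff]
  intro d hd
  unfold St.pochInf
  rw [PowerSeries.coeff_mk]
  have h1 := (rb_eq_iff (d + 1) _ _).mp (hstab (d + 1) n (by omega)) d (Nat.lt_succ_self d)
  exact h1.symm

end MP4905

end

section

open Finset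

namespace MP4905

universe u

variable {A : Type u} [CommRing A]

/-! ### q-factorials -/

@[simp] lemma qf_zero (q : A) : qf q 0 = 1 := by simp [qf]

lemma qf_succ (q : A) (n : ℕ) : qf q (n + 1) = qf q n * (1 - q ^ (n + 1)) := by
  simp [qf, prod_range_succ]

lemma isUnit_one_sub_pow {q : A} (hq : IsNilpotent q) (n : ℕ) : IsUnit (1 - q ^ (n + 1)) :=
  (hq.pow_succ n).isUnit_one_sub

lemma isUnit_qf {q : A} (hq : IsNilpotent q) (n : ℕ) : IsUnit (qf q n) := by
  unfold qf
  exact IsUnit.prod_iff.mpr (fun i _ => isUnit_one_sub_pow hq i)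

lemma qf_mul_iq {q : A} (hq : IsNilpotent q) (n : ℕ) : qf q n * iq q n = 1 :=
  Ring.mul_inverse_cancel _ (isUnit_qf hq n)

lemma iq_mul_qf {q : A} (hq : IsNilpotent q) (n : ℕ) : iq q n * qf q n = 1 := by
  rw [mul_comm, qf_mul_iq hq]

@[simp] lemma iq_zero (q : A) : iq q 0 = 1 := by simp [iq]

lemma iq_eq {q : A} (hq : IsNilpotent q) (n : ℕ) : iq q n = iq q (n + 1) * (1 - q ^ (n + 1)) := by
  have h1 := qf_mul_iq hq n
  have h2 := qf_mul_iq hq (n + 1)
  rw [qf_succ] at h2
  calc iq q n = iq q n * (qf q n * (1 - q ^ (n + 1)) * iq q (n + 1)) := by rw [h2, mul_one]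
    _ = (qf q n * iq q n) * (iq q (n + 1) * (1 - q ^ (n + 1))) := by ring
    _ = _ := by rw [h1, one_mul]

/-! ### Gaussian binomials -/

@[simp] lemma gb_zero_right (q : A) (n : ℕ) : gb q n 0 = 1 := by cases n <;> rfl

@[simp] lemma gb_zero_succ (q : A) (k : ℕ) : gb q 0 (k + 1) = 0 := rfl

lemma gb_succ_succ (q : A) (n k : ℕ) :
    gb q (n + 1) (k + 1) = gb q n k + q ^ (k + 1) * gb q n (k + 1) := rfl

lemma gb_eq_zero (q : A) {n k : ℕ} (h : n < k) : gb q n k = 0 := by
  induction n generalizing k with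
  | zero => cases k with
    | zero => omega
    | succ k => rfl
  | succ n ih => cases k with
    | zero => omega
    | succ k => rw [gb_succ_succ, ih (by omega), ih (by omega)]; ring

@[simp] lemma gb_self (q : A) (n : ℕ) : gb q n n = 1 := by
  induction n with
  | zero => rfl
  | succ n ih => rw [gb_succ_succ, ih, gb_eq_zero q (Nat.lt_succ_self n)]; ring

lemma gb_mul (q : A) (n k : ℕ) : gb q (n + k) k * (qf q k * qf q n) = qf q (n + k) := by
  induction k generalizing n with
  | zero => simp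
  | succ k ihk =>
    induction n with
    | zero => simp
    | succ n ihn =>
      have h1 := ihk (n + 1)
      have e1 : n + 1 + (k + 1) = (n + 1 + k) + 1 := by ring
      have e2 : n + (k + 1) = n + 1 + k := by ring
      rw [e2] at ihn
      rw [e1, gb_succ_succ, qf_succ q k, qf_succ q n, qf_succ q (n + 1 + k)]
      rw [qf_succ q n] at h1
      rw [qf_succ q k] at ihn
      have : q ^ (n + 1 + k + 1) = q ^ (k + 1) * q ^ (n + 1) := by rw [← pow_add]; ring_nf
      rw [this]
      linear_combination (1 - q ^ (k + 1)) * h1 + q ^ (k + 1) * (1 - q ^ (n + 1)) * ihn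

lemma gb_eq {q : A} (hq : IsNilpotent q) {n k : ℕ} (h : k ≤ n) :
    gb q n k = qf q n * iq q k * iq q (n - k) := by
  obtain ⟨j, rfl⟩ := Nat.exists_eq_add_of_le h
  have h1 := gb_mul q j k
  rw [add_comm j k] at h1
  have h2 := qf_mul_iq hq k
  have h3 := qf_mul_iq hq j
  rw [Nat.add_sub_cancel_left]
  calc gb q (k + j) k = gb q (k + j) k * (qf q k * iq q k) * (qf q j * iq q j) := by
        rw [h2, h3]; ring
    _ = (gb q (k + j) k * (qf q k * qf q j)) * iq q k * iq q j := by ring
    _ = _ := by rw [h1]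

/-- absorption -/
lemma gb_absorb (q : A) (n k : ℕ) :
    gb q (n + 1) (k + 1) * (1 - q ^ (k + 1)) = (1 - q ^ (n + 1)) * gb q n k := by
  induction n generalizing k with
  | zero => cases k with
    | zero => simp
    | succ k => rw [gb_eq_zero q (show 0 + 1 < k + 1 + 1 by omega),
        gb_eq_zero q (show 0 < k + 1 by omega)]; ring
  | succ n ih => cases k with
    | zero =>
      have h := ih 0
      rw [gb_succ_succ q (n + 1) 0]
      simp only [gb_zero_right] at h ⊢
      linear_combination q * h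
    | succ k =>
      have h1 := ih k
      have h2 := ih (k + 1)
      rw [gb_succ_succ q (n + 1) (k + 1)]
      rw [gb_succ_succ q n k]
      rw [gb_succ_succ q n k] at h1
      linear_combination q * h1 + q ^ (k + 2) * h2

/-- the second Pascal rule -/
lemma gb_pascal (q : A) (n k : ℕ) (h : k ≤ n) :
    gb q (n + 1) (k + 1) = gb q n (k + 1) + q ^ (n - k) * gb q n k := by
  induction n generalizing k with
  | zero =>
    obtain rfl : k = 0 := by omega
    simp
  | succ n ih => cases k with
    | zero =>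
      have a := gb_succ_succ q (n + 1) 0
      have b := ih 0 (by omega)
      have c := gb_succ_succ q n 0
      simp only [gb_zero_right, Nat.sub_zero, pow_succ, pow_zero, one_mul, mul_one] at a b c ⊢
      linear_combination a + q * b - c
    | succ k =>
      rcases Nat.lt_or_ge k n with hk | hk
      · have h1 := ih k (by omega)
        have h2 := ih (k + 1) (by omega)
        have a := gb_succ_succ q (n + 1) (k + 1)
        have c := gb_succ_succ q n (k + 1)
        have d := gb_succ_succ q n k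
        obtain ⟨j, hj⟩ : ∃ j, n = k + 1 + j := Nat.exists_eq_add_of_le hk
        have e1 : n - k = j + 1 := by omega
        have e2 : n + 1 - (k + 1) = j + 1 := by omega
        have e3 : n - (k + 1) = j := by omega
        rw [e1] at h1
        rw [e3] at h2
        rw [e2]
        linear_combination a + h1 + q ^ (k + 2) * h2 - c - q ^ (j + 1) * d
      · obtain rfl : k = n := by omega
        rw [gb_self, gb_eq_zero q (show k + 1 < k + 1 + 1 by omega), gb_self]
        simp

lemma gb_absorb' (q : A) (n k : ℕ) (h : k ≤ n) :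
    gb q (n + 1) k * (1 - q ^ (n + 1 - k)) = (1 - q ^ (n + 1)) * gb q n k := by
  cases k with
  | zero => simp [mul_comm]
  | succ k =>
    obtain ⟨j, rfl⟩ := Nat.exists_eq_add_of_le h
    have h1 := gb_absorb q (k + 1 + j) k
    have h2 := gb_pascal q (k + 1 + j) k (by omega)
    have e : k + 1 + j - k = j + 1 := by omega
    have e2 : k + 1 + j + 1 - (k + 1) = j + 1 := by omega
    rw [e] at h2
    rw [e2]
    have e3 : q ^ (k + 1 + j + 1) = q ^ (j + 1) * q ^ (k + 1) := by rw [← pow_add]; ring_nf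
    rw [e3] at h1 ⊢
    linear_combination (1 - q ^ (j + 1) * q ^ (k + 1)) * h2 - q ^ (j + 1) * h1

/-! ### infinite products -/

lemma pow_nilpotencyClass' {q : A} (hq : IsNilpotent q) : q ^ nilpotencyClass q = 0 :=
  pow_nilpotencyClass hq

lemma qinf_eq_prod {q : A} (hq : IsNilpotent q) (z : A) {n : ℕ} (hn : nilpotencyClass q ≤ n) :
    qinf q z = ∏ j ∈ range n, (1 - z * q ^ j) := by
  obtain ⟨k, rfl⟩ := Nat.exists_eq_add_of_le hn
  rw [prod_range_add, qinf]
  have : ∏ x ∈ range k, (1 - z * q ^ (nilpotencyClass q + x)) = 1 := by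
    apply prod_eq_one
    intro x _
    rw [pow_add, pow_nilpotencyClass' hq]
    ring
  rw [this, mul_one]

lemma qinf_step {q : A} (hq : IsNilpotent q) (z : A) :
    qinf q z = (1 - z) * qinf q (z * q) := by
  rw [qinf_eq_prod hq z (Nat.le_succ _), prod_range_succ']
  rw [qinf]
  simp only [pow_zero, mul_one, pow_succ']
  rw [mul_comm]
  congr 1
  apply prod_congr rfl
  intro x _
  ring

@[simp] lemma qinf_zero (q : A) : qinf q 0 = 1 := by simp [qinf]

lemma qinf_split {q : A} (hq : IsNilpotent q) (z : A) (n : ℕ) :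
    qinf q z = qpoch q z n * qinf q (z * q ^ n) := by
  induction n with
  | zero => simp [qpoch]
  | succ n ih =>
    rw [ih, qinf_step hq (z * q ^ n)]
    simp only [qpoch, prod_range_succ, pow_succ]
    ring_nf

lemma isUnit_qinf {q z : A} (hz : IsNilpotent z) : IsUnit (qinf q z) := by
  unfold qinf
  refine IsUnit.prod_iff.mpr (fun i _ => ?_)
  have : IsNilpotent (z * q ^ i) := by
    obtain ⟨n, hn⟩ := hz
    exact ⟨n, by rw [mul_pow, hn, zero_mul]⟩
  exact this.isUnit_one_sub

lemma qinf_mul_ez {q z : A} (hz : IsNilpotent z) : qinf q z * ez q z = 1 :=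
  Ring.mul_inverse_cancel _ (isUnit_qinf hz)

lemma ez_mul_qinf {q z : A} (hz : IsNilpotent z) : ez q z * qinf q z = 1 := by
  rw [mul_comm, qinf_mul_ez hz]

/-- a solution of the functional equation `(1 - z) f(z) = (1 - a z) f(q z)` -/
lemma qbinomial_aux {q : A} (hq : IsNilpotent q) (a : A) (f : A → A) (z : A)
    (hf : ∀ n : ℕ, (1 - z * q ^ n) * f (z * q ^ n) = (1 - a * (z * q ^ n)) * f (z * q ^ (n + 1)))
    (h0 : f 0 = 1) : qinf q z * f z = qinf q (a * z) := by
  have key : ∀ n : ℕ, (∏ j ∈ range n, (1 - z * q ^ j)) * f z =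
      (∏ j ∈ range n, (1 - a * z * q ^ j)) * f (z * q ^ n) := by
    intro n
    induction n with
    | zero => simp
    | succ n ih =>
      rw [prod_range_succ, prod_range_succ]
      calc (∏ j ∈ range n, (1 - z * q ^ j)) * (1 - z * q ^ n) * f z
          = ((∏ j ∈ range n, (1 - z * q ^ j)) * f z) * (1 - z * q ^ n) := by ring
        _ = (∏ j ∈ range n, (1 - a * z * q ^ j)) * ((1 - z * q ^ n) * f (z * q ^ n)) := by
            rw [ih]; ring
        _ = _ := by rw [hf n]; ring
  have h := key (nilpotencyClass q)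
  rw [pow_nilpotencyClass' hq, mul_zero, h0, mul_one] at h
  exact h

/-- the `q`-binomial theorem -/
lemma qbinomial {q : A} (hq : IsNilpotent q) (a z : A) {B : ℕ} (hB : z ^ B = 0) :
    qinf q z * (∑ c ∈ range B, qpoch q a c * z ^ c * iq q c) = qinf q (a * z) := by
  rcases Nat.eq_zero_or_pos B with rfl | hBpos
  · have : (1 : A) = 0 := by simpa using hB
    have hs : Subsingleton A := subsingleton_of_zero_eq_one this.symm
    exact Subsingleton.elim _ _
  obtain ⟨B, rfl⟩ : ∃ b, B = b + 1 := ⟨B - 1, by omega⟩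
  apply qbinomial_aux hq a (fun z => ∑ c ∈ range (B + 1), qpoch q a c * z ^ c * iq q c) z
  · intro n
    set w := z * q ^ n with hw
    have hwB : w ^ (B + 1) = 0 := by rw [hw, mul_pow, hB, zero_mul]
    have e : z * q ^ (n + 1) = w * q := by rw [hw, pow_succ]; ring
    simp only [e]
    -- f(w) - f(w q) = w (f(w) - a f(w q))
    have h1 : (∑ c ∈ range (B + 1), qpoch q a c * w ^ c * iq q c) -
        (∑ c ∈ range (B + 1), qpoch q a c * (w * q) ^ c * iq q c) =
        w * ((∑ c ∈ range (B + 1), qpoch q a c * w ^ c * iq q c) -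
        a * (∑ c ∈ range (B + 1), qpoch q a c * (w * q) ^ c * iq q c)) := by
      rw [← sum_sub_distrib, mul_sum, ← sum_sub_distrib, mul_sum, sum_range_succ']
      rw [sum_range_succ (fun c => w * (qpoch q a c * w ^ c * iq q c -
        a * (qpoch q a c * (w * q) ^ c * iq q c)))]
      have hz0 : qpoch q a 0 * w ^ 0 * iq q 0 - qpoch q a 0 * (w * q) ^ 0 * iq q 0 = 0 := by simp
      have hzB : w * (qpoch q a B * w ^ B * iq q B -
        a * (qpoch q a B * (w * q) ^ B * iq q B)) = 0 := by
        have : w * (qpoch q a B * w ^ B * iq q B -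
          a * (qpoch q a B * (w * q) ^ B * iq q B)) =
          w ^ (B + 1) * (qpoch q a B * iq q B - a * (qpoch q a B * q ^ B * iq q B)) := by
            rw [mul_pow, pow_succ]; ring
        rw [this, hwB, zero_mul]
      rw [hz0, hzB]
      congr 1
      apply sum_congr rfl
      intro c _
      rw [iq_eq hq c]
      simp only [qpoch, prod_range_succ, mul_pow, pow_succ]
      ring
    linear_combination h1
  · rw [sum_range_succ']
    simp [qpoch]

/-- Euler: `∑ z^c/(q)_c = 1/(z;q)_∞` -/
lemma euler_one {q : A} (hq : IsNilpotent q) {z : A} {B : ℕ} (hB : z ^ B = 0) :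
    ∑ c ∈ range B, z ^ c * iq q c = ez q z := by
  have hz : IsNilpotent z := ⟨B, hB⟩
  have h := qbinomial hq 0 z hB
  have h1 : ∑ c ∈ range B, qpoch q 0 c * z ^ c * iq q c = ∑ c ∈ range B, z ^ c * iq q c := by
    apply sum_congr rfl
    intro c _
    simp [qpoch]
  rw [h1, zero_mul, qinf_zero] at h
  calc ∑ c ∈ range B, z ^ c * iq q c
      = (ez q z * qinf q z) * ∑ c ∈ range B, z ^ c * iq q c := by rw [ez_mul_qinf hz, one_mul]
    _ = ez q z * (qinf q z * ∑ c ∈ range B, z ^ c * iq q c) := by ring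
    _ = _ := by rw [h, mul_one]

end MP4905

end

section

open Finset

namespace MP4905

universe u

variable {A : Type u} [CommRing A]

/-! ### transfer products -/

/-- forward recursion of a two state transfer product -/
def Z (s0 : Bool → A) (T : ℕ → Bool → Bool → A) : ℕ → Bool → A
  | 0, b => s0 b
  | i + 1, b => Z s0 T i false * T i false b + Z s0 T i true * T i true b

/-- the weight of a subset -/
def wt (s0 : Bool → A) (T : ℕ → Bool → Bool → A) (m : ℕ) (s : Finset ℕ) : A :=
  s0 (decide (0 ∈ s)) * ∏ i ∈ range m, T i (decide (i ∈ s)) (decide (i + 1 ∈ s))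

lemma wt_succ (s0 : Bool → A) (T : ℕ → Bool → Bool → A) (m : ℕ) (s : Finset ℕ) :
    wt s0 T (m + 1) s = wt s0 T m s * T m (decide (m ∈ s)) (decide (m + 1 ∈ s)) := by
  simp [wt, prod_range_succ, mul_assoc]

lemma wt_congr (s0 : Bool → A) (T : ℕ → Bool → Bool → A) (m : ℕ) (s t : Finset ℕ)
    (h : ∀ i ≤ m, i ∈ s ↔ i ∈ t) : wt s0 T m s = wt s0 T m t := by
  unfold wt
  congr 1
  · congr 1
    simp [h 0 (Nat.zero_le _)]
  · apply prod_congr rfl
    intro i hi
    have hi' := mem_range.mp hi
    simp [h i (by omega), h (i + 1) (by omega)]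

lemma sum_range_succ_powerset (f : Finset ℕ → A) (m : ℕ) :
    ∑ s ∈ powerset (range (m + 1)), f s =
      ∑ s ∈ powerset (range m), f s + ∑ s ∈ powerset (range m), f (insert m s) := by
  rw [range_add_one, sum_powerset_insert (by simp)]

/-- transfer lemma -/
lemma transfer (s0 : Bool → A) (T : ℕ → Bool → Bool → A) (m : ℕ) :
    ∑ s ∈ powerset (range m), wt s0 T m s = Z s0 T m false ∧
    ∑ s ∈ powerset (range m), wt s0 T m (insert m s) = Z s0 T m true := by
  induction m with
  | zero => simp [wt, Z]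
  | succ m ih =>
    obtain ⟨ih1, ih2⟩ := ih
    have hnot : ∀ s ∈ powerset (range m), m ∉ s ∧ m + 1 ∉ s := by
      intro s hs
      have := mem_powerset.mp hs
      constructor
      · intro h; simpa using this h
      · intro h; simpa using this h
    constructor
    · rw [sum_range_succ_powerset]
      have e1 : ∑ s ∈ powerset (range m), wt s0 T (m + 1) s =
          ∑ s ∈ powerset (range m), wt s0 T m s * T m false false := by
        apply sum_congr rfl
        intro s hs
        obtain ⟨h1, h2⟩ := hnot s hs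
        rw [wt_succ]; simp [h1, h2]
      have e2 : ∑ s ∈ powerset (range m), wt s0 T (m + 1) (insert m s) =
          ∑ s ∈ powerset (range m), wt s0 T m (insert m s) * T m true false := by
        apply sum_congr rfl
        intro s hs
        obtain ⟨h1, h2⟩ := hnot s hs
        rw [wt_succ]; simp [h2]
      rw [e1, e2, ← sum_mul, ← sum_mul, ih1, ih2]
      rfl
    · rw [sum_range_succ_powerset]
      have e1 : ∑ s ∈ powerset (range m), wt s0 T (m + 1) (insert (m + 1) s) =
          ∑ s ∈ powerset (range m), wt s0 T m s * T m false true := by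
        apply sum_congr rfl
        intro s hs
        obtain ⟨h1, h2⟩ := hnot s hs
        rw [wt_succ, wt_congr s0 T m (insert (m + 1) s) s]
        · simp [h1]
        · intro i hi
          simp only [mem_insert, or_iff_right_iff_imp]
          intro h; omega
      have e2 : ∑ s ∈ powerset (range m), wt s0 T (m + 1) (insert (m + 1) (insert m s)) =
          ∑ s ∈ powerset (range m), wt s0 T m (insert m s) * T m true true := by
        apply sum_congr rfl
        intro s hs
        obtain ⟨h1, h2⟩ := hnot s hs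
        rw [wt_succ, wt_congr s0 T m (insert (m + 1) (insert m s)) (insert m s)]
        · simp
        · intro i hi
          rw [mem_insert]
          simp only [or_iff_right_iff_imp]
          intro h; omega
      rw [e1, e2, ← sum_mul, ← sum_mul, ih1, ih2]
      rfl

/-! ### the fold identities -/

/-- fold for `E_r g_n` : links `[[1-γ, (1-α')(1-αγ)],[1-γ, 1-α']]` and weight `u` per chosen site -/
def TEK (u : A) (α γ : ℕ → A) (i : ℕ) : Bool → Bool → A
  | false, false => 1 - γ i
  | false, true => u * (1 - α (i + 1)) * (1 - α i * γ i)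
  | true, false => 1 - γ i
  | true, true => u * (1 - α (i + 1))

/-- fold for `g_n E_r` -/
def TKE (u : A) (α γ : ℕ → A) (i : ℕ) : Bool → Bool → A
  | false, false => 1 - γ i
  | false, true => u * (1 - α (i + 1)) * (1 - γ i)
  | true, false => 1 - γ i * α (i + 1)
  | true, true => u * (1 - α (i + 1))

def sEK (u : A) (α : ℕ → A) : Bool → A
  | false => 1
  | true => u * (1 - α 0)

lemma fold_comm (u : A) (α γ : ℕ → A) (m : ℕ) :
    Z (sEK u α) (TEK u α γ) m true + Z (sEK u α) (TEK u α γ) m false =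
      Z (sEK u α) (TKE u α γ) m true + Z (sEK u α) (TKE u α γ) m false ∧
    Z (sEK u α) (TKE u α γ) m true =
      u * (Z (sEK u α) (TKE u α γ) m false - α m * Z (sEK u α) (TEK u α γ) m false) := by
  induction m with
  | zero => constructor <;> simp [Z, sEK]
  | succ m ih =>
    obtain ⟨h1, h2⟩ := ih
    simp only [Z, TEK, TKE]
    generalize Z (sEK u α) (TEK u α γ) m true = a1 at *
    generalize Z (sEK u α) (TEK u α γ) m false = a0 at *
    generalize Z (sEK u α) (TKE u α γ) m true = b1 at *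
    generalize Z (sEK u α) (TKE u α γ) m false = b0 at *
    generalize α m = x at *
    generalize α (m + 1) = x' at *
    generalize γ m = y at *
    subst h2
    constructor
    · linear_combination (1 - y + u * (1 - x')) * h1
    · linear_combination (u * x' * (1 - y)) * h1

lemma fold_comm' (u : A) (α γ : ℕ → A) (m : ℕ) (hm : α m = 1) :
    Z (sEK u α) (TEK u α γ) m false = Z (sEK u α) (TKE u α γ) m false := by
  cases m with
  | zero => rfl
  | succ m =>
    obtain ⟨h1, h2⟩ := fold_comm u α γ m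
    simp only [Z, TEK, TKE, hm]
    linear_combination (1 - γ m) * h1

/-- fold for `E(-y)K(y) = K(qy)` -/
lemma fold_inv (α γ : ℕ → A) (m : ℕ) :
    Z (sEK (-1) α) (TEK (-1) α γ) m true + Z (sEK (-1) α) (TEK (-1) α γ) m false =
      α m * Z (sEK (-1) α) (TEK (-1) α γ) m false ∧
    Z (sEK (-1) α) (TEK (-1) α γ) m false = (∏ i ∈ range m, α i * (1 - γ i)) := by
  induction m with
  | zero => simp [Z, sEK]
  | succ m ih =>
    obtain ⟨h1, h2⟩ := ih
    rw [prod_range_succ, ← h2]
    simp only [Z, TEK]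
    generalize Z (sEK (-1) α) (TEK (-1) α γ) m true = a1 at *
    generalize Z (sEK (-1) α) (TEK (-1) α γ) m false = a0 at *
    constructor
    · linear_combination (-(1 - α (m + 1)) * γ m) * h1
    · linear_combination (1 - γ m) * h1

/-! ### keeping track of the number of chosen sites -/

open Polynomial in
/-- multiply by `X` for each chosen site -/
noncomputable def lift0 (s0 : Bool → A) : Bool → A[X]
  | false => C (s0 false)
  | true => X * C (s0 true)

open Polynomial in
noncomputable def liftT (T : ℕ → Bool → Bool → A) (i : ℕ) : Bool → Bool → A[X]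
  | b, false => C (T i b false)
  | b, true => X * C (T i b true)

open Polynomial in
lemma wt_lift (s0 : Bool → A) (T : ℕ → Bool → Bool → A) (m : ℕ) (s : Finset ℕ) :
    wt (lift0 s0) (liftT T) m s =
      X ^ (((range (m + 1)).filter (fun i => i ∈ s)).card) * C (wt s0 T m s) := by
  induction m with
  | zero =>
    by_cases h : 0 ∈ s
    · simp [wt, lift0, h, filter_singleton]
    · simp [wt, lift0, h, filter_singleton]
  | succ m ih =>
    rw [wt_succ, ih, wt_succ, range_add_one (n := m + 1), filter_insert]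
    by_cases h : m + 1 ∈ s
    · rw [if_pos h, card_insert_of_notMem (by simp)]
      simp only [h, decide_true, liftT, C_mul, pow_succ]
      ring
    · rw [if_neg h]
      simp only [h, decide_false, liftT, C_mul]
      ring

open Polynomial in
lemma coeff_Z (s0 : Bool → A) (T : ℕ → Bool → Bool → A) (m r : ℕ) :
    (Z (lift0 s0) (liftT T) m false).coeff r = ∑ s ∈ powersetCard r (range m), wt s0 T m s := by
  rw [← (transfer _ _ _).1, finsetSum_coeff, powersetCard_eq_filter, sum_filter]
  apply sum_congr rfl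
  intro s hs
  rw [wt_lift]
  have hs' := mem_powerset.mp hs
  have e : (range (m + 1)).filter (fun i => i ∈ s) = s := by
    ext i
    simp only [mem_filter, mem_range, and_iff_right_iff_imp]
    intro h
    have := mem_range.mp (hs' h)
    omega
  rw [e, coeff_X_pow_mul', coeff_C]
  by_cases h : s.card = r
  · simp [h]
  · rw [if_neg h]
    split_ifs with h1 h2
    · omega
    · rfl
    · rfl

lemma sum_wt_comm (α γ : ℕ → A) (m r : ℕ) (hm : α m = 1) :
    ∑ s ∈ powersetCard r (range m), wt (sEK 1 α) (TEK 1 α γ) m s =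
      ∑ s ∈ powersetCard r (range m), wt (sEK 1 α) (TKE 1 α γ) m s := by
  rw [← coeff_Z, ← coeff_Z]
  have e0 : lift0 (sEK 1 α) = sEK Polynomial.X (fun i => Polynomial.C (α i)) := by
    funext b; cases b <;> simp [lift0, sEK]
  have e1 : liftT (TEK 1 α γ) =
      TEK Polynomial.X (fun i => Polynomial.C (α i)) (fun i => Polynomial.C (γ i)) := by
    funext i b b'; cases b <;> cases b' <;> simp [liftT, TEK] <;> ring
  have e2 : liftT (TKE 1 α γ) =
      TKE Polynomial.X (fun i => Polynomial.C (α i)) (fun i => Polynomial.C (γ i)) := by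
    funext i b b'; cases b <;> cases b' <;> simp [liftT, TKE] <;> ring
  rw [e0, e1, e2, fold_comm' _ _ _ _ (by simp [hm])]

end MP4905

end

section

open Finset

namespace MP4905

universe u

variable {A : Type u} [CommRing A]

/-! ### local factors -/

/-- common factor of a link -/
noncomputable def J (q : A) (d a : ℕ) : A :=
  if a ≤ d + 1 then qf q d * iq q a * iq q (d + 1 - a) else 0

lemma J_gb {q : A} (hq : IsNilpotent q) (d a : ℕ) :
    gb q d a = J q d a * (1 - q ^ (d + 1 - a)) := by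
  unfold J
  split_ifs with h
  · rcases Nat.lt_or_ge d a with h1 | h1
    · obtain rfl : a = d + 1 := by omega
      rw [gb_eq_zero q h1]; simp
    · have e : d + 1 - a = (d - a) + 1 := by omega
      rw [gb_eq hq h1, e, iq_eq hq (d - a)]; ring
  · rw [gb_eq_zero q (by omega)]; ring

lemma J_gb_pred {q : A} (hq : IsNilpotent q) (d a : ℕ) (ha : 1 ≤ a) :
    gb q d (a - 1) = J q d a * (1 - q ^ a) := by
  obtain ⟨a, rfl⟩ : ∃ b, a = b + 1 := ⟨a - 1, by omega⟩
  unfold J
  rw [Nat.add_sub_cancel]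
  split_ifs with h
  · have e : d + 1 - (a + 1) = d - a := by omega
    rw [gb_eq hq (by omega : a ≤ d), e, iq_eq hq a]; ring
  · rw [gb_eq_zero q (by omega)]; ring

lemma J_gb_succ {q : A} (hq : IsNilpotent q) (d a : ℕ) :
    gb q (d + 1) a = J q d a * (1 - q ^ (d + 1)) := by
  unfold J
  split_ifs with h
  · rw [gb_eq hq h, qf_succ]; ring
  · rw [gb_eq_zero q (by omega)]; ring

lemma J_gb_pred_pred {q : A} (hq : IsNilpotent q) (d a : ℕ) (ha : 1 ≤ a) :
    (1 - q ^ d) * gb q (d - 1) (a - 1) =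
      J q d a * (1 - q ^ (d + 1 - a)) * (1 - q ^ a) := by
  rw [← J_gb hq]
  obtain ⟨a, rfl⟩ : ∃ b, a = b + 1 := ⟨a - 1, by omega⟩
  cases d with
  | zero => simp
  | succ d => rw [Nat.add_sub_cancel, Nat.add_sub_cancel, gb_absorb]

lemma J_mul {q : A} (d a x : ℕ) :
    J q d a * (1 - q ^ x * q ^ (d + 1 - a)) = J q d a * (1 - q ^ (x + d + 1 - a)) := by
  unfold J
  split_ifs with h
  · rw [← pow_add]
    congr 3
    omega
  · ring

@[simp] lemma ind_apply (s : Finset ℕ) (i : ℕ) : ind s i = if i ∈ s then 1 else 0 := by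
  simp [ind, Finsupp.indicator_apply]

/-- the sequences used in the folds -/
def aSeq (q : A) (a : ℕ →₀ ℕ) (i : ℕ) : A := q ^ a i

def gSeq (q : A) (μ a : ℕ →₀ ℕ) (i : ℕ) : A := q ^ (μ i - μ (i + 1) + 1 - a (i + 1))

/-- the common factor -/
noncomputable def Cst (q : A) (m : ℕ) (μ a : ℕ →₀ ℕ) : A :=
  iq q (a 0) * ∏ i ∈ range m, J q (μ i - μ (i + 1)) (a (i + 1))

lemma ind_le_iff {s : Finset ℕ} {a : ℕ →₀ ℕ} : ind s ≤ a ↔ ∀ i ∈ s, 1 ≤ a i := by
  constructor
  · intro h i hi
    have := h i
    simpa [hi] using this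
  · intro h i
    by_cases hi : i ∈ s
    · simpa [hi] using h i hi
    · simp [hi]

lemma EK_term {q : A} (hq : IsNilpotent q) (m : ℕ) {μ : ℕ →₀ ℕ} (hμ : Antitone μ) (a : ℕ →₀ ℕ)
    (s : Finset ℕ) (hs : ind s ≤ a) :
    wK q m μ (a - ind s) * wE q m (μ + (a - ind s)) s =
      Cst q m μ a * wt (sEK 1 (aSeq q a)) (TEK 1 (aSeq q a) (gSeq q μ a)) m s := by
  have hs' := ind_le_iff.mp hs
  unfold wK wE Cst wt
  have e0 : iq q ((a - ind s) 0) = iq q (a 0) * sEK 1 (aSeq q a) (decide (0 ∈ s)) := by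
    by_cases h : 0 ∈ s
    · have := hs' 0 h
      simp only [Finsupp.coe_tsub, Pi.sub_apply, ind_apply, h, if_true, decide_true, sEK, aSeq,
        one_mul]
      obtain ⟨b, hb⟩ : ∃ b, a 0 = b + 1 := ⟨a 0 - 1, by omega⟩
      rw [hb, Nat.add_sub_cancel, iq_eq hq b]
    · simp [h, sEK]
  rw [e0]
  have key : ∀ i ∈ range m,
      gb q (μ i - μ (i + 1)) ((a - ind s) (i + 1)) *
        (if i ∉ s ∧ i + 1 ∈ s then
          1 - q ^ ((μ + (a - ind s)) i - (μ + (a - ind s)) (i + 1)) else 1) =
      J q (μ i - μ (i + 1)) (a (i + 1)) *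
        TEK 1 (aSeq q a) (gSeq q μ a) i (decide (i ∈ s)) (decide (i + 1 ∈ s)) := by
    intro i _
    have hd : μ (i + 1) ≤ μ i := hμ (Nat.le_succ i)
    by_cases h1 : i ∈ s <;> by_cases h2 : i + 1 ∈ s
    · have ha := hs' (i + 1) h2
      simp [h1, h2, TEK, aSeq, J_gb_pred hq _ _ ha]
    · simp [h1, h2, TEK, gSeq, J_gb hq]
    · have ha := hs' (i + 1) h2
      simp only [Finsupp.coe_tsub, Pi.sub_apply, ind_apply, h2, if_true, J_gb_pred hq _ _ ha,
        h1, not_false_eq_true, and_self, Finsupp.coe_add, Pi.add_apply, if_false, decide_false,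
        decide_true, TEK, aSeq, gSeq, one_mul, Nat.sub_zero]
      have e := J_mul (q := q) (μ i - μ (i + 1)) (a (i + 1)) (a i)
      by_cases h3 : a (i + 1) ≤ μ i - μ (i + 1) + 1
      · have e2 : μ i + a i - (μ (i + 1) + (a (i + 1) - 1)) =
            a i + (μ i - μ (i + 1)) + 1 - a (i + 1) := by omega
        rw [e2]
        linear_combination (-(1 - q ^ a (i + 1))) * e
      · have : J q (μ i - μ (i + 1)) (a (i + 1)) = 0 := by unfold J; rw [if_neg h3]
        rw [this]; ring
    · simp [h1, h2, TEK, gSeq, J_gb hq]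
  calc _ = (iq q (a 0) * sEK 1 (aSeq q a) (decide (0 ∈ s))) *
      ∏ i ∈ range m, (gb q (μ i - μ (i + 1)) ((a - ind s) (i + 1)) *
        (if i ∉ s ∧ i + 1 ∈ s then
          1 - q ^ ((μ + (a - ind s)) i - (μ + (a - ind s)) (i + 1)) else 1)) := by
        rw [prod_mul_distrib]; ring
    _ = _ := by
        rw [prod_congr rfl key, prod_mul_distrib]; ring

lemma KE_term {q : A} (hq : IsNilpotent q) (m : ℕ) {μ : ℕ →₀ ℕ} (hμ : Antitone μ) (a : ℕ →₀ ℕ)
    (s : Finset ℕ) (hs : ind s ≤ a) :
    wE q m μ s * wK q m (μ + ind s) (a - ind s) =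
      Cst q m μ a * wt (sEK 1 (aSeq q a)) (TKE 1 (aSeq q a) (gSeq q μ a)) m s := by
  have hs' := ind_le_iff.mp hs
  unfold wK wE Cst wt
  have e0 : iq q ((a - ind s) 0) = iq q (a 0) * sEK 1 (aSeq q a) (decide (0 ∈ s)) := by
    by_cases h : 0 ∈ s
    · have := hs' 0 h
      simp only [Finsupp.coe_tsub, Pi.sub_apply, ind_apply, h, if_true, decide_true, sEK, aSeq,
        one_mul]
      obtain ⟨b, hb⟩ : ∃ b, a 0 = b + 1 := ⟨a 0 - 1, by omega⟩
      rw [hb, Nat.add_sub_cancel, iq_eq hq b]
    · simp [h, sEK]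
  rw [e0]
  have key : ∀ i ∈ range m,
      (if i ∉ s ∧ i + 1 ∈ s then 1 - q ^ (μ i - μ (i + 1)) else 1) *
      gb q ((μ + ind s) i - (μ + ind s) (i + 1)) ((a - ind s) (i + 1)) =
      J q (μ i - μ (i + 1)) (a (i + 1)) *
        TKE 1 (aSeq q a) (gSeq q μ a) i (decide (i ∈ s)) (decide (i + 1 ∈ s)) := by
    intro i _
    have hd : μ (i + 1) ≤ μ i := hμ (Nat.le_succ i)
    by_cases h1 : i ∈ s <;> by_cases h2 : i + 1 ∈ s
    · have ha := hs' (i + 1) h2
      have e : μ i + 1 - (μ (i + 1) + 1) = μ i - μ (i + 1) := by omega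
      simp [h1, h2, TKE, aSeq, e, J_gb_pred hq _ _ ha]
    · have e : μ i + 1 - μ (i + 1) = (μ i - μ (i + 1)) + 1 := by omega
      simp only [h1, not_true_eq_false, h2, and_self, if_false, Finsupp.coe_add, Pi.add_apply,
        ind_apply, if_true, add_zero, e, Finsupp.coe_tsub, Pi.sub_apply, Nat.sub_zero,
        decide_true, decide_false, TKE, gSeq, aSeq, one_mul, J_gb_succ hq]
      have e2 := J_mul (q := q) (μ i - μ (i + 1)) (a (i + 1)) (a (i + 1))
      have e3 : a (i + 1) + (μ i - μ (i + 1)) + 1 - a (i + 1) = μ i - μ (i + 1) + 1 := by omega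
      rw [e3] at e2
      linear_combination -e2
    · have ha := hs' (i + 1) h2
      have e : μ i - (μ (i + 1) + 1) = (μ i - μ (i + 1)) - 1 := by omega
      simp only [h1, not_false_eq_true, h2, and_self, if_true, Finsupp.coe_add, Pi.add_apply,
        ind_apply, if_false, add_zero, e, Finsupp.coe_tsub, Pi.sub_apply,
        J_gb_pred_pred hq _ _ ha, decide_true, decide_false, TKE, gSeq, aSeq, one_mul]
      ring
    · simp [h1, h2, TKE, gSeq, J_gb hq]
  calc _ = (iq q (a 0) * sEK 1 (aSeq q a) (decide (0 ∈ s))) *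
      ∏ i ∈ range m, ((if i ∉ s ∧ i + 1 ∈ s then 1 - q ^ (μ i - μ (i + 1)) else 1) *
      gb q ((μ + ind s) i - (μ + ind s) (i + 1)) ((a - ind s) (i + 1))) := by
        rw [prod_mul_distrib]; ring
    _ = _ := by
        rw [prod_congr rfl key, prod_mul_distrib]; ring

lemma wt_eq_zero {q : A} {a : ℕ →₀ ℕ} {T : ℕ → Bool → Bool → A} {m : ℕ}
    (hT : ∀ i b, a (i + 1) = 0 → T i b true = 0) {s : Finset ℕ} (hsm : s ⊆ range m)
    (hs : ¬ ind s ≤ a) : wt (sEK 1 (aSeq q a)) T m s = 0 := by
  rw [ind_le_iff] at hs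
  push Not at hs
  obtain ⟨i, hi, hai⟩ := hs
  have hai : a i = 0 := by omega
  unfold wt
  cases i with
  | zero => simp [hi, sEK, aSeq, hai]
  | succ i =>
    have : i + 1 < m := mem_range.mp (hsm hi)
    rw [prod_eq_zero (mem_range.mpr (show i < m by omega)), mul_zero]
    simp [hi, hT i _ hai]

/-- the kernel form of `E_r g_n = g_n E_r` -/
lemma kernel_comm {q : A} (hq : IsNilpotent q) (m r : ℕ) {μ : ℕ →₀ ℕ} (hμ : Antitone μ)
    (a : ℕ →₀ ℕ) (ham : a m = 0) :
    ∑ s ∈ (powersetCard r (range m)).filter (fun s => ind s ≤ a),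
      wK q m μ (a - ind s) * wE q m (μ + (a - ind s)) s =
    ∑ s ∈ (powersetCard r (range m)).filter (fun s => ind s ≤ a),
      wE q m μ s * wK q m (μ + ind s) (a - ind s) := by
  rw [sum_congr rfl (fun s hs => EK_term hq m hμ a s (mem_filter.mp hs).2),
    sum_congr rfl (fun s hs => KE_term hq m hμ a s (mem_filter.mp hs).2), ← mul_sum, ← mul_sum]
  congr 1
  rw [sum_filter_of_ne, sum_filter_of_ne]
  · exact sum_wt_comm _ _ m r (by simp [aSeq, ham])
  · intro s hs h
    by_contra hc
    exact h (wt_eq_zero (by intro i b hb; cases b <;> simp [TKE, aSeq, hb])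
      (mem_powersetCard.mp hs).1 hc)
  · intro s hs h
    by_contra hc
    exact h (wt_eq_zero (by intro i b hb; cases b <;> simp [TEK, aSeq, hb])
      (mem_powersetCard.mp hs).1 hc)

end MP4905

end

section

open Finset

namespace MP4905

universe u

variable {A : Type u} [CommRing A]

/-! ### functionals -/

open Classical in
lemma lin_ket (φ : (ℕ →₀ ℕ) → A) (μ : ℕ →₀ ℕ) :
    lin φ (ket A μ) = if Antitone (μ : ℕ → ℕ) then φ μ else 0 := by
  unfold lin ket
  split_ifs with h
  · simp
  · simp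

lemma lin_ket_of_antitone (φ : (ℕ →₀ ℕ) → A) {μ : ℕ →₀ ℕ} (h : Antitone (μ : ℕ → ℕ)) :
    lin φ (ket A μ) = φ μ := by
  rw [lin_ket, if_pos h]

lemma ket_of_not {μ : ℕ →₀ ℕ} (h : ¬ Antitone (μ : ℕ → ℕ)) : ket A μ = 0 := by
  unfold ket; rw [dif_neg h]

lemma ket_coe (μ : Pt) : ket A μ.1 = Finsupp.single μ 1 := by
  unfold ket; rw [dif_pos μ.2]

lemma lin_single (φ : (ℕ →₀ ℕ) → A) (μ : Pt) (x : A) :
    lin φ (Finsupp.single μ x) = x * φ μ.1 := by
  simp [lin]

lemma lin_add (φ ψ : (ℕ →₀ ℕ) → A) (v : M A) : lin (φ + ψ) v = lin φ v + lin ψ v := by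
  simp [lin, Finsupp.linearCombination_apply, Finsupp.sum, mul_add, sum_add_distrib]

lemma lin_smul (a : A) (φ : (ℕ →₀ ℕ) → A) (v : M A) :
    lin (fun μ => a * φ μ) v = a * lin φ v := by
  simp only [lin, Finsupp.linearCombination_apply, Finsupp.sum, mul_sum, smul_eq_mul]
  apply sum_congr rfl
  intro x _
  ring

lemma lin_congr {φ ψ : (ℕ →₀ ℕ) → A} (h : ∀ μ : ℕ →₀ ℕ, Antitone (μ : ℕ → ℕ) → φ μ = ψ μ) :
    lin φ = lin ψ := by
  unfold lin
  congr 1
  funext μ
  exact h μ.1 μ.2

open Classical in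
lemma lin_ext {v w : M A} (h : ∀ φ : (ℕ →₀ ℕ) → A, lin φ v = lin φ w) : v = w := by
  ext μ
  have := h (fun ν => if ν = μ.1 then 1 else 0)
  have e : ∀ v : M A, lin (fun ν => if ν = μ.1 then (1 : A) else 0) v = v μ := by
    intro v
    simp only [lin, Finsupp.linearCombination_apply, Finsupp.sum, smul_eq_mul, mul_ite, mul_one,
      mul_zero]
    rw [sum_eq_single μ]
    · simp
    · intro b _ hb
      rw [if_neg]
      intro hc
      exact hb (Subtype.ext hc)
    · intro hμ
      simpa using hμ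
  rwa [e, e] at this

lemma end_ext {S T : Module.End A (M A)}
    (h : ∀ (φ : (ℕ →₀ ℕ) → A) (μ : ℕ →₀ ℕ), Antitone (μ : ℕ → ℕ) →
      lin φ (S (ket A μ)) = lin φ (T (ket A μ))) : S = T := by
  apply Finsupp.lhom_ext'
  intro μ
  ext1
  simp only [LinearMap.coe_comp, Function.comp_apply, Finsupp.lsingle_apply]
  rw [← ket_coe]
  exact lin_ext (fun φ => h φ μ.1 μ.2)

/-! ### nonvanishing weights give partitions -/

lemma antitone_of_wE {q : A} {m : ℕ} {μ : ℕ →₀ ℕ} (hμ : Antitone μ) {s : Finset ℕ}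
    (hs : s ⊆ range m) (h : wE q m μ s ≠ 0) : Antitone ((μ + ind s : ℕ →₀ ℕ) : ℕ → ℕ) := by
  apply antitone_nat_of_succ_le
  intro i
  by_contra hc
  apply h
  have h1 : μ (i + 1) ≤ μ i := hμ (Nat.le_succ i)
  simp only [Finsupp.coe_add, Pi.add_apply, ind_apply] at hc
  have h2 : i + 1 ∈ s := by
    by_contra h2
    simp only [h2, if_false] at hc
    omega
  have h3 : i ∉ s := by
    intro h3
    simp only [h2, h3, if_true] at hc
    omega
  simp only [h2, h3, if_true, if_false] at hc
  have h4 : μ i - μ (i + 1) = 0 := by omega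
  have h5 : i + 1 < m := mem_range.mp (hs h2)
  unfold wE
  apply prod_eq_zero (mem_range.mpr (show i < m by omega))
  rw [if_pos ⟨h3, h2⟩, h4]
  simp

lemma antitone_of_wK {q : A} {m : ℕ} {μ : ℕ →₀ ℕ} (hμ : Antitone μ) {c : ℕ →₀ ℕ}
    (hc : c.support ⊆ range m) (h : wK q m μ c ≠ 0) :
    Antitone ((μ + c : ℕ →₀ ℕ) : ℕ → ℕ) := by
  apply antitone_nat_of_succ_le
  intro i
  have h1 : μ (i + 1) ≤ μ i := hμ (Nat.le_succ i)
  simp only [Finsupp.coe_add, Pi.add_apply]
  rcases Nat.lt_or_ge i m with hi | hi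
  · have : c (i + 1) ≤ μ i - μ (i + 1) := by
      by_contra hlt
      apply h
      unfold wK
      have hz : gb q (μ i - μ (i + 1)) (c (i + 1)) = 0 := gb_eq_zero q (by omega)
      rw [prod_eq_zero (mem_range.mpr hi) hz, mul_zero]
    omega
  · have : c (i + 1) = 0 := by
      by_contra h0
      have := mem_range.mp (hc (Finsupp.mem_support_iff.mpr h0))
      omega
    omega

lemma antitone_of_wEp {q : A} {m : ℕ} {μ : ℕ →₀ ℕ} (hμ : Antitone μ) {s : Finset ℕ}
    (hs : s ⊆ range m) (h : wEp q m μ s ≠ 0) : Antitone ((μ - ind s : ℕ →₀ ℕ) : ℕ → ℕ) := by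
  apply antitone_nat_of_succ_le
  intro i
  by_contra hc
  apply h
  have h1 : μ (i + 1) ≤ μ i := hμ (Nat.le_succ i)
  simp only [Finsupp.coe_tsub, Pi.sub_apply, ind_apply] at hc
  have h3 : i ∈ s := by
    by_contra h3
    simp only [h3, if_false] at hc
    omega
  have h2 : i + 1 ∉ s := by
    intro h2
    simp only [h2, h3, if_true] at hc
    omega
  simp only [h2, h3, if_true, if_false] at hc
  have h4 : μ i - μ (i + 1) = 0 := by omega
  have h5 : i < m := mem_range.mp (hs h3)
  unfold wEp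
  apply prod_eq_zero (mem_range.mpr (show i < m by omega))
  rw [if_pos ⟨h3, h2⟩, h4]
  simp

/-! ### transposed operators -/

/-- transposed `E_r` -/
noncomputable def Eh (q : A) (m r : ℕ) (φ : (ℕ →₀ ℕ) → A) (μ : ℕ →₀ ℕ) : A :=
  ∑ s ∈ powersetCard r (range m), wE q m μ s * φ (μ + ind s)

/-- transposed `E^⊥_r` -/
noncomputable def Eph (q : A) (m r : ℕ) (φ : (ℕ →₀ ℕ) → A) (μ : ℕ →₀ ℕ) : A :=
  ∑ s ∈ powersetCard r (range m), wEp q m μ s * φ (μ - ind s)

/-- transposed `g_n` -/
noncomputable def gh (q : A) (m n : ℕ) (φ : (ℕ →₀ ℕ) → A) (μ : ℕ →₀ ℕ) : A :=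
  ∑ c ∈ finsuppAntidiag (range m) n, wK q m μ c * φ (μ + c)

lemma E_ket (q : A) (m r : ℕ) {μ : ℕ →₀ ℕ} (hμ : Antitone μ) :
    E q m r (ket A μ) = ∑ s ∈ powersetCard r (range m), wE q m μ s • ket A (μ + ind s) := by
  have : ket A μ = Finsupp.single (⟨μ, hμ⟩ : Pt) 1 := ket_coe ⟨μ, hμ⟩
  rw [this, E, Finsupp.linearCombination_single, one_smul]

lemma Ep_ket (q : A) (m r : ℕ) {μ : ℕ →₀ ℕ} (hμ : Antitone μ) :
    Ep q m r (ket A μ) = ∑ s ∈ powersetCard r (range m), wEp q m μ s • ket A (μ - ind s) := by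
  have : ket A μ = Finsupp.single (⟨μ, hμ⟩ : Pt) 1 := ket_coe ⟨μ, hμ⟩
  rw [this, Ep, Finsupp.linearCombination_single, one_smul]

lemma g_ket (q : A) (m n : ℕ) {μ : ℕ →₀ ℕ} (hμ : Antitone μ) :
    g q m n (ket A μ) = ∑ c ∈ finsuppAntidiag (range m) n, wK q m μ c • ket A (μ + c) := by
  have : ket A μ = Finsupp.single (⟨μ, hμ⟩ : Pt) 1 := ket_coe ⟨μ, hμ⟩
  rw [this, g, Finsupp.linearCombination_single, one_smul]

lemma lin_E (q : A) (m r : ℕ) (φ : (ℕ →₀ ℕ) → A) (v : M A) :
    lin φ (E q m r v) = lin (Eh q m r φ) v := by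
  have : (lin φ).comp (E q m r) = lin (Eh q m r φ) := by
    apply Finsupp.lhom_ext'
    intro μ
    ext1
    simp only [LinearMap.coe_comp, Function.comp_apply, Finsupp.lsingle_apply]
    rw [← ket_coe, lin_ket_of_antitone _ μ.2, E_ket _ _ _ μ.2, map_sum, Eh]
    apply sum_congr rfl
    intro s hs
    rw [map_smul, smul_eq_mul]
    by_cases h : wE q m μ.1 s = 0
    · rw [h, zero_mul, zero_mul]
    · rw [lin_ket_of_antitone _ (antitone_of_wE μ.2 (mem_powersetCard.mp hs).1 h)]
  exact LinearMap.congr_fun this v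

lemma lin_Ep (q : A) (m r : ℕ) (φ : (ℕ →₀ ℕ) → A) (v : M A) :
    lin φ (Ep q m r v) = lin (Eph q m r φ) v := by
  have : (lin φ).comp (Ep q m r) = lin (Eph q m r φ) := by
    apply Finsupp.lhom_ext'
    intro μ
    ext1
    simp only [LinearMap.coe_comp, Function.comp_apply, Finsupp.lsingle_apply]
    rw [← ket_coe, lin_ket_of_antitone _ μ.2, Ep_ket _ _ _ μ.2, map_sum, Eph]
    apply sum_congr rfl
    intro s hs
    rw [map_smul, smul_eq_mul]
    by_cases h : wEp q m μ.1 s = 0
    · rw [h, zero_mul, zero_mul]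
    · rw [lin_ket_of_antitone _ (antitone_of_wEp μ.2 (mem_powersetCard.mp hs).1 h)]
  exact LinearMap.congr_fun this v

lemma lin_g (q : A) (m n : ℕ) (φ : (ℕ →₀ ℕ) → A) (v : M A) :
    lin φ (g q m n v) = lin (gh q m n φ) v := by
  have : (lin φ).comp (g q m n) = lin (gh q m n φ) := by
    apply Finsupp.lhom_ext'
    intro μ
    ext1
    simp only [LinearMap.coe_comp, Function.comp_apply, Finsupp.lsingle_apply]
    rw [← ket_coe, lin_ket_of_antitone _ μ.2, g_ket _ _ _ μ.2, map_sum, gh]
    apply sum_congr rfl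
    intro c hc
    rw [map_smul, smul_eq_mul]
    by_cases h : wK q m μ.1 c = 0
    · rw [h, zero_mul, zero_mul]
    · rw [lin_ket_of_antitone _ (antitone_of_wK μ.2 (mem_finsuppAntidiag.mp hc).2 h)]
  exact LinearMap.congr_fun this v

/-! ### regrouping -/

lemma regroup (m n r : ℕ) (F : (ℕ →₀ ℕ) → Finset ℕ → A) (ψ : (ℕ →₀ ℕ) → A) :
    ∑ c ∈ finsuppAntidiag (range m) n, ∑ s ∈ powersetCard r (range m), F c s * ψ (c + ind s) =
    ∑ a ∈ finsuppAntidiag (range m) (n + r),
      (∑ s ∈ (powersetCard r (range m)).filter (fun s => ind s ≤ a), F (a - ind s) s) * ψ a := by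
  simp only [sum_mul, sum_filter]
  rw [sum_comm]
  conv_rhs => rw [sum_comm]
  apply sum_congr rfl
  intro s hs
  obtain ⟨hs1, hs2⟩ := mem_powersetCard.mp hs
  have hsum : (range m).sum (ind s) = r := by
    simp only [ind_apply, sum_ite_mem, sum_const, smul_eq_mul, mul_one]
    rw [inter_eq_right.mpr hs1, hs2]
  have hsupp : (ind s).support ⊆ range m := by
    intro i hi
    rw [Finsupp.mem_support_iff, ind_apply] at hi
    by_cases h : i ∈ s
    · exact hs1 h
    · simp [h] at hi
  simp only [ite_mul, zero_mul]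
  rw [← sum_filter]
  refine sum_bij' (fun c _ => c + ind s) (fun a _ => a - ind s) ?_ ?_ ?_ ?_ ?_
  · intro c hc
    rw [mem_finsuppAntidiag] at hc
    rw [mem_filter, mem_finsuppAntidiag]
    refine ⟨⟨?_, ?_⟩, ?_⟩
    · simp only [Finsupp.coe_add, Pi.add_apply, sum_add_distrib]
      rw [hc.1, hsum]
    · intro i hi
      have := Finsupp.support_add hi
      rcases mem_union.mp this with h | h
      · exact hc.2 h
      · exact hsupp h
    · intro i
      simp
  · intro a ha
    rw [mem_filter, mem_finsuppAntidiag] at ha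
    obtain ⟨⟨h1, h2⟩, h3⟩ := ha
    rw [mem_finsuppAntidiag]
    constructor
    · have e : a = (a - ind s) + ind s := (tsub_add_cancel_of_le h3).symm
      have : (range m).sum a = (range m).sum (a - ind s : ℕ →₀ ℕ) + (range m).sum (ind s) := by
        conv_lhs => rw [e]
        simp only [Finsupp.coe_add, Pi.add_apply, sum_add_distrib]
      omega
    · intro i hi
      apply h2
      rw [Finsupp.mem_support_iff] at hi ⊢
      simp only [Finsupp.coe_tsub, Pi.sub_apply] at hi
      omega
  · intro c hc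
    simp
  · intro a ha
    rw [mem_filter] at ha
    exact tsub_add_cancel_of_le ha.2
  · intro c hc
    simp

/-- `E_r g_n = g_n E_r` -/
theorem E_g_comm {q : A} (hq : IsNilpotent q) (m r n : ℕ) : E q m r * g q m n = g q m n * E q m r := by
  apply end_ext
  intro φ μ hμ
  rw [Module.End.mul_apply, Module.End.mul_apply, lin_E, lin_g, lin_g, lin_E,
    lin_ket_of_antitone _ hμ, lin_ket_of_antitone _ hμ]
  unfold gh Eh
  simp only [mul_sum]
  rw [sum_comm (s := powersetCard r (range m))]
  have e1 := regroup m n r (fun c s => wK q m μ c * wE q m (μ + c) s) (fun a => φ (μ + a))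
  have e2 := regroup m n r (fun c s => wE q m μ s * wK q m (μ + ind s) c) (fun a => φ (μ + a))
  have e3 : ∑ c ∈ finsuppAntidiag (range m) n, ∑ s ∈ powersetCard r (range m),
      wK q m μ c * (wE q m (μ + c) s * φ (μ + c + ind s)) =
      ∑ c ∈ finsuppAntidiag (range m) n, ∑ s ∈ powersetCard r (range m),
      wK q m μ c * wE q m (μ + c) s * φ (μ + (c + ind s)) := by
    apply sum_congr rfl; intro c _; apply sum_congr rfl; intro s _
    rw [add_assoc]; ring
  have e4 : ∑ c ∈ finsuppAntidiag (range m) n, ∑ s ∈ powersetCard r (range m),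
      wE q m μ s * (wK q m (μ + ind s) c * φ (μ + ind s + c)) =
      ∑ c ∈ finsuppAntidiag (range m) n, ∑ s ∈ powersetCard r (range m),
      wE q m μ s * wK q m (μ + ind s) c * φ (μ + (c + ind s)) := by
    apply sum_congr rfl; intro c _; apply sum_congr rfl; intro s _
    rw [add_assoc, add_comm (ind s) c]; ring
  rw [e3, e4, e1, e2]
  apply sum_congr rfl
  intro a ha
  congr 1
  apply kernel_comm hq m r hμ a
  by_contra h
  have := mem_range.mp ((mem_finsuppAntidiag.mp ha).2 (Finsupp.mem_support_iff.mpr h))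
  omega

end MP4905

end

section

open Finset

namespace MP4905

universe u

variable {A : Type u} [CommRing A]

/-- homogeneous Rogers-Szegő polynomials `∑_c [n choose c]_q s^c t^(n-c)` -/
def RS2 (q s t : A) (n : ℕ) : A := ∑ c ∈ range (n + 1), gb q n c * s ^ c * t ^ (n - c)

/-- `∑_c [n choose c]_{p²} y^c p^{(a+c)²}` -/
def SS (p y : A) (a : ℤ) (n : ℕ) : A :=
  ∑ c ∈ range (n + 1), gb (p ^ 2) n c * y ^ c * p ^ ((a + c).natAbs ^ 2)

/-- `∑_{c<B} y^c p^{(a+c)²}/(p²;p²)_c` -/
noncomputable def FF (p y : A) (B : ℕ) (a : ℤ) : A :=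
  ∑ c ∈ range B, iq (p ^ 2) c * y ^ c * p ^ ((a + c).natAbs ^ 2)

/-- the functional `L♭` on `2k` columns: `p^{μ_0 - μ_1 + μ_2 - ⋯ - μ_{2k-1}}` -/
def Lbf (p : A) (k : ℕ) (μ : ℕ →₀ ℕ) : A := ∏ i ∈ range k, p ^ (μ (2 * i) - μ (2 * i + 1))

/-- the functional `W_m(μ) = ∏_{i<m-1} (-p;p)_{μ_i - μ_{i+1}}` -/
def Wf (p : A) (m : ℕ) (μ : ℕ →₀ ℕ) : A :=
  ∏ i ∈ range (m - 1), ∏ j ∈ range (μ i - μ (i + 1)), (1 + p ^ (j + 1))

/-- the functionals `φ_z` with `φ_0 = L♭` -/
def phz (q p : A) (k : ℕ) (z : A) (μ : ℕ →₀ ℕ) : A :=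
  ∏ i ∈ range k, (RS2 q z p (μ (2 * i) - μ (2 * i + 1)) *
    RS2 q (z * p) 1 (μ (2 * i + 1) - μ (2 * i + 2)))

/-- product of `g`'s -/
noncomputable def Gop (q : A) (m : ℕ) {k : ℕ} (n : Fin k → ℕ) : Module.End A (M A) :=
  (List.ofFn fun i => g q m (n i)).prod

/-- product of `K`'s -/
noncomputable def Kop (q : A) (m : ℕ) {k : ℕ} (y : Fin k → A) : Module.End A (M A) :=
  (List.ofFn fun i => K q m (y i)).prod

/-! families indexed by exponents `n : Fin k → ℕ` with values in an `A`-module -/

variable {X : Type*} [AddCommGroup X] [Module A X]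

/-- multiplication by the variable `i` on families of coefficients -/
def theta {k : ℕ} (i : Fin k) (F : (Fin k → ℕ) → X) (n : Fin k → ℕ) : X :=
  if n i = 0 then 0 else F (Function.update n i (n i - 1))

/-- multiplication by `1 - z y_i y_j` on families of coefficients -/
def dop {k : ℕ} (z : A) (i j : Fin k) (F : (Fin k → ℕ) → X) (n : Fin k → ℕ) : X :=
  F n - z • theta i (theta j F) n

/-- multiplication by `∏ (1 - z y_i y_j)` over a list of triples `(z,i,j)` -/
def Dl {k : ℕ} (l : List (A × Fin k × Fin k)) (F : (Fin k → ℕ) → X) : (Fin k → ℕ) → X :=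
  l.foldr (fun t F => dop t.1 t.2.1 t.2.2 F) F

/-- truncated generating function -/
def gen {k : ℕ} (B : ℕ) (y : Fin k → A) (F : (Fin k → ℕ) → X) : X :=
  ∑ n ∈ Fintype.piFinset (fun _ : Fin k => range B), (∏ i, y i ^ n i) • F n

/-- all elements of the form `E_r w - E_{m-r} w`, `r ≤ m` -/
noncomputable def Null (q : A) (m : ℕ) : Submodule A (M A) :=
  Submodule.span A {v | ∃ (r : ℕ) (w : M A), r ≤ m ∧ v = E q m r w - E q m (m - r) w}

end MP4905

end

section

open Finset

namespace MP4905

universe u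

variable {A : Type u} [CommRing A]

def scale0 (u : A) (s0 : Bool → A) : Bool → A
  | false => s0 false
  | true => u * s0 true

def scaleT (u : A) (T : ℕ → Bool → Bool → A) (i : ℕ) : Bool → Bool → A
  | b, false => T i b false
  | b, true => u * T i b true

lemma wt_scale (u : A) (s0 : Bool → A) (T : ℕ → Bool → Bool → A) (m : ℕ) (s : Finset ℕ) :
    wt (scale0 u s0) (scaleT u T) m s =
      u ^ (((range (m + 1)).filter (fun i => i ∈ s)).card) * wt s0 T m s := by
  induction m with
  | zero =>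
    by_cases h : 0 ∈ s
    · simp [wt, scale0, h, filter_singleton]
    · simp [wt, scale0, h, filter_singleton]
  | succ m ih =>
    rw [wt_succ, ih, wt_succ, range_add_one (n := m + 1), filter_insert]
    by_cases h : m + 1 ∈ s
    · rw [if_pos h, card_insert_of_notMem (by simp)]
      simp only [h, decide_true, scaleT, pow_succ]
      ring
    · rw [if_neg h]
      simp only [h, decide_false, scaleT]
      ring

lemma wt_scale' (u : A) (s0 : Bool → A) (T : ℕ → Bool → Bool → A) (m : ℕ) {s : Finset ℕ}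
    (hs : s ⊆ range m) :
    wt (scale0 u s0) (scaleT u T) m s = u ^ s.card * wt s0 T m s := by
  rw [wt_scale]
  have e : (range (m + 1)).filter (fun i => i ∈ s) = s := by
    ext i
    simp only [mem_filter, mem_range, and_iff_right_iff_imp]
    intro h
    have := mem_range.mp (hs h)
    omega
  rw [e]

lemma kernel_inv {q : A} (hq : IsNilpotent q) (m : ℕ) {μ : ℕ →₀ ℕ} (hμ : Antitone μ)
    (a : ℕ →₀ ℕ) :
    ∑ s ∈ (powerset (range m)).filter (fun s => ind s ≤ a),
      (-1) ^ s.card * (wK q m μ (a - ind s) * wE q m (μ + (a - ind s)) s) =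
    q ^ ((range m).sum a) * wK q m μ a := by
  have e1 : ∑ s ∈ (powerset (range m)).filter (fun s => ind s ≤ a),
      (-1) ^ s.card * (wK q m μ (a - ind s) * wE q m (μ + (a - ind s)) s) =
      ∑ s ∈ (powerset (range m)).filter (fun s => ind s ≤ a),
        Cst q m μ a * wt (sEK (-1) (aSeq q a)) (TEK (-1) (aSeq q a) (gSeq q μ a)) m s := by
    apply sum_congr rfl
    intro s hs
    obtain ⟨h1, h2⟩ := mem_filter.mp hs
    rw [EK_term hq m hμ a s h2]
    have e0 : sEK (-1) (aSeq q a) = scale0 (-1) (sEK 1 (aSeq q a)) := by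
      funext b; cases b <;> simp [scale0, sEK]
    have e1 : TEK (-1) (aSeq q a) (gSeq q μ a) = scaleT (-1) (TEK 1 (aSeq q a) (gSeq q μ a)) := by
      funext i b b'
      cases b <;> cases b' <;> simp [scaleT, TEK]
      ring
    rw [e0, e1, wt_scale' _ _ _ _ (mem_powerset.mp h1)]
    ring
  rw [e1, ← mul_sum, sum_filter_of_ne, (transfer _ _ _).1, (fold_inv _ _ m).2, prod_mul_distrib]
  · have e2 : ∏ i ∈ range m, aSeq q a i = q ^ ((range m).sum a) := by
      simp only [aSeq, prod_pow_eq_pow_sum]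
    rw [e2]
    have e3 : wK q m μ a = Cst q m μ a * ∏ i ∈ range m, (1 - gSeq q μ a i) := by
      unfold wK Cst
      rw [mul_assoc, ← prod_mul_distrib]
      congr 1
      apply prod_congr rfl
      intro i _
      rw [J_gb hq]
      rfl
    rw [e3]; ring
  · intro s hs h
    by_contra hc
    apply h
    rw [ind_le_iff] at hc
    push Not at hc
    obtain ⟨i, hi, hai⟩ := hc
    have hai : a i = 0 := by omega
    unfold wt
    cases i with
    | zero => simp [hi, sEK, aSeq, hai]
    | succ i =>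
      have : i + 1 < m := mem_range.mp (mem_powerset.mp hs hi)
      rw [prod_eq_zero (mem_range.mpr (show i < m by omega)), mul_zero]
      have : ∀ b, TEK (-1) (aSeq q a) (gSeq q μ a) i b true = 0 := by
        intro b; cases b <;> simp [TEK, aSeq, hai]
      simp [hi, this]

/-- `∑_{r+n=D} (-1)^r E_r g_n = q^D g_D` -/
theorem E_g_inv {q : A} (hq : IsNilpotent q) (m D : ℕ) :
    ∑ r ∈ range (D + 1), ((-1 : A) ^ r) • (E q m r * g q m (D - r)) = q ^ D • g q m D := by
  apply end_ext
  intro φ μ hμ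
  rw [LinearMap.sum_apply, map_sum, LinearMap.smul_apply, map_smul, lin_g,
    lin_ket_of_antitone _ hμ]
  have e1 : ∀ r ∈ range (D + 1), lin φ (((-1 : A) ^ r • (E q m r * g q m (D - r))) (ket A μ)) =
      ∑ a ∈ finsuppAntidiag (range m) D,
      (∑ s ∈ (powersetCard r (range m)).filter (fun s => ind s ≤ a),
        (-1) ^ r * (wK q m μ (a - ind s) * wE q m (μ + (a - ind s)) s)) * φ (μ + a) := by
    intro r hr
    have hr' : r ≤ D := by have := mem_range.mp hr; omega
    rw [LinearMap.smul_apply, map_smul, Module.End.mul_apply, lin_E, lin_g,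
      lin_ket_of_antitone _ hμ]
    unfold gh Eh
    have e1 := regroup m (D - r) r (fun c s => wK q m μ c * wE q m (μ + c) s)
      (fun a => φ (μ + a))
    rw [Nat.sub_add_cancel hr'] at e1
    have e3 : ∑ c ∈ finsuppAntidiag (range m) (D - r), wK q m μ c *
        ∑ s ∈ powersetCard r (range m), (wE q m (μ + c) s * φ (μ + c + ind s)) =
        ∑ c ∈ finsuppAntidiag (range m) (D - r), ∑ s ∈ powersetCard r (range m),
        wK q m μ c * wE q m (μ + c) s * φ (μ + (c + ind s)) := by
      apply sum_congr rfl; intro c _; rw [mul_sum]; apply sum_congr rfl; intro s _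
      rw [add_assoc]; ring
    rw [e3, e1, smul_eq_mul, mul_sum]
    apply sum_congr rfl
    intro a _
    rw [← mul_sum]
    ring
  rw [sum_congr rfl e1, sum_comm]
  unfold gh
  rw [smul_eq_mul, mul_sum]
  apply sum_congr rfl
  intro a ha
  obtain ⟨ha1, ha2⟩ := mem_finsuppAntidiag.mp ha
  rw [← sum_mul]
  have e4 := kernel_inv hq m hμ a
  rw [ha1] at e4
  rw [← mul_assoc, ← e4]
  congr 1
  rw [← sum_fiberwise_of_maps_to (s := (powerset (range m)).filter (fun s => ind s ≤ a))
    (t := range (D + 1)) (g := fun s => s.card)]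
  · apply sum_congr rfl
    intro r _
    have : ((powerset (range m)).filter (fun s => ind s ≤ a)).filter (fun s => s.card = r) =
        (powersetCard r (range m)).filter (fun s => ind s ≤ a) := by
      ext s
      simp only [mem_filter, mem_powerset, mem_powersetCard]
      tauto
    rw [this]
    apply sum_congr rfl
    intro s hs
    rw [(mem_powersetCard.mp (mem_filter.mp hs).1).2]
  · intro s hs
    obtain ⟨h1, h2⟩ := mem_filter.mp hs
    have h3 : s.card = (range m).sum (ind s) := by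
      simp only [ind_apply, sum_ite_mem, sum_const, smul_eq_mul, mul_one]
      rw [inter_eq_right.mpr (mem_powerset.mp h1)]
    have h4 : (range m).sum (ind s) ≤ (range m).sum a := sum_le_sum (fun i _ => h2 i)
    exact mem_range.mpr (by omega)

/-! ### the operators `Ex`, `K` -/

lemma E_zero (q : A) (m : ℕ) : E q m 0 = 1 := by
  apply end_ext
  intro φ μ hμ
  rw [E_ket _ _ _ hμ]
  have : (ind ∅ : ℕ →₀ ℕ) = 0 := by ext i; simp
  simp [this, wE]

lemma E_eq_zero (q : A) {m r : ℕ} (h : m < r) : E q m r = 0 := by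
  apply end_ext
  intro φ μ hμ
  rw [E_ket _ _ _ hμ, powersetCard_eq_empty.mpr (by simpa using h)]
  simp

lemma g_zero (q : A) (m : ℕ) : g q m 0 = 1 := by
  apply end_ext
  intro φ μ hμ
  rw [g_ket _ _ _ hμ]
  simp [wK]

lemma Ep_zero (q : A) (m : ℕ) : Ep q m 0 = 1 := by
  apply end_ext
  intro φ μ hμ
  rw [Ep_ket _ _ _ hμ]
  have : (ind ∅ : ℕ →₀ ℕ) = 0 := by ext i; simp
  simp [this, wEp]

lemma Ex_eq (q : A) (m : ℕ) (x : A) {N : ℕ} (hN : m + 1 ≤ N) :
    Ex q m x = ∑ r ∈ range N, x ^ r • E q m r := by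
  unfold Ex
  apply sum_subset (range_subset_range.mpr hN)
  intro r _ hr
  rw [E_eq_zero q (by simpa using hr), smul_zero]

lemma K_eq (q : A) (m : ℕ) {y : A} {N : ℕ} (hN : y ^ N = 0) :
    K q m y = ∑ n ∈ range N, y ^ n • g q m n := by
  unfold K
  have hy : IsNilpotent y := ⟨N, hN⟩
  have h1 : nilpotencyClass y ≤ N := by
    unfold nilpotencyClass
    exact Nat.sInf_le hN
  apply sum_subset (range_subset_range.mpr h1)
  intro n _ hn
  have hn' : nilpotencyClass y ≤ n := by simpa using hn
  have : y ^ n = 0 := pow_eq_zero_of_le hn' (pow_nilpotencyClass' hy)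
  rw [this, zero_smul]

lemma K_zero (q : A) (m : ℕ) : K q m 0 = 1 := by
  rw [K_eq q m (N := 1) (by simp)]
  simp [g_zero]

lemma sum_triangle {X : Type*} [AddCommMonoid X] (N : ℕ) (f : ℕ → ℕ → X)
    (hf : ∀ r n, N ≤ r + n → f r n = 0) :
    ∑ r ∈ range N, ∑ n ∈ range N, f r n = ∑ D ∈ range N, ∑ r ∈ range (D + 1), f r (D - r) := by
  rw [sum_sigma', sum_sigma']
  rw [← sum_filter_of_ne (p := fun x : (_ : ℕ) × ℕ => x.1 + x.2 < N)]
  · refine sum_bij' (fun x _ => ⟨x.1 + x.2, x.1⟩) (fun x _ => ⟨x.2, x.1 - x.2⟩) ?_ ?_ ?_ ?_ ?_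
    · intro x hx
      simp only [mem_filter, mem_sigma, mem_range] at hx ⊢
      omega
    · intro x hx
      simp only [mem_filter, mem_sigma, mem_range] at hx ⊢
      omega
    · rintro ⟨a, b⟩ hx
      simp
    · rintro ⟨a, b⟩ hx
      simp only [mem_sigma, mem_range] at hx
      simp only [Sigma.mk.injEq, heq_eq_eq, and_true]
      omega
    · rintro ⟨a, b⟩ hx
      simp
  · rintro ⟨a, b⟩ _ h
    by_contra hc
    exact h (hf a b (by simpa using hc))

lemma Commute_E_g {q : A} (hq : IsNilpotent q) (m r n : ℕ) : Commute (E q m r) (g q m n) :=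
  E_g_comm hq m r n

lemma Commute_E_K {q : A} (hq : IsNilpotent q) (m r : ℕ) (y : A) :
    Commute (E q m r) (K q m y) := by
  unfold K
  exact Commute.sum_right _ _ _ (fun n _ => (Commute_E_g hq m r n).smul_right _)

lemma Commute_Ex_K {q : A} (hq : IsNilpotent q) (m : ℕ) (x y : A) :
    Commute (Ex q m x) (K q m y) := by
  unfold Ex
  exact Commute.sum_left _ _ _ (fun r _ => (Commute_E_K hq m r y).smul_left _)

lemma Commute_Ex_g {q : A} (hq : IsNilpotent q) (m : ℕ) (x : A) (n : ℕ) :
    Commute (Ex q m x) (g q m n) := by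
  unfold Ex
  exact Commute.sum_left _ _ _ (fun r _ => (Commute_E_g hq m r n).smul_left _)

/-- `E(-y) K(y) = K(q y)` -/
theorem Ex_mul_K {q : A} (hq : IsNilpotent q) (m : ℕ) {y : A} (hy : IsNilpotent y) :
    Ex q m (-y) * K q m y = K q m (q * y) := by
  obtain ⟨B, hB⟩ := hy
  set N := max B (m + 1) with hN
  have hyN : y ^ N = 0 := pow_eq_zero_of_le (le_max_left _ _) hB
  have hqyN : (q * y) ^ N = 0 := by rw [mul_pow, hyN, mul_zero]
  rw [Ex_eq q m (-y) (le_max_right B (m + 1)), K_eq q m hyN, K_eq q m hqyN, ← hN, sum_mul_sum]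
  rw [sum_triangle N (fun r n => (-y) ^ r • E q m r * y ^ n • g q m n)]
  · apply sum_congr rfl
    intro D _
    rw [mul_pow, mul_comm, mul_smul, ← E_g_inv hq m D, smul_sum]
    apply sum_congr rfl
    intro r hr
    have hr' : r ≤ D := by have := mem_range.mp hr; omega
    rw [smul_mul_smul_comm, smul_smul]
    congr 1
    rw [neg_pow, mul_assoc, ← pow_add, Nat.add_sub_cancel' hr', mul_comm]
  · intro r n hrn
    rw [smul_mul_smul_comm, neg_pow, mul_assoc, ← pow_add, pow_eq_zero_of_le hrn hyN, mul_zero,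
      zero_smul]

theorem K_mul_Ex {q : A} (hq : IsNilpotent q) (m : ℕ) {y : A} (hy : IsNilpotent y) :
    K q m y * Ex q m (-y) = K q m (q * y) := by
  rw [← Ex_mul_K hq m hy]
  exact (Commute_Ex_K hq m _ _).eq.symm

/-- `Φ = ∏_{j<L} E(p q^j)` -/
noncomputable def Phi (q p : A) (m L : ℕ) : Module.End A (M A) :=
  ((List.range L).map (fun j => Ex q m (p * q ^ j))).prod

lemma Phi_succ (q p : A) (m L : ℕ) : Phi q p m (L + 1) = Phi q p m L * Ex q m (p * q ^ L) := by
  simp [Phi, List.range_succ]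

lemma K_mul_Phi {q : A} (hq : IsNilpotent q) {p : A} (hp : IsNilpotent p) (m L : ℕ) :
    K q m (-p) * Phi q p m L = K q m (-(p * q ^ L)) := by
  induction L with
  | zero => simp [Phi]
  | succ L ih =>
    rw [Phi_succ, ← mul_assoc, ih]
    have hy : IsNilpotent (-(p * q ^ L)) := by
      obtain ⟨n, hn⟩ := hp
      exact IsNilpotent.neg ⟨n, by rw [mul_pow, hn, zero_mul]⟩
    have := K_mul_Ex hq m hy
    rw [neg_neg] at this
    rw [this]
    congr 1
    rw [pow_succ]; ring

lemma K_mul_Phi_eq_one {q : A} (hq : IsNilpotent q) {p : A} (hp : IsNilpotent p) (m : ℕ) {L : ℕ}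
    (hL : p * q ^ L = 0) : K q m (-p) * Phi q p m L = 1 := by
  rw [K_mul_Phi hq hp, hL, neg_zero, K_zero]

lemma Commute_Phi_K {q : A} (hq : IsNilpotent q) (p : A) (m L : ℕ) (y : A) :
    Commute (Phi q p m L) (K q m y) := by
  induction L with
  | zero => simp [Phi]
  | succ L ih => rw [Phi_succ]; exact ih.mul_left (Commute_Ex_K hq m _ _)

lemma Commute_Phi_g {q : A} (hq : IsNilpotent q) (p : A) (m L n : ℕ) :
    Commute (Phi q p m L) (g q m n) := by
  induction L with
  | zero => simp [Phi]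
  | succ L ih => rw [Phi_succ]; exact ih.mul_left (Commute_Ex_g hq m _ _)

lemma Phi_mul_K_eq_one {q : A} (hq : IsNilpotent q) {p : A} (hp : IsNilpotent p) (m : ℕ) {L : ℕ}
    (hL : p * q ^ L = 0) : Phi q p m L * K q m (-p) = 1 := by
  rw [(Commute_Phi_K hq p m L _).eq, K_mul_Phi_eq_one hq hp m hL]

lemma Commute_Phi_E {q : A} (hq : IsNilpotent q) {p : A} (hp : IsNilpotent p) (m : ℕ) {L : ℕ}
    (hL : p * q ^ L = 0) (r : ℕ) : Commute (Phi q p m L) (E q m r) := by
  have h1 := K_mul_Phi_eq_one hq hp m hL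
  have h2 := Phi_mul_K_eq_one hq hp m hL
  have h3 := (Commute_E_K hq m r (-p)).eq
  show Phi q p m L * E q m r = E q m r * Phi q p m L
  calc Phi q p m L * E q m r = Phi q p m L * E q m r * (K q m (-p) * Phi q p m L) := by
        rw [h1, mul_one]
    _ = Phi q p m L * (E q m r * K q m (-p)) * Phi q p m L := by simp only [mul_assoc]
    _ = (Phi q p m L * K q m (-p)) * E q m r * Phi q p m L := by rw [h3]; simp only [mul_assoc]
    _ = _ := by rw [h2, one_mul]

lemma Commute_K_g {q : A} (hq : IsNilpotent q) {p : A} (hp : IsNilpotent p) (m : ℕ) {L : ℕ}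
    (hL : p * q ^ L = 0) (n : ℕ) : Commute (K q m (-p)) (g q m n) := by
  have h1 := K_mul_Phi_eq_one hq hp m hL
  have h2 := Phi_mul_K_eq_one hq hp m hL
  have h3 := (Commute_Phi_g hq p m L n).eq
  show K q m (-p) * g q m n = g q m n * K q m (-p)
  calc K q m (-p) * g q m n = K q m (-p) * g q m n * (Phi q p m L * K q m (-p)) := by
        rw [h2, mul_one]
    _ = K q m (-p) * (g q m n * Phi q p m L) * K q m (-p) := by simp only [mul_assoc]
    _ = (K q m (-p) * Phi q p m L) * g q m n * K q m (-p) := by rw [← h3]; simp only [mul_assoc]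
    _ = _ := by rw [h1, one_mul]

end MP4905

end

section

open Finset

namespace MP4905

universe u

variable {A : Type u} [CommRing A]

theorem exists_univ (A : Type u) [CommRing A] (k B : ℕ) :
    ∃ (U : Type u) (_ : CommRing U) (f : A →+* U) (y : Fin k → U), (∀ i, y i ^ B = 0) ∧
      ∀ F F' : (Fin k → ℕ) → A,
        gen B y (fun n => f (F n)) = gen B y (fun n => f (F' n)) →
        ∀ n, (∀ i, n i < B) → F n = F' n := by
  classical
  set S : Set (Fin k →₀ ℕ) := {s | ∃ i, s = Finsupp.single i B} with hS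
  set I : Ideal (MvPolynomial (Fin k) A) :=
    Ideal.span ((fun s => MvPolynomial.monomial s (1 : A)) '' S) with hI
  refine ⟨MvPolynomial (Fin k) A ⧸ I, inferInstance,
    (Ideal.Quotient.mk I).comp MvPolynomial.C, fun i => Ideal.Quotient.mk I (MvPolynomial.X i),
    ?_, ?_⟩
  · intro i
    rw [← map_pow, Ideal.Quotient.eq_zero_iff_mem, MvPolynomial.X_pow_eq_monomial]
    exact Ideal.subset_span ⟨Finsupp.single i B, ⟨i, rfl⟩, rfl⟩
  · intro F F' h n hn
    by_contra hne
    have key : ∀ G : (Fin k → ℕ) → A,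
        gen B (fun i => Ideal.Quotient.mk I (MvPolynomial.X i))
          (fun n => ((Ideal.Quotient.mk I).comp MvPolynomial.C) (G n)) =
        Ideal.Quotient.mk I (∑ n ∈ Fintype.piFinset (fun _ : Fin k => range B),
          MvPolynomial.monomial (Finsupp.equivFunOnFinite.symm n) (G n)) := by
      intro G
      rw [gen, map_sum]
      refine Finset.sum_congr rfl fun m _ => ?_
      rw [smul_eq_mul, MvPolynomial.monomial_eq, map_mul, mul_comm, RingHom.comp_apply]
      congr 1
      rw [Finsupp.prod_fintype _ _ (by intro i; exact pow_zero _), map_prod]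
      refine Finset.prod_congr rfl fun i _ => ?_
      rw [map_pow]
      rfl
    rw [key, key, Ideal.Quotient.eq, ← Finset.sum_sub_distrib, hI,
      MvPolynomial.mem_ideal_span_monomial_image] at h
    have hmem : n ∈ Fintype.piFinset (fun _ : Fin k => range B) := by
      rw [Fintype.mem_piFinset]
      intro i
      exact Finset.mem_range.2 (hn i)
    have hsupp : Finsupp.equivFunOnFinite.symm n ∈
        (∑ n ∈ Fintype.piFinset (fun _ : Fin k => range B),
          (MvPolynomial.monomial (Finsupp.equivFunOnFinite.symm n) (F n) -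
            MvPolynomial.monomial (Finsupp.equivFunOnFinite.symm n) (F' n))).support := by
      rw [MvPolynomial.mem_support_iff, MvPolynomial.coeff_sum]
      rw [Finset.sum_eq_single n]
      · rw [MvPolynomial.coeff_sub, MvPolynomial.coeff_monomial, MvPolynomial.coeff_monomial,
          if_pos rfl, if_pos rfl]
        exact sub_ne_zero.2 hne
      · intro m _ hm
        rw [MvPolynomial.coeff_sub, MvPolynomial.coeff_monomial, MvPolynomial.coeff_monomial,
          if_neg, if_neg, sub_zero]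
        · intro h; exact hm (Finsupp.equivFunOnFinite.symm.injective h)
        · intro h; exact hm (Finsupp.equivFunOnFinite.symm.injective h)
      · intro h; exact absurd hmem h
    obtain ⟨s, ⟨i, rfl⟩, hle⟩ := h _ hsupp
    have := hle i
    rw [Finsupp.single_eq_same] at this
    exact absurd (hn i) (not_lt.2 this)

variable {X : Type*} [AddCommGroup X] [Module A X]

theorem gen_add {k : ℕ} (B : ℕ) (y : Fin k → A) (F G : (Fin k → ℕ) → X) :
    gen B y (F + G) = gen B y F + gen B y G := by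
  simp only [gen, Pi.add_apply, smul_add, Finset.sum_add_distrib]

theorem gen_sub {k : ℕ} (B : ℕ) (y : Fin k → A) (F G : (Fin k → ℕ) → X) :
    gen B y (fun n => F n - G n) = gen B y F - gen B y G := by
  simp only [gen, smul_sub, Finset.sum_sub_distrib]

theorem gen_smul {k : ℕ} (B : ℕ) (y : Fin k → A) (z : A) (F : (Fin k → ℕ) → X) :
    gen B y (fun n => z • F n) = z • gen B y F := by
  simp only [gen, Finset.smul_sum]
  exact Finset.sum_congr rfl fun n _ => smul_comm _ _ _

theorem prod_update {k : ℕ} (y : Fin k → A) (n : Fin k → ℕ) (i : Fin k) (m : ℕ) :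
    ∏ j, y j ^ (Function.update n i m) j = y i ^ m * ∏ j ∈ Finset.univ.erase i, y j ^ n j := by
  classical
  rw [← Finset.mul_prod_erase Finset.univ _ (Finset.mem_univ i), Function.update_self]
  congr 1
  refine Finset.prod_congr rfl fun j hj => ?_
  rw [Function.update_of_ne (Finset.ne_of_mem_erase hj)]

theorem gen_theta {k : ℕ} (B : ℕ) (y : Fin k → A) (i : Fin k) (hy : y i ^ B = 0)
    (F : (Fin k → ℕ) → X) :
    gen B y (theta i F) = y i • gen B y F := by
  classical
  have e1 : gen B y (theta i F) =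
      ∑ n ∈ (Fintype.piFinset (fun _ : Fin k => range B)).filter (fun n => n i ≠ 0),
        (∏ j, y j ^ n j) • F (Function.update n i (n i - 1)) := by
    rw [gen, Finset.sum_filter]
    refine Finset.sum_congr rfl fun n _ => ?_
    by_cases h : n i = 0
    · rw [theta, if_pos h, if_neg (not_not.2 h), smul_zero]
    · rw [theta, if_neg h, if_pos h]
  have e2 : y i • gen B y F =
      ∑ n ∈ (Fintype.piFinset (fun _ : Fin k => range B)).filter (fun n => n i + 1 < B),
        (y i * ∏ j, y j ^ n j) • F n := by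
    rw [gen, Finset.smul_sum, Finset.sum_filter]
    refine Finset.sum_congr rfl fun n hn => ?_
    by_cases h : n i + 1 < B
    · rw [if_pos h, mul_smul]
    · rw [if_neg h]
      have hB : n i + 1 = B := by
        have := Finset.mem_range.1 (Fintype.mem_piFinset.1 hn i)
        omega
      rw [← mul_smul]
      have : y i * ∏ j, y j ^ n j = 0 := by
        rw [← Finset.mul_prod_erase Finset.univ _ (Finset.mem_univ i), ← mul_assoc,
          ← pow_succ', hB, hy, zero_mul]
      rw [this, zero_smul]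
  rw [e1, e2]
  refine Finset.sum_bij' (fun n _ => Function.update n i (n i - 1))
    (fun n _ => Function.update n i (n i + 1)) ?_ ?_ ?_ ?_ ?_
  · intro n hn
    rw [Finset.mem_filter, Fintype.mem_piFinset] at hn ⊢
    obtain ⟨h1, h2⟩ := hn
    have h3 := Finset.mem_range.1 (h1 i)
    refine ⟨fun j => ?_, ?_⟩
    · by_cases hj : j = i
      · subst hj; rw [Function.update_self, Finset.mem_range]; omega
      · rw [Function.update_of_ne hj]; exact h1 j
    · rw [Function.update_self]; omega
  · intro n hn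
    rw [Finset.mem_filter, Fintype.mem_piFinset] at hn ⊢
    obtain ⟨h1, h2⟩ := hn
    refine ⟨fun j => ?_, ?_⟩
    · by_cases hj : j = i
      · subst hj; rw [Function.update_self, Finset.mem_range]; omega
      · rw [Function.update_of_ne hj]; exact h1 j
    · rw [Function.update_self]; omega
  · intro n hn
    rw [Finset.mem_filter] at hn
    obtain ⟨h1, h2⟩ := hn
    rw [Function.update_idem, Function.update_self, Nat.sub_add_cancel (Nat.pos_of_ne_zero h2),
      Function.update_eq_self]
  · intro n hn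
    rw [Function.update_idem, Function.update_self, Nat.add_sub_cancel, Function.update_eq_self]
  · intro n hn
    rw [Finset.mem_filter] at hn
    obtain ⟨h1, h2⟩ := hn
    congr 1
    rw [prod_update, ← mul_assoc, ← pow_succ', Nat.sub_add_cancel (Nat.pos_of_ne_zero h2),
      Finset.mul_prod_erase Finset.univ (fun j => y j ^ n j) (Finset.mem_univ i)]

theorem gen_dop {k : ℕ} (B : ℕ) (y : Fin k → A) (hy : ∀ i, y i ^ B = 0) (z : A) (i j : Fin k)
    (F : (Fin k → ℕ) → X) :
    gen B y (dop z i j F) = (1 - z * (y i * y j)) • gen B y F := by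
  have : dop z i j F = fun n => F n - (fun n => z • theta i (theta j F) n) n := rfl
  rw [this, gen_sub, gen_smul, gen_theta B y i (hy i), gen_theta B y j (hy j), sub_smul, one_smul,
    mul_smul, mul_smul]

theorem gen_Dl {k : ℕ} (B : ℕ) (y : Fin k → A) (hy : ∀ i, y i ^ B = 0)
    (l : List (A × Fin k × Fin k)) (F : (Fin k → ℕ) → X) :
    gen B y (Dl l F) = (l.map (fun t => 1 - t.1 * (y t.2.1 * y t.2.2))).prod • gen B y F := by
  induction l with
  | nil => simp [Dl]
  | cons t l ih =>
    have : Dl (t :: l) F = dop t.1 t.2.1 t.2.2 (Dl l F) := rfl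
    rw [this, gen_dop B y hy, ih, List.map_cons, List.prod_cons, mul_smul]

section maps

variable {X' : Type*} [AddCommGroup X'] [Module A X']

theorem theta_map {k : ℕ} (i : Fin k) (φ : X →+ X') (F : (Fin k → ℕ) → X) :
    (fun n => φ (theta i F n)) = theta i (fun n => φ (F n)) := by
  funext n
  simp only [theta]
  split_ifs
  · exact map_zero φ
  · rfl

theorem dop_map {k : ℕ} (z : A) (i j : Fin k) (φ : X →ₗ[A] X') (F : (Fin k → ℕ) → X) :
    (fun n => φ (dop z i j F n)) = dop z i j (fun n => φ (F n)) := by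
  funext n
  simp only [dop, map_sub, map_smul]
  congr 2
  have h1 := congrFun (theta_map i (φ : X →ₗ[A] X').toAddMonoidHom (theta j F)) n
  have h2 := theta_map j (φ : X →ₗ[A] X').toAddMonoidHom F
  simp only [LinearMap.toAddMonoidHom_coe] at h1 h2
  rw [h1, h2]

theorem Dl_map {k : ℕ} (l : List (A × Fin k × Fin k)) (φ : X →ₗ[A] X') (F : (Fin k → ℕ) → X) :
    (fun n => φ (Dl l F n)) = Dl l (fun n => φ (F n)) := by
  induction l with
  | nil => rfl
  | cons t l ih =>
    have h1 : Dl (t :: l) F = dop t.1 t.2.1 t.2.2 (Dl l F) := rfl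
    have h2 : Dl (t :: l) (fun n => φ (F n)) = dop t.1 t.2.1 t.2.2 (Dl l (fun n => φ (F n))) := rfl
    rw [h1, h2, dop_map, ih]

end maps

theorem Dl_ringHom {A' : Type*} [CommRing A'] (f : A →+* A') {k : ℕ}
    (l : List (A × Fin k × Fin k)) (F : (Fin k → ℕ) → A) (n : Fin k → ℕ) :
    f (Dl l F n) = Dl (l.map (fun t => (f t.1, t.2))) (fun n => f (F n)) n := by
  have key : (fun n => f (Dl l F n)) = Dl (l.map (fun t => (f t.1, t.2))) (fun n => f (F n)) := by
    induction l with
    | nil => rfl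
    | cons t l ih =>
      have h1 : Dl (t :: l) F = dop t.1 t.2.1 t.2.2 (Dl l F) := rfl
      have h2 : Dl ((t :: l).map (fun t => (f t.1, t.2))) (fun n => f (F n)) =
        dop (f t.1) t.2.1 t.2.2 (Dl (l.map (fun t => (f t.1, t.2))) (fun n => f (F n))) := rfl
      rw [h1, h2, ← ih]
      funext n
      simp only [dop, map_sub, smul_eq_mul, map_mul]
      congr 2
      have h3 := congrFun (theta_map t.2.1 (f : A →+* A').toAddMonoidHom
        (theta t.2.2 (Dl l F))) n
      have h4 := theta_map t.2.2 (f : A →+* A').toAddMonoidHom (Dl l F)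
      simp only [RingHom.toAddMonoidHom_eq_coe, AddMonoidHom.coe_coe] at h3 h4
      rw [h3, h4]
  exact congrFun key n

theorem Dl_sub_mem {k : ℕ} (l : List (A × Fin k × Fin k)) (F : (Fin k → ℕ) → X)
    (n : Fin k → ℕ) (S : Submodule A X)
    (hS : ∀ n' : Fin k → ℕ, ∑ i, n' i < ∑ i, n i → F n' ∈ S) :
    Dl l F n - F n ∈ S := by
  -- all values of `Dl l F` at exponents of smaller degree lie in `S`
  have hupd : ∀ (m : Fin k → ℕ) (i : Fin k), m i ≠ 0 →
      ∑ j, (Function.update m i (m i - 1)) j < ∑ j, m j := by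
    intro m i hi
    refine Finset.sum_lt_sum (fun j _ => ?_) ⟨i, Finset.mem_univ i, ?_⟩
    · by_cases hj : j = i
      · subst hj; rw [Function.update_self]; omega
      · rw [Function.update_of_ne hj]
    · rw [Function.update_self]; omega
  have hth : ∀ (G : (Fin k → ℕ) → X) (N : ℕ), (∀ m : Fin k → ℕ, ∑ i, m i < N → G m ∈ S) →
      ∀ (i : Fin k) (m : Fin k → ℕ), ∑ i, m i < N + 1 → theta i G m ∈ S := by
    intro G N hG i m hm
    rw [theta]
    split_ifs with h
    · exact S.zero_mem
    · refine hG _ ?_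
      have := hupd m i h
      omega
  have hN : ∀ (l : List (A × Fin k × Fin k)),
      (∀ m : Fin k → ℕ, ∑ i, m i < ∑ i, n i → Dl l F m ∈ S) ∧
      (∀ m : Fin k → ℕ, ∑ i, m i < ∑ i, n i + 1 → Dl l F m - F m ∈ S) := by
    intro l
    induction l with
    | nil =>
      refine ⟨fun m hm => hS m hm, fun m _ => ?_⟩
      have : Dl ([] : List (A × Fin k × Fin k)) F m = F m := rfl
      rw [this, sub_self]; exact S.zero_mem
    | cons t l ih =>
      have h1 : Dl (t :: l) F = dop t.1 t.2.1 t.2.2 (Dl l F) := rfl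
      have h2 : ∀ m : Fin k → ℕ, ∑ i, m i < ∑ i, n i + 1 →
          theta t.2.1 (theta t.2.2 (Dl l F)) m ∈ S := by
        intro m hm
        refine hth _ _ (fun m' hm' => ?_) _ _ hm
        exact hth _ _ ih.1 _ _ (by omega)
      refine ⟨fun m hm => ?_, fun m hm => ?_⟩
      · rw [h1, dop]
        exact S.sub_mem (ih.1 m hm) (S.smul_mem _ (h2 m (by omega)))
      · rw [h1, dop]
        have : Dl l F m - t.1 • theta t.2.1 (theta t.2.2 (Dl l F)) m - F m =
          (Dl l F m - F m) - t.1 • theta t.2.1 (theta t.2.2 (Dl l F)) m := by abel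
        rw [this]
        exact S.sub_mem (ih.2 m hm) (S.smul_mem _ (h2 m hm))
  exact (hN l).2 n (by omega)

end MP4905

end
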