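import Mathlib
import Pool.Agent.Work.MP_4905b1_co.Bd.B01
import Pool.Agent.Work.MP_4905b1_co.Statement

/-! Bundle of small proof modules (one section per former module). -/

section

/-! Gaussian sums and the exchange lemma. -/

open Finset

namespace MP4905

universe u

variable {A : Type u} [CommRing A]

lemma SS_zero (p : A) (a : ℤ) (n : ℕ) : SS p 0 a n = p ^ (a.natAbs ^ 2) := by
  unfold SS
  rw [sum_eq_single_of_mem 0 (by simp)]
  · simp
  · intro c _ hc
    simp [hc]

/-- exponent bookkeeping -/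
lemma GS_exp (a : ℤ) : ((a.natAbs ^ 2 : ℕ) : ℤ) = a ^ 2 := by
  rw [Nat.cast_pow]
  exact Int.natAbs_sq a

lemma SS_pascal (p y : A) (a : ℤ) (n : ℕ) :
    SS p y a (n + 1) - y * SS p y (a + 1) n = SS p (p ^ 2 * y) a n := by
  unfold SS
  rw [sum_range_succ' (fun c => gb (p ^ 2) (n + 1) c * y ^ c * p ^ ((a + (c : ℕ)).natAbs ^ 2)),
    sum_range_succ' (fun c => gb (p ^ 2) n c * (p ^ 2 * y) ^ c * p ^ ((a + (c : ℕ)).natAbs ^ 2))]
  have h1 : ∑ k ∈ range (n + 1), gb (p ^ 2) (n + 1) (k + 1) * y ^ (k + 1) *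
      p ^ ((a + ((k + 1 : ℕ) : ℤ)).natAbs ^ 2) =
      y * ∑ c ∈ range (n + 1), gb (p ^ 2) n c * y ^ c * p ^ ((a + 1 + (c : ℤ)).natAbs ^ 2) +
      ∑ k ∈ range (n + 1), gb (p ^ 2) n (k + 1) * (p ^ 2 * y) ^ (k + 1) *
        p ^ ((a + ((k + 1 : ℕ) : ℤ)).natAbs ^ 2) := by
    rw [mul_sum, ← sum_add_distrib]
    apply sum_congr rfl
    intro c _
    have e : a + ((c + 1 : ℕ) : ℤ) = a + 1 + (c : ℤ) := by push_cast; ring
    rw [e, gb_succ_succ, mul_pow]
    ring
  rw [h1, sum_range_succ (fun k => gb (p ^ 2) n (k + 1) * (p ^ 2 * y) ^ (k + 1) *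
        p ^ ((a + ((k + 1 : ℕ) : ℤ)).natAbs ^ 2)), gb_eq_zero (p ^ 2) (Nat.lt_succ_self n)]
  simp only [gb_zero_right, pow_zero]
  ring

lemma SS_qmul (p y : A) (a : ℤ) (n : ℕ) :
    SS p (p ^ 2 * y) a (n + 1) =
      SS p y a (n + 1) - y * (1 - (p ^ 2) ^ (n + 1)) * SS p y (a + 1) n := by
  unfold SS
  rw [eq_sub_iff_add_eq, mul_sum]
  rw [sum_range_succ' (fun c => gb (p ^ 2) (n + 1) c * y ^ c * p ^ ((a + (c : ℕ)).natAbs ^ 2)),
    sum_range_succ' (fun c => gb (p ^ 2) (n + 1) c * (p ^ 2 * y) ^ c *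
      p ^ ((a + (c : ℕ)).natAbs ^ 2))]
  rw [add_right_comm, ← sum_add_distrib]
  congr 1
  · apply sum_congr rfl
    intro c _
    have e : a + ((c + 1 : ℕ) : ℤ) = a + 1 + (c : ℤ) := by push_cast; ring
    have h := gb_absorb (p ^ 2) n c
    rw [e, mul_pow, pow_succ y]
    linear_combination (-(y ^ c * y) * p ^ ((a + 1 + (c : ℤ)).natAbs ^ 2)) * h
  · simp

/-- recursion in the last variable -/
lemma SS_succ (p y : A) (a : ℤ) (n : ℕ) (h : 0 ≤ a + n) :
    SS p y a (n + 1) = (1 + y * p ^ (2 * (a + n) + 1).toNat) * SS p y a n := by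
  have key : ∀ c ∈ range (n + 1), (p ^ 2) ^ (n - c) * p ^ ((a + ((c + 1 : ℕ) : ℤ)).natAbs ^ 2) =
      p ^ (2 * (a + n) + 1).toNat * p ^ ((a + (c : ℤ)).natAbs ^ 2) := by
    intro c hc
    have hc' : c ≤ n := Nat.lt_succ_iff.mp (mem_range.mp hc)
    rw [← pow_mul, ← pow_add, ← pow_add]
    congr 1
    have h1 : (((2 * (a + n) + 1).toNat : ℕ) : ℤ) = 2 * (a + n) + 1 :=
      Int.toNat_of_nonneg (by linarith)
    have h2 : ((n - c : ℕ) : ℤ) = (n : ℤ) - c := by
      rw [Nat.cast_sub hc']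
    have h3 := GS_exp (a + ((c + 1 : ℕ) : ℤ))
    have h4 := GS_exp (a + (c : ℤ))
    apply Nat.cast_injective (R := ℤ)
    rw [Nat.cast_add (2 * (n - c)), Nat.cast_add ((2 * (a + n) + 1).toNat), h3, h4, h1,
      Nat.cast_mul, h2]
    push_cast
    ring
  unfold SS
  rw [sum_range_succ' (fun c => gb (p ^ 2) (n + 1) c * y ^ c * p ^ ((a + (c : ℕ)).natAbs ^ 2))]
  have h1 : ∑ k ∈ range (n + 1), gb (p ^ 2) (n + 1) (k + 1) * y ^ (k + 1) *
      p ^ ((a + ((k + 1 : ℕ) : ℤ)).natAbs ^ 2) =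
      (∑ k ∈ range (n + 1), gb (p ^ 2) n (k + 1) * y ^ (k + 1) *
        p ^ ((a + ((k + 1 : ℕ) : ℤ)).natAbs ^ 2)) +
      y * p ^ (2 * (a + n) + 1).toNat *
        ∑ c ∈ range (n + 1), gb (p ^ 2) n c * y ^ c * p ^ ((a + (c : ℤ)).natAbs ^ 2) := by
    rw [mul_sum, ← sum_add_distrib]
    apply sum_congr rfl
    intro c hc
    have hc' : c ≤ n := Nat.lt_succ_iff.mp (mem_range.mp hc)
    rw [gb_pascal (p ^ 2) n c hc']
    have h2 := key c hc
    rw [pow_succ y]
    linear_combination (gb (p ^ 2) n c * y ^ c * y) * h2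
  rw [h1, sum_range_succ (fun k => gb (p ^ 2) n (k + 1) * y ^ (k + 1) *
        p ^ ((a + ((k + 1 : ℕ) : ℤ)).natAbs ^ 2)), gb_eq_zero (p ^ 2) (Nat.lt_succ_self n)]
  have h3 : ∑ c ∈ range (n + 1), gb (p ^ 2) n c * y ^ c * p ^ ((a + (c : ℤ)).natAbs ^ 2) =
      (∑ k ∈ range n, gb (p ^ 2) n (k + 1) * y ^ (k + 1) *
        p ^ ((a + ((k + 1 : ℕ) : ℤ)).natAbs ^ 2)) + 1 * 1 * p ^ ((a + (0 : ℕ)).natAbs ^ 2) := by
    rw [sum_range_succ' (fun c => gb (p ^ 2) n c * y ^ c * p ^ ((a + (c : ℕ)).natAbs ^ 2))]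
    simp
  simp only [gb_zero_right, pow_zero]
  linear_combination (-1 : A) * h3

/-- recursion in the first variable -/
lemma SS_succ_neg (p y : A) (a : ℤ) (n : ℕ) (h : a < 0) :
    SS p y a (n + 1) = (y + p ^ (-2 * a - 1).toNat) * SS p y (a + 1) n := by
  have h0 := SS_pascal p y a n
  have h1 : SS p (p ^ 2 * y) a n = p ^ (-2 * a - 1).toNat * SS p y (a + 1) n := by
    unfold SS
    rw [mul_sum]
    apply sum_congr rfl
    intro c _
    have key : (p ^ 2) ^ c * p ^ ((a + (c : ℤ)).natAbs ^ 2) =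
        p ^ (-2 * a - 1).toNat * p ^ ((a + 1 + (c : ℤ)).natAbs ^ 2) := by
      rw [← pow_mul, ← pow_add, ← pow_add]
      congr 1
      have h1 : (((-2 * a - 1).toNat : ℕ) : ℤ) = -2 * a - 1 :=
        Int.toNat_of_nonneg (by linarith)
      have h3 := GS_exp (a + 1 + (c : ℤ))
      have h4 := GS_exp (a + (c : ℤ))
      apply Nat.cast_injective (R := ℤ)
      rw [Nat.cast_add (2 * c), Nat.cast_add ((-2 * a - 1).toNat), h3, h4, h1]
      push_cast
      ring
    rw [mul_pow]
    linear_combination (gb (p ^ 2) n c * y ^ c) * key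
  rw [h1] at h0
  linear_combination h0

lemma FF_succ_neg {p : A} (hp : IsNilpotent p) {y : A} {B : ℕ} (hB : y ^ B = 0) (a : ℤ)
    (h : a < 0) : FF p y B a = (y + p ^ (-2 * a - 1).toNat) * FF p y B (a + 1) := by
  have hq : IsNilpotent (p ^ 2) := hp.pow_succ 1
  rcases Nat.eq_zero_or_pos B with rfl | hBpos
  · have : (1 : A) = 0 := by simpa using hB
    have hs : Subsingleton A := subsingleton_of_zero_eq_one this.symm
    exact Subsingleton.elim _ _
  obtain ⟨B, rfl⟩ : ∃ b, B = b + 1 := ⟨B - 1, by omega⟩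
  unfold FF
  have key : ∀ c : ℕ, (p ^ 2) ^ c * p ^ ((a + (c : ℤ)).natAbs ^ 2) =
      p ^ (-2 * a - 1).toNat * p ^ ((a + 1 + (c : ℤ)).natAbs ^ 2) := by
    intro c
    rw [← pow_mul, ← pow_add, ← pow_add]
    congr 1
    have h1 : (((-2 * a - 1).toNat : ℕ) : ℤ) = -2 * a - 1 :=
      Int.toNat_of_nonneg (by linarith)
    have h3 := GS_exp (a + 1 + (c : ℤ))
    have h4 := GS_exp (a + (c : ℤ))
    apply Nat.cast_injective (R := ℤ)
    rw [Nat.cast_add (2 * c), Nat.cast_add ((-2 * a - 1).toNat), h3, h4, h1]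
    push_cast
    ring
  have h1 : ∑ c ∈ range (B + 1), iq (p ^ 2) c * y ^ c * p ^ ((a + (c : ℤ)).natAbs ^ 2) -
      p ^ (-2 * a - 1).toNat *
        ∑ c ∈ range (B + 1), iq (p ^ 2) c * y ^ c * p ^ ((a + 1 + (c : ℤ)).natAbs ^ 2) =
      y * ∑ c ∈ range (B + 1), iq (p ^ 2) c * y ^ c * p ^ ((a + 1 + (c : ℤ)).natAbs ^ 2) := by
    have h2 : ∑ c ∈ range (B + 1), iq (p ^ 2) c * y ^ c * p ^ ((a + (c : ℤ)).natAbs ^ 2) -
      p ^ (-2 * a - 1).toNat *
        ∑ c ∈ range (B + 1), iq (p ^ 2) c * y ^ c * p ^ ((a + 1 + (c : ℤ)).natAbs ^ 2) =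
      ∑ c ∈ range (B + 1), iq (p ^ 2) c * (1 - (p ^ 2) ^ c) * y ^ c *
        p ^ ((a + (c : ℤ)).natAbs ^ 2) := by
      rw [mul_sum, ← sum_sub_distrib]
      apply sum_congr rfl
      intro c _
      linear_combination (iq (p ^ 2) c * y ^ c) * key c
    rw [h2, mul_sum, sum_range_succ', sum_range_succ]
    have hz0 : iq (p ^ 2) 0 * (1 - (p ^ 2) ^ 0) * y ^ 0 * p ^ ((a + ((0 : ℕ) : ℤ)).natAbs ^ 2) =
        0 := by simp
    have hzB : y * (iq (p ^ 2) B * y ^ B * p ^ ((a + 1 + (B : ℤ)).natAbs ^ 2)) = 0 := by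
      have : y * (iq (p ^ 2) B * y ^ B * p ^ ((a + 1 + (B : ℤ)).natAbs ^ 2)) =
          y ^ (B + 1) * (iq (p ^ 2) B * p ^ ((a + 1 + (B : ℤ)).natAbs ^ 2)) := by
        rw [pow_succ]; ring
      rw [this, hB, zero_mul]
    rw [hz0, hzB]
    congr 1
    apply sum_congr rfl
    intro c _
    have e : a + ((c + 1 : ℕ) : ℤ) = a + 1 + (c : ℤ) := by push_cast; ring
    rw [e, iq_eq hq c, pow_succ y]
    ring
  linear_combination h1

/-- the functional equation of `FF` at `0` -/
lemma FF_zero_step {p : A} (hp : IsNilpotent p) {y : A} {B : ℕ} (hB : y ^ B = 0) :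
    FF p y B 0 = (1 + p * y) * FF p (y * p ^ 2) B 0 := by
  have hq : IsNilpotent (p ^ 2) := hp.pow_succ 1
  rcases Nat.eq_zero_or_pos B with rfl | hBpos
  · have : (1 : A) = 0 := by simpa using hB
    have hs : Subsingleton A := subsingleton_of_zero_eq_one this.symm
    exact Subsingleton.elim _ _
  obtain ⟨B, rfl⟩ : ∃ b, B = b + 1 := ⟨B - 1, by omega⟩
  unfold FF
  have h1 : ∑ c ∈ range (B + 1), iq (p ^ 2) c * y ^ c * p ^ ((0 + (c : ℤ)).natAbs ^ 2) -
      ∑ c ∈ range (B + 1), iq (p ^ 2) c * (y * p ^ 2) ^ c * p ^ ((0 + (c : ℤ)).natAbs ^ 2) =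
      p * y * ∑ c ∈ range (B + 1), iq (p ^ 2) c * (y * p ^ 2) ^ c *
        p ^ ((0 + (c : ℤ)).natAbs ^ 2) := by
    rw [← sum_sub_distrib, mul_sum, sum_range_succ', sum_range_succ (fun c => p * y *
      (iq (p ^ 2) c * (y * p ^ 2) ^ c * p ^ ((0 + (c : ℤ)).natAbs ^ 2)))]
    have hz0 : iq (p ^ 2) 0 * y ^ 0 * p ^ ((0 + ((0 : ℕ) : ℤ)).natAbs ^ 2) -
        iq (p ^ 2) 0 * (y * p ^ 2) ^ 0 * p ^ ((0 + ((0 : ℕ) : ℤ)).natAbs ^ 2) = 0 := by simp
    have hzB : p * y * (iq (p ^ 2) B * (y * p ^ 2) ^ B * p ^ ((0 + (B : ℤ)).natAbs ^ 2)) = 0 := by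
      have : p * y * (iq (p ^ 2) B * (y * p ^ 2) ^ B * p ^ ((0 + (B : ℤ)).natAbs ^ 2)) =
          y ^ (B + 1) * (p * (iq (p ^ 2) B * (p ^ 2) ^ B * p ^ ((0 + (B : ℤ)).natAbs ^ 2))) := by
        rw [pow_succ, mul_pow]; ring
      rw [this, hB, zero_mul]
    rw [hz0, hzB]
    congr 1
    apply sum_congr rfl
    intro c _
    have e1 : (0 + ((c + 1 : ℕ) : ℤ)).natAbs = c + 1 := by
      rw [zero_add]; exact Int.natAbs_natCast _
    have e2 : (0 + (c : ℤ)).natAbs = c := by
      rw [zero_add]; exact Int.natAbs_natCast _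
    rw [e1, e2, iq_eq hq c]
    have e3 : p ^ ((c + 1) ^ 2) = p ^ (c ^ 2) * (p ^ 2) ^ c * p := by
      rw [← pow_mul, ← pow_add, ← pow_succ]
      congr 1
      ring
    rw [e3, mul_pow, mul_pow, pow_succ y, pow_succ (p ^ 2)]
    ring
  linear_combination h1

theorem FF_zero {p : A} (hp : IsNilpotent p) {y : A} {B : ℕ} (hB : y ^ B = 0) :
    FF p y B 0 = qinf (p ^ 2) (-p * y) := by
  have hq : IsNilpotent (p ^ 2) := hp.pow_succ 1
  have key : ∀ n : ℕ, FF p y B 0 = (∏ j ∈ range n, (1 - (-p * y) * (p ^ 2) ^ j)) *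
      FF p (y * (p ^ 2) ^ n) B 0 := by
    intro n
    induction n with
    | zero => simp
    | succ n ih =>
      have hB' : (y * (p ^ 2) ^ n) ^ B = 0 := by rw [mul_pow, hB, zero_mul]
      rw [ih, FF_zero_step hp hB', prod_range_succ]
      have e : y * (p ^ 2) ^ n * p ^ 2 = y * (p ^ 2) ^ (n + 1) := by rw [pow_succ]; ring
      rw [e]
      ring
  have h := key (nilpotencyClass (p ^ 2))
  rw [pow_nilpotencyClass' hq, mul_zero] at h
  rw [h]
  unfold qinf
  have h0 : FF p 0 B 0 = 1 := by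
    rcases Nat.eq_zero_or_pos B with rfl | hBpos
    · have : (1 : A) = 0 := by simpa using hB
      have hs : Subsingleton A := subsingleton_of_zero_eq_one this.symm
      exact Subsingleton.elim _ _
    · unfold FF
      rw [sum_eq_single_of_mem 0 (by simpa using hBpos)]
      · simp
      · intro c _ hc
        simp [hc]
  rw [h0, mul_one]

lemma FF_nat {p : A} (hp : IsNilpotent p) {y : A} {B : ℕ} (hB : y ^ B = 0) (a : ℕ) :
    FF p y B a = p ^ (a ^ 2) * qinf (p ^ 2) (-(p ^ (2 * a + 1) * y)) := by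
  have hB' : (y * p ^ (2 * a)) ^ B = 0 := by rw [mul_pow, hB, zero_mul]
  have h := FF_zero hp hB'
  have e : -p * (y * p ^ (2 * a)) = -(p ^ (2 * a + 1) * y) := by rw [pow_succ]; ring
  rw [e] at h
  rw [← h]
  unfold FF
  rw [mul_sum]
  apply sum_congr rfl
  intro c _
  have e1 : ((a : ℤ) + (c : ℤ)).natAbs = a + c := by
    rw [← Nat.cast_add]; exact Int.natAbs_natCast _
  have e2 : (0 + (c : ℤ)).natAbs = c := by
    rw [zero_add]; exact Int.natAbs_natCast _
  rw [e1, e2]
  have e3 : p ^ ((a + c) ^ 2) = p ^ (a ^ 2) * p ^ (c ^ 2) * (p ^ (2 * a)) ^ c := by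
    rw [← pow_mul, ← pow_add, ← pow_add]
    congr 1
    ring
  rw [e3, mul_pow]
  ring

lemma SS_nat (p y : A) (a n : ℕ) :
    SS p y a n = p ^ (a ^ 2) * qpoch (p ^ 2) (-(p ^ (2 * a + 1) * y)) n := by
  induction n with
  | zero => simp [SS, qpoch]
  | succ n ih =>
    rw [SS_succ p y a n (by positivity), ih]
    unfold qpoch
    rw [prod_range_succ]
    have e : (2 * ((a : ℤ) + n) + 1).toNat = 2 * a + 1 + 2 * n := by omega
    rw [e, pow_add p (2 * a + 1) (2 * n), pow_mul p 2 n]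
    ring

lemma FF_eq_SS_mul {p : A} (hp : IsNilpotent p) {y : A} {B : ℕ} (hB : y ^ B = 0) (w : ℕ) (m : ℕ) :
    FF p y B ((w : ℤ) - m) = SS p y ((w : ℤ) - m) m *
      qinf (p ^ 2) (-(p ^ (2 * w + 1) * y)) := by
  have hq : IsNilpotent (p ^ 2) := hp.pow_succ 1
  induction m with
  | zero =>
    have := FF_nat hp hB w
    simp only [Nat.cast_zero, sub_zero]
    rw [this, SS_nat]
    simp [qpoch]
  | succ m ih =>
    rcases lt_or_ge ((w : ℤ) - ((m + 1 : ℕ) : ℤ)) 0 with h | h
    · have e : (w : ℤ) - ((m + 1 : ℕ) : ℤ) + 1 = (w : ℤ) - m := by push_cast; ring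
      rw [FF_succ_neg hp hB _ h, SS_succ_neg p y _ m h, e, ih]
      ring
    · obtain ⟨a, ha⟩ : ∃ a : ℕ, w = a + (m + 1) := ⟨w - (m + 1), by omega⟩
      have e : (w : ℤ) - ((m + 1 : ℕ) : ℤ) = (a : ℤ) := by rw [ha]; push_cast; ring
      rw [e, FF_nat hp hB a, SS_nat, qinf_split hq _ (m + 1), ha]
      have e2 : -(p ^ (2 * a + 1) * y) * (p ^ 2) ^ (m + 1) =
          -(p ^ (2 * (a + (m + 1)) + 1) * y) := by
        have : p ^ (2 * (a + (m + 1)) + 1) = p ^ (2 * a + 1) * (p ^ 2) ^ (m + 1) := by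
          rw [← pow_mul, ← pow_add]
          congr 1
          ring
        rw [this]
        ring
      rw [e2]
      ring

lemma neg_chain {p : A} (hp : IsNilpotent p) {y : A} {B : ℕ} (hB : y ^ B = 0) (w : ℤ) (hw : w < 0)
    (m : ℕ) : ∃ P : A, SS p y (w - m) m = P * p ^ (w.natAbs ^ 2) ∧
      FF p y B (w - m) = P * FF p y B w := by
  induction m with
  | zero => exact ⟨1, by simp [SS], by simp⟩
  | succ m ih =>
    obtain ⟨P, h1, h2⟩ := ih
    have h : w - ((m + 1 : ℕ) : ℤ) < 0 := by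
      have : (0 : ℤ) ≤ ((m + 1 : ℕ) : ℤ) := Nat.cast_nonneg _
      linarith
    have e : w - ((m + 1 : ℕ) : ℤ) + 1 = w - m := by push_cast; ring
    refine ⟨(y + p ^ (-2 * (w - ((m + 1 : ℕ) : ℤ)) - 1).toNat) * P, ?_, ?_⟩
    · rw [SS_succ_neg p y _ m h, e, h1]; ring
    · rw [FF_succ_neg hp hB _ h, e, h2]; ring

theorem exchange {p : A} (hp : IsNilpotent p) {y : A} {B : ℕ} (hB : y ^ B = 0) (u v w : ℤ)
    (hu : u ≤ w) (hv : v ≤ w) :
    FF p y B u * SS p y v (w - v).toNat = SS p y u (w - u).toNat * FF p y B v := by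
  obtain ⟨m, rfl⟩ : ∃ m : ℕ, u = w - m := ⟨(w - u).toNat, by omega⟩
  obtain ⟨n, rfl⟩ : ∃ n : ℕ, v = w - n := ⟨(w - v).toNat, by omega⟩
  have e1 : (w - (w - (m : ℤ))).toNat = m := by omega
  have e2 : (w - (w - (n : ℤ))).toNat = n := by omega
  rw [e1, e2]
  rcases lt_or_ge w 0 with hw | hw
  · obtain ⟨P, h1, h2⟩ := neg_chain hp hB w hw m
    obtain ⟨Q, h3, h4⟩ := neg_chain hp hB w hw n
    rw [h1, h2, h3, h4]
    ring
  · obtain ⟨w, rfl⟩ := Int.eq_ofNat_of_zero_le hw
    rw [FF_eq_SS_mul hp hB w m, FF_eq_SS_mul hp hB w n]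
    ring

theorem exchange_chain {p : A} (hp : IsNilpotent p) {y : A} {B : ℕ} (hB : y ^ B = 0) (k : ℕ)
    (R R' : ℕ → ℕ) (hR : Antitone R) (hR' : Antitone R') (hk : R k = 0) (hk' : R' (k + 1) = 0) :
    FF p y B ((R 0 : ℤ) - R' 0) *
      ∏ i ∈ range k, SS p y ((R (i + 1) : ℤ) - R' (i + 1)) (R i - R (i + 1)) =
    qinf (p ^ 2) (-p * y) *
      ∏ i ∈ range (k + 1), SS p y ((R i : ℤ) - R' i) (R' i - R' (i + 1)) := by
  induction k generalizing R R' with
  | zero =>
    simp only [range_zero, prod_empty, mul_one, zero_add, prod_range_one]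
    have h := exchange hp hB ((R 0 : ℤ) - R' 0) 0 0 (by rw [hk]; simp) le_rfl
    have e : (0 - ((R 0 : ℤ) - R' 0)).toNat = R' 0 - R' 1 := by
      have : R' 1 = 0 := hk'
      rw [hk, this]; omega
    rw [e, FF_zero hp hB] at h
    have h0 : SS p y 0 (0 - (0 : ℤ)).toNat = 1 := by simp [SS]
    rw [h0, mul_one] at h
    rw [h]
    ring
  | succ k ih =>
    have h := ih (fun i => R (i + 1)) (fun i => R' (i + 1))
      (fun i j hij => hR (Nat.succ_le_succ hij)) (fun i j hij => hR' (Nat.succ_le_succ hij)) hk hk'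
    rw [prod_range_succ', prod_range_succ' _ (k + 1)]
    have hR1 : R (0 + 1) ≤ R 0 := hR (Nat.zero_le _)
    have hR1' : R' (0 + 1) ≤ R' 0 := hR' (Nat.zero_le _)
    have hex := exchange hp hB ((R 0 : ℤ) - R' 0) ((R (0 + 1) : ℤ) - R' (0 + 1))
      ((R 0 : ℤ) - R' (0 + 1)) (by omega) (by omega)
    have e1 : ((R 0 : ℤ) - R' (0 + 1) - ((R (0 + 1) : ℤ) - R' (0 + 1))).toNat =
        R 0 - R (0 + 1) := by omega
    have e2 : ((R 0 : ℤ) - R' (0 + 1) - ((R 0 : ℤ) - R' 0)).toNat = R' 0 - R' (0 + 1) := by omega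
    rw [e1, e2] at hex
    simp only [zero_add] at h hex ⊢
    linear_combination (∏ i ∈ range k, SS p y ((R (i + 1 + 1) : ℤ) - R' (i + 1 + 1))
      (R (i + 1) - R (i + 1 + 1))) * hex +
      SS p y ((R 0 : ℤ) - R' 0) (R' 0 - R' 1) * h

end MP4905

end

section

/-!
Definitions for the comparison with the symmetrisation formula of the Hall-Littlewood polynomials.
-/

open Finset

namespace MP4905

universe u

variable {A : Type u} [CommRing A]

/-- the alternating sum `∑_w sgn(w) w(x^α ∏_{i<j} (x_i - t x_j))` -/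
def Alt (t : A) {n : ℕ} (x : Fin n → A) (α : ℕ → ℕ) : A :=
  ∑ w : Equiv.Perm (Fin n), ((Equiv.Perm.sign w : ℤˣ) : ℤ) •
    ((∏ i : Fin n, x (w i) ^ α i) * ∏ i : Fin n, ∏ j ∈ Ioi i, (x (w i) - t * x (w j)))

/-- the Vandermonde product -/
def Vdm {n : ℕ} (x : Fin n → A) : A := ∏ i : Fin n, ∏ j ∈ Ioi i, (x i - x j)

/-- elementary symmetric polynomials -/
def esy {n : ℕ} (x : Fin n → A) (r : ℕ) : A := ∑ S ∈ powersetCard r (univ : Finset (Fin n)), ∏ i ∈ S, x i

/-- the rows of the partition with columns `μ 0 ≥ μ 1 ≥ ⋯` -/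
def rows (μ : ℕ →₀ ℕ) (j : ℕ) : ℕ := #{i ∈ μ.support | j < μ i}

/-- `bb q x y r = [x - y choose x - r]_q` if `y ≤ r ≤ x` and `0` otherwise -/
def bb' (q : A) (x y r : ℕ) : A := if y ≤ r ∧ r ≤ x then gb q (x - y) (x - r) else 0

/-- Pieri coefficient: `∏_{i<m} [κ_i - κ_{i+1} choose κ_i - μ_i]_q` -/
def pw (q : A) (m : ℕ) (κ μ : ℕ →₀ ℕ) : A :=
  ∏ i ∈ range m, bb' q (κ i) (κ (i + 1)) (μ i)

/-- the family `f` satisfies the Pieri rule for multiplication by `e r` -/
def IsPieri {V : Type u} [CommRing V] (q : V) (e : ℕ → V) (f : (ℕ →₀ ℕ) → V) : Prop :=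
  ∀ (m r : ℕ) (μ : ℕ →₀ ℕ), Antitone (μ : ℕ → ℕ) → μ m = 0 →
    e r * f μ = ∑ c ∈ finsuppAntidiag (range (m + 1)) r, pw q m (μ + c) μ * f (μ + c)

/-- `R_i = r_i + r_{i+1} + ⋯` -/
noncomputable def Rof {k : ℕ} (r : Fin k → ℕ) : ℕ →₀ ℕ := ∑ j : Fin k, r j • ind (range (j + 1))

end MP4905

end

section

set_option autoImplicit false

/-!
# Naturality of all operators under ring homomorphisms
-/

open Finset

namespace MP4905

universe u

variable {A A' : Type u} [CommRing A] [CommRing A']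

/-- the map of free modules induced by a ring homomorphism -/
noncomputable def mapM (f : A →+* A') : M A →+ M A' :=
  Finsupp.mapRange.addMonoidHom f.toAddMonoidHom

theorem map_gb (f : A →+* A') (q : A) (n k : ℕ) : f (gb q n k) = gb (f q) n k := by
  induction n generalizing k with
  | zero => cases k with
    | zero => simp
    | succ k => simp
  | succ n ih => cases k with
    | zero => simp
    | succ k => rw [gb_succ_succ, gb_succ_succ, map_add, map_mul, map_pow, ih, ih]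

theorem map_qf (f : A →+* A') (q : A) (n : ℕ) : f (qf q n) = qf (f q) n := by
  rw [qf, qf, map_prod]
  exact prod_congr rfl fun j _ => by rw [map_sub, map_one, map_pow]

theorem map_iq (f : A →+* A') {q : A} (hq : IsNilpotent q) (n : ℕ) :
    f (iq q n) = iq (f q) n := by
  have h1 := congrArg f (iq_mul_qf hq n)
  rw [map_mul, map_one, map_qf] at h1
  have h2 := qf_mul_iq (hq.map f) n
  calc f (iq q n) = f (iq q n) * (qf (f q) n * iq (f q) n) := by rw [h2, mul_one]
    _ = (f (iq q n) * qf (f q) n) * iq (f q) n := by ring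
    _ = _ := by rw [h1, one_mul]

theorem map_wK (f : A →+* A') {q : A} (hq : IsNilpotent q) (m : ℕ) (μ c : ℕ →₀ ℕ) :
    f (wK q m μ c) = wK (f q) m μ c := by
  rw [wK, wK, map_mul, map_iq f hq, map_prod]
  congr 1
  exact prod_congr rfl fun i _ => map_gb f q _ _

theorem map_wE (f : A →+* A') (q : A) (m : ℕ) (μ : ℕ →₀ ℕ) (s : Finset ℕ) :
    f (wE q m μ s) = wE (f q) m μ s := by
  rw [wE, wE, map_prod]
  refine prod_congr rfl fun i _ => ?_
  split_ifs
  · rw [map_sub, map_one, map_pow]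
  · rw [map_one]

theorem map_wEp (f : A →+* A') (q : A) (m : ℕ) (μ : ℕ →₀ ℕ) (s : Finset ℕ) :
    f (wEp q m μ s) = wEp (f q) m μ s := by
  rw [wEp, wEp, map_prod]
  refine prod_congr rfl fun i _ => ?_
  split_ifs
  · rw [map_sub, map_one, map_pow]
  · rw [map_one]

theorem mapM_apply (f : A →+* A') (v : M A) (μ : Pt) : mapM f v μ = f (v μ) := rfl

theorem mapM_single (f : A →+* A') (μ : Pt) (a : A) :
    mapM f (Finsupp.single μ a) = Finsupp.single μ (f a) :=
  Finsupp.mapRange_single (hf := map_zero f)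

theorem mapM_ket (f : A →+* A') (μ : ℕ →₀ ℕ) : mapM f (ket A μ) = ket A' μ := by
  rw [ket, ket]
  split_ifs
  · rw [mapM_single, map_one]
  · rw [map_zero]

theorem mapM_smul (f : A →+* A') (a : A) (v : M A) : mapM f (a • v) = f a • mapM f v := by
  ext μ
  rw [mapM_apply, Finsupp.smul_apply, Finsupp.smul_apply, mapM_apply, smul_eq_mul, smul_eq_mul,
    map_mul]

/-- a general principle for operators given on basis vectors -/
theorem mapM_linearCombination (f : A →+* A') (F : Pt → M A) (F' : Pt → M A')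
    (h : ∀ μ, mapM f (F μ) = F' μ) (v : M A) :
    mapM f (Finsupp.linearCombination A F v) = Finsupp.linearCombination A' F' (mapM f v) := by
  induction v using Finsupp.induction_linear with
  | zero => rw [map_zero, map_zero, map_zero]
  | add v w hv hw => rw [map_add, map_add, map_add, map_add, hv, hw]
  | single μ a =>
    rw [Finsupp.linearCombination_single, mapM_smul, h, mapM_single,
      Finsupp.linearCombination_single]

theorem mapM_g (f : A →+* A') {q : A} (hq : IsNilpotent q) (m n : ℕ) (v : M A) :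
    mapM f (g q m n v) = g (f q) m n (mapM f v) := by
  apply mapM_linearCombination
  intro μ
  rw [map_sum]
  exact sum_congr rfl fun c _ => by rw [mapM_smul, mapM_ket, map_wK f hq]

theorem mapM_E (f : A →+* A') (q : A) (m r : ℕ) (v : M A) :
    mapM f (E q m r v) = E (f q) m r (mapM f v) := by
  apply mapM_linearCombination
  intro μ
  rw [map_sum]
  exact sum_congr rfl fun s _ => by rw [mapM_smul, mapM_ket, map_wE]

theorem mapM_Ep (f : A →+* A') (q : A) (m r : ℕ) (v : M A) :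
    mapM f (Ep q m r v) = Ep (f q) m r (mapM f v) := by
  apply mapM_linearCombination
  intro μ
  rw [map_sum]
  exact sum_congr rfl fun s _ => by rw [mapM_smul, mapM_ket, map_wEp]

theorem mapM_sum_smul {ι : Type*} (f : A →+* A') (s : Finset ι) (a : ι → A)
    (T : ι → Module.End A (M A)) (T' : ι → Module.End A' (M A'))
    (h : ∀ i v, mapM f (T i v) = T' i (mapM f v)) (v : M A) :
    mapM f ((∑ i ∈ s, a i • T i) v) = (∑ i ∈ s, f (a i) • T' i) (mapM f v) := by
  rw [LinearMap.sum_apply, LinearMap.sum_apply, map_sum]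
  refine sum_congr rfl fun i _ => ?_
  rw [LinearMap.smul_apply, LinearMap.smul_apply, mapM_smul, h]

theorem mapM_Ex (f : A →+* A') (q : A) (m : ℕ) (x : A) (v : M A) :
    mapM f (Ex q m x v) = Ex (f q) m (f x) (mapM f v) := by
  have := mapM_sum_smul f (range (m + 1)) (fun r => x ^ r) (fun r => E q m r)
    (fun r => E (f q) m r) (fun r v => mapM_E f q m r v) v
  simp only [map_pow] at this
  exact this

theorem mapM_Epx (f : A →+* A') (q : A) (m : ℕ) (x : A) (v : M A) :
    mapM f (Epx q m x v) = Epx (f q) m (f x) (mapM f v) := by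
  have := mapM_sum_smul f (range (m + 1)) (fun r => x ^ r) (fun r => Ep q m r)
    (fun r => Ep (f q) m r) (fun r v => mapM_Ep f q m r v) v
  simp only [map_pow] at this
  exact this

theorem mapM_K (f : A →+* A') {q : A} (hq : IsNilpotent q) (m : ℕ) {y : A}
    (hy : IsNilpotent y) (v : M A) : mapM f (K q m y v) = K (f q) m (f y) (mapM f v) := by
  obtain ⟨N, hN⟩ := hy
  have hN' : f y ^ N = 0 := by rw [← map_pow, hN, map_zero]
  rw [K_eq q m hN, K_eq (f q) m hN']
  have := mapM_sum_smul f (range N) (fun n => y ^ n) (fun n => g q m n)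
    (fun n => g (f q) m n) (fun n v => mapM_g f hq m n v) v
  simp only [map_pow] at this
  exact this

theorem mapM_list_prod {ι : Type*} (f : A →+* A') (l : List ι)
    (T : ι → Module.End A (M A)) (T' : ι → Module.End A' (M A'))
    (h : ∀ i v, mapM f (T i v) = T' i (mapM f v)) (v : M A) :
    mapM f ((l.map T).prod v) = (l.map T').prod (mapM f v) := by
  induction l generalizing v with
  | nil => rfl
  | cons i l ih =>
    rw [List.map_cons, List.map_cons, List.prod_cons, List.prod_cons, Module.End.mul_apply,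
      Module.End.mul_apply, h, ih]

theorem mapM_Gop (f : A →+* A') {q : A} (hq : IsNilpotent q) (m : ℕ) {k : ℕ} (n : Fin k → ℕ)
    (v : M A) : mapM f (Gop q m n v) = Gop (f q) m n (mapM f v) := by
  have h := mapM_list_prod f (List.ofFn n) (fun i => g q m i) (fun i => g (f q) m i)
    (fun i v => mapM_g f hq m i v) v
  rw [List.map_ofFn, List.map_ofFn] at h
  exact h

theorem mapM_Kop (f : A →+* A') {q : A} (hq : IsNilpotent q) (m : ℕ) {k : ℕ} (y : Fin k → A)
    (hy : ∀ i, IsNilpotent (y i)) (v : M A) :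
    mapM f (Kop q m y v) = Kop (f q) m (fun i => f (y i)) (mapM f v) := by
  have h := mapM_list_prod f (List.finRange k) (fun i => K q m (y i))
    (fun i => K (f q) m (f (y i))) (fun i v => mapM_K f hq m (hy i) v) v
  rw [← List.ofFn_eq_map, ← List.ofFn_eq_map] at h
  exact h

theorem mapM_vY (f : A →+* A') {q : A} (hq : IsNilpotent q) (m : ℕ) (ys : List A)
    (hy : ∀ y ∈ ys, IsNilpotent y) : mapM f (vY q m ys) = vY (f q) m (ys.map f) := by
  induction ys with
  | nil => exact mapM_ket f 0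
  | cons y ys ih =>
    have e1 : vY q m (y :: ys) = K q m y (vY q m ys) := rfl
    have e2 : vY (f q) m ((y :: ys).map f) = K (f q) m (f y) (vY (f q) m (ys.map f)) := rfl
    rw [e1, e2, mapM_K f hq m (hy y List.mem_cons_self),
      ih fun z hz => hy z (List.mem_cons_of_mem y hz)]

theorem lin_mapM (f : A →+* A') (φ : (ℕ →₀ ℕ) → A) (v : M A) :
    lin (fun μ => f (φ μ)) (mapM f v) = f (lin φ v) := by
  induction v using Finsupp.induction_linear with
  | zero => rw [map_zero, map_zero, map_zero, map_zero]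
  | add v w hv hw => rw [map_add, map_add, map_add, map_add, hv, hw]
  | single μ a => rw [mapM_single, lin_single, lin_single, map_mul]

theorem map_qinf (f : A →+* A') {q : A} (hq : IsNilpotent q) (z : A) :
    f (qinf q z) = qinf (f q) (f z) := by
  rw [qinf_eq_prod hq z (n := nilpotencyClass q + nilpotencyClass (f q)) (Nat.le_add_right _ _),
    qinf_eq_prod (hq.map f) (f z) (n := nilpotencyClass q + nilpotencyClass (f q))
      (Nat.le_add_left _ _), map_prod]
  exact prod_congr rfl fun j _ => by rw [map_sub, map_one, map_mul, map_pow]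

theorem map_ez (f : A →+* A') {q z : A} (hq : IsNilpotent q) (hz : IsNilpotent z) :
    f (ez q z) = ez (f q) (f z) := by
  have h1 := congrArg f (ez_mul_qinf (q := q) hz)
  rw [map_mul, map_one, map_qinf f hq] at h1
  have h2 := qinf_mul_ez (q := f q) (hz.map f)
  calc f (ez q z) = f (ez q z) * (qinf (f q) (f z) * ez (f q) (f z)) := by rw [h2, mul_one]
    _ = (f (ez q z) * qinf (f q) (f z)) * ez (f q) (f z) := by ring
    _ = _ := by rw [h1, one_mul]

theorem map_qpoch (f : A →+* A') (q a : A) (n : ℕ) : f (qpoch q a n) = qpoch (f q) (f a) n := by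
  rw [qpoch, qpoch, map_prod]
  exact prod_congr rfl fun j _ => by rw [map_sub, map_one, map_mul, map_pow]

theorem map_RS2 (f : A →+* A') (q s t : A) (n : ℕ) :
    f (RS2 q s t n) = RS2 (f q) (f s) (f t) n := by
  rw [RS2, RS2, map_sum]
  exact sum_congr rfl fun c _ => by rw [map_mul, map_mul, map_pow, map_pow, map_gb]

theorem map_SS (f : A →+* A') (p y : A) (a : ℤ) (n : ℕ) : f (SS p y a n) = SS (f p) (f y) a n := by
  rw [SS, SS, map_sum]
  exact sum_congr rfl fun c _ => by rw [map_mul, map_mul, map_pow, map_pow, map_gb, map_pow]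

theorem map_Lbf (f : A →+* A') (p : A) (k : ℕ) (μ : ℕ →₀ ℕ) : f (Lbf p k μ) = Lbf (f p) k μ := by
  rw [Lbf, Lbf, map_prod]
  exact prod_congr rfl fun i _ => by rw [map_pow]

theorem map_Wf (f : A →+* A') (p : A) (m : ℕ) (μ : ℕ →₀ ℕ) : f (Wf p m μ) = Wf (f p) m μ := by
  rw [Wf, Wf, map_prod]
  refine prod_congr rfl fun i _ => ?_
  rw [map_prod]
  exact prod_congr rfl fun j _ => by rw [map_add, map_one, map_pow]

end MP4905

end

section

open Finset

namespace MP4905

universe u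

variable {A : Type u} [CommRing A]

/-! ### homogeneous Rogers-Szegő polynomials -/

lemma RS2_zero_left (q t : A) (n : ℕ) : RS2 q 0 t n = t ^ n := by
  unfold RS2
  rw [sum_range_succ', sum_eq_zero]
  · simp
  · intro c _
    simp

lemma RS2_zero (q s t : A) : RS2 q s t 0 = 1 := by
  simp [RS2]

lemma RS2_one (q s t : A) : RS2 q s t 1 = s + t := by
  simp [RS2, sum_range_succ, add_comm]

lemma RS2_pascal (q s t : A) (n : ℕ) :
    RS2 q s t (n + 1) = s * RS2 q s t n + t * RS2 q (q * s) t n := by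
  unfold RS2
  rw [sum_range_succ' (fun c => gb q (n + 1) c * s ^ c * t ^ (n + 1 - c)) (n + 1)]
  rw [sum_range_succ' (fun c => gb q n c * (q * s) ^ c * t ^ (n - c)) n]
  have h1 : ∑ k ∈ range (n + 1), gb q (n + 1) (k + 1) * s ^ (k + 1) * t ^ (n + 1 - (k + 1)) =
      s * (∑ k ∈ range (n + 1), gb q n k * s ^ k * t ^ (n - k)) +
      ∑ k ∈ range (n + 1), q ^ (k + 1) * gb q n (k + 1) * s ^ (k + 1) * t ^ (n - k) := by
    rw [mul_sum, ← sum_add_distrib]
    apply sum_congr rfl
    intro c _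
    rw [gb_succ_succ, Nat.add_sub_add_right]
    ring
  have h2 : ∑ k ∈ range (n + 1), q ^ (k + 1) * gb q n (k + 1) * s ^ (k + 1) * t ^ (n - k) =
      t * ∑ k ∈ range n, gb q n (k + 1) * (q * s) ^ (k + 1) * t ^ (n - (k + 1)) := by
    rw [sum_range_succ, gb_eq_zero q (Nat.lt_succ_self n), mul_sum]
    simp only [mul_zero, zero_mul, add_zero]
    apply sum_congr rfl
    intro c hc
    rw [mem_range] at hc
    obtain ⟨j, rfl⟩ := Nat.exists_eq_add_of_lt hc
    have e1 : c + j + 1 - c = j + 1 := by omega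
    have e2 : c + j + 1 - (c + 1) = j := by omega
    rw [e1, e2]
    ring
  rw [h1, h2]
  simp only [gb_zero_right, pow_zero, Nat.sub_zero]
  ring

lemma RS2_qmul (q s t : A) (n : ℕ) :
    RS2 q (q * s) t (n + 1) = RS2 q s t (n + 1) - s * (1 - q ^ (n + 1)) * RS2 q s t n := by
  unfold RS2
  rw [sum_range_succ' (fun c => gb q (n + 1) c * s ^ c * t ^ (n + 1 - c)) (n + 1)]
  rw [sum_range_succ' (fun c => gb q (n + 1) c * (q * s) ^ c * t ^ (n + 1 - c)) (n + 1)]
  have h : ∑ k ∈ range (n + 1), gb q (n + 1) (k + 1) * (q * s) ^ (k + 1) * t ^ (n + 1 - (k + 1)) =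
      ∑ k ∈ range (n + 1), gb q (n + 1) (k + 1) * s ^ (k + 1) * t ^ (n + 1 - (k + 1)) -
      s * (1 - q ^ (n + 1)) * ∑ k ∈ range (n + 1), gb q n k * s ^ k * t ^ (n - k) := by
    rw [mul_sum, ← sum_sub_distrib]
    apply sum_congr rfl
    intro c _
    have ha := gb_absorb q n c
    rw [Nat.add_sub_add_right]
    rw [mul_pow]
    linear_combination (-(s ^ (c + 1) * t ^ (n - c))) * ha
  rw [h]
  simp only [gb_zero_right, pow_zero, Nat.sub_zero]
  ring

lemma RS2_succ_succ (q s t : A) (n : ℕ) :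
    RS2 q s t (n + 2) =
      (s + t) * RS2 q s t (n + 1) - (1 - q ^ (n + 1)) * s * t * RS2 q s t n := by
  rw [RS2_pascal q s t (n + 1), RS2_qmul]
  ring

lemma RS2_comm (q s t : A) (n : ℕ) : RS2 q s t n = RS2 q t s n := by
  induction n using Nat.twoStepInduction with
  | zero => simp [RS2_zero]
  | one => simp [RS2_one, add_comm]
  | more n ih0 ih1 =>
    rw [RS2_succ_succ, RS2_succ_succ, ih0, ih1]
    ring

lemma RS2_zero_right (q s : A) (n : ℕ) : RS2 q s 0 n = s ^ n := by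
  rw [RS2_comm, RS2_zero_left]

lemma RS2_p_left (p : A) (n : ℕ) :
    RS2 (p ^ 2) 1 p n = ∏ j ∈ range n, (1 + p ^ (j + 1)) := by
  induction n using Nat.twoStepInduction with
  | zero => simp [RS2_zero]
  | one => simp [RS2_one]
  | more n ih0 ih1 =>
    rw [RS2_succ_succ, ih0, ih1, prod_range_succ _ (n + 1), prod_range_succ _ n]
    ring

lemma RS2_p_right (p : A) (n : ℕ) :
    RS2 (p ^ 2) p 1 n = ∏ j ∈ range n, (1 + p ^ (j + 1)) := by
  rw [RS2_comm, RS2_p_left]

/-- truncated generating function of the Rogers-Szegő polynomials -/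
lemma RS2_gen {q : A} (hq : IsNilpotent q) (u P : A) {B : ℕ} (hB : P ^ B = 0) :
    qinf q P * qinf q (u * P) * (∑ s ∈ range B, RS2 q u 1 s * P ^ s * iq q s) = 1 := by
  have h1 : ∑ s ∈ range B, RS2 q u 1 s * P ^ s * iq q s =
      ∑ s ∈ range B, ∑ c ∈ range (s + 1),
        ((u * P) ^ c * iq q c) * (P ^ (s - c) * iq q (s - c)) := by
    apply sum_congr rfl
    intro s _
    rw [RS2, sum_mul, sum_mul]
    apply sum_congr rfl
    intro c hc
    have hcs : c ≤ s := Nat.lt_succ_iff.mp (mem_range.mp hc)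
    rw [gb_eq hq hcs]
    obtain ⟨j, rfl⟩ := Nat.exists_eq_add_of_le hcs
    rw [Nat.add_sub_cancel_left, one_pow]
    have h := qf_mul_iq hq (c + j)
    calc qf q (c + j) * iq q c * iq q j * u ^ c * 1 * P ^ (c + j) * iq q (c + j)
        = (qf q (c + j) * iq q (c + j)) * (iq q c * iq q j * u ^ c * P ^ (c + j)) := by ring
      _ = _ := by rw [h]; ring
  have h2 : ∑ s ∈ range B, ∑ c ∈ range (s + 1),
        ((u * P) ^ c * iq q c) * (P ^ (s - c) * iq q (s - c)) =
      (∑ c ∈ range B, (u * P) ^ c * iq q c) * (∑ c ∈ range B, P ^ c * iq q c) := by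
    rw [sum_range_diag_flip B (fun c d => ((u * P) ^ c * iq q c) * (P ^ d * iq q d)), sum_mul]
    apply sum_congr rfl
    intro c hc
    rw [mem_range] at hc
    rw [mul_sum]
    apply sum_subset
    · intro d hd
      rw [mem_range] at hd ⊢
      omega
    · intro d _ hd
      rw [mem_range, not_lt] at hd
      have e : (u * P) ^ c * iq q c * (P ^ d * iq q d) =
          P ^ (c + d) * (u ^ c * iq q c * iq q d) := by
        rw [mul_pow, pow_add]; ring
      rw [e]
      obtain ⟨j, hj⟩ := Nat.exists_eq_add_of_le (show B ≤ c + d by omega)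
      rw [hj, pow_add, hB]
      ring
  have hPu : (u * P) ^ B = 0 := by rw [mul_pow, hB, mul_zero]
  rw [h1, h2, euler_one hq hPu, euler_one hq hB]
  have a := qinf_mul_ez (q := q) (z := P) ⟨B, hB⟩
  have b := qinf_mul_ez (q := q) (z := u * P) ⟨B, hPu⟩
  calc qinf q P * qinf q (u * P) * (ez q (u * P) * ez q P)
      = (qinf q P * ez q P) * (qinf q (u * P) * ez q (u * P)) := by ring
    _ = 1 := by rw [a, b, one_mul]

end MP4905

end

section

open Finset

namespace MP4905

universe u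

variable {A : Type u} [CommRing A]

def one0 : Bool → A := fun _ => 1

lemma Z_succ (s0 : Bool → A) (T : ℕ → Bool → Bool → A) (i : ℕ) (b : Bool) :
    Z s0 T (i + 1) b = Z s0 T i false * T i false b + Z s0 T i true * T i true b := rfl

/-- flipped transfer matrices -/
def flipT (T : ℕ → Bool → Bool → A) (i : ℕ) (b b' : Bool) : A := T i (!b) (!b')

open Polynomial in
lemma coeff_Z2 (s0 : Bool → A) (T : ℕ → Bool → Bool → A) (n r : ℕ) :
    (Z (lift0 s0) (liftT T) n false + Z (lift0 s0) (liftT T) n true).coeff r =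
      ∑ s ∈ powersetCard r (range (n + 1)), wt s0 T n s := by
  obtain ⟨h1, h2⟩ := transfer (lift0 s0) (liftT T) n
  rw [← h1, ← h2, ← sum_range_succ_powerset, finsetSum_coeff, powersetCard_eq_filter, sum_filter]
  apply sum_congr rfl
  intro s hs
  rw [wt_lift]
  have hs' := mem_powerset.mp hs
  have e : (range (n + 1)).filter (fun i => i ∈ s) = s := by
    ext i
    simp only [mem_filter, and_iff_right_iff_imp]
    intro h
    exact hs' h
  rw [e, coeff_X_pow_mul', coeff_C]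
  by_cases h : s.card = r
  · simp [h]
  · rw [if_neg h]
    split_ifs with h1 h2
    · omega
    · rfl
    · rfl

lemma wt_compl (T : ℕ → Bool → Bool → A) (n : ℕ) (s : Finset ℕ) :
    wt one0 (flipT T) n s = wt one0 T n (range (n + 1) \ s) := by
  unfold wt one0
  congr 1
  apply prod_congr rfl
  intro i hi
  have hi' := mem_range.mp hi
  unfold flipT
  have h1 : decide (i ∈ range (n + 1) \ s) = !decide (i ∈ s) := by
    have : i < n + 1 := by omega
    by_cases h : i ∈ s <;> simp [h, this]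
  have h2 : decide (i + 1 ∈ range (n + 1) \ s) = !decide (i + 1 ∈ s) := by
    have : i + 1 < n + 1 := by omega
    by_cases h : i + 1 ∈ s <;> simp [h, hi']
  rw [h1, h2]

lemma reflect (T : ℕ → Bool → Bool → A) (n r : ℕ) (hr : r ≤ n + 1)
    (h : Z (lift0 one0) (liftT T) n false + Z (lift0 one0) (liftT T) n true =
      Z (lift0 one0) (liftT (flipT T)) n false + Z (lift0 one0) (liftT (flipT T)) n true) :
    ∑ s ∈ powersetCard r (range (n + 1)), wt one0 T n s =
      ∑ s ∈ powersetCard (n + 1 - r) (range (n + 1)), wt one0 T n s := by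
  have h1 := congrArg (fun f => Polynomial.coeff f r) h
  simp only [coeff_Z2] at h1
  rw [h1]
  refine sum_bij' (fun s _ => range (n + 1) \ s) (fun s _ => range (n + 1) \ s) ?_ ?_ ?_ ?_ ?_
  · intro s hs
    obtain ⟨h1, h2⟩ := mem_powersetCard.mp hs
    rw [mem_powersetCard]
    refine ⟨sdiff_subset, ?_⟩
    rw [card_sdiff_of_subset h1, card_range, h2]
  · intro s hs
    obtain ⟨h1, h2⟩ := mem_powersetCard.mp hs
    rw [mem_powersetCard]
    refine ⟨sdiff_subset, ?_⟩
    rw [card_sdiff_of_subset h1, card_range, h2]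
    omega
  · intro s hs
    exact Finset.sdiff_sdiff_eq_self (mem_powersetCard.mp hs).1
  · intro s hs
    exact Finset.sdiff_sdiff_eq_self (mem_powersetCard.mp hs).1
  · intro s _
    rw [wt_compl]

/-! ### the functional `W` -/

def wf (p : A) (d : ℕ) : A := ∏ j ∈ range d, (1 + p ^ (j + 1))

lemma wf_succ (p : A) (d : ℕ) : wf p (d + 1) = wf p d * (1 + p ^ (d + 1)) := by
  simp [wf, prod_range_succ]

def TW (p : A) (μ : ℕ →₀ ℕ) (i : ℕ) : Bool → Bool → A
  | false, false => wf p (μ i - μ (i + 1))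
  | false, true => wf p (μ i - μ (i + 1)) * (1 - p ^ (μ i - μ (i + 1)))
  | true, false => wf p (μ i - μ (i + 1)) * (1 + p * p ^ (μ i - μ (i + 1)))
  | true, true => wf p (μ i - μ (i + 1))

lemma W_term (p : A) (n : ℕ) {μ : ℕ →₀ ℕ} (hμ : Antitone μ) (s : Finset ℕ)
    (hs : s ⊆ range (n + 1)) :
    wE (p ^ 2) (n + 1) μ s * Wf p (n + 1) (μ + ind s) = wt one0 (TW p μ) n s := by
  unfold wE Wf wt one0
  rw [prod_range_succ]
  have hn : n + 1 ∉ s := fun h => by simpa using hs h
  rw [if_neg (by tauto), mul_one, one_mul, Nat.add_sub_cancel, ← prod_mul_distrib]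
  apply prod_congr rfl
  intro i _
  have hd : μ (i + 1) ≤ μ i := hμ (Nat.le_succ i)
  change _ * wf p ((μ + ind s) i - (μ + ind s) (i + 1)) = _
  by_cases h1 : i ∈ s <;> by_cases h2 : i + 1 ∈ s
  · have e : μ i + 1 - (μ (i + 1) + 1) = μ i - μ (i + 1) := by omega
    simp [h1, h2, TW, e]
  · have e : μ i + 1 - μ (i + 1) = (μ i - μ (i + 1)) + 1 := by omega
    simp only [h1, h2, not_true_eq_false, false_and, if_false, one_mul, Finsupp.coe_add,
      Pi.add_apply, ind_apply, if_true, add_zero, e, wf_succ, decide_true, decide_false, TW]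
    ring
  · have e : μ i - (μ (i + 1) + 1) = (μ i - μ (i + 1)) - 1 := by omega
    simp only [h1, h2, not_false_eq_true, true_and, if_true, Finsupp.coe_add,
      Pi.add_apply, ind_apply, if_false, add_zero, e, decide_true, decide_false, TW]
    rcases Nat.eq_zero_or_pos (μ i - μ (i + 1)) with h0 | h0
    · rw [h0]; simp
    · obtain ⟨d, hd'⟩ : ∃ d, μ i - μ (i + 1) = d + 1 := ⟨μ i - μ (i + 1) - 1, by omega⟩
      rw [hd', Nat.add_sub_cancel, wf_succ]
      ring
  · simp [h1, h2, TW]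

open Polynomial in
lemma W_fold (p : A) (μ : ℕ →₀ ℕ) (n : ℕ) :
    (Z (lift0 one0) (liftT (TW p μ)) n false + Z (lift0 one0) (liftT (TW p μ)) n true =
      Z (lift0 one0) (liftT (flipT (TW p μ))) n false +
        Z (lift0 one0) (liftT (flipT (TW p μ))) n true) ∧
    (C p * Z (lift0 one0) (liftT (TW p μ)) n true - X * Z (lift0 one0) (liftT (TW p μ)) n false +
      Z (lift0 one0) (liftT (flipT (TW p μ))) n true -
      X * C p * Z (lift0 one0) (liftT (flipT (TW p μ))) n false = 0) := by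
  induction n with
  | zero =>
    simp only [Z, lift0, one0]
    constructor
    · trivial
    · simp only [map_one]; ring
  | succ n ih =>
    obtain ⟨h1, h2⟩ := ih
    simp only [Z, liftT, flipT, Bool.not_false, Bool.not_true, TW, map_mul, map_add, map_sub,
      map_one]
    generalize Z (lift0 one0) (liftT (TW p μ)) n true = a1 at *
    generalize Z (lift0 one0) (liftT (TW p μ)) n false = a0 at *
    generalize Z (lift0 one0) (liftT (flipT (TW p μ))) n true = b1 at *
    generalize Z (lift0 one0) (liftT (flipT (TW p μ))) n false = b0 at *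
    generalize C (wf p (μ n - μ (n + 1))) = w
    generalize C (p ^ (μ n - μ (n + 1))) = δ
    generalize C p = P at *
    constructor
    · linear_combination (w * (1 + X)) * h1 + w * δ * h2
    · linear_combination (w * X * ((P - 1) - P * δ)) * h1

theorem W_reflect (p : A) (m r : ℕ) (hr : r ≤ m) (v : M A) :
    lin (Wf p m) (E (p ^ 2) m r v) = lin (Wf p m) (E (p ^ 2) m (m - r) v) := by
  rw [lin_E, lin_E]
  congr 1
  apply lin_congr
  intro μ hμ
  unfold Eh
  cases m with
  | zero =>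
    obtain rfl : r = 0 := by omega
    rfl
  | succ n =>
    rw [sum_congr rfl (fun s hs => W_term p n hμ s (mem_powersetCard.mp hs).1),
      sum_congr rfl (fun s hs => W_term p n hμ s (mem_powersetCard.mp hs).1)]
    exact reflect _ n r hr (W_fold p μ n).1

/-! ### the functional `L♭` -/

lemma prod_range_pair (f : ℕ → A) (k : ℕ) :
    ∏ i ∈ range (2 * k), f i = ∏ i ∈ range k, (f (2 * i) * f (2 * i + 1)) := by
  induction k with
  | zero => simp
  | succ k ih =>
    rw [show 2 * (k + 1) = 2 * k + 1 + 1 by ring, prod_range_succ, prod_range_succ, ih,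
      prod_range_succ, mul_assoc]

/-- links for `L♭` -/
def TLe (q p : A) (d : ℕ) : Bool → Bool → A
  | false, false => p ^ d
  | false, true => (1 - q ^ d) * p ^ (d - 1)
  | true, false => p * p ^ d
  | true, true => p ^ d

def TLo (q : A) (d : ℕ) : Bool → Bool → A
  | false, false => 1
  | false, true => 1 - q ^ d
  | true, false => 1
  | true, true => 1

def TL (q p : A) (μ : ℕ →₀ ℕ) (i : ℕ) : Bool → Bool → A :=
  if Even i then TLe q p (μ i - μ (i + 1)) else TLo q (μ i - μ (i + 1))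

lemma TL_even (q p : A) (μ : ℕ →₀ ℕ) (i : ℕ) :
    TL q p μ (2 * i) = TLe q p (μ (2 * i) - μ (2 * i + 1)) := by
  unfold TL; rw [if_pos (by simp)]

lemma TL_odd (q p : A) (μ : ℕ →₀ ℕ) (i : ℕ) :
    TL q p μ (2 * i + 1) = TLo q (μ (2 * i + 1) - μ (2 * i + 1 + 1)) := by
  unfold TL; rw [if_neg (by simp)]

lemma L_term (q p : A) (k : ℕ) {μ : ℕ →₀ ℕ} (hμ : Antitone μ) (s : Finset ℕ) :
    wE q (2 * k) μ s * Lbf p k (μ + ind s) = wt one0 (TL q p μ) (2 * k) s := by
  unfold wE Lbf wt one0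
  rw [prod_range_pair, prod_range_pair, one_mul, ← prod_mul_distrib]
  apply prod_congr rfl
  intro i _
  rw [TL_even, TL_odd]
  have e1 : (if 2 * i ∉ s ∧ 2 * i + 1 ∈ s then 1 - q ^ (μ (2 * i) - μ (2 * i + 1)) else 1) *
      p ^ ((μ + ind s) (2 * i) - (μ + ind s) (2 * i + 1)) =
      TLe q p (μ (2 * i) - μ (2 * i + 1)) (decide (2 * i ∈ s)) (decide (2 * i + 1 ∈ s)) := by
    have hd : μ (2 * i + 1) ≤ μ (2 * i) := hμ (Nat.le_succ _)
    by_cases h1 : 2 * i ∈ s <;> by_cases h2 : 2 * i + 1 ∈ s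
    · have e : μ (2 * i) + 1 - (μ (2 * i + 1) + 1) = μ (2 * i) - μ (2 * i + 1) := by omega
      simp [h1, h2, TLe, e]
    · have e : μ (2 * i) + 1 - μ (2 * i + 1) = (μ (2 * i) - μ (2 * i + 1)) + 1 := by omega
      simp [h1, h2, TLe, e, pow_succ']
    · have e : μ (2 * i) - (μ (2 * i + 1) + 1) = (μ (2 * i) - μ (2 * i + 1)) - 1 := by omega
      simp [h1, h2, TLe, e]
    · simp [h1, h2, TLe]
  have e2 : (if 2 * i + 1 ∉ s ∧ 2 * i + 1 + 1 ∈ s then
      1 - q ^ (μ (2 * i + 1) - μ (2 * i + 1 + 1)) else 1) =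
      TLo q (μ (2 * i + 1) - μ (2 * i + 1 + 1)) (decide (2 * i + 1 ∈ s))
        (decide (2 * i + 1 + 1 ∈ s)) := by
    by_cases h1 : 2 * i + 1 ∈ s <;> by_cases h2 : 2 * i + 1 + 1 ∈ s <;> simp [h1, h2, TLo]
  rw [← e1, ← e2]
  ring

open Polynomial in
lemma L_fold (q p : A) (μ : ℕ →₀ ℕ) (j : ℕ) :
    (X * Z (lift0 one0) (liftT (TL q p μ)) (2 * j) false =
      Z (lift0 one0) (liftT (flipT (TL q p μ))) (2 * j) true) ∧
    (Z (lift0 one0) (liftT (TL q p μ)) (2 * j) false +
      (C p + X) * Z (lift0 one0) (liftT (TL q p μ)) (2 * j) true =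
      (1 + X * C p) * Z (lift0 one0) (liftT (flipT (TL q p μ))) (2 * j) false +
      X * Z (lift0 one0) (liftT (flipT (TL q p μ))) (2 * j) true) ∧
    (Z (lift0 one0) (liftT (TL q p μ)) (2 * j + 1) false +
      Z (lift0 one0) (liftT (TL q p μ)) (2 * j + 1) true =
      Z (lift0 one0) (liftT (flipT (TL q p μ))) (2 * j + 1) false +
        Z (lift0 one0) (liftT (flipT (TL q p μ))) (2 * j + 1) true) ∧
    ((C p + X) * X * Z (lift0 one0) (liftT (TL q p μ)) (2 * j + 1) false =
      (1 + X * C p) * Z (lift0 one0) (liftT (flipT (TL q p μ))) (2 * j + 1) true) := by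
  have step : ∀ j, (X * Z (lift0 one0) (liftT (TL q p μ)) (2 * j) false =
      Z (lift0 one0) (liftT (flipT (TL q p μ))) (2 * j) true) →
    (Z (lift0 one0) (liftT (TL q p μ)) (2 * j) false +
      (C p + X) * Z (lift0 one0) (liftT (TL q p μ)) (2 * j) true =
      (1 + X * C p) * Z (lift0 one0) (liftT (flipT (TL q p μ))) (2 * j) false +
      X * Z (lift0 one0) (liftT (flipT (TL q p μ))) (2 * j) true) →
    (Z (lift0 one0) (liftT (TL q p μ)) (2 * j + 1) false +
      Z (lift0 one0) (liftT (TL q p μ)) (2 * j + 1) true =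
      Z (lift0 one0) (liftT (flipT (TL q p μ))) (2 * j + 1) false +
        Z (lift0 one0) (liftT (flipT (TL q p μ))) (2 * j + 1) true) ∧
    ((C p + X) * X * Z (lift0 one0) (liftT (TL q p μ)) (2 * j + 1) false =
      (1 + X * C p) * Z (lift0 one0) (liftT (flipT (TL q p μ))) (2 * j + 1) true) := by
    intro j h1 h2
    simp only [Z, liftT, flipT, Bool.not_false, Bool.not_true, TL_even, TLe, map_mul, map_sub,
      map_one]
    generalize Z (lift0 one0) (liftT (TL q p μ)) (2 * j) true = a1 at *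
    generalize Z (lift0 one0) (liftT (TL q p μ)) (2 * j) false = a0 at *
    generalize Z (lift0 one0) (liftT (flipT (TL q p μ))) (2 * j) true = b1 at *
    generalize Z (lift0 one0) (liftT (flipT (TL q p μ))) (2 * j) false = b0 at *
    generalize C (p ^ (μ (2 * j) - μ (2 * j + 1))) = δ
    generalize C (p ^ (μ (2 * j) - μ (2 * j + 1) - 1)) = β
    generalize C (q ^ (μ (2 * j) - μ (2 * j + 1))) = κ
    generalize C p = P at *
    constructor
    · linear_combination (1 - κ) * β * h1 + δ * h2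
    · linear_combination (X * δ) * h1 + (X * δ * P) * h2
  induction j with
  | zero =>
    have h1 : (X : A[X]) * Z (lift0 one0) (liftT (TL q p μ)) (2 * 0) false =
      Z (lift0 one0) (liftT (flipT (TL q p μ))) (2 * 0) true := by simp [Z, lift0, one0]
    have h2 : Z (lift0 one0) (liftT (TL q p μ)) (2 * 0) false +
      (C p + X) * Z (lift0 one0) (liftT (TL q p μ)) (2 * 0) true =
      (1 + X * C p) * Z (lift0 one0) (liftT (flipT (TL q p μ))) (2 * 0) false +
      X * Z (lift0 one0) (liftT (flipT (TL q p μ))) (2 * 0) true := by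
        simp only [Nat.mul_zero, Z, lift0, one0, map_one]; ring
    exact ⟨h1, h2, step 0 h1 h2⟩
  | succ j ih =>
    obtain ⟨_, _, h3, h4⟩ := ih
    have h1 : X * Z (lift0 one0) (liftT (TL q p μ)) (2 * (j + 1)) false =
      Z (lift0 one0) (liftT (flipT (TL q p μ))) (2 * (j + 1)) true := by
      rw [show 2 * (j + 1) = 2 * j + 1 + 1 by ring]
      rw [Z_succ _ _ (2 * j + 1), Z_succ _ _ (2 * j + 1)]
      simp only [liftT, flipT, Bool.not_false, Bool.not_true, TL_odd, TLo, map_one]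
      linear_combination X * h3
    have h2 : Z (lift0 one0) (liftT (TL q p μ)) (2 * (j + 1)) false +
      (C p + X) * Z (lift0 one0) (liftT (TL q p μ)) (2 * (j + 1)) true =
      (1 + X * C p) * Z (lift0 one0) (liftT (flipT (TL q p μ))) (2 * (j + 1)) false +
      X * Z (lift0 one0) (liftT (flipT (TL q p μ))) (2 * (j + 1)) true := by
      rw [show 2 * (j + 1) = 2 * j + 1 + 1 by ring]
      rw [Z_succ _ _ (2 * j + 1), Z_succ _ _ (2 * j + 1), Z_succ _ _ (2 * j + 1),
        Z_succ _ _ (2 * j + 1)]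
      simp only [liftT, flipT, Bool.not_false, Bool.not_true, TL_odd, TLo, map_one, map_sub]
      linear_combination (1 + (C p + X) * X) * h3 -
        C (q ^ (μ (2 * j + 1) - μ (2 * j + 1 + 1))) * h4
    exact ⟨h1, h2, step (j + 1) h1 h2⟩

theorem L_reflect (q p : A) (k r : ℕ) (hr : r ≤ 2 * k) (v : M A) :
    lin (Lbf p k) (E q (2 * k) r v) = lin (Lbf p k) (E q (2 * k) (2 * k - r) v) := by
  rw [lin_E, lin_E]
  congr 1
  apply lin_congr
  intro μ hμ
  unfold Eh
  cases k with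
  | zero =>
    obtain rfl : r = 0 := by omega
    rfl
  | succ k =>
    rw [sum_congr rfl (fun s hs => L_term q p (k + 1) hμ s),
      sum_congr rfl (fun s hs => L_term q p (k + 1) hμ s)]
    have e : ∀ s ⊆ range (2 * k + 1 + 1), wt one0 (TL q p μ) (2 * (k + 1)) s =
        wt one0 (TL q p μ) (2 * k + 1) s := by
      intro s hs
      rw [show 2 * (k + 1) = 2 * k + 1 + 1 by ring, wt_succ, TL_odd]
      have hn : 2 * k + 1 + 1 ∉ s := fun h => by simpa using hs h
      simp only [hn, decide_false]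
      cases decide (2 * k + 1 ∈ s) <;> simp [TLo]
    have e2 : 2 * (k + 1) = 2 * k + 1 + 1 := by ring
    have := reflect (TL q p μ) (2 * k + 1) r (by omega) (L_fold q p μ k).2.2.1
    rw [sum_congr rfl (fun s hs => e s (e2 ▸ (mem_powersetCard.mp hs).1)),
      sum_congr rfl (fun s hs => e s (e2 ▸ (mem_powersetCard.mp hs).1)), e2]
    exact this

end MP4905

end
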