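import Mathlib
import Pool.Agent.Work.MP_4905b1_co.Bd.B01
import Pool.Agent.Work.MP_4905b1_co.Bd.B02

/-! Bundle of small proof modules (one section per former module). -/

section

/-!
Lowering the number of rows modulo the elements `E_r w - E_{m-r} w`.
-/

open Finset

namespace MP4905

universe u

variable {A : Type u} [CommRing A]

lemma deg_add (μ ν : ℕ →₀ ℕ) : deg (μ + ν) = deg μ + deg ν := by
  unfold deg
  exact Finsupp.sum_add_index' (fun _ => rfl) (fun _ _ _ => rfl)

lemma deg_eq_sum_range (μ : ℕ →₀ ℕ) {N : ℕ} (h : ∀ i, N ≤ i → μ i = 0) :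
    deg μ = ∑ i ∈ range N, μ i := by
  unfold deg
  rw [Finsupp.sum]
  apply sum_subset
  · intro i hi
    rw [mem_range]
    by_contra hc
    exact (Finsupp.mem_support_iff.mp hi) (h i (by omega))
  · intro i _ hi
    exact Finsupp.notMem_support_iff.mp hi

lemma deg_ind (s : Finset ℕ) : deg (ind s) = s.card := by
  have hN : ∃ N, ∀ i ∈ s, i < N := ⟨s.sup id + 1, fun i hi =>
    Nat.lt_succ_of_le (Finset.le_sup (f := id) hi)⟩
  obtain ⟨N, hN⟩ := hN
  rw [deg_eq_sum_range (ind s) (N := N)]
  · simp only [ind_apply, sum_ite_mem, sum_const, smul_eq_mul, mul_one]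
    rw [inter_eq_right.mpr]
    intro i hi
    exact mem_range.mpr (hN i hi)
  · intro i hi
    rw [ind_apply, if_neg]
    intro h
    have := hN i h
    omega

theorem span_S (q : A) (k : ℕ) (Jset : Submodule A (M A))
    (hJ : ∀ μ : ℕ →₀ ℕ, μ k = 0 → Antitone μ →
      (∀ ν : ℕ →₀ ℕ, ν k = 0 → Antitone ν → deg ν < deg μ → ket A ν ∈ Jset ⊔ Null q (2 * k)) →
      ket A μ ∈ Jset ⊔ Null q (2 * k)) :
    ∀ μ : ℕ →₀ ℕ, μ (2 * k) = 0 → Antitone μ → ket A μ ∈ Jset ⊔ Null q (2 * k) := by
  set W : Submodule A (M A) := Jset ⊔ Null q (2 * k) with hW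
  -- outer induction on the degree
  have main : ∀ D : ℕ, ∀ μ : ℕ →₀ ℕ, μ (2 * k) = 0 → Antitone μ → deg μ = D → ket A μ ∈ W := by
    intro D
    induction D using Nat.strong_induction_on with
    | _ D ihD =>
      have hlow : ∀ ν : ℕ →₀ ℕ, ν (2 * k) = 0 → deg ν < D → ket A ν ∈ W := by
        intro ν h0 hd
        by_cases ha : Antitone (ν : ℕ → ℕ)
        · exact ihD (deg ν) hd ν h0 ha rfl
        · rw [ket_of_not ha]
          exact W.zero_mem
      -- inner downward induction on the number of rows
      have inner : ∀ t l : ℕ, l + t = 2 * k + 1 → ∀ μ : ℕ →₀ ℕ, μ (2 * k) = 0 → Antitone μ →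
          deg μ = D → (∀ i, i < l → μ i ≠ 0) → ket A μ ∈ W := by
        intro t
        induction t with
        | zero =>
          intro l hl μ h0 _ _ hrows
          exact absurd h0 (hrows (2 * k) (by omega))
        | succ t iht =>
          intro l hl μ h0 ha hdeg hrows
          by_cases hl0 : μ l = 0
          swap
          · refine iht (l + 1) (by omega) μ h0 ha hdeg ?_
            intro i hi
            rcases Nat.lt_or_ge i l with h | h
            · exact hrows i h
            · have : i = l := by omega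
              rw [this]
              exact hl0
          · rcases Nat.lt_or_ge k l with hkl | hkl
            swap
            · -- few rows
              apply hJ μ (Nat.eq_zero_of_le_zero (hl0 ▸ ha hkl)) ha
              intro ν hν hν' hνd
              refine hlow ν (Nat.eq_zero_of_le_zero (hν ▸ hν' (by omega))) (hdeg ▸ hνd)
            · -- many rows
              set ν : ℕ →₀ ℕ := μ - ind (range l) with hν
              have hνi : ∀ i, ν i = μ i - (if i < l then 1 else 0) := by
                intro i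
                rw [hν, Finsupp.tsub_apply, ind_apply]
                simp only [mem_range]
              have hadd : ν + ind (range l) = μ := by
                ext i
                rw [Finsupp.add_apply, hνi, ind_apply]
                simp only [mem_range]
                by_cases h : i < l
                · rw [if_pos h]
                  have := hrows i h
                  omega
                · rw [if_neg h]
                  omega
              have hνa : Antitone (ν : ℕ → ℕ) := by
                apply antitone_nat_of_succ_le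
                intro i
                rw [hνi, hνi]
                have h1 : μ (i + 1) ≤ μ i := ha (Nat.le_succ i)
                by_cases h : i + 1 < l
                · rw [if_pos h, if_pos (by omega)]
                  omega
                · rw [if_neg h]
                  by_cases h' : i < l
                  · rw [if_pos h']
                    have : i + 1 = l := by omega
                    rw [this, hl0]
                    omega
                  · rw [if_neg h']
                    omega
              have hdν : deg ν + l = D := by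
                rw [← hdeg, ← hadd, deg_add, deg_ind, card_range]
              have hν0 : ν (2 * k) = 0 := by
                rw [hνi, h0]
                omega
              have hE := E_ket q (2 * k) l hνa
              have hmem : range l ∈ powersetCard l (range (2 * k)) := by
                rw [mem_powersetCard, card_range]
                exact ⟨range_subset_range.mpr (by omega), rfl⟩
              rw [← add_sum_erase _ _ hmem, hadd] at hE
              have hw : wE q (2 * k) ν (range l) = 1 := by
                unfold wE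
                apply prod_eq_one
                intro i _
                rw [if_neg]
                rintro ⟨h1, h2⟩
                rw [mem_range] at h1 h2
                omega
              rw [hw, one_smul] at hE
              have hket : ket A μ = (E q (2 * k) l (ket A ν) - E q (2 * k) (2 * k - l) (ket A ν)) +
                  E q (2 * k) (2 * k - l) (ket A ν) -
                  ∑ s ∈ (powersetCard l (range (2 * k))).erase (range l),
                    wE q (2 * k) ν s • ket A (ν + ind s) := by
                rw [hE]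
                abel
              rw [hket]
              refine W.sub_mem (W.add_mem ?_ ?_) ?_
              · apply Submodule.mem_sup_right
                exact Submodule.subset_span ⟨l, ket A ν, by omega, rfl⟩
              · rw [E_ket q (2 * k) (2 * k - l) hνa]
                refine W.sum_mem fun s hs => W.smul_mem _ (hlow _ ?_ ?_)
                · obtain ⟨hs1, hs2⟩ := mem_powersetCard.mp hs
                  rw [Finsupp.add_apply, hν0, ind_apply, if_neg]
                  intro h
                  have := mem_range.mp (hs1 h)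
                  omega
                · obtain ⟨hs1, hs2⟩ := mem_powersetCard.mp hs
                  rw [deg_add, deg_ind, hs2]
                  omega
              · refine W.sum_mem fun s hs => W.smul_mem _ ?_
                obtain ⟨hne, hs'⟩ := mem_erase.mp hs
                obtain ⟨hs1, hs2⟩ := mem_powersetCard.mp hs'
                by_cases hanti : Antitone ((ν + ind s : ℕ →₀ ℕ) : ℕ → ℕ)
                swap
                · rw [ket_of_not hanti]
                  exact W.zero_mem
                · refine iht (l + 1) (by omega) _ ?_ hanti ?_ ?_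
                  · rw [Finsupp.add_apply, hν0, ind_apply, if_neg]
                    intro h
                    have := mem_range.mp (hs1 h)
                    omega
                  · rw [deg_add, deg_ind, hs2]
                    exact hdν
                  · have hj : ∃ j ∈ s, l ≤ j := by
                      by_contra hcon
                      apply hne
                      apply eq_of_subset_of_card_le
                      · intro j hj
                        rw [mem_range]
                        by_contra hc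
                        exact hcon ⟨j, hj, by omega⟩
                      · rw [card_range, hs2]
                    obtain ⟨j, hj, hlj⟩ := hj
                    intro i hi
                    have h1 : (ν + ind s : ℕ →₀ ℕ) j ≤ (ν + ind s : ℕ →₀ ℕ) i := hanti (by omega)
                    have h2 : 1 ≤ (ν + ind s : ℕ →₀ ℕ) j := by
                      rw [Finsupp.add_apply, ind_apply, if_pos hj]
                      omega
                    omega
      intro μ h0 ha hdeg
      exact inner (2 * k + 1) 0 (by omega) μ h0 ha hdeg (fun i hi => absurd hi (by omega))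
  intro μ h0 ha
  exact main (deg μ) μ h0 ha rfl

end MP4905

end

section

/-!
The Pieri rule for the alternating sums `Alt`.
-/

open Finset

namespace MP4905

universe u

variable {A : Type u} [CommRing A]

namespace AP

lemma prod_pairs {n : ℕ} (f : Fin n → Fin n → A) :
    ∏ i : Fin n, ∏ j ∈ Ioi i, f i j =
      ∏ p ∈ (univ : Finset (Fin n × Fin n)).filter (fun p => p.1 < p.2), f p.1 p.2 := by
  rw [prod_filter, Fintype.prod_prod_type]
  apply prod_congr rfl
  intro i _
  rw [← prod_filter]
  apply prod_congr _ (fun _ _ => rfl)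
  ext j
  simp

lemma prod_pairs_swap {n : ℕ} (f : Fin n → Fin n → A) (a b : Fin n) (hab : (a : ℕ) + 1 = b) :
    ∏ p ∈ ((univ : Finset (Fin n × Fin n)).filter (fun p => p.1 < p.2)).erase (a, b),
        f (Equiv.swap a b p.1) (Equiv.swap a b p.2) =
      ∏ p ∈ ((univ : Finset (Fin n × Fin n)).filter (fun p => p.1 < p.2)).erase (a, b),
        f p.1 p.2 := by
  have key : ∀ p : Fin n × Fin n,
      p ∈ ((univ : Finset (Fin n × Fin n)).filter (fun p => p.1 < p.2)).erase (a, b) →
      (Equiv.swap a b p.1, Equiv.swap a b p.2) ∈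
        ((univ : Finset (Fin n × Fin n)).filter (fun p => p.1 < p.2)).erase (a, b) := by
    rintro ⟨c, d⟩ hp
    simp only [mem_erase, ne_eq, Prod.mk.injEq, mem_filter, mem_univ, true_and] at hp ⊢
    obtain ⟨h1, h2⟩ := hp
    simp only [Equiv.swap_apply_def]
    rw [Fin.lt_def] at h2 ⊢
    simp only [Fin.ext_iff] at h1 ⊢
    constructor
    · intro h3
      apply h1
      split_ifs at h3 <;> omega
    · split_ifs <;> omega
  apply prod_nbij' (fun p => (Equiv.swap a b p.1, Equiv.swap a b p.2))
    (fun p => (Equiv.swap a b p.1, Equiv.swap a b p.2)) key key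
  · intro p _; simp
  · intro p _; simp
  · intro p _; simp

end AP

theorem alt_swap (t : A) {n : ℕ} (x : Fin n → A) (α : ℕ → ℕ) (j : ℕ) (hj : j + 1 < n)
    (h : α (j + 1) = α j + 1) :
    Alt t x α = t * Alt t x (Function.update (Function.update α j (α j + 1)) (j + 1) (α j)) := by
  set a : Fin n := ⟨j, by omega⟩ with ha
  set b : Fin n := ⟨j + 1, hj⟩ with hb
  have hab : (a : ℕ) + 1 = b := rfl
  have hne : a ≠ b := by intro h; rw [Fin.ext_iff] at h; simp [ha, hb] at h
  set β := Function.update (Function.update α j (α j + 1)) (j + 1) (α j) with hβ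
  set P := ((univ : Finset (Fin n × Fin n)).filter (fun p => p.1 < p.2)).erase (a, b) with hP
  -- the common part
  set R : Equiv.Perm (Fin n) → A := fun w =>
    (∏ i ∈ (univ.erase a).erase b, x (w i) ^ α i) * (x (w a) ^ α j * x (w b) ^ α j) *
      ∏ p ∈ P, (x (w p.1) - t * x (w p.2)) with hR
  have hmem : (a, b) ∈ (univ : Finset (Fin n × Fin n)).filter (fun p => p.1 < p.2) := by
    rw [mem_filter, Fin.lt_def]
    exact ⟨mem_univ _, by simp [ha, hb]⟩
  have hbm : b ∈ (univ.erase a : Finset (Fin n)) := by simp [hne.symm]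
  have hα : ∀ w : Equiv.Perm (Fin n),
      (∏ i : Fin n, x (w i) ^ α i) * ∏ i : Fin n, ∏ j ∈ Ioi i, (x (w i) - t * x (w j)) =
      R w * (x (w b) * (x (w a) - t * x (w b))) := by
    intro w
    rw [AP.prod_pairs (fun i j => x (w i) - t * x (w j)), ← mul_prod_erase _ _ hmem,
      ← mul_prod_erase univ _ (mem_univ a), ← mul_prod_erase _ _ hbm]
    have e1 : α (a : ℕ) = α j := rfl
    have e2 : α (b : ℕ) = α j + 1 := h
    rw [e1, e2, hR]
    ring
  have hβ' : ∀ w : Equiv.Perm (Fin n),
      (∏ i : Fin n, x (w i) ^ β i) * ∏ i : Fin n, ∏ j ∈ Ioi i, (x (w i) - t * x (w j)) =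
      R w * (x (w a) * (x (w a) - t * x (w b))) := by
    intro w
    rw [AP.prod_pairs (fun i j => x (w i) - t * x (w j)), ← mul_prod_erase _ _ hmem,
      ← mul_prod_erase univ _ (mem_univ a), ← mul_prod_erase _ _ hbm]
    have e1 : β (a : ℕ) = α j + 1 := by simp [hβ, ha]
    have e2 : β (b : ℕ) = α j := by simp [hβ, hb]
    have e3 : ∏ i ∈ (univ.erase a).erase b, x (w i) ^ β i =
        ∏ i ∈ (univ.erase a).erase b, x (w i) ^ α i := by
      apply prod_congr rfl
      intro i hi
      simp only [mem_erase, mem_univ, and_true] at hi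
      congr 1
      rw [hβ, Function.update_of_ne, Function.update_of_ne]
      · intro h; exact hi.2 (Fin.ext h)
      · intro h; exact hi.1 (Fin.ext h)
    rw [e1, e2, e3, hR]
    ring
  have hRs : ∀ w : Equiv.Perm (Fin n), R (w * Equiv.swap a b) = R w := by
    intro w
    simp only [hR, Equiv.Perm.mul_apply]
    rw [hP, AP.prod_pairs_swap (fun i j => x (w i) - t * x (w j)) a b hab]
    rw [Equiv.swap_apply_left, Equiv.swap_apply_right]
    have e : ∏ i ∈ (univ.erase a).erase b, x (w (Equiv.swap a b i)) ^ α i =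
        ∏ i ∈ (univ.erase a).erase b, x (w i) ^ α i := by
      apply prod_congr rfl
      intro i hi
      simp only [mem_erase, mem_univ, and_true] at hi
      rw [Equiv.swap_apply_of_ne_of_ne hi.2 hi.1]
    rw [e]
    ring
  rw [← sub_eq_zero]
  unfold Alt
  rw [mul_sum, ← sum_sub_distrib]
  apply sum_involution (fun w _ => w * Equiv.swap a b)
  · intro w _
    rw [hα, hβ', hα, hβ', hRs, Equiv.Perm.sign_mul, Equiv.Perm.sign_swap hne]
    simp only [Equiv.Perm.mul_apply, Equiv.swap_apply_left, Equiv.swap_apply_right]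
    simp only [mul_neg, mul_one, Units.val_neg, neg_smul]
    simp only [zsmul_eq_mul]
    ring
  · intro w _ _ h3
    have : Equiv.swap a b = 1 := by
      simpa using h3
    exact hne (Equiv.swap_eq_one_iff.mp this)
  · intro w _; exact mem_univ _
  · intro w _
    rw [mul_assoc, Equiv.swap_mul_self, mul_one]

namespace AP

lemma esy_perm {n : ℕ} (x : Fin n → A) (r : ℕ) (w : Equiv.Perm (Fin n)) :
    esy x r = ∑ S ∈ powersetCard r (univ : Finset (Fin n)), ∏ i ∈ S, x (w i) := by
  unfold esy
  have : (univ : Finset (Fin n)) = univ.map w.toEmbedding := by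
    simp
  conv_lhs => rw [this, powersetCard_map, sum_map]
  apply sum_congr rfl
  intro S _
  change ∏ i ∈ S.map w.toEmbedding, x i = _
  rw [prod_map]
  rfl

lemma sum_powersetCard_range {n : ℕ} (r : ℕ) (f : Finset ℕ → A) :
    ∑ S ∈ powersetCard r (range n), f S =
      ∑ S ∈ powersetCard r (univ : Finset (Fin n)), f (S.map Fin.valEmbedding) := by
  have : range n = (univ : Finset (Fin n)).map Fin.valEmbedding := by
    ext i
    simp only [mem_range, mem_map, mem_univ, true_and, Fin.valEmbedding_apply]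
    constructor
    · intro h; exact ⟨⟨i, h⟩, rfl⟩
    · rintro ⟨a, rfl⟩; exact a.2
  rw [this, powersetCard_map, sum_map]
  rfl

end AP

theorem alt_esy (t : A) {n : ℕ} (x : Fin n → A) (α : ℕ → ℕ) (r : ℕ) :
    esy x r * Alt t x α =
      ∑ S ∈ powersetCard r (range n), Alt t x (fun j => α j + if j ∈ S then 1 else 0) := by
  rw [AP.sum_powersetCard_range]
  unfold Alt
  rw [sum_comm, mul_sum]
  apply sum_congr rfl
  intro w _
  rw [← smul_sum, ← sum_mul, mul_smul_comm, ← mul_assoc, AP.esy_perm x r w, sum_mul]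
  congr 2
  apply sum_congr rfl
  intro S _
  have : ∏ i ∈ S, x (w i) = ∏ i : Fin n, x (w i) ^ (if i ∈ S then 1 else 0) := by
    rw [← prod_subset (subset_univ S)]
    · apply prod_congr rfl
      intro i hi
      simp [hi]
    · intro i _ hi
      simp [hi]
  rw [this, ← prod_mul_distrib]
  apply prod_congr rfl
  intro i _
  rw [mul_comm, ← pow_add]
  congr 2
  by_cases hi : i ∈ S
  · have : (i : ℕ) ∈ map Fin.valEmbedding S := mem_map_of_mem Fin.valEmbedding hi
    rw [if_pos hi, if_pos this]
  · rw [if_neg hi, if_neg]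
    intro h
    obtain ⟨a, ha, hai⟩ := mem_map.mp h
    exact hi (Fin.ext hai ▸ ha)

namespace AP

/-- moving a gap to the right end -/
lemma move_gap (t : A) (G : Finset ℕ → A) (a d c : ℕ) (hc : c + 1 ≤ d)
    (H : ∀ S ⊆ Ico a (a + (d + 1)), ∀ j, a ≤ j → j + 1 < a + (d + 1) → j ∉ S → j + 1 ∈ S →
      G S = t * G (insert j (S.erase (j + 1)))) :
    ∀ k ≤ c + 1, G (Ico (a + 1) (a + 1 + (c + 1))) =
      t ^ k * G (Ico a (a + k) ∪ Ico (a + k + 1) (a + 1 + (c + 1))) := by
  intro k
  induction k with
  | zero => intro _; simp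
  | succ k ih =>
    intro hk
    rw [ih (by omega), H _ _ (a + k) (by omega) (by omega) (by simp)
      (by simp only [mem_union, mem_Ico]; omega), ← mul_assoc, ← pow_succ]
    · congr 2
      ext i
      simp only [mem_insert, mem_erase, mem_union, mem_Ico]
      omega
    · intro i hi
      simp only [mem_union, mem_Ico] at hi ⊢
      omega

lemma block (t : A) (d : ℕ) : ∀ (G : Finset ℕ → A) (a c : ℕ)
    (_ : ∀ S ⊆ Ico a (a + d), ∀ j, a ≤ j → j + 1 < a + d → j ∉ S → j + 1 ∈ S →
      G S = t * G (insert j (S.erase (j + 1)))),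
    ∑ S ∈ powersetCard c (Ico a (a + d)), G S = gb t d c * G (Ico a (a + c)) := by
  induction d with
  | zero =>
    intro G a c _
    cases c with
    | zero => simp
    | succ c =>
      rw [gb_zero_succ, zero_mul, powersetCard_eq_empty.mpr (by simp), sum_empty]
  | succ d ih =>
    intro G a c H
    cases c with
    | zero => simp
    | succ c =>
      have e1 : Ico a (a + (d + 1)) = insert a (Ico (a + 1) (a + 1 + d)) := by
        ext i; simp only [mem_insert, mem_Ico]; omega
      have hna : a ∉ Ico (a + 1) (a + 1 + d) := by simp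
      rw [e1, powersetCard_succ_insert hna, sum_union, sum_image]
      · rw [ih G (a + 1) (c + 1), ih (fun S => G (insert a S)) (a + 1) c, gb_succ_succ, add_mul,
          add_comm]
        · congr 1
          · congr 2
            ext i; simp only [mem_insert, mem_Ico]; omega
          · rcases Nat.lt_or_ge d (c + 1) with h | h
            · rw [gb_eq_zero t h]; ring
            · rw [move_gap t G a d c h H (c + 1) le_rfl]
              have e2 : Ico a (a + (c + 1)) ∪ Ico (a + (c + 1) + 1) (a + 1 + (c + 1)) =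
                  Ico a (a + (c + 1)) := by
                ext i; simp only [mem_union, mem_Ico]; omega
              rw [e2]
              ring
        · intro S hS j h1 h2 h3 h4
          have hS' : ∀ i ∈ S, a + 1 ≤ i ∧ i < a + 1 + d := fun i hi => mem_Ico.mp (hS hi)
          change G (insert a S) = t * G (insert a (insert j (S.erase (j + 1))))
          rw [H (insert a S) _ j (by omega) (by omega)]
          · congr 2
            ext i
            simp only [mem_insert, mem_erase]
            constructor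
            · rintro (h | ⟨h, h' | h'⟩)
              · exact Or.inr (Or.inl h)
              · exact Or.inl h'
              · exact Or.inr (Or.inr ⟨h, h'⟩)
            · rintro (h | h | ⟨h, h'⟩)
              · exact Or.inr ⟨by omega, Or.inl h⟩
              · exact Or.inl h
              · exact Or.inr ⟨h, Or.inr h'⟩
          · simp only [mem_insert, not_or]
            exact ⟨by omega, h3⟩
          · exact mem_insert_of_mem h4
          · intro i hi
            rcases mem_insert.mp hi with h | h
            · rw [mem_Ico]; omega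
            · have := hS' i h; rw [mem_Ico]; omega
        · intro S hS j h1 h2 h3 h4
          apply H S _ j (by omega) (by omega) h3 h4
          intro i hi
          have := mem_Ico.mp (hS hi)
          rw [mem_Ico]; omega
      · intro S hS S' hS' h
        have h1 : a ∉ S := fun hh => hna ((mem_powersetCard.mp hS).1 hh)
        have h2 : a ∉ S' := fun hh => hna ((mem_powersetCard.mp hS').1 hh)
        rw [← erase_insert h1, ← erase_insert h2, h]
      · rw [disjoint_left]
        intro S hS hS'
        obtain ⟨S'', _, rfl⟩ := mem_image.mp hS'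
        exact hna ((mem_powersetCard.mp hS).1 (mem_insert_self _ _))

lemma sum_powersetCard_union {U V : Finset ℕ} (h : Disjoint U V) (r : ℕ) (f : Finset ℕ → A) :
    ∑ S ∈ powersetCard r (U ∪ V), f S =
      ∑ p ∈ antidiagonal r, ∑ S ∈ powersetCard p.1 U, ∑ S' ∈ powersetCard p.2 V, f (S ∪ S') := by
  simp_rw [sum_sigma']
  have key : ∀ S S' : Finset ℕ, S ⊆ U → S' ⊆ V → (S ∪ S') ∩ U = S ∧ (S ∪ S') ∩ V = S' := by
    intro S S' h1 h2
    constructor
    · ext i
      simp only [mem_inter, mem_union]
      constructor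
      · rintro ⟨h3 | h3, h4⟩
        · exact h3
        · exact absurd (h2 h3) (disjoint_left.mp h h4)
      · intro h3; exact ⟨Or.inl h3, h1 h3⟩
    · ext i
      simp only [mem_inter, mem_union]
      constructor
      · rintro ⟨h3 | h3, h4⟩
        · exact absurd h4 (disjoint_left.mp h (h1 h3))
        · exact h3
      · intro h3; exact ⟨Or.inr h3, h2 h3⟩
  refine sum_bij' (fun S _ => ⟨((S ∩ U).card, (S ∩ V).card), ⟨S ∩ U, S ∩ V⟩⟩)
    (fun z _ => z.2.1 ∪ z.2.2) ?_ ?_ ?_ ?_ ?_
  · intro S hS
    rw [mem_powersetCard] at hS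
    simp only [mem_sigma, HasAntidiagonal.mem_antidiagonal, mem_powersetCard, inter_subset_right, and_true]
    rw [← hS.2, ← card_union_of_disjoint, ← inter_union_distrib_left, inter_eq_left.mpr hS.1]
    exact h.mono inter_subset_right inter_subset_right
  · rintro ⟨⟨p, q⟩, ⟨S, S'⟩⟩ hz
    simp only [mem_sigma, HasAntidiagonal.mem_antidiagonal, mem_powersetCard] at hz ⊢
    obtain ⟨h1, ⟨h2, h3⟩, h4, h5⟩ := hz
    refine ⟨union_subset_union h2 h4, ?_⟩
    rw [card_union_of_disjoint (h.mono h2 h4)]
    omega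
  · intro S hS
    rw [mem_powersetCard] at hS
    rw [← inter_union_distrib_left, inter_eq_left.mpr hS.1]
  · rintro ⟨⟨p, q⟩, ⟨S, S'⟩⟩ hz
    simp only [mem_sigma, HasAntidiagonal.mem_antidiagonal, mem_powersetCard] at hz ⊢
    obtain ⟨h1, ⟨h2, h3⟩, h4, h5⟩ := hz
    obtain ⟨k1, k2⟩ := key S S' h2 h4
    rw [k1, k2, h3, h5]
  · intro S hS
    rw [mem_powersetCard] at hS
    rw [← inter_union_distrib_left, inter_eq_left.mpr hS.1]

lemma sum_finsuppAntidiag_range_succ (k r : ℕ) (f : (ℕ →₀ ℕ) → A) :
    ∑ c ∈ finsuppAntidiag (range (k + 1)) r, f c =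
      ∑ p ∈ antidiagonal r, ∑ c ∈ finsuppAntidiag (range k) p.2, f (c.update k p.1) := by
  rw [sum_sigma']
  have hz : ∀ (p : ℕ) (c : ℕ →₀ ℕ), c ∈ finsuppAntidiag (range k) p → c k = 0 := by
    intro p c hc
    by_contra h
    have := (mem_finsuppAntidiag.mp hc).2 (Finsupp.mem_support_iff.mpr h)
    simp at this
  refine sum_bij' (fun c _ => ⟨(c k, r - c k), c.erase k⟩) (fun z _ => z.2.update k z.1.1)
    ?_ ?_ ?_ ?_ ?_
  · intro c hc
    rw [mem_finsuppAntidiag, sum_range_succ] at hc
    simp only [mem_sigma, HasAntidiagonal.mem_antidiagonal, mem_finsuppAntidiag]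
    obtain ⟨h1, h2⟩ := hc
    refine ⟨by omega, ?_, ?_⟩
    · have : ∑ i ∈ range k, (c.erase k) i = ∑ i ∈ range k, c i := by
        apply sum_congr rfl
        intro i hi
        rw [mem_range] at hi
        rw [Finsupp.erase_ne (by omega)]
      rw [this]
      exact (Nat.sub_eq_of_eq_add h1.symm).symm
    · intro i hi
      rw [Finsupp.support_erase, mem_erase] at hi
      have := h2 hi.2
      rw [mem_range] at this ⊢
      omega
  · rintro ⟨⟨p, q⟩, c⟩ hc
    have hc0 := hz q c (by simp only [mem_sigma] at hc; exact hc.2)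
    simp only [mem_sigma, HasAntidiagonal.mem_antidiagonal, mem_finsuppAntidiag] at hc ⊢
    obtain ⟨h1, h2, h3⟩ := hc
    rw [sum_range_succ]
    constructor
    · have : ∑ i ∈ range k, (c.update k p) i = ∑ i ∈ range k, c i := by
        apply sum_congr rfl
        intro i hi
        rw [mem_range] at hi
        rw [Finsupp.coe_update, Function.update_of_ne (by omega)]
      rw [this, Finsupp.coe_update, Function.update_self, show ∑ i ∈ range k, c i = q from h2]
      omega
    · intro i hi
      by_cases hik : i = k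
      · rw [mem_range]; omega
      · rw [Finsupp.mem_support_iff, Finsupp.coe_update, Function.update_of_ne hik] at hi
        have := h3 (Finsupp.mem_support_iff.mpr hi)
        rw [mem_range] at this ⊢
        omega
  · intro c hc
    ext i
    by_cases hik : i = k
    · subst hik; simp
    · simp
  · rintro ⟨⟨p, q⟩, c⟩ hc
    have hc0 := hz q c (by simp only [mem_sigma] at hc; exact hc.2)
    simp only [mem_sigma, HasAntidiagonal.mem_antidiagonal] at hc
    have h1 : (c.update k p) k = p := by simp
    have h2 : (c.update k p).erase k = c := by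
      ext i
      by_cases hik : i = k
      · subst hik; simp [hc0]
      · rw [Finsupp.erase_ne hik, Finsupp.coe_update, Function.update_of_ne hik]
    simp only [h1, h2]
    have h3 : r - p = q := by omega
    rw [h3]
  · intro c hc
    congr 1
    ext i
    by_cases hik : i = k
    · subst hik; simp
    · simp

/-- the union of the initial segments -/
def segs (b : ℕ → ℕ) (k : ℕ) (c : ℕ → ℕ) : Finset ℕ :=
  (range k).biUnion (fun i => Ico (b (i + 1)) (b (i + 1) + c i))

lemma peel (t : A) (b : ℕ → ℕ) (hb : Antitone b) (k : ℕ) : ∀ (G : Finset ℕ → A) (r : ℕ)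
    (_ : ∀ i < k, ∀ T : Finset ℕ, (∀ l ∈ T, l < b (i + 1) ∨ b i ≤ l) → ∀ S ⊆ Ico (b (i + 1)) (b i),
      ∀ j, b (i + 1) ≤ j → j + 1 < b i → j ∉ S → j + 1 ∈ S →
      G (S ∪ T) = t * G (insert j (S.erase (j + 1)) ∪ T)),
    ∑ S ∈ powersetCard r (Ico (b k) (b 0)), G S =
      ∑ c ∈ finsuppAntidiag (range k) r, (∏ i ∈ range k, gb t (b i - b (i + 1)) (c i)) *
        G (segs b k c) := by
  induction k with
  | zero =>
    intro G r _
    rw [Ico_self, range_zero]
    cases r with
    | zero => simp [segs]
    | succ r =>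
      rw [powersetCard_eq_empty.mpr (by simp), sum_empty, finsuppAntidiag_empty_of_ne_zero (by simp),
        sum_empty]
  | succ k ih =>
    intro G r H
    have e1 : Ico (b (k + 1)) (b 0) = Ico (b (k + 1)) (b k) ∪ Ico (b k) (b 0) := by
      rw [Ico_union_Ico_eq_Ico (hb (Nat.le_succ k)) (hb (Nat.zero_le k))]
    have hd : Disjoint (Ico (b (k + 1)) (b k)) (Ico (b k) (b 0)) := by
      rw [disjoint_left]
      intro i h1 h2
      rw [mem_Ico] at h1 h2
      omega
    rw [e1, sum_powersetCard_union hd, sum_finsuppAntidiag_range_succ]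
    apply sum_congr rfl
    rintro ⟨p, q⟩ _
    have e2 : ∀ S ∈ powersetCard p (Ico (b (k + 1)) (b k)),
        ∑ S' ∈ powersetCard q (Ico (b k) (b 0)), G (S ∪ S') =
        ∑ c ∈ finsuppAntidiag (range k) q, (∏ i ∈ range k, gb t (b i - b (i + 1)) (c i)) *
          G (S ∪ segs b k c) := by
      intro S hS
      have hS' := (mem_powersetCard.mp hS).1
      apply ih (fun S' => G (S ∪ S')) q
      intro i hi T hT S' hS'' j h1 h2 h3 h4
      have h0 : ∀ l ∈ S ∪ T, l < b (i + 1) ∨ b i ≤ l := by
        intro l hl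
        rcases mem_union.mp hl with h | h
        · have := mem_Ico.mp (hS' h)
          have h6 : b k ≤ b (i + 1) := hb (by omega)
          left; omega
        · exact hT l h
      have h5 := H i (by omega) (S ∪ T) h0 S' hS'' j h1 h2 h3 h4
      change G (S ∪ (S' ∪ T)) = t * G (S ∪ (insert j (S'.erase (j + 1)) ∪ T))
      rw [union_left_comm S S' T, h5, union_left_comm S _ T]
    rw [sum_congr rfl e2, sum_comm]
    apply sum_congr rfl
    intro c hc
    rw [← mul_sum]
    have hblk := block t (b k - b (k + 1)) (fun S => G (S ∪ segs b k c)) (b (k + 1)) p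
    have hle : b (k + 1) ≤ b k := hb (Nat.le_succ k)
    rw [Nat.add_sub_cancel' hle] at hblk
    rw [hblk]
    · rw [prod_range_succ]
      have e3 : ∏ i ∈ range k, gb t (b i - b (i + 1)) ((c.update k p) i) =
          ∏ i ∈ range k, gb t (b i - b (i + 1)) (c i) := by
        apply prod_congr rfl
        intro i hi
        rw [mem_range] at hi
        rw [Finsupp.coe_update, Function.update_of_ne (by omega)]
      have e4 : segs b (k + 1) (c.update k p) = Ico (b (k + 1)) (b (k + 1) + p) ∪ segs b k c := by
        unfold segs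
        rw [range_add_one, biUnion_insert]
        congr 1
        · simp
        · apply biUnion_congr rfl
          intro i hi
          rw [mem_range] at hi
          rw [Finsupp.coe_update, Function.update_of_ne (by omega)]
      rw [e3, e4, Finsupp.coe_update, Function.update_self]
      ring
    · intro S hS j h1 h2 h3 h4
      apply H k (by omega) _ _ S hS j h1 h2 h3 h4
      intro l hl
      right
      unfold segs at hl
      rw [mem_biUnion] at hl
      obtain ⟨i, hi, hl⟩ := hl
      rw [mem_range] at hi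
      rw [mem_Ico] at hl
      have : b k ≤ b (i + 1) := hb (by omega)
      omega

lemma alt_congr (t : A) {n : ℕ} (x : Fin n → A) {α β : ℕ → ℕ} (h : ∀ j < n, α j = β j) :
    Alt t x α = Alt t x β := by
  unfold Alt
  apply sum_congr rfl
  intro w _
  congr 2
  apply prod_congr rfl
  intro i _
  rw [h i i.2]

lemma rows_eq {κ : ℕ →₀ ℕ} {m : ℕ} (h : ∀ i, m ≤ i → κ i = 0) (j : ℕ) :
    rows κ j = #{i ∈ range m | j < κ i} := by
  unfold rows
  congr 1
  ext i
  simp only [mem_filter, Finsupp.mem_support_iff, mem_range]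
  constructor
  · rintro ⟨h1, h2⟩
    refine ⟨?_, h2⟩
    by_contra h3
    exact h1 (h i (by omega))
  · rintro ⟨h1, h2⟩
    exact ⟨by omega, h2⟩

/-- block boundaries -/
def bd (n : ℕ) (μ : ℕ →₀ ℕ) : ℕ → ℕ
  | 0 => n
  | i + 1 => μ i

lemma bd_antitone {n : ℕ} {μ : ℕ →₀ ℕ} (hμ : Antitone (μ : ℕ → ℕ)) (hn : μ 0 ≤ n) :
    Antitone (bd n μ) := by
  apply antitone_nat_of_succ_le
  intro i
  cases i with
  | zero => exact hn
  | succ i => exact hμ (Nat.le_succ i)

lemma rows_add {n m : ℕ} {μ : ℕ →₀ ℕ} (hμ : Antitone (μ : ℕ → ℕ)) (hm : μ m = 0) (hn : μ 0 ≤ n)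
    {c : ℕ →₀ ℕ} (hc : c.support ⊆ range (m + 1))
    (hc' : ∀ i < m + 1, c i ≤ bd n μ i - bd n μ (i + 1)) (j : ℕ) :
    rows (μ + c) j = rows μ j + if j ∈ segs (bd n μ) (m + 1) c then 1 else 0 := by
  have hμ0 : ∀ i, m ≤ i → μ i = 0 := fun i hi => by
    have := hμ hi
    rw [hm] at this; omega
  have hc0 : ∀ i, m + 1 ≤ i → c i = 0 := fun i hi => by
    by_contra h
    have := mem_range.mp (hc (Finsupp.mem_support_iff.mpr h))
    omega
  rw [rows_eq (m := m + 1) (κ := μ + c), rows_eq (m := m + 1) (κ := μ)]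
  · have e1 : #{i ∈ range (m + 1) | j < (μ + c) i} = #{i ∈ range (m + 1) | j < μ i} +
        #{i ∈ range (m + 1) | μ i ≤ j ∧ j < μ i + c i} := by
      rw [← card_union_of_disjoint]
      · congr 1
        ext i
        rw [mem_filter, mem_union, mem_filter, mem_filter, mem_range, Finsupp.add_apply]
        omega
      · rw [disjoint_left]
        intro i h1 h2
        rw [mem_filter] at h1 h2
        omega
    rw [e1]
    congr 1
    split_ifs with h
    · unfold segs at h
      rw [mem_biUnion] at h
      obtain ⟨i, hi, hij⟩ := h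
      rw [mem_range] at hi
      rw [mem_Ico] at hij
      change μ i ≤ j ∧ j < μ i + c i at hij
      rw [card_eq_one]
      refine ⟨i, ?_⟩
      have key : ∀ a b, a < b → b < m + 1 → μ a ≤ j → j < μ b + c b → False := by
        intro a b h1 h2 h3 h4
        have h5 := hc' b h2
        cases b with
        | zero => omega
        | succ b =>
          have h6 : bd n μ (b + 1) = μ b := rfl
          have h7 : bd n μ (b + 1 + 1) = μ (b + 1) := rfl
          rw [h6, h7] at h5
          have h8 : μ (b + 1) ≤ μ b := hμ (Nat.le_succ b)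
          have h9 : μ b ≤ μ a := hμ (by omega)
          omega
      ext l
      rw [mem_filter, mem_range, mem_singleton]
      constructor
      · rintro ⟨h1, h2, h3⟩
        rcases lt_trichotomy l i with h | h | h
        · exact (key l i h hi h2 hij.2).elim
        · exact h
        · exact (key i l h h1 hij.1 h3).elim
      · rintro rfl
        exact ⟨hi, hij⟩
    · rw [card_eq_zero, filter_eq_empty_iff]
      intro i hi hij
      apply h
      unfold segs
      rw [mem_biUnion]
      exact ⟨i, hi, mem_Ico.mpr hij⟩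
  · intro i hi; exact hμ0 i (by omega)
  · intro i hi
    rw [Finsupp.add_apply, hμ0 i (by omega), hc0 i hi]

lemma rows_const {n : ℕ} {μ : ℕ →₀ ℕ} (hμ : Antitone (μ : ℕ → ℕ)) (i j : ℕ)
    (h1 : bd n μ (i + 1) ≤ j) (h2 : j + 1 < bd n μ i) : rows μ (j + 1) = rows μ j := by
  unfold rows
  congr 1
  ext l
  simp only [mem_filter, and_congr_right_iff]
  intro _
  change μ i ≤ j at h1
  constructor
  · intro h; omega
  · intro h
    cases i with
    | zero =>
      have := hμ (Nat.zero_le l)
      omega
    | succ i =>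
      change j + 1 < μ i at h2
      rcases Nat.lt_or_ge i l with h3 | h3
      · have : μ l ≤ μ (i + 1) := hμ h3
        omega
      · have : μ i ≤ μ l := hμ h3
        omega

end AP

theorem alt_pieri (t : A) {n : ℕ} (x : Fin n → A) (r m : ℕ) {μ : ℕ →₀ ℕ} (hμ : Antitone (μ : ℕ → ℕ))
    (hm : μ m = 0) (hn : μ 0 ≤ n) :
    esy x r * Alt t x (rows μ) = ∑ c ∈ finsuppAntidiag (range (m + 1)) r,
      (gb t (n - μ 0) (c 0) * ∏ i ∈ range m, gb t (μ i - μ (i + 1)) (c (i + 1))) *
        Alt t x (rows (μ + c)) := by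
  rw [alt_esy]
  have hpeel := AP.peel t (AP.bd n μ) (AP.bd_antitone hμ hn) (m + 1)
    (fun S => Alt t x (fun j => rows μ j + if j ∈ S then 1 else 0)) r
  have e1 : Ico (AP.bd n μ (m + 1)) (AP.bd n μ 0) = range n := by
    change Ico (μ m) n = range n
    rw [hm, range_eq_Ico]
  rw [e1] at hpeel
  rw [hpeel]
  · apply sum_congr rfl
    intro c hc
    rw [mem_finsuppAntidiag] at hc
    rw [prod_range_succ']
    have e2 : (∏ k ∈ range m, gb t (AP.bd n μ (k + 1) - AP.bd n μ (k + 1 + 1)) (c (k + 1))) *
        gb t (AP.bd n μ 0 - AP.bd n μ (0 + 1)) (c 0) =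
        gb t (n - μ 0) (c 0) * ∏ i ∈ range m, gb t (μ i - μ (i + 1)) (c (i + 1)) := by
      rw [mul_comm]; rfl
    by_cases hc' : ∀ i < m + 1, c i ≤ AP.bd n μ i - AP.bd n μ (i + 1)
    · rw [e2]
      congr 1
      apply AP.alt_congr
      intro j _
      rw [AP.rows_add hμ hm hn hc.2 hc' j]
    · push Not at hc'
      obtain ⟨i, hi, hlt⟩ := hc'
      have e3 : (∏ k ∈ range m, gb t (AP.bd n μ (k + 1) - AP.bd n μ (k + 1 + 1)) (c (k + 1))) *
        gb t (AP.bd n μ 0 - AP.bd n μ (0 + 1)) (c 0) = 0 := by
        rw [← prod_range_succ' (fun k => gb t (AP.bd n μ k - AP.bd n μ (k + 1)) (c k))]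
        exact prod_eq_zero (mem_range.mpr hi) (gb_eq_zero t hlt)
      rw [← e2, e3]
      ring
  · intro i _ T hT S hS j h1 h2 h3 h4
    have hjT : j ∉ T := fun h => by have := hT j h; omega
    have hjT' : j + 1 ∉ T := fun h => by have := hT (j + 1) h; omega
    have hr := AP.rows_const hμ i j h1 h2
    by_cases hjn : j + 1 < n
    · change Alt t x (fun j => rows μ j + if j ∈ S ∪ T then 1 else 0) = t * Alt t x
        (fun l => rows μ l + if l ∈ insert j (S.erase (j + 1)) ∪ T then 1 else 0)
      rw [alt_swap t x _ j hjn]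
      · congr 1
        apply AP.alt_congr
        intro l _
        have hj0 : j ∉ S ∪ T := by rw [mem_union]; tauto
        rw [if_neg hj0, add_zero]
        by_cases hl1 : l = j + 1
        · subst hl1
          rw [Function.update_self, if_neg, hr, add_zero]
          rw [mem_union, mem_insert, mem_erase]
          simp [hjT']
        · rw [Function.update_of_ne hl1]
          by_cases hl2 : l = j
          · subst hl2
            rw [Function.update_self, if_pos]
            rw [mem_union, mem_insert]
            exact Or.inl (Or.inl rfl)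
          · rw [Function.update_of_ne hl2]
            congr 1
            have : l ∈ insert j (S.erase (j + 1)) ∪ T ↔ l ∈ S ∪ T := by
              simp only [mem_union, mem_insert, mem_erase]
              tauto
            simp only [this]
      · have hj0 : j ∉ S ∪ T := by rw [mem_union]; tauto
        have hj1 : j + 1 ∈ S ∪ T := by rw [mem_union]; tauto
        simp only [if_neg hj0, if_pos hj1, hr, add_zero]
    · exfalso
      have : AP.bd n μ i ≤ AP.bd n μ 0 := AP.bd_antitone hμ hn (Nat.zero_le i)
      change AP.bd n μ i ≤ n at this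
      omega

end MP4905

end

section

/-!
Symmetrisation of `1` (Macdonald III (1.4)) with denominators cleared.
-/

open Finset

namespace MP4905

universe u

variable {A : Type u} [CommRing A]

/-! ### functoriality -/

lemma alt_map {A' : Type*} [CommRing A'] (f : A →+* A') (t : A) {n : ℕ} (x : Fin n → A)
    (α : ℕ → ℕ) : f (Alt t x α) = Alt (f t) (fun i => f (x i)) α := by
  simp only [Alt, map_sum, map_zsmul, map_mul, map_prod, map_sub, map_pow]

lemma vdm_map {A' : Type*} [CommRing A'] (f : A →+* A') {n : ℕ} (x : Fin n → A) :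
    f (Vdm x) = Vdm (fun i => f (x i)) := by
  simp only [Vdm, map_prod, map_sub]

lemma esy_map {A' : Type*} [CommRing A'] (f : A →+* A') {n : ℕ} (x : Fin n → A) (r : ℕ) :
    f (esy x r) = esy (fun i => f (x i)) r := by
  simp only [esy, map_sum, map_prod]

lemma tfac_map {A' : Type*} [CommRing A'] (f : A →+* A') (t : A) (n : ℕ) :
    f (St.tfac t n) = St.tfac (f t) n := by
  simp only [St.tfac, map_sum, map_prod, map_pow]

/-! ### q-factorials -/

@[simp] lemma tfac_zero (t : A) : St.tfac t 0 = 1 := by simp [St.tfac]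

lemma tfac_succ (t : A) (n : ℕ) :
    St.tfac t (n + 1) = St.tfac t n * ∑ j ∈ range (n + 1), t ^ j := by
  simp [St.tfac, prod_range_succ]

theorem gb_tfac (t : A) (n k : ℕ) :
    gb t (n + k) k * (St.tfac t k * St.tfac t n) = St.tfac t (n + k) := by
  induction k generalizing n with
  | zero => simp
  | succ k ihk =>
    induction n with
    | zero => simp
    | succ n ihn =>
      have h1 := ihk (n + 1)
      have e1 : n + 1 + (k + 1) = (n + 1 + k) + 1 := by ring
      have e2 : n + (k + 1) = n + 1 + k := by ring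
      rw [e2] at ihn
      rw [e1, gb_succ_succ, tfac_succ t k, tfac_succ t n, tfac_succ t (n + 1 + k)]
      rw [tfac_succ t n] at h1
      rw [tfac_succ t k] at ihn
      have h3 : ∑ j ∈ range (n + 1 + k + 1), t ^ j =
          ∑ j ∈ range (k + 1), t ^ j + t ^ (k + 1) * ∑ j ∈ range (n + 1), t ^ j := by
        have e3 : n + 1 + k + 1 = (k + 1) + (n + 1) := by ring
        rw [e3, sum_range_add, mul_sum]
        congr 1
        exact sum_congr rfl fun j _ => by rw [pow_add]
      rw [h3]
      linear_combination (∑ j ∈ range (k + 1), t ^ j) * h1 +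
        t ^ (k + 1) * (∑ j ∈ range (n + 1), t ^ j) * ihn

/-! ### the expansion along the first place -/

lemma vdm_eq_det {n : ℕ} (x : Fin n → A) :
    Vdm x = (Matrix.projVandermonde (fun _ => 1) x).det := by
  rw [Matrix.det_projVandermonde, Vdm]
  simp

/-- the values at the places other than `p` -/
def yy {n : ℕ} (x : Fin (n + 1) → A) (p : Fin (n + 1)) (k : Fin n) : A :=
  x (Equiv.swap 0 p k.succ)

/-- the sign -/
def ee {n : ℕ} (p : Fin (n + 1)) : ℤ := if p = 0 then 1 else -1

lemma sum_perm {n : ℕ} (g : Equiv.Perm (Fin (n + 1)) → A) :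
    ∑ w : Equiv.Perm (Fin (n + 1)), ((Equiv.Perm.sign w : ℤˣ) : ℤ) • g w =
      ∑ p : Fin (n + 1), ∑ e : Equiv.Perm (Fin n),
        ee p • (((Equiv.Perm.sign e : ℤˣ) : ℤ) • g (Equiv.Perm.decomposeFin.symm (p, e))) := by
  rw [Finset.univ_perm_fin_succ, ← Finset.univ_product_univ]
  simp only [Finset.sum_map, Equiv.toEmbedding_apply, Finset.sum_product]
  refine sum_congr rfl fun p _ => sum_congr rfl fun e _ => ?_
  rw [Equiv.Perm.decomposeFin.symm_sign, smul_smul, ee]
  congr 1
  split_ifs <;> simp

lemma cofactor {n : ℕ} (x : Fin (n + 1) → A) {i : ℕ} (hi : i ≤ n) :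
    ∑ p : Fin (n + 1), ee p • (x p ^ i * Vdm (yy x p)) = if i = n then Vdm x else 0 := by
  have h : ∑ p : Fin (n + 1), ee p • (x p ^ i * Vdm (yy x p)) =
      (Matrix.of fun (a b : Fin (n + 1)) =>
        (Fin.cases (x a ^ i) (fun b => x a ^ (Fin.rev b : ℕ)) b : A)).det := by
    rw [Matrix.det_apply]
    have hs := sum_perm (fun w : Equiv.Perm (Fin (n + 1)) => ∏ k : Fin (n + 1),
      (Matrix.of fun (a b : Fin (n + 1)) =>
        (Fin.cases (x a ^ i) (fun b => x a ^ (Fin.rev b : ℕ)) b : A)) (w k) k)
    simp only [Units.smul_def] at hs ⊢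
    rw [hs]
    refine sum_congr rfl fun p _ => ?_
    rw [vdm_eq_det, Matrix.det_apply, mul_sum, smul_sum]
    refine sum_congr rfl fun e _ => ?_
    rw [Units.smul_def, mul_smul_comm, Fin.prod_univ_succ]
    simp [Matrix.projVandermonde_apply, yy]
  rw [h]
  split_ifs with h1
  · subst h1
    rw [vdm_eq_det]
    congr 1
    ext a b
    rw [Matrix.projVandermonde_apply]
    refine Fin.cases ?_ (fun b => ?_) b
    · simp
    · simp [Fin.rev, Matrix.of_apply]
  · have hlt : i < n := lt_of_le_of_ne hi h1
    apply Matrix.det_zero_of_column_eq (i := 0) (j := Fin.succ (Fin.rev ⟨i, hlt⟩))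
      (Fin.succ_ne_zero _).symm
    intro k
    simp only [Matrix.of_apply, Fin.cases_zero, Fin.cases_succ, Fin.rev_rev]

lemma quot_eval (t x : A) (Q : Polynomial A) {n : ℕ} (hQ : Q.natDegree ≤ n) :
    ∑ i ∈ range (n + 1), ((Polynomial.X - Polynomial.C (t * x)) * Q).coeff (i + 1) * x ^ i *
      (∑ j ∈ range (i + 1), t ^ j) = Q.eval x := by
  rw [Polynomial.eval_eq_sum_range' (Nat.lt_succ_of_le hQ)]
  have key : ∀ i, ((Polynomial.X - Polynomial.C (t * x)) * Q).coeff (i + 1) * x ^ i *
      (∑ j ∈ range (i + 1), t ^ j) = Q.coeff i * x ^ i -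
        (t * Q.coeff (i + 1) * x ^ (i + 1) * (∑ j ∈ range (i + 1), t ^ j) -
          t * Q.coeff i * x ^ i * (∑ j ∈ range i, t ^ j)) := by
    intro i
    have h1 : ∑ j ∈ range (i + 1), t ^ j = 1 + t * ∑ j ∈ range i, t ^ j := by
      rw [sum_range_succ', mul_sum, pow_zero, add_comm]
      congr 1
      exact sum_congr rfl fun j _ => by rw [pow_succ']
    rw [sub_mul, Polynomial.coeff_sub, Polynomial.coeff_X_mul, Polynomial.coeff_C_mul]
    linear_combination (Q.coeff i * x ^ i) * h1
  rw [sum_congr rfl fun i _ => key i, sum_sub_distrib, sum_range_sub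
    (fun i => t * Q.coeff i * x ^ i * (∑ j ∈ range i, t ^ j))]
  have h2 : Q.coeff (n + 1) = 0 := Polynomial.coeff_eq_zero_of_natDegree_lt (by omega)
  simp [h2]

theorem alt_zero (t : A) {n : ℕ} (x : Fin n → A) :
    Alt t x (fun _ => 0) = St.tfac t n * Vdm x := by
  induction n with
  | zero => simp [Alt, Vdm]
  | succ n ih =>
    set P : Polynomial A := ∏ k : Fin (n + 1), (Polynomial.X - Polynomial.C (t * x k)) with hP
    have hQ : ∀ p : Fin (n + 1), ∏ k : Fin n, (x p - t * yy x p k) =
        ∑ i ∈ range (n + 1), P.coeff (i + 1) * x p ^ i * (∑ j ∈ range (i + 1), t ^ j) := by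
      intro p
      set Q : Polynomial A := ∏ k : Fin n, (Polynomial.X - Polynomial.C (t * yy x p k)) with hQ
      have h1 : P = (Polynomial.X - Polynomial.C (t * x p)) * Q := by
        rw [hP, ← Equiv.prod_comp (Equiv.swap 0 p), Fin.prod_univ_succ]
        simp [hQ, yy]
      have h2 : Q.natDegree ≤ n := by
        refine (Polynomial.natDegree_prod_le _ _).trans ?_
        refine (Finset.sum_le_card_nsmul _ _ 1 fun k _ =>
          Polynomial.natDegree_X_sub_C_le (t * yy x p k)).trans ?_
        simp
      rw [h1, quot_eval t (x p) Q h2, hQ, Polynomial.eval_prod]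
      simp
    have hP1 : P.coeff (n + 1) = 1 := by
      have hm : P.Monic := Polynomial.monic_prod_of_monic _ _ fun k _ => Polynomial.monic_X_sub_C _
      nontriviality A
      have hd : P.natDegree = n + 1 := by
        rw [hP, Polynomial.natDegree_prod_of_monic _ _ fun k _ => Polynomial.monic_X_sub_C _]
        simp only [Polynomial.natDegree_X_sub_C, sum_const, card_univ, Fintype.card_fin,
          smul_eq_mul, mul_one]
      rw [← hd]
      exact hm
    have h0 : Alt t x (fun _ => 0) =
        ∑ p : Fin (n + 1), ee p • ((∏ k : Fin n, (x p - t * yy x p k)) *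
          (St.tfac t n * Vdm (yy x p))) := by
      unfold Alt
      rw [sum_perm]
      refine sum_congr rfl fun p _ => ?_
      rw [← ih (yy x p), Alt, mul_sum, smul_sum]
      refine sum_congr rfl fun e _ => ?_
      rw [mul_smul_comm]
      congr 2
      simp only [pow_zero, prod_const_one, one_mul]
      rw [Fin.prod_univ_succ, Fin.prod_Ioi_zero]
      simp only [Fin.prod_Ioi_succ, Equiv.Perm.decomposeFin_symm_apply_zero,
        Equiv.Perm.decomposeFin_symm_apply_succ]
      congr 1
      exact (Equiv.prod_comp e (fun k => x p - t * yy x p k))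
    rw [h0]
    have h3 : ∀ p : Fin (n + 1), ee p • ((∏ k : Fin n, (x p - t * yy x p k)) *
          (St.tfac t n * Vdm (yy x p))) = ∑ i ∈ range (n + 1),
            (P.coeff (i + 1) * (∑ j ∈ range (i + 1), t ^ j) * St.tfac t n) *
              (ee p • (x p ^ i * Vdm (yy x p))) := by
      intro p
      rw [hQ p, sum_mul, smul_sum]
      refine sum_congr rfl fun i _ => ?_
      rw [mul_smul_comm]
      congr 1
      ring
    rw [sum_congr rfl fun p _ => h3 p, sum_comm]
    rw [sum_congr rfl fun i hi => by
      rw [← mul_sum, cofactor x (Nat.lt_succ_iff.mp (mem_range.mp hi))]]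
    rw [sum_eq_single n]
    · rw [if_pos rfl, hP1, tfac_succ]
      ring
    · intro i _ hi
      rw [if_neg hi, mul_zero]
    · intro h
      simp at h

end MP4905

end

section

open Finset

namespace MP4905

universe u

variable {A : Type u} [CommRing A]

/-! ### `E^⊥_r g_n = g_n E^⊥_r + g_{n-1} E^⊥_{r-1}` on less than `m` rows -/

lemma sum_ins {R : Type*} [CommRing R] (W : Finset ℕ → R) (n : ℕ) (f0 f1 : R) :
    ∑ s ∈ powerset (range (n + 1)), W s * (if n ∈ s then f1 else f0) =
      (∑ s ∈ powerset (range n), W s) * f0 + (∑ s ∈ powerset (range n), W (insert n s)) * f1 := by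
  rw [sum_range_succ_powerset, sum_mul, sum_mul]
  congr 1
  · apply sum_congr rfl
    intro s hs
    have : n ∉ s := fun h => by simpa using mem_powerset.mp hs h
    rw [if_neg this]
  · apply sum_congr rfl
    intro s hs
    rw [if_pos (mem_insert_self _ _)]

lemma coeff_Z3 (s0 : Bool → A) (T : ℕ → Bool → Bool → A) (n k : ℕ) (f0 f1 : A) :
    (Z (lift0 s0) (liftT T) n false * Polynomial.C f0 +
      Z (lift0 s0) (liftT T) n true * Polynomial.C f1).coeff k =
      ∑ s ∈ powersetCard k (range (n + 1)), wt s0 T n s * (if n ∈ s then f1 else f0) := by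
  obtain ⟨h1, h2⟩ := transfer (lift0 s0) (liftT T) n
  have e0 := sum_ins (fun s => wt (lift0 s0) (liftT T) n s) n (Polynomial.C f0) (Polynomial.C f1)
  rw [h1, h2] at e0
  rw [← e0, Polynomial.finsetSum_coeff, powersetCard_eq_filter, sum_filter]
  apply sum_congr rfl
  intro s hs
  have hs' := mem_powerset.mp hs
  have e : (range (n + 1)).filter (fun i => i ∈ s) = s := by
    ext i
    simp only [mem_filter, and_iff_right_iff_imp]
    intro h
    exact hs' h
  have e2 : (if n ∈ s then Polynomial.C f1 else Polynomial.C f0) =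
      Polynomial.C (if n ∈ s then f1 else f0) := by
    split_ifs <;> rfl
  rw [e2, wt_lift, mul_assoc, ← Polynomial.C_mul, e, Polynomial.coeff_X_pow_mul',
    Polynomial.coeff_C]
  generalize (if n ∈ s then f1 else f0) = f
  by_cases h : s.card = k
  · simp [h]
  · rw [if_neg h]
    split_ifs with h1 h2
    · omega
    · rfl
    · rfl

lemma fold_EpK (α γ : ℕ → A) (n k : ℕ) :
    ∑ t ∈ powersetCard k (range (n + 1)),
        wt (sEK 1 α) (TEK 1 α γ) n t * (if n ∈ t then 1 else 1 - α n) =
      ∑ t ∈ powersetCard k (range (n + 1)),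
        wt (sEK 1 α) (TKE 1 α γ) n t * (if n ∈ t then 1 else 0) +
      ∑ t ∈ powersetCard (k + 1) (range (n + 1)),
        wt (sEK 1 α) (TKE 1 α γ) n t * (if n ∈ t then 1 else 0) := by
  rw [← coeff_Z3, ← coeff_Z3, ← coeff_Z3]
  have e0 : lift0 (sEK 1 α) = sEK Polynomial.X (fun i => Polynomial.C (α i)) := by
    funext b; cases b <;> simp [lift0, sEK]
  have e1 : liftT (TEK 1 α γ) =
      TEK Polynomial.X (fun i => Polynomial.C (α i)) (fun i => Polynomial.C (γ i)) := by
    funext i b b'; cases b <;> cases b' <;> simp [liftT, TEK]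
    ring
  have e2 : liftT (TKE 1 α γ) =
      TKE Polynomial.X (fun i => Polynomial.C (α i)) (fun i => Polynomial.C (γ i)) := by
    funext i b b'; cases b <;> cases b' <;> simp [liftT, TKE]
    ring
  rw [e0, e1, e2]
  obtain ⟨h1, h2⟩ := fold_comm (Polynomial.X) (fun i => Polynomial.C (α i))
    (fun i => Polynomial.C (γ i)) n
  generalize Z (sEK Polynomial.X fun i => Polynomial.C (α i))
    (TEK Polynomial.X (fun i => Polynomial.C (α i)) fun i => Polynomial.C (γ i)) n true = a1 at *
  generalize Z (sEK Polynomial.X fun i => Polynomial.C (α i))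
    (TEK Polynomial.X (fun i => Polynomial.C (α i)) fun i => Polynomial.C (γ i)) n false = a0 at *
  generalize Z (sEK Polynomial.X fun i => Polynomial.C (α i))
    (TKE Polynomial.X (fun i => Polynomial.C (α i)) fun i => Polynomial.C (γ i)) n true = b1 at *
  generalize Z (sEK Polynomial.X fun i => Polynomial.C (α i))
    (TKE Polynomial.X (fun i => Polynomial.C (α i)) fun i => Polynomial.C (γ i)) n false = b0 at *
  have key : Polynomial.X * (a0 * Polynomial.C (1 - α n) + a1 * Polynomial.C 1) =
      b1 + Polynomial.X * b1 := by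
    simp only [map_one, map_sub]
    linear_combination Polynomial.X * h1 - h2
  have h3 := congrArg (fun f => Polynomial.coeff f (k + 1)) key
  simp only [Polynomial.coeff_X_mul, Polynomial.coeff_add] at h3
  simp only [map_zero, mul_zero, zero_add, map_one, mul_one, Polynomial.coeff_add] at h3 ⊢
  linear_combination h3

/-- common factor with `n` links -/
noncomputable def CstN (q : A) (n : ℕ) (μ e : ℕ →₀ ℕ) : A :=
  iq q (e 0) * ∏ i ∈ range n, J q (μ i - μ (i + 1)) (e (i + 1))

lemma mem_compl_iff' {n i : ℕ} {t : Finset ℕ} (hi : i ≤ n) :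
    (i ∈ range (n + 1) \ t) = (i ∉ t) := by
  simp only [mem_sdiff, mem_range, eq_iff_iff]
  constructor
  · exact fun h => h.2
  · exact fun h => ⟨by omega, h⟩

lemma EpK_term {q : A} (hq : IsNilpotent q) (n : ℕ) {μ : ℕ →₀ ℕ} (hμ : Antitone μ) (hn : μ n = 0)
    (e : ℕ →₀ ℕ) (he : e (n + 1) = 0) (t : Finset ℕ) (ht : t ⊆ range (n + 1)) (hs : ind t ≤ e) :
    wK q (n + 1) μ (e - ind t) * wEp q (n + 1) (μ + (e - ind t)) (range (n + 1) \ t) =
      CstN q n μ e * (wt (sEK 1 (aSeq q e)) (TEK 1 (aSeq q e) (gSeq q μ e)) n t *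
        (if n ∈ t then 1 else 1 - aSeq q e n)) := by
  have hs' := ind_le_iff.mp hs
  unfold wK wEp CstN wt
  have e0 : iq q ((e - ind t) 0) = iq q (e 0) * sEK 1 (aSeq q e) (decide (0 ∈ t)) := by
    by_cases h : 0 ∈ t
    · have := hs' 0 h
      simp only [Finsupp.coe_tsub, Pi.sub_apply, ind_apply, h, if_true, decide_true, sEK, aSeq,
        one_mul]
      obtain ⟨b, hb⟩ : ∃ b, e 0 = b + 1 := ⟨e 0 - 1, by omega⟩
      rw [hb, Nat.add_sub_cancel, iq_eq hq b]
    · simp [h, sEK]
  have hn1 : μ (n + 1) = 0 := by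
    have : μ (n + 1) ≤ μ n := hμ (Nat.le_succ n)
    omega
  have hnt : n + 1 ∉ t := fun h => by simpa using ht h
  rw [e0, prod_range_succ, prod_range_succ]
  have hlast1 : gb q (μ n - μ (n + 1)) ((e - ind t) (n + 1)) = 1 := by
    simp [he]
  have hlast2 : (if n ∈ range (n + 1) \ t ∧ n + 1 ∉ range (n + 1) \ t then
      1 - q ^ ((μ + (e - ind t)) n - (μ + (e - ind t)) (n + 1)) else 1) =
      (if n ∈ t then 1 else 1 - aSeq q e n) := by
    simp only [mem_compl_iff' (le_refl n)]
    by_cases h : n ∈ t
    · rw [if_neg (by tauto), if_pos h]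
    · have hh : n + 1 ∉ range (n + 1) \ t := by simp
      rw [if_pos ⟨h, hh⟩, if_neg h]
      simp [h, hn, hn1, he, aSeq]
  rw [hlast1, hlast2, mul_one]
  have key : ∀ i ∈ range n,
      gb q (μ i - μ (i + 1)) ((e - ind t) (i + 1)) *
        (if i ∈ range (n + 1) \ t ∧ i + 1 ∉ range (n + 1) \ t then
          1 - q ^ ((μ + (e - ind t)) i - (μ + (e - ind t)) (i + 1)) else 1) =
      J q (μ i - μ (i + 1)) (e (i + 1)) *
        TEK 1 (aSeq q e) (gSeq q μ e) i (decide (i ∈ t)) (decide (i + 1 ∈ t)) := by
    intro i hi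
    have hi' := mem_range.mp hi
    have hd : μ (i + 1) ≤ μ i := hμ (Nat.le_succ i)
    simp only [mem_compl_iff' (by omega : i ≤ n), mem_compl_iff' (by omega : i + 1 ≤ n), not_not]
    by_cases h1 : i ∈ t <;> by_cases h2 : i + 1 ∈ t
    · have ha := hs' (i + 1) h2
      simp [h1, h2, TEK, aSeq, J_gb_pred hq _ _ ha]
    · simp [h1, h2, TEK, gSeq, J_gb hq]
    · have ha := hs' (i + 1) h2
      simp only [Finsupp.coe_tsub, Pi.sub_apply, ind_apply, h2, if_true, J_gb_pred hq _ _ ha,
        h1, not_false_eq_true, and_self, Finsupp.coe_add, Pi.add_apply, if_false, decide_false,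
        decide_true, TEK, aSeq, gSeq, one_mul, Nat.sub_zero]
      have e1 := J_mul (q := q) (μ i - μ (i + 1)) (e (i + 1)) (e i)
      by_cases h3 : e (i + 1) ≤ μ i - μ (i + 1) + 1
      · have e2 : μ i + e i - (μ (i + 1) + (e (i + 1) - 1)) =
            e i + (μ i - μ (i + 1)) + 1 - e (i + 1) := by omega
        rw [e2]
        linear_combination (-(1 - q ^ e (i + 1))) * e1
      · have : J q (μ i - μ (i + 1)) (e (i + 1)) = 0 := by unfold J; rw [if_neg h3]
        rw [this]; ring
    · simp [h1, h2, TEK, gSeq, J_gb hq]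
  calc _ = (iq q (e 0) * sEK 1 (aSeq q e) (decide (0 ∈ t))) *
      (∏ i ∈ range n, (gb q (μ i - μ (i + 1)) ((e - ind t) (i + 1)) *
        (if i ∈ range (n + 1) \ t ∧ i + 1 ∉ range (n + 1) \ t then
          1 - q ^ ((μ + (e - ind t)) i - (μ + (e - ind t)) (i + 1)) else 1))) *
        (if n ∈ t then 1 else 1 - aSeq q e n) := by
        rw [prod_mul_distrib]; ring
    _ = _ := by
        rw [prod_congr rfl key, prod_mul_distrib]; ring

lemma KEp_term {q : A} (hq : IsNilpotent q) (n : ℕ) {μ : ℕ →₀ ℕ} (hμ : Antitone μ) (hn : μ n = 0)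
    (e : ℕ →₀ ℕ) (he : e (n + 1) = 0) (t : Finset ℕ) (ht : t ⊆ range (n + 1)) (hs : ind t ≤ e) :
    wEp q (n + 1) μ (range (n + 1) \ t) *
      wK q (n + 1) (μ - ind (range (n + 1) \ t)) (e - ind t) =
      CstN q n μ e * (wt (sEK 1 (aSeq q e)) (TKE 1 (aSeq q e) (gSeq q μ e)) n t *
        (if n ∈ t then 1 else 0)) := by
  have hs' := ind_le_iff.mp hs
  have hn1 : μ (n + 1) = 0 := by
    have : μ (n + 1) ≤ μ n := hμ (Nat.le_succ n)
    omega
  have hnt : n + 1 ∉ t := fun h => by simpa using ht h
  by_cases hnT : n ∈ t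
  swap
  · rw [if_neg hnT, mul_zero, mul_zero]
    unfold wEp
    have : (if n ∈ range (n + 1) \ t ∧ n + 1 ∉ range (n + 1) \ t then
        1 - q ^ (μ n - μ (n + 1)) else 1) = 0 := by
      rw [if_pos ⟨by simp [hnT], by simp⟩]
      simp [hn]
    rw [prod_range_succ, this]
    ring
  rw [if_pos hnT, mul_one]
  by_cases hle : ind (range (n + 1) \ t) ≤ μ
  · have hle' := ind_le_iff.mp hle
    unfold wK wEp CstN wt
    have e0 : iq q ((e - ind t) 0) = iq q (e 0) * sEK 1 (aSeq q e) (decide (0 ∈ t)) := by
      by_cases h : 0 ∈ t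
      · have := hs' 0 h
        simp only [Finsupp.coe_tsub, Pi.sub_apply, ind_apply, h, if_true, decide_true, sEK, aSeq,
          one_mul]
        obtain ⟨b, hb⟩ : ∃ b, e 0 = b + 1 := ⟨e 0 - 1, by omega⟩
        rw [hb, Nat.add_sub_cancel, iq_eq hq b]
      · simp [h, sEK]
    rw [e0, prod_range_succ, prod_range_succ]
    have hlast1 : gb q ((μ - ind (range (n + 1) \ t)) n - (μ - ind (range (n + 1) \ t)) (n + 1))
        ((e - ind t) (n + 1)) = 1 := by
      simp [he]
    have hlast2 : (if n ∈ range (n + 1) \ t ∧ n + 1 ∉ range (n + 1) \ t then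
        1 - q ^ (μ n - μ (n + 1)) else 1) = 1 := by
      rw [if_neg]
      simp [hnT]
    rw [hlast1, hlast2, mul_one]
    have key : ∀ i ∈ range n,
        (if i ∈ range (n + 1) \ t ∧ i + 1 ∉ range (n + 1) \ t then
            1 - q ^ (μ i - μ (i + 1)) else 1) *
        gb q ((μ - ind (range (n + 1) \ t)) i - (μ - ind (range (n + 1) \ t)) (i + 1))
          ((e - ind t) (i + 1)) =
        J q (μ i - μ (i + 1)) (e (i + 1)) *
          TKE 1 (aSeq q e) (gSeq q μ e) i (decide (i ∈ t)) (decide (i + 1 ∈ t)) := by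
      intro i hi
      have hi' := mem_range.mp hi
      have hd : μ (i + 1) ≤ μ i := hμ (Nat.le_succ i)
      simp only [mem_compl_iff' (by omega : i ≤ n), mem_compl_iff' (by omega : i + 1 ≤ n), not_not,
        Finsupp.coe_tsub, Pi.sub_apply, ind_apply]
      have hl1 : i ∉ t → 1 ≤ μ i := fun h => hle' i (by simp [h]; omega)
      have hl2 : i + 1 ∉ t → 1 ≤ μ (i + 1) := fun h => hle' (i + 1) (by simp [h]; omega)
      by_cases h1 : i ∈ t <;> by_cases h2 : i + 1 ∈ t
      · have ha := hs' (i + 1) h2
        simp [h1, h2, TKE, aSeq, J_gb_pred hq _ _ ha]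
      · have hl2' := hl2 h2
        have e1 : μ i - (μ (i + 1) - 1) = (μ i - μ (i + 1)) + 1 := by omega
        simp only [h1, not_true_eq_false, h2, and_self, if_false, if_true, not_false_eq_true,
          one_mul, Nat.sub_zero, e1,
          decide_true, decide_false, TKE, gSeq, aSeq, J_gb_succ hq]
        have e2 := J_mul (q := q) (μ i - μ (i + 1)) (e (i + 1)) (e (i + 1))
        have e3 : e (i + 1) + (μ i - μ (i + 1)) + 1 - e (i + 1) = μ i - μ (i + 1) + 1 := by omega
        rw [e3] at e2
        linear_combination -e2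
      · have ha := hs' (i + 1) h2
        have e1 : μ i - 1 - μ (i + 1) = (μ i - μ (i + 1)) - 1 := by omega
        simp only [h1, not_false_eq_true, h2, and_self, if_true, if_false, not_true_eq_false,
          Nat.sub_zero, e1, J_gb_pred_pred hq _ _ ha, decide_true, decide_false, TKE, gSeq, aSeq,
          one_mul]
        ring
      · have hl1' := hl1 h1
        have hl2' := hl2 h2
        have e1 : μ i - 1 - (μ (i + 1) - 1) = μ i - μ (i + 1) := by omega
        simp [h1, h2, TKE, gSeq, J_gb hq, e1]
    calc _ = (iq q (e 0) * sEK 1 (aSeq q e) (decide (0 ∈ t))) *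
        (∏ i ∈ range n, ((if i ∈ range (n + 1) \ t ∧ i + 1 ∉ range (n + 1) \ t then
            1 - q ^ (μ i - μ (i + 1)) else 1) *
        gb q ((μ - ind (range (n + 1) \ t)) i - (μ - ind (range (n + 1) \ t)) (i + 1))
          ((e - ind t) (i + 1)))) := by
          rw [prod_mul_distrib]; ring
      _ = _ := by
          rw [prod_congr rfl key, prod_mul_distrib]; ring
  · -- both sides vanish
    rw [ind_le_iff] at hle
    push Not at hle
    obtain ⟨i, hi, hμi⟩ := hle
    have hne : (range (n + 1) \ t).Nonempty := ⟨i, hi⟩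
    set j := (range (n + 1) \ t).max' hne with hj
    have hjm : j ∈ range (n + 1) \ t := max'_mem _ _
    have hij : i ≤ j := le_max' _ _ hi
    have hμj : μ j = 0 := by
      have : μ j ≤ μ i := hμ hij
      omega
    have hjn : j < n := by
      have h1 := mem_sdiff.mp hjm
      have h2 := mem_range.mp h1.1
      rcases Nat.lt_or_ge j n with h | h
      · exact h
      · have hjn' : j = n := by omega
        rw [hjn'] at h1
        exact absurd hnT h1.2
    have hμj1 : μ (j + 1) = 0 := by
      have : μ (j + 1) ≤ μ j := hμ (Nat.le_succ j)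
      omega
    have hj1 : j + 1 ∉ range (n + 1) \ t := by
      intro h
      have := le_max' _ _ h
      omega
    have hj1t : j + 1 ∈ t := by
      rw [mem_compl_iff' (by omega : j + 1 ≤ n), not_not] at hj1
      exact hj1
    have hjt : j ∉ t := (mem_sdiff.mp hjm).2
    have z1 : wEp q (n + 1) μ (range (n + 1) \ t) = 0 := by
      unfold wEp
      apply prod_eq_zero (mem_range.mpr (show j < n + 1 by omega))
      rw [if_pos ⟨hjm, hj1⟩, hμj, hμj1]
      simp
    have z2 : CstN q n μ e *
        wt (sEK 1 (aSeq q e)) (TKE 1 (aSeq q e) (gSeq q μ e)) n t = 0 := by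
      unfold CstN wt
      have hej := hs' (j + 1) hj1t
      rcases Nat.lt_or_ge 1 (e (j + 1)) with h | h
      · have : J q (μ j - μ (j + 1)) (e (j + 1)) = 0 := by
          unfold J; rw [if_neg (by omega)]
        rw [prod_eq_zero (mem_range.mpr hjn) this]
        ring
      · have h1 : e (j + 1) = 1 := by omega
        have : TKE 1 (aSeq q e) (gSeq q μ e) j (decide (j ∈ t)) (decide (j + 1 ∈ t)) = 0 := by
          simp [hjt, hj1t, TKE, gSeq, hμj, hμj1, h1]
        have h3 : ∏ i ∈ range n, TKE 1 (aSeq q e) (gSeq q μ e) i (decide (i ∈ t))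
            (decide (i + 1 ∈ t)) = 0 := prod_eq_zero (mem_range.mpr hjn) this
        rw [h3]
        ring
    rw [z1, z2, zero_mul]

lemma wt_eq_zero' {q : A} {a : ℕ →₀ ℕ} {T : ℕ → Bool → Bool → A} {n : ℕ}
    (hT : ∀ i b, a (i + 1) = 0 → T i b true = 0) {s : Finset ℕ} (hsm : s ⊆ range (n + 1))
    (hs : ¬ ind s ≤ a) : wt (sEK 1 (aSeq q a)) T n s = 0 := by
  rw [ind_le_iff] at hs
  push Not at hs
  obtain ⟨i, hi, hai⟩ := hs
  have hai : a i = 0 := by omega
  unfold wt
  cases i with
  | zero => simp [hi, sEK, aSeq, hai]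
  | succ i =>
    have : i + 1 < n + 1 := mem_range.mp (hsm hi)
    rw [prod_eq_zero (mem_range.mpr (show i < n by omega)), mul_zero]
    simp [hi, hT i _ hai]

lemma wEp_eq_zero {q : A} {n : ℕ} {μ : ℕ →₀ ℕ} (hμ : Antitone μ) {s : Finset ℕ}
    (hs : s ⊆ range n) (h : ¬ ind s ≤ μ) : wEp q n μ s = 0 := by
  rw [ind_le_iff] at h
  push Not at h
  obtain ⟨i, hi, hμi⟩ := h
  have hne : s.Nonempty := ⟨i, hi⟩
  have hjm := max'_mem s hne
  have hij : i ≤ s.max' hne := le_max' _ _ hi
  generalize hj : s.max' hne = j at *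
  have hμj : μ j = 0 := by
    have : μ j ≤ μ i := hμ hij
    omega
  have hμj1 : μ (j + 1) = 0 := by
    have : μ (j + 1) ≤ μ j := hμ (Nat.le_succ j)
    omega
  have hj1 : j + 1 ∉ s := by
    intro h
    have := le_max' _ _ h
    omega
  unfold wEp
  apply prod_eq_zero (hs hjm)
  rw [if_pos ⟨hjm, hj1⟩, hμj, hμj1]
  simp

lemma sum_compl (n r : ℕ) (hr : r ≤ n) {X : Type*} [AddCommMonoid X] (f : Finset ℕ → X) :
    ∑ s ∈ powersetCard r (range n), f s =
      ∑ t ∈ powersetCard (n - r) (range n), f (range n \ t) := by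
  refine sum_bij' (fun s _ => range n \ s) (fun s _ => range n \ s) ?_ ?_ ?_ ?_ ?_
  · intro s hs
    obtain ⟨h1, h2⟩ := mem_powersetCard.mp hs
    rw [mem_powersetCard]
    refine ⟨sdiff_subset, ?_⟩
    rw [card_sdiff_of_subset h1, card_range, h2]
  · intro s hs
    obtain ⟨h1, h2⟩ := mem_powersetCard.mp hs
    rw [mem_powersetCard]
    refine ⟨sdiff_subset, ?_⟩
    rw [card_sdiff_of_subset h1, card_range, h2]
    omega
  · intro s hs
    exact Finset.sdiff_sdiff_eq_self (mem_powersetCard.mp hs).1
  · intro s hs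
    exact Finset.sdiff_sdiff_eq_self (mem_powersetCard.mp hs).1
  · intro s hs
    rw [Finset.sdiff_sdiff_eq_self (mem_powersetCard.mp hs).1]

lemma kernel_EpK {q : A} (hq : IsNilpotent q) (n k : ℕ) {μ : ℕ →₀ ℕ} (hμ : Antitone μ)
    (hn : μ n = 0) (e : ℕ →₀ ℕ) (he : e (n + 1) = 0) :
    ∑ t ∈ (powersetCard k (range (n + 1))).filter (fun t => ind t ≤ e),
      wK q (n + 1) μ (e - ind t) * wEp q (n + 1) (μ + (e - ind t)) (range (n + 1) \ t) =
    ∑ t ∈ (powersetCard k (range (n + 1))).filter (fun t => ind t ≤ e),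
      wEp q (n + 1) μ (range (n + 1) \ t) *
        wK q (n + 1) (μ - ind (range (n + 1) \ t)) (e - ind t) +
    ∑ t ∈ (powersetCard (k + 1) (range (n + 1))).filter (fun t => ind t ≤ e),
      wEp q (n + 1) μ (range (n + 1) \ t) *
        wK q (n + 1) (μ - ind (range (n + 1) \ t)) (e - ind t) := by
  have c1 : ∀ k, ∑ t ∈ (powersetCard k (range (n + 1))).filter (fun t => ind t ≤ e),
      wEp q (n + 1) μ (range (n + 1) \ t) *
        wK q (n + 1) (μ - ind (range (n + 1) \ t)) (e - ind t) =
      CstN q n μ e * ∑ t ∈ powersetCard k (range (n + 1)),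
        wt (sEK 1 (aSeq q e)) (TKE 1 (aSeq q e) (gSeq q μ e)) n t * (if n ∈ t then 1 else 0) := by
    intro k
    rw [sum_congr rfl (fun t ht => KEp_term hq n hμ hn e he t
      (mem_powersetCard.mp (mem_filter.mp ht).1).1 (mem_filter.mp ht).2), ← mul_sum]
    congr 1
    rw [sum_filter_of_ne]
    intro t ht h
    by_contra hc
    apply h
    rw [wt_eq_zero' (by intro i b hb; cases b <;> simp [TKE, aSeq, hb])
      (mem_powersetCard.mp ht).1 hc, zero_mul]
  rw [c1, c1, ← mul_add, ← fold_EpK]
  rw [sum_congr rfl (fun t ht => EpK_term hq n hμ hn e he t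
      (mem_powersetCard.mp (mem_filter.mp ht).1).1 (mem_filter.mp ht).2), ← mul_sum]
  congr 1
  rw [sum_filter_of_ne]
  intro t ht h
  by_contra hc
  apply h
  rw [wt_eq_zero' (by intro i b hb; cases b <;> simp [TEK, aSeq, hb])
    (mem_powersetCard.mp ht).1 hc, zero_mul]

lemma lin_Ep_g (q : A) (n r j : ℕ) (hr : r ≤ n + 1) (φ : (ℕ →₀ ℕ) → A) {μ : ℕ →₀ ℕ}
    (hμ : Antitone μ) :
    lin φ (Ep q (n + 1) r (g q (n + 1) j (ket A μ))) =
      ∑ e ∈ finsuppAntidiag (range (n + 1)) (j + (n + 1 - r)),
      (∑ t ∈ (powersetCard (n + 1 - r) (range (n + 1))).filter (fun t => ind t ≤ e),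
      wK q (n + 1) μ (e - ind t) * wEp q (n + 1) (μ + (e - ind t)) (range (n + 1) \ t)) *
      φ (μ + e - ind (range (n + 1))) := by
  rw [lin_Ep, lin_g, lin_ket_of_antitone _ hμ]
  unfold gh Eph
  have e1 := regroup (n + 1) j (n + 1 - r)
    (fun c t => wK q (n + 1) μ c * wEp q (n + 1) (μ + c) (range (n + 1) \ t))
    (fun e => φ (μ + e - ind (range (n + 1))))
  rw [← e1]
  apply sum_congr rfl
  intro c _
  rw [sum_compl _ _ hr, mul_sum]
  apply sum_congr rfl
  intro t ht
  rw [← mul_assoc]
  congr 2
  ext i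
  have ht' := (mem_powersetCard.mp ht).1
  simp only [Finsupp.coe_tsub, Finsupp.coe_add, Pi.sub_apply, Pi.add_apply, ind_apply]
  by_cases h1 : i ∈ t
  · have h2 := ht' h1
    rw [if_neg (by simp [h1]), if_pos h1, if_pos h2]
    omega
  · by_cases h2 : i ∈ range (n + 1)
    · rw [if_pos (by rw [mem_sdiff]; exact ⟨h2, h1⟩), if_neg h1, if_pos h2]
      omega
    · rw [if_neg (by rw [mem_sdiff]; tauto), if_neg h1, if_neg h2]
      omega

lemma lin_g_Ep (q : A) (n r j : ℕ) (hr : r ≤ n + 1) (φ : (ℕ →₀ ℕ) → A) {μ : ℕ →₀ ℕ}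
    (hμ : Antitone μ) :
    lin φ (g q (n + 1) j (Ep q (n + 1) r (ket A μ))) =
      ∑ e ∈ finsuppAntidiag (range (n + 1)) (j + (n + 1 - r)),
      (∑ t ∈ (powersetCard (n + 1 - r) (range (n + 1))).filter (fun t => ind t ≤ e),
      wEp q (n + 1) μ (range (n + 1) \ t) *
        wK q (n + 1) (μ - ind (range (n + 1) \ t)) (e - ind t)) *
      φ (μ + e - ind (range (n + 1))) := by
  rw [lin_g, lin_Ep, lin_ket_of_antitone _ hμ]
  unfold gh Eph
  have e1 := regroup (n + 1) j (n + 1 - r)
    (fun c t => wEp q (n + 1) μ (range (n + 1) \ t) *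
        wK q (n + 1) (μ - ind (range (n + 1) \ t)) c)
    (fun e => φ (μ + e - ind (range (n + 1))))
  rw [← e1, sum_compl _ _ hr]
  simp only [mul_sum]
  rw [sum_comm]
  apply sum_congr rfl
  intro c _
  apply sum_congr rfl
  intro t ht
  have ht' := (mem_powersetCard.mp ht).1
  by_cases hle : ind (range (n + 1) \ t) ≤ μ
  · rw [← mul_assoc]
    congr 2
    ext i
    have hle' := ind_le_iff.mp hle
    simp only [Finsupp.coe_tsub, Finsupp.coe_add, Pi.sub_apply, Pi.add_apply, ind_apply]
    by_cases h1 : i ∈ t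
    · have h2 := ht' h1
      rw [if_neg (by simp [h1]), if_pos h1, if_pos h2]
      omega
    · by_cases h2 : i ∈ range (n + 1)
      · have h3 := hle' i (by rw [mem_sdiff]; exact ⟨h2, h1⟩)
        rw [if_pos (by rw [mem_sdiff]; exact ⟨h2, h1⟩), if_neg h1, if_pos h2]
        omega
      · rw [if_neg (by rw [mem_sdiff]; tauto), if_neg h1, if_neg h2]
        omega
  · rw [wEp_eq_zero hμ sdiff_subset hle]
    ring

/-- `E^⊥_{r+1} g_{j+1} = g_{j+1} E^⊥_{r+1} + g_j E^⊥_r` on less than `m = n+1` rows -/
theorem Ep_g {q : A} (hq : IsNilpotent q) (n r j : ℕ) (hr : r ≤ n) {μ : ℕ →₀ ℕ}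
    (hμ : Antitone μ) (hn : μ n = 0) :
    Ep q (n + 1) (r + 1) (g q (n + 1) (j + 1) (ket A μ)) =
      g q (n + 1) (j + 1) (Ep q (n + 1) (r + 1) (ket A μ)) +
      g q (n + 1) j (Ep q (n + 1) r (ket A μ)) := by
  apply lin_ext
  intro φ
  rw [map_add, lin_Ep_g q n (r + 1) (j + 1) (by omega) φ hμ,
    lin_g_Ep q n (r + 1) (j + 1) (by omega) φ hμ, lin_g_Ep q n r j (by omega) φ hμ]
  have e1 : n + 1 - (r + 1) = n - r := by omega
  have e2 : n + 1 - r = n - r + 1 := by omega
  have e3 : j + 1 + (n - r) = j + (n - r + 1) := by omega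
  rw [e1, e2, e3, ← sum_add_distrib]
  apply sum_congr rfl
  intro e he
  rw [← add_mul]
  congr 1
  apply kernel_EpK hq n (n - r) hμ hn e
  by_contra h
  have := mem_range.mp ((mem_finsuppAntidiag.mp he).2 (Finsupp.mem_support_iff.mpr h))
  omega

/-- `E^⊥_m = 0` on less than `m` rows -/
lemma Ep_top {q : A} (n : ℕ) {μ : ℕ →₀ ℕ} (hμ : Antitone μ) (hn : μ n = 0) :
    Ep q (n + 1) (n + 1) (ket A μ) = 0 := by
  rw [Ep_ket _ _ _ hμ]
  apply sum_eq_zero
  intro s hs
  obtain ⟨h1, h2⟩ := mem_powersetCard.mp hs
  have : s = range (n + 1) := eq_of_subset_of_card_le h1 (by rw [h2, card_range])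
  rw [wEp_eq_zero hμ h1, zero_smul]
  intro hc
  have := ind_le_iff.mp hc n (by rw [this]; simp)
  omega

lemma Ep_eq_zero (q : A) {m r : ℕ} (h : m < r) : Ep q m r = 0 := by
  apply end_ext
  intro φ μ hμ
  rw [Ep_ket _ _ _ hμ, powersetCard_eq_empty.mpr (by simpa using h)]
  simp

/-! ### the eigenvectors `v(Y)` -/

/-- elementary symmetric polynomials of a list -/
def es : ℕ → List A → A
  | 0, _ => 1
  | _ + 1, [] => 0
  | r + 1, y :: ys => es (r + 1) ys + y * es r ys

lemma es_eq_zero {r : ℕ} {ys : List A} (h : ys.length < r) : es r ys = 0 := by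
  induction ys generalizing r with
  | nil => cases r with
    | zero => simp at h
    | succ r => rfl
  | cons y ys ih => cases r with
    | zero => simp at h
    | succ r =>
      simp only [List.length_cons, add_lt_add_iff_right] at h
      rw [es, ih (by omega), ih h]
      ring

@[simp] lemma es_zero (ys : List A) : es 0 ys = 1 := by cases ys <;> rfl

lemma es_length (ys : List A) : es ys.length ys = ys.prod := by
  induction ys with
  | nil => rfl
  | cons y ys ih =>
    rw [List.length_cons, es, ih, es_eq_zero (Nat.lt_succ_self _), List.prod_cons]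
    ring

lemma sum_es (x : A) (ys : List A) {N : ℕ} (hN : ys.length < N) :
    ∑ r ∈ range N, x ^ r * es r ys = (ys.map (fun y => 1 + x * y)).prod := by
  induction ys generalizing N with
  | nil =>
    obtain ⟨N, rfl⟩ : ∃ b, N = b + 1 := ⟨N - 1, by simp at hN; omega⟩
    rw [sum_range_succ']
    simp [es]
  | cons y ys ih =>
    obtain ⟨N, rfl⟩ : ∃ b, N = b + 1 := ⟨N - 1, by simp at hN; omega⟩
    simp only [List.length_cons, add_lt_add_iff_right] at hN
    rw [List.map_cons, List.prod_cons, ← ih hN, sum_range_succ']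
    simp only [es, pow_zero, mul_one]
    have h1 := ih (Nat.lt_succ_of_lt hN)
    rw [← ih hN, sum_range_succ'] at h1
    simp only [es_zero, pow_zero, mul_one] at h1
    have h2 : ∑ k ∈ range N, x ^ (k + 1) * (es (k + 1) ys + y * es k ys) =
        ∑ k ∈ range N, x ^ (k + 1) * es (k + 1) ys +
          x * y * ∑ k ∈ range N, x ^ k * es k ys := by
      rw [mul_sum, ← sum_add_distrib]
      apply sum_congr rfl
      intro k _
      ring
    rw [h2]
    linear_combination h1

/-- vectors with at most `n` rows -/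
lemma Mle_induction {n : ℕ} {P : M A → Prop} (h0 : P 0) (hadd : ∀ v w, P v → P w → P (v + w))
    (hsmul : ∀ (a : A) v, P v → P (a • v))
    (hket : ∀ μ : ℕ →₀ ℕ, Antitone μ → μ n = 0 → P (ket A μ)) {v : M A} (hv : v ∈ Mle A n) :
    P v := by
  unfold Mle at hv
  induction hv using Submodule.span_induction with
  | mem x hx =>
    obtain ⟨μ, h1, rfl⟩ := hx
    by_cases h : Antitone (μ : ℕ → ℕ)
    · exact hket μ h h1
    · rw [ket_of_not h]; exact h0
  | zero => exact h0
  | add x y _ _ hx hy => exact hadd x y hx hy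
  | smul a x _ hx => exact hsmul a x hx

lemma ket_mem_Mle {n : ℕ} {μ : ℕ →₀ ℕ} (h : μ n = 0) : ket A μ ∈ Mle A n :=
  Submodule.subset_span ⟨μ, h, rfl⟩

lemma Mle_mono {n m : ℕ} (h : n ≤ m) : Mle A n ≤ Mle A m := by
  intro v hv
  refine Mle_induction (P := fun v => v ∈ Mle A m) (Submodule.zero_mem _)
    (fun v w hv hw => Submodule.add_mem _ hv hw) (fun a v hv => Submodule.smul_mem _ a hv)
    ?_ hv
  intro μ hμ h0
  apply ket_mem_Mle
  have : μ m ≤ μ n := hμ h
  omega

/-- `g` adds at most one row -/
lemma g_mem_Mle {q : A} {n m : ℕ} (hnm : n < m) (j : ℕ) {v : M A} (hv : v ∈ Mle A n) :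
    g q m j v ∈ Mle A (n + 1) := by
  refine Mle_induction (P := fun v => g q m j v ∈ Mle A (n + 1)) ?_ ?_ ?_ ?_ hv
  · rw [map_zero]; exact Submodule.zero_mem _
  · intro v w hv hw; rw [map_add]; exact Submodule.add_mem _ hv hw
  · intro a v hv; rw [map_smul]; exact Submodule.smul_mem _ a hv
  · intro μ hμ h0
    rw [g_ket _ _ _ hμ]
    apply Submodule.sum_mem
    intro c hc
    by_cases h : wK q m μ c = 0
    · rw [h, zero_smul]; exact Submodule.zero_mem _
    · apply Submodule.smul_mem
      apply ket_mem_Mle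
      have h1 : μ (n + 1) = 0 := by
        have : μ (n + 1) ≤ μ n := hμ (Nat.le_succ n)
        omega
      have h2 : c (n + 1) = 0 := by
        by_contra h2
        apply h
        unfold wK
        have : gb q (μ n - μ (n + 1)) (c (n + 1)) = 0 := gb_eq_zero q (by omega)
        rw [prod_eq_zero (mem_range.mpr hnm) this, mul_zero]
      simp [h1, h2]

lemma K_mem_Mle {q : A} {n m : ℕ} (hnm : n < m) (y : A) {v : M A} (hv : v ∈ Mle A n) :
    K q m y v ∈ Mle A (n + 1) := by
  unfold K
  rw [LinearMap.sum_apply]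
  apply Submodule.sum_mem
  intro j _
  rw [LinearMap.smul_apply]
  exact Submodule.smul_mem _ _ (g_mem_Mle hnm j hv)

lemma vY_mem_Mle {q : A} {m : ℕ} (ys : List A) (h : ys.length ≤ m) :
    vY q m ys ∈ Mle A ys.length := by
  induction ys with
  | nil => exact ket_mem_Mle rfl
  | cons y ys ih =>
    simp only [List.length_cons] at h ⊢
    exact K_mem_Mle (by omega) y (ih (by omega))

@[simp] lemma vY_cons (q : A) (m : ℕ) (y : A) (ys : List A) :
    vY q m (y :: ys) = K q m y (vY q m ys) := rfl

@[simp] lemma vY_nil (q : A) (m : ℕ) : vY q m [] = ket A 0 := rfl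

lemma Ep_g_Mle {q : A} (hq : IsNilpotent q) (n r j : ℕ) (hr : r ≤ n) {v : M A}
    (hv : v ∈ Mle A n) :
    Ep q (n + 1) (r + 1) (g q (n + 1) (j + 1) v) =
      g q (n + 1) (j + 1) (Ep q (n + 1) (r + 1) v) + g q (n + 1) j (Ep q (n + 1) r v) := by
  refine Mle_induction (P := fun v => Ep q (n + 1) (r + 1) (g q (n + 1) (j + 1) v) =
      g q (n + 1) (j + 1) (Ep q (n + 1) (r + 1) v) + g q (n + 1) j (Ep q (n + 1) r v))
      ?_ ?_ ?_ ?_ hv
  · simp
  · intro v w hv hw
    simp only [map_add, hv, hw]
    abel
  · intro a v hv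
    simp only [map_smul, hv, smul_add]
  · intro μ hμ h0
    exact Ep_g hq n r j hr hμ h0

lemma Ep_K {q : A} (hq : IsNilpotent q) (n r : ℕ) (hr : r ≤ n) {y : A} (hy : IsNilpotent y)
    {v : M A} (hv : v ∈ Mle A n) :
    Ep q (n + 1) (r + 1) (K q (n + 1) y v) =
      K q (n + 1) y (Ep q (n + 1) (r + 1) v) + y • K q (n + 1) y (Ep q (n + 1) r v) := by
  obtain ⟨B, hB⟩ := hy
  have hB1 : y ^ (B + 1) = 0 := by rw [pow_succ, hB, zero_mul]
  rw [K_eq q (n + 1) hB1]
  simp only [LinearMap.sum_apply, LinearMap.smul_apply, map_sum, map_smul]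
  rw [sum_range_succ' _ B, sum_range_succ' _ B]
  simp only [Ep_g_Mle hq n r _ hr hv, smul_add, sum_add_distrib, g_zero, Module.End.one_apply]
  have : y • ∑ x ∈ range (B + 1), y ^ x • g q (n + 1) x (Ep q (n + 1) r v) =
      ∑ x ∈ range B, y ^ (x + 1) • g q (n + 1) x (Ep q (n + 1) r v) := by
    rw [sum_range_succ, hB, zero_smul, add_zero, smul_sum]
    apply sum_congr rfl
    intro x _
    rw [smul_smul, pow_succ']
  rw [this]
  abel

theorem Ep_vY {q : A} (hq : IsNilpotent q) (m r : ℕ) (ys : List A) (h : ys.length ≤ m)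
    (hy : ∀ y ∈ ys, IsNilpotent y) : Ep q m r (vY q m ys) = es r ys • vY q m ys := by
  induction ys generalizing r with
  | nil =>
    cases r with
    | zero => simp [Ep_zero]
    | succ r =>
      rw [es, zero_smul, vY_nil]
      rw [Ep_ket _ _ _ (by intro a b _; simp)]
      apply sum_eq_zero
      intro s hs
      obtain ⟨h1, h2⟩ := mem_powersetCard.mp hs
      rw [wEp_eq_zero (by intro a b _; simp) h1, zero_smul]
      intro hc
      have hne : s.Nonempty := by rw [← card_pos]; omega
      obtain ⟨i, hi⟩ := hne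
      have := ind_le_iff.mp hc i hi
      simp at this
  | cons y ys ih =>
    simp only [List.length_cons] at h
    obtain ⟨n, rfl⟩ : ∃ n, m = n + 1 := ⟨m - 1, by omega⟩
    have hys : ∀ y ∈ ys, IsNilpotent y := fun z hz => hy z (List.mem_cons_of_mem _ hz)
    have hv : vY q (n + 1) ys ∈ Mle A n :=
      Mle_mono (by omega) (vY_mem_Mle ys (by omega))
    cases r with
    | zero => simp [Ep_zero]
    | succ r =>
      rcases Nat.lt_or_ge n r with hr | hr
      · rw [Ep_eq_zero q (by omega), es_eq_zero (by simp; omega)]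
        simp
      · rw [vY_cons, Ep_K hq n r hr (hy y List.mem_cons_self) hv, ih (r + 1) (by omega) hys,
          ih r (by omega) hys, es, map_smul, map_smul, smul_smul, ← add_smul]

theorem Epx_vY {q : A} (hq : IsNilpotent q) (m : ℕ) (x : A) (ys : List A) (h : ys.length ≤ m)
    (hy : ∀ y ∈ ys, IsNilpotent y) :
    Epx q m x (vY q m ys) = (ys.map (fun y => 1 + x * y)).prod • vY q m ys := by
  unfold Epx
  rw [LinearMap.sum_apply, ← sum_es x ys (Nat.lt_succ_of_le h), sum_smul]
  apply sum_congr rfl
  intro r _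
  rw [LinearMap.smul_apply, Ep_vY hq m r ys h hy, smul_smul]

end MP4905

end

section

open Finset

namespace MP4905

universe u

variable {A : Type u} [CommRing A]

/-- a sum over a box of a product is a product of sums -/
lemma sum_finsupp_prod (s : Finset ℕ) (t : ℕ → Finset ℕ) (w : ℕ → ℕ → A) :
    ∑ c ∈ s.finsupp t, ∏ i ∈ s, w i (c i) = ∏ i ∈ s, ∑ x ∈ t i, w i x := by
  rw [Finset.prod_sum, Finset.finsupp, Finset.sum_map]
  refine sum_congr (by congr; exact Subsingleton.elim _ _) ?_
  intro p _
  rw [← Finset.prod_attach]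
  apply prod_congr rfl
  intro x _
  simp [Finsupp.indicator_of_mem x.2]

lemma K_lin_prod {q : A} {m : ℕ} (hm : 0 < m) {y : A} {B : ℕ} (hB : y ^ B = 0) {μ : ℕ →₀ ℕ}
    (hμ : Antitone (μ : ℕ → ℕ)) (F : (ℕ →₀ ℕ) → A) (h : ℕ → ℕ → A)
    (hF : ∀ c : ℕ →₀ ℕ, c.support ⊆ range m → (∀ i < m, c (i + 1) ≤ μ i - μ (i + 1)) →
      F (μ + c) = ∏ i ∈ range m, h i (c i)) :
    lin F (K q m y (ket A μ)) = (∑ x ∈ range B, iq q x * y ^ x * h 0 x) *
      ∏ i ∈ range (m - 1), (∑ x ∈ range (μ i - μ (i + 1) + 1),
        gb q (μ i - μ (i + 1)) x * y ^ x * h (i + 1) x) := by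
  set T : (ℕ →₀ ℕ) → A := fun c => y ^ ((range m).sum c) * (wK q m μ c * F (μ + c)) with hT
  set D : Finset (ℕ →₀ ℕ) := (range m).finsupp
    (fun i => if i = 0 then range B else range (μ (i - 1) - μ i + 1)) with hD
  have h1 : lin F (K q m y (ket A μ)) =
      ∑ c ∈ (range B).biUnion (fun n => finsuppAntidiag (range m) n), T c := by
    rw [K_eq q m hB, LinearMap.sum_apply, map_sum, sum_biUnion]
    · apply sum_congr rfl
      intro n _
      rw [LinearMap.smul_apply, map_smul, lin_g, lin_ket_of_antitone _ hμ, gh, smul_eq_mul, mul_sum]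
      apply sum_congr rfl
      intro c hc
      rw [hT]
      simp only
      rw [(mem_finsuppAntidiag.mp hc).1]
    · intro a _ b _ hab
      rw [Function.onFun, disjoint_left]
      intro c hc hc'
      exact hab ((mem_finsuppAntidiag.mp hc).1.symm.trans (mem_finsuppAntidiag.mp hc').1)
  have h2 : ∑ c ∈ (range B).biUnion (fun n => finsuppAntidiag (range m) n), T c =
      ∑ c ∈ D, T c := by
    apply Finset.sum_congr_of_eq_on_inter
    · intro c hc hcD
      rw [mem_biUnion] at hc
      obtain ⟨n, hn, hc⟩ := hc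
      obtain ⟨hc1, hc2⟩ := mem_finsuppAntidiag.mp hc
      have hex : ∃ i ∈ range m, c i ∉ (if i = 0 then range B else range (μ (i - 1) - μ i + 1)) := by
        by_contra hcon
        push Not at hcon
        exact hcD (mem_finsupp_iff.mpr ⟨hc2, hcon⟩)
      obtain ⟨i, hi, hci⟩ := hex
      cases i with
      | zero =>
        exfalso
        rw [if_pos rfl, mem_range, not_lt] at hci
        have h3 : c 0 ≤ (range m).sum c := single_le_sum (fun _ _ => Nat.zero_le _) hi
        have h4 := mem_range.mp hn
        omega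
      | succ i =>
        rw [if_neg (Nat.succ_ne_zero i), Nat.add_sub_cancel, mem_range, not_lt] at hci
        rw [hT]
        simp only
        have him : i < m := by have := mem_range.mp hi; omega
        have hg : gb q (μ i - μ (i + 1)) (c (i + 1)) = 0 := gb_eq_zero q (by omega)
        have : wK q m μ c = 0 := by
          unfold wK
          rw [prod_eq_zero (mem_range.mpr him) hg, mul_zero]
        rw [this]; ring
    · intro c hcD hc
      obtain ⟨h3, h4⟩ := mem_finsupp_iff.mp hcD
      have h5 : B ≤ (range m).sum c := by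
        by_contra hlt
        push Not at hlt
        exact hc (mem_biUnion.mpr ⟨(range m).sum c, mem_range.mpr hlt,
          mem_finsuppAntidiag.mpr ⟨rfl, h3⟩⟩)
      rw [hT]
      simp only
      rw [pow_eq_zero_of_le h5 hB, zero_mul]
    · intro c _ _
      rfl
  obtain ⟨m, rfl⟩ : ∃ k, m = k + 1 := ⟨m - 1, by omega⟩
  set w : ℕ → ℕ → A := fun i x => match i with
    | 0 => iq q x * y ^ x * h 0 x
    | i + 1 => gb q (μ i - μ (i + 1)) x * y ^ x * h (i + 1) x with hw
  have h3 : ∑ c ∈ D, T c = ∑ c ∈ D, ∏ i ∈ range (m + 1), w i (c i) := by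
    apply sum_congr rfl
    intro c hc
    obtain ⟨h3, h4⟩ := mem_finsupp_iff.mp hc
    have hcm : c (m + 1) = 0 := by
      by_contra h0
      have := mem_range.mp (h3 (Finsupp.mem_support_iff.mpr h0))
      omega
    have h5 : ∀ i < m + 1, c (i + 1) ≤ μ i - μ (i + 1) := by
      intro i hi
      rcases Nat.lt_or_ge (i + 1) (m + 1) with h6 | h6
      · have := h4 (i + 1) (mem_range.mpr h6)
        rw [if_neg (Nat.succ_ne_zero i), Nat.add_sub_cancel, mem_range] at this
        omega
      · obtain rfl : i = m := by omega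
        rw [hcm]; exact Nat.zero_le _
    rw [hT]
    simp only
    rw [hF c h3 h5, wK, ← prod_pow_eq_pow_sum]
    rw [prod_range_succ (fun i => gb q (μ i - μ (i + 1)) (c (i + 1))) m, hcm, gb_zero_right, mul_one]
    rw [prod_range_succ' (fun i => y ^ c i) m, prod_range_succ' (fun i => h i (c i)) m,
      prod_range_succ' (fun i => w i (c i)) m]
    have e : ∏ k ∈ range m, w (k + 1) (c (k + 1)) =
        (∏ k ∈ range m, gb q (μ k - μ (k + 1)) (c (k + 1))) * (∏ k ∈ range m, y ^ c (k + 1)) *
          ∏ k ∈ range m, h (k + 1) (c (k + 1)) := by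
      rw [← prod_mul_distrib, ← prod_mul_distrib]
    rw [e]
    simp only [hw]
    ring
  rw [h1, h2, h3, hD, sum_finsupp_prod (range (m + 1))
    (fun i => if i = 0 then range B else range (μ (i - 1) - μ i + 1)) w, prod_range_succ', mul_comm,
    Nat.add_sub_cancel]
  simp [hw]

/-- splitting a product over `range (2k)` into even and odd indices -/
lemma prod_range_two_mul (f : ℕ → A) (k : ℕ) :
    ∏ i ∈ range (2 * k), f i = (∏ i ∈ range k, f (2 * i)) * ∏ i ∈ range k, f (2 * i + 1) := by
  induction k with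
  | zero => simp
  | succ k ih =>
    rw [show 2 * (k + 1) = 2 * k + 1 + 1 by ring, prod_range_succ, prod_range_succ, ih,
      prod_range_succ, prod_range_succ]
    ring

/-- the product part of `L♭ K(y)` -/
def XXf (q p : A) (k : ℕ) (y : A) (μ : ℕ →₀ ℕ) : A :=
  (∏ i ∈ range k, RS2 q y p (μ (2 * i) - μ (2 * i + 1))) *
    ∏ i ∈ range (k - 1), RS2 q (y * p) 1 (μ (2 * i + 1) - μ (2 * i + 2))

lemma L_K {q p : A} (hq : IsNilpotent q) {k : ℕ} (hk : 0 < k) {y : A} (hy : IsNilpotent y)
    {μ : ℕ →₀ ℕ} (hμ : Antitone (μ : ℕ → ℕ)) :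
    lin (Lbf p k) (K q (2 * k) y (ket A μ)) = ez q (p * y) * XXf q p k y μ := by
  obtain ⟨B, hB⟩ := hy
  obtain ⟨k, rfl⟩ : ∃ j, k = j + 1 := ⟨k - 1, by omega⟩
  have hpy : (p * y) ^ B = 0 := by rw [mul_pow, hB, mul_zero]
  rw [K_lin_prod (show 0 < 2 * (k + 1) by omega) hB hμ (Lbf p (k + 1))
    (fun j x => if Even j then p ^ x else p ^ (μ (j - 1) - μ j - x))]
  · have e0 : ∑ x ∈ range B, iq q x * y ^ x * (if Even 0 then p ^ x else p ^ (μ (0 - 1) - μ 0 - x)) =
        ez q (p * y) := by
      rw [← euler_one hq hpy]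
      apply sum_congr rfl
      intro x _
      rw [if_pos (by simp), mul_pow]
      ring
    rw [e0]
    congr 1
    rw [show 2 * (k + 1) - 1 = 2 * k + 1 by omega, prod_range_succ, prod_range_two_mul]
    unfold XXf
    rw [show k + 1 - 1 = k from rfl, prod_range_succ (fun i => RS2 q y p _)]
    have o1 : ∀ i, ∑ x ∈ range (μ (2 * i) - μ (2 * i + 1) + 1),
        gb q (μ (2 * i) - μ (2 * i + 1)) x * y ^ x *
          (if Even (2 * i + 1) then p ^ x else p ^ (μ (2 * i + 1 - 1) - μ (2 * i + 1) - x)) =
        RS2 q y p (μ (2 * i) - μ (2 * i + 1)) := by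
      intro i
      unfold RS2
      apply sum_congr rfl
      intro x _
      rw [if_neg (by simp), Nat.add_sub_cancel]
    have o2 : ∀ i, ∑ x ∈ range (μ (2 * i + 1) - μ (2 * i + 1 + 1) + 1),
        gb q (μ (2 * i + 1) - μ (2 * i + 1 + 1)) x * y ^ x *
          (if Even (2 * i + 1 + 1) then p ^ x else
            p ^ (μ (2 * i + 1 + 1 - 1) - μ (2 * i + 1 + 1) - x)) =
        RS2 q (y * p) 1 (μ (2 * i + 1) - μ (2 * i + 2)) := by
      intro i
      unfold RS2
      apply sum_congr rfl
      intro x _
      rw [if_pos (by simp [Nat.even_add_one]), one_pow, mul_pow]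
      ring
    rw [prod_congr rfl (fun i _ => o1 i), prod_congr rfl (fun i _ => o2 i), o1 k]
    ring
  · intro c hc hci
    unfold Lbf
    rw [prod_range_two_mul (fun i => if Even i then p ^ c i else p ^ (μ (i - 1) - μ i - c i)),
      ← prod_mul_distrib]
    apply prod_congr rfl
    intro i hi
    have hi' := mem_range.mp hi
    have h1 := hci (2 * i) (by omega)
    rw [if_pos (by simp), if_neg (by simp), Nat.add_sub_cancel, ← pow_add]
    congr 1
    simp only [Finsupp.coe_add, Pi.add_apply]
    have h2 : μ (2 * i + 1) ≤ μ (2 * i) := hμ (Nat.le_succ _)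
    omega

lemma phz_eq {q p : A} {k : ℕ} (hk : 0 < k) {y : A} {μ : ℕ →₀ ℕ} :
    phz q p k y μ = XXf q p k y μ * RS2 q (y * p) 1 (μ (2 * k - 1) - μ (2 * k)) := by
  obtain ⟨k, rfl⟩ : ∃ j, k = j + 1 := ⟨k - 1, by omega⟩
  unfold phz XXf
  rw [prod_mul_distrib, Nat.add_sub_cancel,
    prod_range_succ (fun i => RS2 q (y * p) 1 (μ (2 * i + 1) - μ (2 * i + 2))) k,
    show 2 * (k + 1) - 1 = 2 * k + 1 by omega, show 2 * (k + 1) = 2 * k + 2 by ring]
  ring

lemma BG_K {p : A} (_hp : IsNilpotent p) {k : ℕ} (hk : 0 < k) {y : A} {B : ℕ} (hB : y ^ B = 0)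
    {μ : ℕ →₀ ℕ} (hμ : Antitone (μ : ℕ → ℕ)) (R' : ℕ →₀ ℕ) :
    lin (fun ν : ℕ →₀ ℕ => ∏ i ∈ range k, p ^ (((ν i : ℤ) - R' i).natAbs ^ 2))
      (K (p ^ 2) k y (ket A μ)) =
    FF p y B ((μ 0 : ℤ) - R' 0) *
      ∏ i ∈ range (k - 1), SS p y ((μ (i + 1) : ℤ) - R' (i + 1)) (μ i - μ (i + 1)) := by
  rw [K_lin_prod hk hB hμ _ (fun i x => p ^ ((((μ i : ℤ) - R' i) + x).natAbs ^ 2))]
  · rfl
  · intro c _ _
    apply prod_congr rfl
    intro i _
    simp only [Finsupp.coe_add, Pi.add_apply]
    congr 3
    push_cast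
    ring

/-- the functional `Γ` -/
def Gam (p : A) (k : ℕ) (μ : ℕ →₀ ℕ) : A :=
  (∏ j ∈ range (μ 0), (1 + p * (p ^ 2) ^ j)) * ∏ i ∈ range (k - 1), p ^ (μ (i + 1) ^ 2)

lemma qpoch_add (q a : A) (m n : ℕ) : qpoch q a (m + n) = qpoch q a m * qpoch q (a * q ^ m) n := by
  unfold qpoch
  rw [prod_range_add]
  congr 1
  apply prod_congr rfl
  intro j _
  rw [pow_add]; ring

lemma qpoch_telescope (q a : A) {μ : ℕ → ℕ} (hμ : Antitone μ) (k : ℕ) :
    (∏ i ∈ range k, qpoch q (a * q ^ μ (i + 1)) (μ i - μ (i + 1))) * qpoch q a (μ k) =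
      qpoch q a (μ 0) := by
  induction k with
  | zero => simp
  | succ k ih =>
    rw [prod_range_succ, ← ih, mul_assoc]
    congr 1
    have h : μ (k + 1) ≤ μ k := hμ (Nat.le_succ k)
    have e : μ k = μ (k + 1) + (μ k - μ (k + 1)) := by omega
    conv_rhs => rw [e]
    rw [qpoch_add, mul_comm]

lemma Gam_K {p : A} (hp : IsNilpotent p) {k : ℕ} (hk : 0 < k) {y : A} (hy : IsNilpotent y)
    {μ : ℕ →₀ ℕ} (hμ : Antitone (μ : ℕ → ℕ)) (hk0 : μ (k - 1) = 0) :
    qinf (p ^ 2) y * lin (Gam p k) (K (p ^ 2) k y (ket A μ)) =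
      qinf (p ^ 2) (-(p * y)) * Gam p k μ := by
  obtain ⟨B, hB⟩ := hy
  have hq : IsNilpotent (p ^ 2) := hp.pow_succ 1
  obtain ⟨k, rfl⟩ : ∃ j, k = j + 1 := ⟨k - 1, by omega⟩
  rw [Nat.add_sub_cancel] at hk0
  have hpo : ∀ n, ∏ j ∈ range n, (1 + p * (p ^ 2) ^ j) = qpoch (p ^ 2) (-p) n := by
    intro n
    unfold qpoch
    apply prod_congr rfl
    intro j _
    ring
  rw [K_lin_prod (show 0 < k + 1 by omega) hB hμ (Gam p (k + 1)) (fun i x => match i with
    | 0 => qpoch (p ^ 2) (-p) (μ 0 + x)
    | i + 1 => p ^ ((μ (i + 1) + x) ^ 2))]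
  · simp only [Nat.add_sub_cancel]
    have e1 : ∑ x ∈ range B, iq (p ^ 2) x * y ^ x * qpoch (p ^ 2) (-p) (μ 0 + x) =
        qpoch (p ^ 2) (-p) (μ 0) *
          ∑ x ∈ range B, qpoch (p ^ 2) (-p * (p ^ 2) ^ μ 0) x * y ^ x * iq (p ^ 2) x := by
      rw [mul_sum]
      apply sum_congr rfl
      intro x _
      rw [qpoch_add]
      ring
    have e2 : ∏ i ∈ range k, (∑ x ∈ range (μ i - μ (i + 1) + 1),
        gb (p ^ 2) (μ i - μ (i + 1)) x * y ^ x * p ^ ((μ (i + 1) + x) ^ 2)) =
        (∏ i ∈ range k, p ^ (μ (i + 1) ^ 2)) * qpoch (p ^ 2) (-(p * y)) (μ 0) := by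
      have h3 : ∀ i ∈ range k, (∑ x ∈ range (μ i - μ (i + 1) + 1),
          gb (p ^ 2) (μ i - μ (i + 1)) x * y ^ x * p ^ ((μ (i + 1) + x) ^ 2)) =
          p ^ (μ (i + 1) ^ 2) * qpoch (p ^ 2) (-(p * y) * (p ^ 2) ^ μ (i + 1))
            (μ i - μ (i + 1)) := by
        intro i _
        have h4 := SS_nat p y (μ (i + 1)) (μ i - μ (i + 1))
        have h5 : -(p * y) * (p ^ 2) ^ μ (i + 1) = -(p ^ (2 * μ (i + 1) + 1) * y) := by
          rw [pow_succ p (2 * μ (i + 1)), pow_mul p 2]; ring
        rw [h5, ← h4]
        unfold SS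
        apply sum_congr rfl
        intro x _
        congr 2
      rw [prod_congr rfl h3, prod_mul_distrib]
      congr 1
      have h6 := qpoch_telescope (p ^ 2) (-(p * y)) hμ k
      rw [hk0] at h6
      rw [← h6]
      simp [qpoch]
    rw [e1, e2]
    have h7 := qbinomial hq (-p * (p ^ 2) ^ μ 0) y hB
    have h8 := qinf_split hq (-(p * y)) (μ 0)
    have h9 : -p * (p ^ 2) ^ μ 0 * y = -(p * y) * (p ^ 2) ^ μ 0 := by ring
    rw [h9] at h7
    unfold Gam
    rw [hpo, Nat.add_sub_cancel, h8]
    linear_combination (qpoch (p ^ 2) (-p) (μ 0) * (∏ i ∈ range k, p ^ (μ (i + 1) ^ 2)) *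
      qpoch (p ^ 2) (-(p * y)) (μ 0)) * h7
  · intro c _ _
    unfold Gam
    rw [hpo, Nat.add_sub_cancel, prod_range_succ']
    simp only [Finsupp.coe_add, Pi.add_apply]
    rw [mul_comm]

end MP4905

end

section

/-!
Newton: elementary symmetric functions in terms of power sums, and the Vandermonde product
of the variables is not zero.
-/

open Finset

namespace MP4905

universe u

variable {A : Type u} [CommRing A]

lemma newton_aux (R : Type u) [CommRing R] [Algebra ℚ R] (r : ℕ) :
    ∃ P : MvPolynomial ℕ+ R, ∀ n : ℕ,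
      MvPolynomial.aeval (fun i : ℕ+ => MvPolynomial.psum (Fin n) R i) P =
        MvPolynomial.esymm (Fin n) R r := by
  induction r using Nat.strong_induction_on with
  | _ r ih =>
    rcases Nat.eq_zero_or_pos r with rfl | hr
    · exact ⟨1, fun n => by simp⟩
    · choose Q hQ using ih
      classical
      refine ⟨algebraMap ℚ (MvPolynomial ℕ+ R) (1 / (r : ℚ)) *
        ((-1) ^ (r + 1) * ∑ a ∈ (antidiagonal r).filter (fun a => a.1 < r),
          (if h : a.1 < r ∧ 0 < a.2 then
            (-1) ^ a.1 * Q a.1 h.1 * MvPolynomial.X (Nat.toPNat a.2 h.2) else 0)), fun n => ?_⟩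
      have hN := MvPolynomial.mul_esymm_eq_sum (Fin n) R r
      have h1 : MvPolynomial.aeval (fun i : ℕ+ => MvPolynomial.psum (Fin n) R i)
          ((-1) ^ (r + 1) * ∑ a ∈ (antidiagonal r).filter (fun a => a.1 < r),
          (if h : a.1 < r ∧ 0 < a.2 then
            (-1) ^ a.1 * Q a.1 h.1 * MvPolynomial.X (Nat.toPNat a.2 h.2) else 0)) =
          (r : MvPolynomial (Fin n) R) * MvPolynomial.esymm (Fin n) R r := by
        rw [hN]
        simp only [map_mul, map_pow, map_neg, map_one, map_sum]
        congr 1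
        refine Finset.sum_congr rfl fun a ha => ?_
        have ha1 := Finset.HasAntidiagonal.mem_antidiagonal.1 (Finset.mem_filter.1 ha).1
        have ha2 : a.1 < r := (Finset.mem_filter.1 ha).2
        have h2 : 0 < a.2 := by omega
        rw [dif_pos ⟨ha2, h2⟩]
        simp only [map_mul, map_pow, map_neg, map_one, hQ]
        rw [MvPolynomial.aeval_X]
        rfl
      rw [map_mul, h1]
      have h3 : MvPolynomial.aeval (fun i : ℕ+ => MvPolynomial.psum (Fin n) R i)
          (algebraMap ℚ (MvPolynomial ℕ+ R) (1 / (r : ℚ))) =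
          algebraMap ℚ (MvPolynomial (Fin n) R) (1 / (r : ℚ)) := by
        rw [IsScalarTower.algebraMap_apply ℚ R (MvPolynomial ℕ+ R), AlgHom.commutes,
          ← IsScalarTower.algebraMap_apply]
      rw [h3, ← mul_assoc, ← map_natCast (algebraMap ℚ (MvPolynomial (Fin n) R)) r, ← map_mul]
      have h4 : (1 / (r : ℚ)) * (r : ℚ) = 1 := by
        field_simp
      rw [h4, map_one, one_mul]

theorem newton (R : Type u) [CommRing R] [Algebra ℚ R] : ∃ Nw : ℕ → MvPolynomial ℕ+ R,
    ∀ (n r : ℕ),
    MvPolynomial.aeval (fun i : ℕ+ => MvPolynomial.psum (Fin n) R i) (Nw r) =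
      MvPolynomial.esymm (Fin n) R r := by
  choose Nw hNw using newton_aux R
  exact ⟨Nw, fun n r => hNw r n⟩

lemma esymm_eq (R : Type u) [CommRing R] (n r : ℕ) :
    MvPolynomial.esymm (Fin n) R r =
      esy (fun i : Fin n => (MvPolynomial.X i : MvPolynomial (Fin n) R)) r := rfl

theorem vdm_ne_zero (R : Type u) [CommRing R] [IsDomain R] (n : ℕ) :
    Vdm (fun i : Fin n => (MvPolynomial.X i : MvPolynomial (Fin n) R)) ≠ 0 := by
  unfold Vdm
  refine Finset.prod_ne_zero_iff.2 fun i _ => Finset.prod_ne_zero_iff.2 fun j hj => ?_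
  rw [sub_ne_zero]
  intro h
  have := MvPolynomial.X_injective h
  rw [Finset.mem_Ioi] at hj
  exact absurd this hj.ne

end MP4905

end

section

/-!
The Pieri rule determines every `f μ` as a universal polynomial in the `e r` times `f 0`.
-/

set_option autoImplicit false

open Finset

namespace MP4905

universe u

variable {A : Type u} [CommRing A]

theorem map_bb' {A' : Type u} [CommRing A'] (g : A →+* A') (q : A) (x y r : ℕ) :
    g (bb' q x y r) = bb' (g q) x y r := by
  unfold bb'
  split_ifs
  · exact map_gb g q _ _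
  · exact map_zero g

theorem map_pw {A' : Type u} [CommRing A'] (g : A →+* A') (q : A) (m : ℕ) (κ μ : ℕ →₀ ℕ) :
    g (pw q m κ μ) = pw (g q) m κ μ := by
  rw [pw, pw, map_prod]
  exact prod_congr rfl fun i _ => map_bb' g q _ _ _

/-- `f lam` is a universal polynomial in the `e r` times `f 0` -/
def Univ1 (q : A) (lam : ℕ →₀ ℕ) : Prop :=
  ∃ U : MvPolynomial ℕ A, ∀ (V : Type u) [CommRing V] [Algebra A V] (e : ℕ → V)
    (f : (ℕ →₀ ℕ) → V), IsPieri (algebraMap A V q) e f →
      f lam = MvPolynomial.aeval e U * f 0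

theorem univ1_step (q : A) (m : ℕ)
    (ihm : ∀ lam : ℕ →₀ ℕ, Antitone (lam : ℕ → ℕ) → lam m = 0 → Univ1 q lam) (d : ℕ) :
    ∀ lam : ℕ →₀ ℕ, Antitone (lam : ℕ → ℕ) → lam (m + 1) = 0 → lam m = d → Univ1 q lam := by
  classical
  induction d using Nat.strong_induction_on with
  | _ d ihd =>
    intro lam hlam h0 hd
    rcases Nat.eq_zero_or_pos d with hd0 | hdpos
    · exact ihm lam hlam (hd.trans hd0)
    set μ : ℕ →₀ ℕ := lam.erase m with hμ
    have hμm : μ m = 0 := by rw [hμ, Finsupp.erase_same]
    have hμne : ∀ i, i ≠ m → μ i = lam i := fun i hi => by rw [hμ, Finsupp.erase_ne hi]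
    have hzero : ∀ i, m < i → lam i = 0 := fun i hi => by
      have := hlam (show m + 1 ≤ i from hi)
      omega
    have hμa : Antitone (μ : ℕ → ℕ) := by
      refine antitone_nat_of_succ_le fun i => ?_
      rcases lt_trichotomy i m with hi | hi | hi
      · rcases Nat.lt_or_ge (i + 1) m with h | h
        · rw [hμne i (by omega), hμne (i + 1) (by omega)]
          exact hlam (Nat.le_succ i)
        · have : i + 1 = m := by omega
          rw [this, hμm]
          exact Nat.zero_le _
      · rw [hμne (i + 1) (by omega), hzero (i + 1) (by omega)]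
        exact Nat.zero_le _
      · rw [hμne (i + 1) (by omega), hzero (i + 1) (by omega)]
        exact Nat.zero_le _
    set c0 : ℕ →₀ ℕ := Finsupp.single m d with hc0
    have hμc0 : μ + c0 = lam := by
      ext i
      rw [Finsupp.add_apply]
      by_cases hi : i = m
      · subst hi
        rw [hμm, hc0, Finsupp.single_eq_same, hd, zero_add]
      · rw [hμne i hi, hc0, Finsupp.single_eq_of_ne hi, add_zero]
    have hc0mem : c0 ∈ finsuppAntidiag (range (m + 1)) d := by
      rw [mem_finsuppAntidiag]
      refine ⟨?_, ?_⟩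
      · rw [hc0, sum_eq_single m]
        · exact Finsupp.single_eq_same
        · intro b _ hb
          exact Finsupp.single_eq_of_ne hb
        · intro h
          exact absurd (mem_range.2 (Nat.lt_succ_self m)) h
      · intro i hi
        rw [hc0] at hi
        have := Finsupp.support_single_subset hi
        rw [mem_singleton] at this
        rw [this]
        exact mem_range.2 (Nat.lt_succ_self m)
    obtain ⟨Uμ, hUμ⟩ := ihm μ hμa hμm
    have key : ∀ c ∈ (finsuppAntidiag (range (m + 1)) d).erase c0, ∃ U : MvPolynomial ℕ A,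
        ∀ (V : Type u) [CommRing V] [Algebra A V] (e : ℕ → V) (f : (ℕ →₀ ℕ) → V),
          IsPieri (algebraMap A V q) e f →
            pw (algebraMap A V q) m (μ + c) μ * f (μ + c) =
              MvPolynomial.aeval e U * f 0 := by
      intro c hc
      rw [mem_erase, mem_finsuppAntidiag] at hc
      obtain ⟨hcne, hcsum, hcsupp⟩ := hc
      have hcm : c m < d := by
        have hle : c m ≤ d := by
          rw [← hcsum]
          exact single_le_sum (f := fun i => c i) (fun _ _ => Nat.zero_le _)
            (mem_range.2 (Nat.lt_succ_self m))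
        rcases hle.lt_or_eq with h | h
        · exact h
        · exfalso
          apply hcne
          have hsum : ∑ i ∈ range m, c i = 0 := by
            rw [sum_range_succ] at hcsum
            omega
          ext i
          rcases lt_trichotomy i m with hi | hi | hi
          · rw [hc0, Finsupp.single_eq_of_ne hi.ne]
            exact (sum_eq_zero_iff.1 hsum) i (mem_range.2 hi)
          · rw [hi, h, hc0, Finsupp.single_eq_same]
          · rw [hc0, Finsupp.single_eq_of_ne hi.ne']
            by_contra hne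
            have := hcsupp (Finsupp.mem_support_iff.2 hne)
            rw [mem_range] at this
            omega
      have hκz : ∀ i, m < i → (μ + c) i = 0 := by
        intro i hi
        rw [Finsupp.add_apply, hμne i hi.ne', hzero i hi, zero_add]
        by_contra hne
        have := hcsupp (Finsupp.mem_support_iff.2 hne)
        rw [mem_range] at this
        omega
      by_cases hgood : ∀ i < m, (μ + c) (i + 1) ≤ μ i ∧ μ i ≤ (μ + c) i
      · have hκa : Antitone ((μ + c : ℕ →₀ ℕ) : ℕ → ℕ) := by
          refine antitone_nat_of_succ_le fun i => ?_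
          rcases Nat.lt_or_ge i m with hi | hi
          · exact (hgood i hi).1.trans (hgood i hi).2
          · rw [hκz (i + 1) (by omega)]
            exact Nat.zero_le _
        obtain ⟨U, hU⟩ := ihd (c m) hcm (μ + c) hκa (hκz (m + 1) (Nat.lt_succ_self m))
          (by rw [Finsupp.add_apply, hμm, zero_add])
        refine ⟨MvPolynomial.C (pw q m (μ + c) μ) * U, ?_⟩
        intro V _ _ e f hf
        rw [hU V e f hf, map_mul, MvPolynomial.aeval_C, map_pw, mul_assoc]
      · refine ⟨0, ?_⟩
        intro V _ _ e f hf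
        rw [map_zero, zero_mul]
        push Not at hgood
        obtain ⟨i, hi, hbad⟩ := hgood
        have : pw (algebraMap A V q) m (μ + c) μ = 0 := by
          rw [pw]
          refine prod_eq_zero (mem_range.2 hi) ?_
          rw [bb', if_neg]
          rintro ⟨h1, h2⟩
          exact absurd h2 (not_le.2 (hbad h1))
        rw [this, zero_mul]
    choose! W hW using key
    refine ⟨MvPolynomial.X d * Uμ - ∑ c ∈ (finsuppAntidiag (range (m + 1)) d).erase c0, W c, ?_⟩
    intro V _ _ e f hf
    have hP := hf m d μ hμa hμm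
    rw [← add_sum_erase _ _ hc0mem, hμc0] at hP
    have hone : pw (algebraMap A V q) m lam μ = 1 := by
      rw [pw]
      refine prod_eq_one fun i hi => ?_
      rw [mem_range] at hi
      rw [bb', hμne i hi.ne, if_pos ⟨hlam (Nat.le_succ i), le_rfl⟩, Nat.sub_self]
      cases (lam i - lam (i + 1)) <;> rfl
    rw [hone, one_mul, sum_congr rfl fun c hc => hW c hc V e f hf] at hP
    rw [map_sub, map_mul, MvPolynomial.aeval_X, map_sum, sub_mul, sum_mul]
    rw [hUμ V e f hf] at hP
    rw [mul_assoc, hP]
    ring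

theorem univ1_all (q : A) (m : ℕ) :
    ∀ lam : ℕ →₀ ℕ, Antitone (lam : ℕ → ℕ) → lam m = 0 → Univ1 q lam := by
  induction m with
  | zero =>
    intro lam hlam h0
    have : lam = 0 := by
      ext i
      have := hlam (Nat.zero_le i)
      rw [Finsupp.zero_apply]
      omega
    subst this
    exact ⟨1, fun V _ _ e f _ => by rw [map_one, one_mul]⟩
  | succ m ihm =>
    intro lam hlam h0
    exact univ1_step q m ihm (lam m) lam hlam h0 rfl

theorem pieri_univ (q : A) : ∃ U : (ℕ →₀ ℕ) → MvPolynomial ℕ A,
    ∀ (V : Type u) [CommRing V] [Algebra A V] (e : ℕ → V) (f : (ℕ →₀ ℕ) → V),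
      IsPieri (algebraMap A V q) e f → ∀ μ : ℕ →₀ ℕ, Antitone (μ : ℕ → ℕ) →
        f μ = MvPolynomial.aeval e (U μ) * f 0 := by
  classical
  have h : ∀ μ : ℕ →₀ ℕ, ∃ U : MvPolynomial ℕ A, Antitone (μ : ℕ → ℕ) →
      ∀ (V : Type u) [CommRing V] [Algebra A V] (e : ℕ → V) (f : (ℕ →₀ ℕ) → V),
        IsPieri (algebraMap A V q) e f → f μ = MvPolynomial.aeval e U * f 0 := by
    intro μ
    by_cases hμ : Antitone (μ : ℕ → ℕ)
    · obtain ⟨m, hm⟩ : ∃ m, μ m = 0 := by
        obtain ⟨m, hm⟩ := Infinite.exists_notMem_finset μ.support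
        exact ⟨m, Finsupp.notMem_support_iff.1 hm⟩
      obtain ⟨U, hU⟩ := univ1_all q m μ hμ hm
      exact ⟨U, fun _ => hU⟩
    · exact ⟨0, fun h => absurd h hμ⟩
  choose U hU using h
  exact ⟨U, fun V _ _ e f hf μ hμ => hU μ hμ V e f hf⟩

end MP4905

end

section

/-!
Kets with at most `k` rows are combinations of `k`-fold products of the `g_n`.
-/

open Finset

namespace MP4905

universe u

variable {A : Type u} [CommRing A]

lemma antitone_zero {μ : ℕ →₀ ℕ} (hμ : Antitone (μ : ℕ → ℕ)) {j : ℕ} (h0 : μ j = 0) {i : ℕ}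
    (hi : j ≤ i) : μ i = 0 :=
  Nat.eq_zero_of_le_zero (h0 ▸ hμ hi)

lemma wK_zero_of {q : A} {m : ℕ} {μ c : ℕ →₀ ℕ} {i : ℕ} (hi : i < m)
    (h : μ i - μ (i + 1) < c (i + 1)) : wK q m μ c = 0 := by
  have h0 : gb q (μ i - μ (i + 1)) (c (i + 1)) = 0 := gb_eq_zero q h
  unfold wK
  rw [prod_eq_zero (mem_range.mpr hi) h0, mul_zero]

/-- reduction of the defining sum of `g` to the rows which are present -/
lemma g_reduce {q : A} (m j : ℕ) (hj : j < m) {μ : ℕ →₀ ℕ} (hμ : Antitone (μ : ℕ → ℕ))
    (h0 : μ j = 0) (n : ℕ) :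
    g q m n (ket A μ) =
      ∑ c ∈ finsuppAntidiag (range (j + 1)) n, wK q (j + 1) μ c • ket A (μ + c) := by
  rw [g_ket q m n hμ]
  have hsub : finsuppAntidiag (range (j + 1)) n ⊆ finsuppAntidiag (range m) n := by
    intro c hc
    rw [mem_finsuppAntidiag] at hc ⊢
    have hsupp : c.support ⊆ range m := hc.2.trans (range_subset_range.mpr (by omega))
    refine ⟨?_, hsupp⟩
    rw [← hc.1]
    symm
    apply sum_subset (range_subset_range.mpr (by omega))
    intro i _ hi
    by_contra h
    exact hi (hc.2 (Finsupp.mem_support_iff.mpr h))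
  rw [← sum_subset hsub]
  · apply sum_congr rfl
    intro c hc
    rw [mem_finsuppAntidiag] at hc
    congr 1
    unfold wK
    congr 1
    symm
    apply prod_subset (range_subset_range.mpr (by omega))
    intro i _ hi
    have hc0 : c (i + 1) = 0 := by
      by_contra h
      have := mem_range.mp (hc.2 (Finsupp.mem_support_iff.mpr h))
      apply hi
      rw [mem_range]
      omega
    rw [hc0, gb_zero_right]
  · intro c hc hcn
    rw [mem_finsuppAntidiag] at hc
    -- some entry of c beyond j is nonzero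
    have : ∃ i, j ≤ i ∧ c (i + 1) ≠ 0 := by
      by_contra hcon
      apply hcn
      have hsupp : c.support ⊆ range (j + 1) := by
        intro i hi
        rw [mem_range]
        by_contra hc'
        obtain ⟨i', rfl⟩ : ∃ i', i = i' + 1 := ⟨i - 1, by omega⟩
        exact hcon ⟨i', by omega, Finsupp.mem_support_iff.mp hi⟩
      rw [mem_finsuppAntidiag]
      refine ⟨?_, hsupp⟩
      rw [← hc.1]
      apply sum_subset (range_subset_range.mpr (by omega))
      intro i _ hi
      by_contra h
      exact hi (hsupp (Finsupp.mem_support_iff.mpr h))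
    obtain ⟨i, hji, hci⟩ := this
    have him : i + 1 < m := mem_range.mp (hc.2 (Finsupp.mem_support_iff.mpr hci))
    rw [wK_zero_of (i := i) (by omega), zero_smul]
    rw [antitone_zero hμ h0 hji]
    omega

lemma g_stable {q : A} (m m' j : ℕ) (hj : j < m) (hj' : j < m') {μ : ℕ →₀ ℕ}
    (hμ : Antitone (μ : ℕ → ℕ)) (h0 : μ j = 0) (n : ℕ) :
    g q m n (ket A μ) = g q m' n (ket A μ) := by
  rw [g_reduce m j hj hμ h0, g_reduce m' j hj' hμ h0]

lemma Gop_succ (q : A) (m : ℕ) {k : ℕ} (n : Fin (k + 1) → ℕ) :
    Gop q m n = g q m (n 0) * Gop q m (fun i => n i.succ) := by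
  unfold Gop
  rw [List.ofFn_succ, List.prod_cons]

lemma Gop_cons (q : A) (m : ℕ) {k : ℕ} (a : ℕ) (n : Fin k → ℕ) :
    Gop q m (Fin.cons a n : Fin (k + 1) → ℕ) = g q m a * Gop q m n := by
  rw [Gop_succ]
  simp

lemma Gop_zero (q : A) (m : ℕ) (n : Fin 0 → ℕ) : Gop q m n = 1 := by
  unfold Gop
  simp

/-- shifted sequence -/
noncomputable def shf (μ : ℕ →₀ ℕ) : ℕ →₀ ℕ :=
  μ.comapDomain Nat.succ (Nat.succ_injective.injOn)

@[simp] lemma shf_apply (μ : ℕ →₀ ℕ) (i : ℕ) : shf μ i = μ (i + 1) := rfl

lemma deg_shf (μ : ℕ →₀ ℕ) : deg μ = μ 0 + deg (shf μ) := by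
  have hN : ∃ N, ∀ i, N ≤ i → μ i = 0 := by
    refine ⟨μ.support.sup id + 1, fun i hi => ?_⟩
    by_contra h
    have := Finset.le_sup (f := id) (Finsupp.mem_support_iff.mpr h)
    simp only [id] at this
    omega
  obtain ⟨N, hN⟩ := hN
  rw [deg_eq_sum_range μ (N := N + 1) (fun i hi => hN i (by omega)),
    deg_eq_sum_range (shf μ) (N := N) (fun i hi => by rw [shf_apply]; exact hN _ (by omega)),
    sum_range_succ', add_comm]
  rfl

lemma deg_eq_zero {μ : ℕ →₀ ℕ} (h : ∀ i, μ i = 0) : deg μ = 0 := by
  rw [deg_eq_sum_range μ (N := 0) (fun i _ => h i)]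
  simp

lemma sum_range_of_support {c : ℕ →₀ ℕ} {m : ℕ} (hc : c.support ⊆ range m) :
    (range m).sum c = deg c := by
  rw [deg_eq_sum_range c (N := m)]
  intro i hi
  by_contra h
  have := mem_range.mp (hc (Finsupp.mem_support_iff.mpr h))
  omega

theorem Gop_rows {q : A} (m : ℕ) : ∀ (k : ℕ), k ≤ m → ∀ n : Fin k → ℕ,
    Gop q m n (ket A 0) ∈
      Submodule.span A {v | ∃ μ : ℕ →₀ ℕ, μ k = 0 ∧ deg μ = ∑ i, n i ∧ v = ket A μ} := by
  intro k
  induction k with
  | zero =>
    intro _ n
    rw [Gop_zero, Module.End.one_apply]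
    exact Submodule.subset_span ⟨0, rfl, by simp [deg], rfl⟩
  | succ k ih =>
    intro hk n
    rw [Gop_succ, Module.End.mul_apply]
    have h := ih (by omega) (fun i => n i.succ)
    set T : Submodule A (M A) :=
      Submodule.span A {v | ∃ μ : ℕ →₀ ℕ, μ (k + 1) = 0 ∧ deg μ = ∑ i, n i ∧ v = ket A μ} with hT
    have key : Submodule.span A {v | ∃ μ : ℕ →₀ ℕ, μ k = 0 ∧ deg μ = ∑ i : Fin k, n i.succ ∧
        v = ket A μ} ≤ T.comap (g q m (n 0)) := by
      rw [Submodule.span_le]
      rintro v ⟨ν, hν0, hνd, rfl⟩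
      change g q m (n 0) (ket A ν) ∈ T
      by_cases ha : Antitone (ν : ℕ → ℕ)
      swap
      · rw [ket_of_not ha, map_zero]
        exact T.zero_mem
      rw [g_ket q m (n 0) ha]
      refine T.sum_mem fun c hc => ?_
      rw [mem_finsuppAntidiag] at hc
      by_cases hw : wK q m ν c = 0
      · rw [hw, zero_smul]
        exact T.zero_mem
      refine T.smul_mem _ (Submodule.subset_span ⟨ν + c, ?_, ?_, rfl⟩)
      · have h1 : ν (k + 1) = 0 := antitone_zero ha hν0 (by omega)
        have h2 : c (k + 1) = 0 := by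
          by_contra hne
          apply hw
          apply wK_zero_of (i := k) (by omega)
          rw [hν0]
          omega
        rw [Finsupp.add_apply, h1, h2]
      · rw [deg_add, hνd, ← sum_range_of_support hc.2, hc.1, Fin.sum_univ_succ, add_comm]
    exact key h

theorem span_G {q : A} (hq : IsNilpotent q) (m : ℕ) : ∀ (k : ℕ), k ≤ m → ∀ {μ : ℕ →₀ ℕ},
    Antitone (μ : ℕ → ℕ) → μ k = 0 →
    ket A μ ∈ Submodule.span A {v | ∃ n : Fin k → ℕ, ∑ i, n i = deg μ ∧
      v = Gop q m n (ket A 0)} := by
  intro k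
  induction k with
  | zero =>
    intro _ μ hμ h0
    have hz : μ = 0 := by
      ext i
      exact antitone_zero hμ h0 (Nat.zero_le i)
    subst hz
    refine Submodule.subset_span ⟨Fin.elim0, ?_, ?_⟩
    · simp [deg]
    · rw [Gop_zero, Module.End.one_apply]
  | succ k ih =>
    intro hk
    -- downward induction on the first row
    have main : ∀ (t : ℕ) (D : ℕ) (μ : ℕ →₀ ℕ), Antitone (μ : ℕ → ℕ) → μ (k + 1) = 0 →
        deg μ = D → D - μ 0 = t →
        ket A μ ∈ Submodule.span A {v | ∃ n : Fin (k + 1) → ℕ, ∑ i, n i = D ∧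
          v = Gop q m n (ket A 0)} := by
      intro t
      induction t using Nat.strong_induction_on with
      | _ t iht =>
        intro D μ hμ h0 hdeg ht
        set T : Submodule A (M A) := Submodule.span A {v | ∃ n : Fin (k + 1) → ℕ, ∑ i, n i = D ∧
          v = Gop q m n (ket A 0)} with hT
        set ν := shf μ with hν
        have hνa : Antitone (ν : ℕ → ℕ) := fun i j hij => hμ (by omega : i + 1 ≤ j + 1)
        have hνk : ν k = 0 := h0
        have hdν : μ 0 + deg ν = D := by rw [← hdeg, deg_shf μ]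
        -- g applied to the shorter ket lies in T
        have h1 : g q m (μ 0) (ket A ν) ∈ T := by
          have h := ih (by omega) hνa hνk
          have key : Submodule.span A {v | ∃ n : Fin k → ℕ, ∑ i, n i = deg ν ∧
              v = Gop q m n (ket A 0)} ≤ T.comap (g q m (μ 0)) := by
            rw [Submodule.span_le]
            rintro v ⟨n, hn, rfl⟩
            change g q m (μ 0) (Gop q m n (ket A 0)) ∈ T
            refine Submodule.subset_span ⟨Fin.cons (μ 0) n, ?_, ?_⟩
            · rw [Fin.sum_univ_succ]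
              simp only [Fin.cons_zero, Fin.cons_succ]
              rw [hn, hdν]
            · rw [Gop_cons, Module.End.mul_apply]
          exact key h
        rw [g_ket q m (μ 0) hνa] at h1
        -- the main term
        have hle : ν ≤ μ := fun i => hμ (Nat.le_succ i)
        set c0 : ℕ →₀ ℕ := μ - ν with hc0
        have hadd : ν + c0 = μ := by rw [hc0, add_comm]; exact tsub_add_cancel_of_le hle
        have hc0i : ∀ i, c0 i = μ i - μ (i + 1) := fun i => rfl
        have hsupp : c0.support ⊆ range m := by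
          intro i hi
          rw [mem_range]
          by_contra hc
          apply Finsupp.mem_support_iff.mp hi
          rw [hc0i, antitone_zero hμ h0 (show k + 1 ≤ i by omega)]
          omega
        have hdc0 : deg c0 = μ 0 := by
          have : deg ν + deg c0 = deg μ := by rw [← deg_add, hadd]
          omega
        have hmem : c0 ∈ finsuppAntidiag (range m) (μ 0) := by
          rw [mem_finsuppAntidiag, sum_range_of_support hsupp]
          exact ⟨hdc0, hsupp⟩
        rw [← add_sum_erase _ _ hmem, hadd] at h1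
        have hw : wK q m ν c0 = iq q (c0 0) := by
          unfold wK
          rw [prod_eq_one, mul_one]
          intro i _
          have : c0 (i + 1) = ν i - ν (i + 1) := rfl
          rw [this, gb_self]
        rw [hw] at h1
        have h2 : ∑ c ∈ (finsuppAntidiag (range m) (μ 0)).erase c0,
            wK q m ν c • ket A (ν + c) ∈ T := by
          refine T.sum_mem fun c hc => ?_
          obtain ⟨hne, hc'⟩ := mem_erase.mp hc
          rw [mem_finsuppAntidiag] at hc'
          by_cases hwc : wK q m ν c = 0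
          · rw [hwc, zero_smul]
            exact T.zero_mem
          refine T.smul_mem _ ?_
          have hle' : ∀ i, (ν + c : ℕ →₀ ℕ) (i + 1) ≤ ν i := by
            intro i
            rw [Finsupp.add_apply]
            have h3 : ν (i + 1) ≤ ν i := hνa (Nat.le_succ i)
            by_cases him : i < m
            · have : c (i + 1) ≤ ν i - ν (i + 1) := by
                by_contra hlt
                exact hwc (wK_zero_of him (by omega))
              omega
            · have : c (i + 1) = 0 := by
                by_contra h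
                have := mem_range.mp (hc'.2 (Finsupp.mem_support_iff.mpr h))
                omega
              omega
          have hanti : Antitone ((ν + c : ℕ →₀ ℕ) : ℕ → ℕ) := antitone_of_wK hνa hc'.2 hwc
          have hz : (ν + c : ℕ →₀ ℕ) (k + 1) = 0 := Nat.eq_zero_of_le_zero (hνk ▸ hle' k)
          have hd : deg (ν + c) = D := by
            rw [deg_add, ← sum_range_of_support hc'.2, hc'.1]
            omega
          have hshle : ∀ i, shf (ν + c) i ≤ ν i := hle'
          have hdsh : deg (shf (ν + c)) ≤ deg ν := by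
            rw [deg_eq_sum_range (shf (ν + c)) (N := k)
              (fun i hi => Nat.eq_zero_of_le_zero ((hshle i).trans
                (antitone_zero hνa hνk hi).le)),
              deg_eq_sum_range ν (N := k) (fun i hi => antitone_zero hνa hνk hi)]
            exact sum_le_sum fun i _ => hshle i
          have hsplit : deg (ν + c) = (ν + c : ℕ →₀ ℕ) 0 + deg (shf (ν + c)) := deg_shf _
          have hgt : μ 0 < (ν + c : ℕ →₀ ℕ) 0 := by
            by_contra hcon
            have heq : deg (shf (ν + c)) = deg ν := by omega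
            have heq0 : (ν + c : ℕ →₀ ℕ) 0 = μ 0 := by omega
            -- all entries agree
            have hall : ∀ i, shf (ν + c) i = ν i := by
              rw [deg_eq_sum_range (shf (ν + c)) (N := k)
                (fun i hi => Nat.eq_zero_of_le_zero ((hshle i).trans
                  (antitone_zero hνa hνk hi).le)),
                deg_eq_sum_range ν (N := k) (fun i hi => antitone_zero hνa hνk hi)] at heq
              have := (sum_eq_sum_iff_of_le (fun i _ => hshle i)).mp heq
              intro i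
              by_cases hi : i < k
              · exact this i (mem_range.mpr hi)
              · have h5 := antitone_zero hνa hνk (show k ≤ i by omega)
                have := hshle i
                omega
            apply hne
            have : ν + c = ν + c0 := by
              rw [hadd]
              ext i
              rcases i with _ | i
              · exact heq0
              · exact hall i
            exact add_left_cancel this
          refine iht (D - (ν + c : ℕ →₀ ℕ) 0) ?_ D (ν + c) hanti hz hd rfl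
          omega
        have h3 : iq q (c0 0) • ket A μ ∈ T := by
          have := T.sub_mem h1 h2
          rwa [add_sub_cancel_right] at this
        have h4 := T.smul_mem (qf q (c0 0)) h3
        rwa [smul_smul, qf_mul_iq hq, one_smul] at h4
    intro μ hμ h0
    exact main _ (deg μ) μ hμ h0 rfl rfl

end MP4905

end
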