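import Pool.Agent.Work.MP_4905b1_co.Bd.B02
import Pool.Agent.Work.MP_4905b1_co.Bd.B03
import Pool.Agent.Work.MP_4905b1_co.Bd.B01

/-! Bundle of small proof modules (one section per former module). -/

section

/-!
The quadratic form of the Cartan matrix of type `A` as a sum of squares, and bounds.
-/

open Finset

namespace MP4905

lemma cartan_castSucc {N : ℕ} (a b : Fin N) :
    St.cartan a.castSucc b.castSucc = St.cartan a b := by
  unfold St.cartan
  simp only [Fin.castSucc_inj, Fin.val_castSucc]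

lemma cartan_castSucc_last {N : ℕ} (a : Fin (N + 1)) :
    St.cartan a.castSucc (Fin.last (N + 1)) = if a = Fin.last N then -1 else 0 := by
  unfold St.cartan
  rw [if_neg (Fin.castSucc_lt_last a).ne]
  simp only [Fin.val_castSucc, Fin.val_last, Fin.ext_iff]
  have := a.2
  split_ifs <;> first | rfl | omega

lemma cartan_last_castSucc {N : ℕ} (a : Fin (N + 1)) :
    St.cartan (Fin.last (N + 1)) a.castSucc = if a = Fin.last N then -1 else 0 := by
  unfold St.cartan
  rw [if_neg (Fin.castSucc_lt_last a).ne']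
  simp only [Fin.val_castSucc, Fin.val_last, Fin.ext_iff]
  have := a.2
  split_ifs <;> first | rfl | omega

lemma cartan_self {N : ℕ} (a : Fin N) : St.cartan a a = 2 := by
  unfold St.cartan
  rw [if_pos rfl]

/-- the Cartan form as a sum of squares, with a boundary term -/
lemma cartan_form_aux (N : ℕ) (Y : Fin (N + 1) → ℤ) :
    Y 0 ^ 2 + ∑ a : Fin N, (Y a.succ - Y a.castSucc) ^ 2 =
      (∑ a : Fin (N + 1), ∑ b : Fin (N + 1), St.cartan a b * Y a * Y b) -
        Y (Fin.last N) ^ 2 := by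
  induction N with
  | zero =>
    simp [St.cartan]
    ring
  | succ N ih =>
    have h := ih (fun a => Y a.castSucc)
    rw [Fin.sum_univ_castSucc]
    rw [Fin.sum_univ_castSucc (n := N + 1)]
    simp only [Fin.sum_univ_castSucc (n := N + 1)] at *
    simp only [cartan_castSucc, cartan_castSucc_last, cartan_last_castSucc, cartan_self,
      Finset.sum_add_distrib, ite_mul, neg_mul, one_mul, zero_mul, Finset.sum_ite_eq',
      Finset.mem_univ, if_true]
    simp only [Fin.castSucc_zero, Fin.succ_castSucc, Fin.succ_last] at h ⊢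
    linarith [h]

/-- the Cartan form as a sum of squares -/
lemma cartan_form {N : ℕ} (y : Fin N → ℤ) :
    ((Fin.snoc y 0 : Fin (N + 1) → ℤ) 0) ^ 2 +
      ∑ a : Fin N, ((Fin.snoc y 0 : Fin (N + 1) → ℤ) a.succ - y a) ^ 2 =
      ∑ a : Fin N, ∑ b : Fin N, St.cartan a b * y a * y b := by
  have h := cartan_form_aux N (Fin.snoc y 0)
  simp only [Fin.snoc_castSucc, Fin.snoc_last] at h
  rw [h, Fin.sum_univ_castSucc]
  simp only [Fin.sum_univ_castSucc (n := N), Fin.snoc_castSucc, Fin.snoc_last, cartan_castSucc]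
  simp

/-- the sequence `R_i^{(1)}, …, R_i^{(N)}, 0` -/
def Yv {N k : ℕ} (r : Fin N → Fin k → ℕ) (i : Fin k) : Fin (N + 1) → ℤ :=
  Fin.snoc (fun a => (St.bigR r a i : ℤ)) 0

lemma Yv_castSucc {N k : ℕ} (r : Fin N → Fin k → ℕ) (i : Fin k) (a : Fin N) :
    Yv r i a.castSucc = St.bigR r a i := by
  unfold Yv
  rw [Fin.snoc_castSucc]

lemma Yv_last {N k : ℕ} (r : Fin N → Fin k → ℕ) (i : Fin k) :
    Yv r i (Fin.last N) = 0 := by
  unfold Yv
  rw [Fin.snoc_last]

lemma twoQ_eq {N k : ℕ} (r : Fin N → Fin k → ℕ) :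
    St.twoQ r = ∑ i : Fin k, (Yv r i 0 ^ 2 +
      ∑ a : Fin N, (Yv r i a.succ - Yv r i a.castSucc) ^ 2) := by
  have h1 : St.twoQ r = ∑ i : Fin k, ∑ a : Fin N, ∑ b : Fin N,
      St.cartan a b * (St.bigR r a i : ℤ) * (St.bigR r b i : ℤ) := by
    unfold St.twoQ
    rw [Finset.sum_comm' (s := univ) (t := fun _ => univ) (t' := univ) (s' := fun _ => univ)
      (by simp)]
    rw [Finset.sum_congr rfl fun b _ => Finset.sum_comm, Finset.sum_comm]
    exact Finset.sum_congr rfl fun i _ => Finset.sum_comm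
  rw [h1]
  refine Finset.sum_congr rfl fun i _ => ?_
  have := cartan_form (fun a => (St.bigR r a i : ℤ))
  rw [← this]
  simp only [Yv_castSucc]
  rfl

lemma le_sum_sq (N : ℕ) (Y : Fin (N + 1) → ℤ) (h0 : Y (Fin.last N) = 0) (a : Fin (N + 1)) :
    Y a ≤ ∑ b : Fin N, (Y b.succ - Y b.castSucc) ^ 2 := by
  induction N with
  | zero =>
    have : a = Fin.last 0 := by omega
    rw [this, h0]
    simp
  | succ N ih =>
    rw [Fin.sum_univ_succ]
    have h := ih (fun b => Y b.succ) (by simpa using h0)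
    simp only [Fin.castSucc_zero, Fin.succ_castSucc] at h ⊢
    refine Fin.cases ?_ ?_ a
    · have e := h 0
      have e2 : Y 0 - Y (Fin.succ 0) ≤ (Y (Fin.succ 0) - Y 0) ^ 2 := by nlinarith [sq_nonneg (Y (Fin.succ 0) - Y 0), sq_nonneg (Y (Fin.succ 0) - Y 0 + 1), Int.le_self_sq (Y 0 - Y (Fin.succ 0))]
      linarith
    · intro b
      have e := h b
      nlinarith [sq_nonneg (Y (Fin.succ 0) - Y 0)]

lemma r_le_bigR {N k : ℕ} (r : Fin N → Fin k → ℕ) (a : Fin N) (i : Fin k) :
    r a i ≤ St.bigR r a i := by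
  unfold St.bigR
  exact Finset.single_le_sum (f := fun j => r a j) (fun _ _ => Nat.zero_le _)
    (Finset.mem_Ici.mpr le_rfl)

lemma r_le_diff {N k : ℕ} (r : Fin N → Fin k → ℕ) (a : Fin N) (i : Fin k) :
    (r a i : ℤ) ≤ ∑ i : Fin k, ∑ a : Fin N, (Yv r i a.succ - Yv r i a.castSucc) ^ 2 := by
  have h1 : (r a i : ℤ) ≤ Yv r i a.castSucc := by
    rw [Yv_castSucc]
    exact_mod_cast r_le_bigR r a i
  refine h1.trans ((le_sum_sq N (Yv r i) (Yv_last r i) _).trans ?_)
  exact Finset.single_le_sum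
    (f := fun i => ∑ a : Fin N, (Yv r i a.succ - Yv r i a.castSucc) ^ 2)
    (fun j _ => Finset.sum_nonneg fun b _ => sq_nonneg _) (Finset.mem_univ i)

theorem twoQ_bound {N k : ℕ} (r : Fin N → Fin k → ℕ) (a : Fin N) (i : Fin k) :
    (r a i : ℤ) ≤ N * St.twoQ r := by
  have h1 := r_le_diff r a i
  have h2 : ∑ i : Fin k, ∑ a : Fin N, (Yv r i a.succ - Yv r i a.castSucc) ^ 2 ≤ St.twoQ r := by
    rw [twoQ_eq]
    refine Finset.sum_le_sum fun j _ => ?_
    nlinarith [sq_nonneg (Yv r j 0)]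
  have h3 : (1 : ℤ) ≤ N := by
    have := a.2
    omega
  have h4 : 0 ≤ St.twoQ r := le_trans (Finset.sum_nonneg fun j _ =>
    Finset.sum_nonneg fun b _ => sq_nonneg _) h2
  nlinarith

theorem twoQ_bound' {N k : ℕ} (r : Fin (N + 1) → Fin (k + 1) → ℕ) (a : Fin (N + 1))
    (i : Fin (k + 1)) :
    (r a i : ℤ) ≤ (N + 1) * (St.twoQ r - (St.R11 r : ℤ) ^ 2) := by
  have h1 := r_le_diff r a i
  have h2 : ∑ i : Fin (k + 1), ∑ a : Fin (N + 1),
      (Yv r i a.succ - Yv r i a.castSucc) ^ 2 ≤ St.twoQ r - (St.R11 r : ℤ) ^ 2 := by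
    rw [twoQ_eq, Finset.sum_add_distrib, Fin.sum_univ_succ (fun i => Yv r i 0 ^ 2)]
    have e1 : Yv r 0 0 = (St.R11 r : ℤ) := by
      have := Yv_castSucc r 0 0
      rw [Fin.castSucc_zero] at this
      rw [this]
      rfl
    rw [e1]
    have e2 : 0 ≤ ∑ i : Fin k, Yv r i.succ 0 ^ 2 := Finset.sum_nonneg fun j _ => sq_nonneg _
    linarith
  have h4 : 0 ≤ St.twoQ r - (St.R11 r : ℤ) ^ 2 := le_trans (Finset.sum_nonneg fun j _ =>
    Finset.sum_nonneg fun b _ => sq_nonneg _) h2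
  have h3 : (0 : ℤ) ≤ N := Int.natCast_nonneg N
  nlinarith

end MP4905

end

section

open Finset

namespace MP4905

universe u

variable {A : Type u} [CommRing A]

lemma map_ext {X : Type*} [AddCommMonoid X] [Module A X] {f g : M A →ₗ[A] X}
    (h : ∀ μ : ℕ →₀ ℕ, Antitone (μ : ℕ → ℕ) → f (ket A μ) = g (ket A μ)) : f = g := by
  apply Finsupp.lhom_ext'
  intro μ
  ext1
  simp only [LinearMap.coe_comp, Function.comp_apply, Finsupp.lsingle_apply]
  rw [← ket_coe]
  exact h μ.1 μ.2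

/-- transposed `E^⊥(x)` -/
noncomputable def Epxh (q : A) (m : ℕ) (x : A) (φ : (ℕ →₀ ℕ) → A) (μ : ℕ →₀ ℕ) : A :=
  ∑ s ∈ powerset (range m), x ^ s.card * (wEp q m μ s * φ (μ - ind s))

lemma lin_Epx (q : A) (m : ℕ) (x : A) (φ : (ℕ →₀ ℕ) → A) (v : M A) :
    lin φ (Epx q m x v) = lin (Epxh q m x φ) v := by
  have : (lin φ).comp (Epx q m x) = lin (Epxh q m x φ) := by
    apply map_ext
    intro μ hμ
    rw [LinearMap.comp_apply, lin_ket_of_antitone _ hμ, Epx, LinearMap.sum_apply, map_sum, Epxh,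
      sum_powerset, card_range]
    apply sum_congr rfl
    intro r _
    rw [LinearMap.smul_apply, map_smul, lin_Ep, lin_ket_of_antitone _ hμ, smul_eq_mul, Eph,
      mul_sum]
    apply sum_congr rfl
    intro s hs
    rw [(mem_powersetCard.mp hs).2]
  exact LinearMap.congr_fun this v

/-- evaluation of a product functional against `E^⊥(x)` -/
lemma Ep_term {q : A} (m : ℕ) {μ : ℕ →₀ ℕ} (hμ : Antitone μ) (F : ℕ → ℕ → ℕ → A)
    (G : ℕ → Bool → Bool → A)
    (hff : ∀ i < m, G i false false = F i (μ i) (μ (i + 1)))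
    (htf : ∀ i < m, G i true false = (1 - q ^ (μ i - μ (i + 1))) * F i (μ i - 1) (μ (i + 1)))
    (hft : ∀ i < m, 1 ≤ μ (i + 1) → G i false true = F i (μ i) (μ (i + 1) - 1))
    (htt : ∀ i < m, 1 ≤ μ (i + 1) → G i true true = F i (μ i - 1) (μ (i + 1) - 1))
    {s : Finset ℕ} (hs : s ⊆ range m) :
    wEp q m μ s * ∏ i ∈ range m, F i ((μ - ind s) i) ((μ - ind s) (i + 1)) = wt one0 G m s := by
  by_cases hle : ind s ≤ μ
  · have hle' := ind_le_iff.mp hle
    unfold wEp wt one0
    rw [one_mul, ← prod_mul_distrib]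
    apply prod_congr rfl
    intro i hi
    have hi' := mem_range.mp hi
    by_cases h1 : i ∈ s <;> by_cases h2 : i + 1 ∈ s
    · simp [h1, h2, htt i hi' (hle' _ h2)]
    · simp [h1, h2, htf i hi']
    · simp [h1, h2, hft i hi' (hle' _ h2)]
    · simp [h1, h2, hff i hi']
  · rw [wEp_eq_zero hμ hs hle, zero_mul]
    rw [ind_le_iff] at hle
    push Not at hle
    obtain ⟨i, hi, hμi⟩ := hle
    have hne : s.Nonempty := ⟨i, hi⟩
    have hjm := max'_mem s hne
    have hij : i ≤ s.max' hne := le_max' _ _ hi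
    generalize hj : s.max' hne = j at *
    have hμj : μ j = 0 := by
      have : μ j ≤ μ i := hμ hij
      omega
    have hμj1 : μ (j + 1) = 0 := by
      have : μ (j + 1) ≤ μ j := hμ (Nat.le_succ j)
      omega
    have hj1 : j + 1 ∉ s := by
      intro h
      have := le_max' _ _ h
      omega
    have hjr := mem_range.mp (hs hjm)
    unfold wt
    rw [prod_eq_zero (hs hjm), mul_zero]
    simp only [hjm, hj1, decide_true, decide_false]
    rw [htf j hjr, hμj, hμj1]
    simp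

lemma Epxh_prod {q : A} (m : ℕ) (x : A) {μ : ℕ →₀ ℕ} (hμ : Antitone μ) (F : ℕ → ℕ → ℕ → A)
    (G : ℕ → Bool → Bool → A)
    (hff : ∀ i < m, G i false false = F i (μ i) (μ (i + 1)))
    (htf : ∀ i < m, G i true false = (1 - q ^ (μ i - μ (i + 1))) * F i (μ i - 1) (μ (i + 1)))
    (hft : ∀ i < m, 1 ≤ μ (i + 1) → G i false true = F i (μ i) (μ (i + 1) - 1))
    (htt : ∀ i < m, 1 ≤ μ (i + 1) → G i true true = F i (μ i - 1) (μ (i + 1) - 1))
    (φ : (ℕ →₀ ℕ) → A) (hφ : ∀ ν : ℕ →₀ ℕ, φ ν = ∏ i ∈ range m, F i (ν i) (ν (i + 1))) :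
    Epxh q m x φ μ = Z (scale0 x one0) (scaleT x G) m false := by
  rw [← (transfer _ _ _).1]
  unfold Epxh
  apply sum_congr rfl
  intro s hs
  have hs' := mem_powerset.mp hs
  rw [hφ, Ep_term m hμ F G hff htf hft htt hs', wt_scale' _ _ _ _ hs']

/-- eigenvalue iteration -/
theorem eigen_iter {q : A} (hq : IsNilpotent q) (m : ℕ) (ys : List A) (h : ys.length ≤ m)
    (hy : ∀ y ∈ ys, IsNilpotent y) (z : A) (φ : ℕ → (M A →ₗ[A] A))
    (hφ : ∀ j w, φ j (Epx q m (-(z * q ^ j)) w) = φ (j + 1) w) :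
    (ys.map (fun y => qinf q (z * y))).prod * φ 0 (vY q m ys) =
      φ (nilpotencyClass q) (vY q m ys) := by
  have key : ∀ n : ℕ, (ys.map (fun y => ∏ j ∈ range n, (1 - z * y * q ^ j))).prod *
      φ 0 (vY q m ys) = φ n (vY q m ys) := by
    intro n
    induction n with
    | zero => simp
    | succ n ih =>
      have h1 := hφ n (vY q m ys)
      rw [Epx_vY hq m _ ys h hy, map_smul, smul_eq_mul, ← ih] at h1
      rw [← h1, ← mul_assoc, ← List.prod_map_mul]
      congr 2
      apply List.map_congr_left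
      intro y _
      rw [prod_range_succ]
      ring
  exact key _

/-! ### the family `φ_z` for `L♭` -/

lemma phz_prod (q p : A) (k : ℕ) (z : A) (μ : ℕ →₀ ℕ) :
    phz q p k z μ = ∏ i ∈ range (2 * k),
      (fun i x y => if Even i then RS2 q z p (x - y) else RS2 q (z * p) 1 (x - y) :
        ℕ → ℕ → ℕ → A) i (μ i) (μ (i + 1)) := by
  rw [prod_range_pair]
  unfold phz
  apply prod_congr rfl
  intro i _
  have h1 : Even (2 * i) := by simp
  have h2 : ¬ Even (2 * i + 1) := by simp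
  simp only [h1, h2, if_true, if_false]

lemma RS2_qmul' (q s t : A) (n : ℕ) :
    RS2 q s t n - s * ((1 - q ^ n) * RS2 q s t (n - 1)) = RS2 q (q * s) t n := by
  cases n with
  | zero => simp [RS2_zero]
  | succ n => rw [RS2_qmul, Nat.add_sub_cancel]; ring

/-- idealised links for `phz` -/
def lkL (q p z : A) (μ : ℕ →₀ ℕ) (i : ℕ) : Bool → Bool → A :=
  let f : ℕ → A := fun d => if Even i then RS2 q z p d else RS2 q (z * p) 1 d
  fun b b' => match b, b' with
  | false, false => f (μ i - μ (i + 1))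
  | true, false => (1 - q ^ (μ i - μ (i + 1))) * f (μ i - μ (i + 1) - 1)
  | false, true => f (μ i - μ (i + 1) + 1)
  | true, true => f (μ i - μ (i + 1))

lemma lkL_fold (q p z : A) (μ : ℕ →₀ ℕ) (m : ℕ) :
    Z (scale0 (-z) one0) (scaleT (-z) (lkL q p z μ)) m false = ∏ i ∈ range m,
      (fun i x y => if Even i then RS2 q (q * z) p (x - y) else RS2 q (q * z * p) 1 (x - y) :
        ℕ → ℕ → ℕ → A) i (μ i) (μ (i + 1)) ∧
    Z (scale0 (-z) one0) (scaleT (-z) (lkL q p z μ)) m true =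
      (if Even m then -z else -(z * p)) *
        Z (scale0 (-z) one0) (scaleT (-z) (lkL q p z μ)) m false := by
  induction m with
  | zero => simp [Z, scale0, one0]
  | succ m ih =>
    obtain ⟨h1, h2⟩ := ih
    rw [prod_range_succ, ← h1, Z_succ, Z_succ]
    simp only [scaleT, lkL]
    rw [h2]
    generalize Z (scale0 (-z) one0) (scaleT (-z) (lkL q p z μ)) m false = a
    by_cases hm : Even m
    · have hm' : ¬ Even (m + 1) := by simp [Nat.even_add_one, hm]
      simp only [hm, hm', if_true, if_false]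
      have e1 := RS2_qmul' q z p (μ m - μ (m + 1))
      have e2 := RS2_pascal q z p (μ m - μ (m + 1))
      constructor
      · linear_combination a * e1
      · rw [← e1] at e2
        linear_combination (-z * a) * e2
    · have hm' : Even (m + 1) := by simp [Nat.even_add_one, hm]
      simp only [hm, hm', if_true, if_false]
      have e1 := RS2_qmul' q (z * p) 1 (μ m - μ (m + 1))
      have e2 := RS2_pascal q (z * p) 1 (μ m - μ (m + 1))
      have e3 : q * z * p = q * (z * p) := by ring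
      rw [e3]
      constructor
      · linear_combination a * e1
      · rw [← e1] at e2
        linear_combination (-z * a) * e2

lemma phz_step (q p : A) (k : ℕ) (z : A) (v : M A) :
    lin (phz q p k z) (Epx q (2 * k) (-z) v) = lin (phz q p k (q * z)) v := by
  rw [lin_Epx]
  congr 1
  apply lin_congr
  intro μ hμ
  rw [Epxh_prod (2 * k) (-z) hμ
    (fun i x y => if Even i then RS2 q z p (x - y) else RS2 q (z * p) 1 (x - y))
    (lkL q p z μ) _ _ _ _ (phz q p k z) (phz_prod q p k z), (lkL_fold q p z μ (2 * k)).1,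
    phz_prod]
  · intro i _
    simp only [lkL]
  · intro i _
    simp only [lkL]
    rcases Nat.eq_zero_or_pos (μ i) with h | h
    · have : μ i - μ (i + 1) = 0 := by omega
      rw [this]; simp
    · have : μ i - μ (i + 1) - 1 = μ i - 1 - μ (i + 1) := by omega
      rw [this]
  · intro i _ h
    have hd : μ (i + 1) ≤ μ i := hμ (Nat.le_succ i)
    simp only [lkL]
    have : μ i - μ (i + 1) + 1 = μ i - (μ (i + 1) - 1) := by omega
    rw [this]
  · intro i _ h
    have hd : μ (i + 1) ≤ μ i := hμ (Nat.le_succ i)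
    simp only [lkL]
    have : μ i - μ (i + 1) = μ i - 1 - (μ (i + 1) - 1) := by omega
    rw [this]

lemma phz_zero (q p : A) (k : ℕ) (μ : ℕ →₀ ℕ) : phz q p k 0 μ = Lbf p k μ := by
  unfold phz Lbf
  apply prod_congr rfl
  intro i _
  rw [zero_mul, RS2_zero_left, RS2_zero_left, one_pow, mul_one]

theorem phz_vY {q : A} (hq : IsNilpotent q) (p : A) (k : ℕ) (ys : List A)
    (h : ys.length ≤ 2 * k) (hy : ∀ y ∈ ys, IsNilpotent y) (z : A) :
    (ys.map (fun y => qinf q (z * y))).prod * lin (phz q p k z) (vY q (2 * k) ys) =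
      lin (Lbf p k) (vY q (2 * k) ys) := by
  have := eigen_iter hq (2 * k) ys h hy z (fun j => lin (phz q p k (z * q ^ j))) (by
    intro j w
    have := phz_step q p k (z * q ^ j) w
    rw [this]
    congr 2
    rw [pow_succ]; ring_nf)
  simp only [pow_zero, mul_one] at this
  rw [this, pow_nilpotencyClass' hq, mul_zero]
  congr 1
  apply lin_congr
  intro μ _
  exact phz_zero q p k μ

/-! ### the family for the Gaussian form -/

/-- `B_G(|R⟩, K^⊥(z)|R'⟩)` -/
def bgz (p : A) (k : ℕ) (R : ℕ →₀ ℕ) (z : A) (R' : ℕ →₀ ℕ) : A :=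
  ∏ i ∈ range k, SS p z ((R i : ℤ) - R' i) (R' i - R' (i + 1))

/-- the Gaussian form -/
def bG (p : A) (k : ℕ) (R R' : ℕ →₀ ℕ) : A :=
  ∏ i ∈ range k, p ^ (((R i : ℤ) - R' i).natAbs ^ 2)

def lkG (p z : A) (R μ : ℕ →₀ ℕ) (i : ℕ) : Bool → Bool → A
  | false, false => SS p z ((R i : ℤ) - μ i) (μ i - μ (i + 1))
  | true, false => (1 - (p ^ 2) ^ (μ i - μ (i + 1))) *
      SS p z ((R i : ℤ) - μ i + 1) (μ i - μ (i + 1) - 1)
  | false, true => SS p z ((R i : ℤ) - μ i) (μ i - μ (i + 1) + 1)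
  | true, true => SS p z ((R i : ℤ) - μ i + 1) (μ i - μ (i + 1))

lemma SS_qmul' (p y : A) (a : ℤ) (n : ℕ) :
    SS p y a n - y * ((1 - (p ^ 2) ^ n) * SS p y (a + 1) (n - 1)) = SS p (p ^ 2 * y) a n := by
  cases n with
  | zero => simp [SS]
  | succ n => rw [SS_qmul, Nat.add_sub_cancel]; ring

lemma lkG_fold (p z : A) (R μ : ℕ →₀ ℕ) (m : ℕ) :
    Z (scale0 (-z) one0) (scaleT (-z) (lkG p z R μ)) m false = ∏ i ∈ range m,
      SS p (p ^ 2 * z) ((R i : ℤ) - μ i) (μ i - μ (i + 1)) ∧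
    Z (scale0 (-z) one0) (scaleT (-z) (lkG p z R μ)) m true =
      -z * Z (scale0 (-z) one0) (scaleT (-z) (lkG p z R μ)) m false := by
  induction m with
  | zero => simp [Z, scale0, one0]
  | succ m ih =>
    obtain ⟨h1, h2⟩ := ih
    rw [prod_range_succ, ← h1, Z_succ, Z_succ]
    simp only [scaleT, lkG]
    rw [h2]
    generalize Z (scale0 (-z) one0) (scaleT (-z) (lkG p z R μ)) m false = a
    have e1 := SS_qmul' p z ((R m : ℤ) - μ m) (μ m - μ (m + 1))
    have e2 := SS_pascal p z ((R m : ℤ) - μ m) (μ m - μ (m + 1))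
    constructor
    · linear_combination a * e1
    · rw [← e1] at e2
      linear_combination (-z * a) * e2

lemma bgz_step (p : A) (k : ℕ) (R : ℕ →₀ ℕ) (z : A) (v : M A) :
    lin (bgz p k R z) (Epx (p ^ 2) k (-z) v) = lin (bgz p k R (p ^ 2 * z)) v := by
  rw [lin_Epx]
  congr 1
  apply lin_congr
  intro μ hμ
  rw [Epxh_prod k (-z) hμ (fun i x y => SS p z ((R i : ℤ) - x) (x - y))
    (lkG p z R μ) _ _ _ _ (bgz p k R z) (fun ν => rfl), (lkG_fold p z R μ k).1]
  · rfl
  · intro i _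
    simp only [lkG]
  · intro i _
    simp only [lkG]
    rcases Nat.eq_zero_or_pos (μ i) with h | h
    · have : μ i - μ (i + 1) = 0 := by omega
      rw [this]; simp
    · have h1 : μ i - μ (i + 1) - 1 = μ i - 1 - μ (i + 1) := by omega
      have h2 : (R i : ℤ) - μ i + 1 = (R i : ℤ) - ((μ i - 1 : ℕ) : ℤ) := by omega
      rw [h1, h2]
  · intro i _ h
    have hd : μ (i + 1) ≤ μ i := hμ (Nat.le_succ i)
    simp only [lkG]
    have : μ i - μ (i + 1) + 1 = μ i - (μ (i + 1) - 1) := by omega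
    rw [this]
  · intro i _ h
    have hd : μ (i + 1) ≤ μ i := hμ (Nat.le_succ i)
    simp only [lkG]
    have h1 : μ i - μ (i + 1) = μ i - 1 - (μ (i + 1) - 1) := by omega
    have h2 : (R i : ℤ) - μ i + 1 = (R i : ℤ) - ((μ i - 1 : ℕ) : ℤ) := by omega
    rw [h1, h2]

lemma bgz_zero (p : A) (k : ℕ) (R R' : ℕ →₀ ℕ) : bgz p k R 0 R' = bG p k R R' := by
  unfold bgz bG
  apply prod_congr rfl
  intro i _
  rw [SS_zero]

theorem bgz_vY {p : A} (hp : IsNilpotent p) (k : ℕ) (R : ℕ →₀ ℕ) (ys : List A)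
    (h : ys.length ≤ k) (hy : ∀ y ∈ ys, IsNilpotent y) (z : A) :
    (ys.map (fun y => qinf (p ^ 2) (z * y))).prod * lin (bgz p k R z) (vY (p ^ 2) k ys) =
      lin (bG p k R) (vY (p ^ 2) k ys) := by
  have hq : IsNilpotent (p ^ 2) := hp.pow_succ 1
  have := eigen_iter hq k ys h hy z (fun j => lin (bgz p k R (z * (p ^ 2) ^ j))) (by
    intro j w
    have := bgz_step p k R (z * (p ^ 2) ^ j) w
    rw [this]
    congr 2
    rw [pow_succ (p ^ 2) j]; ring_nf)
  simp only [pow_zero, mul_one] at this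
  rw [this, pow_nilpotencyClass' hq, mul_zero]
  congr 1
  apply lin_congr
  intro μ _
  exact bgz_zero p k R μ

/-! ### bilinear forms -/

/-- the bilinear form with matrix `β` -/
noncomputable def bil (β : (ℕ →₀ ℕ) → (ℕ →₀ ℕ) → A) (u w : M A) : A :=
  lin (fun μ => lin (β μ) w) u

lemma bil_add_left (β : (ℕ →₀ ℕ) → (ℕ →₀ ℕ) → A) (u u' w : M A) :
    bil β (u + u') w = bil β u w + bil β u' w := by
  unfold bil; rw [map_add]

lemma bil_smul_left (β : (ℕ →₀ ℕ) → (ℕ →₀ ℕ) → A) (a : A) (u w : M A) :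
    bil β (a • u) w = a * bil β u w := by
  unfold bil; rw [map_smul, smul_eq_mul]

lemma bil_add_right (β : (ℕ →₀ ℕ) → (ℕ →₀ ℕ) → A) (u w w' : M A) :
    bil β u (w + w') = bil β u w + bil β u w' := by
  unfold bil
  rw [← lin_add]
  congr 2
  funext μ
  rw [map_add]; rfl

lemma bil_smul_right (β : (ℕ →₀ ℕ) → (ℕ →₀ ℕ) → A) (a : A) (u w : M A) :
    bil β u (a • w) = a * bil β u w := by
  unfold bil
  rw [← lin_smul]
  congr 2
  funext μ
  rw [map_smul]; rfl

/-- bundled -/
noncomputable def bilL (β : (ℕ →₀ ℕ) → (ℕ →₀ ℕ) → A) : M A →ₗ[A] M A →ₗ[A] A :=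
  LinearMap.mk₂ A (bil β) (bil_add_left β) (bil_smul_left β) (bil_add_right β)
    (bil_smul_right β)

@[simp] lemma bilL_apply (β : (ℕ →₀ ℕ) → (ℕ →₀ ℕ) → A) (u w : M A) :
    bilL β u w = bil β u w := rfl

lemma bil_ket_left (β : (ℕ →₀ ℕ) → (ℕ →₀ ℕ) → A) {μ : ℕ →₀ ℕ} (hμ : Antitone μ) (w : M A) :
    bil β (ket A μ) w = lin (β μ) w := by
  unfold bil; rw [lin_ket_of_antitone _ hμ]

/-- norms `b_μ` -/
def bf (q : A) (k : ℕ) (μ : ℕ →₀ ℕ) : A := ∏ i ∈ range k, qf q (μ i - μ (i + 1))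

open Classical in
/-- diagonal form -/
noncomputable def bdiag (d : (ℕ →₀ ℕ) → A) (μ ν : ℕ →₀ ℕ) : A := if μ = ν then d μ else 0

lemma bf_adj (q : A) (k : ℕ) {μ : ℕ →₀ ℕ} (s : Finset ℕ)
    (hν : Antitone ((μ + ind s : ℕ →₀ ℕ) : ℕ → ℕ)) (hμ : Antitone μ) :
    bf q k μ * wEp q k (μ + ind s) s = bf q k (μ + ind s) * wE q k μ s := by
  unfold bf wEp wE
  rw [← prod_mul_distrib, ← prod_mul_distrib]
  apply prod_congr rfl
  intro i _
  have hd : μ (i + 1) ≤ μ i := hμ (Nat.le_succ i)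
  have hd2 : (μ + ind s : ℕ →₀ ℕ) (i + 1) ≤ (μ + ind s : ℕ →₀ ℕ) i := hν (Nat.le_succ i)
  simp only [Finsupp.coe_add, Pi.add_apply, ind_apply] at hd2 ⊢
  by_cases h1 : i ∈ s <;> by_cases h2 : i + 1 ∈ s
  · have : μ i + 1 - (μ (i + 1) + 1) = μ i - μ (i + 1) := by omega
    simp [h1, h2, this]
  · have : μ i + 1 - (μ (i + 1)) = (μ i - μ (i + 1)) + 1 := by omega
    simp [h1, h2, this, qf_succ]
  · simp only [h1, h2, if_true, if_false] at hd2
    obtain ⟨d, hd'⟩ : ∃ d, μ i - μ (i + 1) = d + 1 := ⟨μ i - μ (i + 1) - 1, by omega⟩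
    have : μ i - (μ (i + 1) + 1) = d := by omega
    simp [h1, h2, this, hd', qf_succ]
  · simp [h1, h2]

open Classical in
lemma bil_adj (q : A) (k r : ℕ) (u w : M A) :
    bil (bdiag (bf q k)) (E q k r u) w = bil (bdiag (bf q k)) u (Ep q k r w) := by
  have h : (bilL (bdiag (bf q k))).comp (E q k r) =
      (bilL (bdiag (bf q k))).compl₁₂ LinearMap.id (Ep q k r) := by
    apply map_ext
    intro μ hμ
    apply map_ext
    intro ν hν
    simp only [LinearMap.comp_apply, LinearMap.compl₁₂_apply, LinearMap.id_apply, bilL_apply]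
    rw [bil_ket_left _ hμ, lin_Ep, lin_ket_of_antitone _ hν]
    unfold bil
    rw [lin_E, lin_ket_of_antitone _ hμ]
    unfold Eh Eph
    apply sum_congr rfl
    intro s hs
    have hs' := (mem_powersetCard.mp hs).1
    change wE q k μ s * lin (bdiag (bf q k) (μ + ind s)) (ket A ν) = _
    rw [lin_ket_of_antitone _ hν]
    unfold bdiag
    by_cases h1 : μ + ind s = ν
    · have h2 : μ = ν - ind s := by rw [← h1]; simp
      rw [if_pos h1, if_pos h2, ← h1, mul_comm, ← bf_adj q k s (by rw [h1]; exact hν) hμ, mul_comm]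
    · rw [if_neg h1, mul_zero]
      by_cases h2 : μ = ν - ind s
      · by_cases h3 : ind s ≤ ν
        · exact absurd (by rw [h2]; exact tsub_add_cancel_of_le h3) h1
        · rw [wEp_eq_zero hν hs' h3, zero_mul]
      · rw [if_neg h2, mul_zero]
  have := LinearMap.congr_fun (LinearMap.congr_fun h u) w
  simpa using this

lemma bil_adj_x (q : A) (k : ℕ) (x : A) (u w : M A) :
    bil (bdiag (bf q k)) (Ex q k x u) w = bil (bdiag (bf q k)) u (Epx q k x w) := by
  simp only [← bilL_apply]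
  unfold Ex Epx
  simp only [LinearMap.sum_apply, LinearMap.smul_apply, map_sum, map_smul]
  apply sum_congr rfl
  intro r _
  congr 1
  exact bil_adj q k r u w

theorem bb_vY {q : A} (hq : IsNilpotent q) (k : ℕ) (u : M A) (ys : List A)
    (h : ys.length ≤ k) (hy : ∀ y ∈ ys, IsNilpotent y) {z : A} (hz : IsNilpotent z) :
    (ys.map (fun y => qinf q (z * y))).prod *
      bil (bdiag (bf q k)) (K q k z u) (vY q k ys) =
      bil (bdiag (bf q k)) u (vY q k ys) := by
  have := eigen_iter hq k ys h hy z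
    (fun j => (bilL (bdiag (bf q k))) (K q k (z * q ^ j) u)) (by
    intro j w
    simp only [bilL_apply]
    rw [← bil_adj_x]
    have hzj : IsNilpotent (z * q ^ j) := by
      obtain ⟨n, hn⟩ := hz
      exact ⟨n, by rw [mul_pow, hn, zero_mul]⟩
    have := LinearMap.congr_fun (Ex_mul_K hq k hzj) u
    rw [Module.End.mul_apply] at this
    rw [this]
    congr 3
    rw [pow_succ]; ring)
  simp only [pow_zero, mul_one, bilL_apply] at this
  rw [this, pow_nilpotencyClass' hq, mul_zero, K_zero]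
  rfl

end MP4905

end

section

open Finset

namespace MP4905

universe u

variable {A : Type u} [CommRing A]

/-- the shift of a function of the last row -/
def shiftRow (q : A) (ψ : ℕ → A) : ℕ → A
  | 0 => 0
  | s + 1 => (1 - q ^ (s + 1)) * ψ s

lemma Ep_top_ket (q : A) (n : ℕ) {μ : ℕ →₀ ℕ} (hμ : Antitone (μ : ℕ → ℕ)) (h0 : μ (n + 1) = 0) :
    Ep q (n + 1) (n + 1) (ket A μ) = (1 - q ^ (μ n)) • ket A (μ - ind (range (n + 1))) := by
  rw [Ep_ket _ _ _ hμ]
  have e : powersetCard (n + 1) (range (n + 1)) = {range (n + 1)} := by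
    have := powersetCard_self (range (n + 1))
    rwa [card_range] at this
  rw [e, sum_singleton]
  congr 1
  unfold wEp
  rw [prod_range_succ, prod_eq_one]
  · rw [if_pos ⟨by simp, by simp⟩, h0, one_mul, Nat.sub_zero]
  · intro i hi
    have := mem_range.mp hi
    rw [if_neg]
    rintro ⟨_, h⟩
    apply h
    rw [mem_range]
    omega

lemma lastRow_step {q : A} (n : ℕ) {z : A} (X : (ℕ →₀ ℕ) → A)
    (hX : ∀ μ : ℕ →₀ ℕ, Antitone (μ : ℕ → ℕ) → μ (n + 1) = 0 →
      X (μ + ind (range (n + 1))) = z * X μ) (ψ : ℕ → A) {v : M A} (hv : v ∈ Mle A (n + 1)) :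
    z * lin (fun μ => X μ * ψ (μ n)) (Ep q (n + 1) (n + 1) v) =
      lin (fun μ => X μ * shiftRow q ψ (μ n)) v := by
  refine Mle_induction (P := fun v => z * lin (fun μ => X μ * ψ (μ n)) (Ep q (n + 1) (n + 1) v) =
      lin (fun μ => X μ * shiftRow q ψ (μ n)) v) ?_ ?_ ?_ ?_ hv
  · simp
  · intro v w hv hw
    rw [map_add, map_add, map_add, mul_add, hv, hw]
  · intro a v hv
    rw [map_smul, map_smul, map_smul, ← hv, smul_eq_mul, smul_eq_mul]
    ring
  · intro μ hμ h0
    rw [Ep_top_ket q n hμ h0, map_smul, smul_eq_mul, lin_ket_of_antitone _ hμ]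
    rcases Nat.eq_zero_or_pos (μ n) with h | h
    · rw [h]
      simp [shiftRow]
    · obtain ⟨s, hs⟩ : ∃ s, μ n = s + 1 := ⟨μ n - 1, by omega⟩
      have hge : ∀ i, i < n + 1 → 1 ≤ μ i := by
        intro i hi
        have : μ n ≤ μ i := hμ (by omega)
        omega
      have hle : ind (range (n + 1)) ≤ μ := by
        rw [ind_le_iff]
        intro i hi
        exact hge i (mem_range.mp hi)
      have hz : ∀ i, n + 1 ≤ i → μ i = 0 := by
        intro i hi
        have : μ i ≤ μ (n + 1) := hμ hi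
        omega
      have hanti : Antitone ((μ - ind (range (n + 1)) : ℕ →₀ ℕ) : ℕ → ℕ) := by
        intro i j hij
        have h1 : μ j ≤ μ i := hμ hij
        simp only [Finsupp.coe_tsub, Pi.sub_apply, ind_apply, mem_range]
        by_cases hj : j < n + 1
        · rw [if_pos hj, if_pos (by omega)]
          omega
        · rw [hz j (by omega)]
          simp
      have hz' : (μ - ind (range (n + 1)) : ℕ →₀ ℕ) (n + 1) = 0 := by
        simp [h0]
      have hXμ := hX _ hanti hz'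
      rw [tsub_add_cancel_of_le hle] at hXμ
      have hn : (μ - ind (range (n + 1)) : ℕ →₀ ℕ) n = s := by
        simp [hs]
      rw [lin_ket_of_antitone _ hanti, hn, hXμ, hs]
      simp only [shiftRow]
      ring

theorem last_row {q : A} (hq : IsNilpotent q) (n : ℕ) {P z : A} {B : ℕ} (hB : P ^ B = 0) {v : M A}
    (hv : v ∈ Mle A (n + 1)) (hE : Ep q (n + 1) (n + 1) v = P • v) (X : (ℕ →₀ ℕ) → A)
    (hX : ∀ μ : ℕ →₀ ℕ, Antitone (μ : ℕ → ℕ) → μ (n + 1) = 0 →
      X (μ + ind (range (n + 1))) = z * X μ) (ψ : ℕ → A) :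
    lin (fun μ => X μ * ψ (μ n)) v =
      (∑ s ∈ range B, ψ s * (z * P) ^ s * iq q s) *
        lin (fun μ => X μ * (if μ n = 0 then 1 else 0)) v := by
  -- the values at delta functions
  set D : ℕ → A := fun s => lin (fun μ => X μ * (if μ n = s then 1 else 0)) v with hD
  have step : ∀ s, (1 - q ^ (s + 1)) * D (s + 1) = z * P * D s := by
    intro s
    have h1 := lastRow_step (q := q) n X hX (fun t => if t = s then 1 else 0) hv
    rw [hE, map_smul, smul_eq_mul] at h1
    have h2 : lin (fun μ => X μ * shiftRow q (fun t => if t = s then 1 else 0) (μ n)) v =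
        (1 - q ^ (s + 1)) * D (s + 1) := by
      rw [hD]
      simp only
      rw [← lin_smul]
      congr 2
      funext μ
      rcases Nat.eq_zero_or_pos (μ n) with h | h
      · simp [h, shiftRow]
      · obtain ⟨t, ht⟩ : ∃ t, μ n = t + 1 := ⟨μ n - 1, by omega⟩
        rw [ht]
        simp only [shiftRow, add_left_inj]
        by_cases hts : t = s
        · subst hts; simp; ring
        · simp [hts]
    rw [← h2, ← h1]
    simp only [hD]
    ring
  have val : ∀ s, D s = (z * P) ^ s * iq q s * D 0 := by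
    intro s
    induction s with
    | zero => simp
    | succ s ih =>
      have hu := isUnit_one_sub_pow hq s
      apply hu.mul_left_cancel
      rw [step s, ih, iq_eq hq s, pow_succ]
      ring
  -- decomposition on the finite support
  obtain ⟨S, hSB, hS⟩ : ∃ S, B ≤ S ∧ ∀ μ ∈ v.support, μ.1 n < S := by
    refine ⟨max B ((v.support.sup fun μ => μ.1 n) + 1), le_max_left _ _, ?_⟩
    intro μ hμ
    have : μ.1 n ≤ v.support.sup fun μ => μ.1 n := Finset.le_sup (f := fun μ : Pt => μ.1 n) hμ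
    exact lt_of_lt_of_le (Nat.lt_succ_of_le this) (le_max_right _ _)
  have dec : lin (fun μ => X μ * ψ (μ n)) v = ∑ s ∈ range S, ψ s * D s := by
    simp only [hD, lin, Finsupp.linearCombination_apply, Finsupp.sum, smul_eq_mul, mul_sum]
    rw [sum_comm]
    apply sum_congr rfl
    intro μ hμ
    rw [sum_eq_single (μ.1 n)]
    · simp; ring
    · intro s _ hs
      rw [if_neg (Ne.symm hs)]
      ring
    · intro h
      exact absurd (mem_range.mpr (hS μ hμ)) h
  have hzero : ∀ s, B ≤ s → (z * P) ^ s = 0 := by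
    intro s hs
    obtain ⟨t, rfl⟩ := Nat.exists_eq_add_of_le hs
    rw [mul_pow, pow_add P, hB]
    ring
  rw [dec, sum_mul]
  have hsub : range B ⊆ range S := range_subset_range.mpr hSB
  rw [sum_subset hsub (f := fun s => ψ s * (z * P) ^ s * iq q s *
      lin (fun μ => X μ * (if μ n = 0 then 1 else 0)) v)]
  · apply sum_congr rfl
    intro s _
    rw [val s]
    simp only [hD]
    ring
  · intro s _ hs
    rw [hzero s (by simpa using hs)]
    ring

end MP4905

end

section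

open Finset

namespace MP4905

universe u

variable {A : Type u} [CommRing A]

/-! ### branching weights -/

/-- weight of one step of the branching -/
def bb (q : A) (x y r : ℕ) : A := if y ≤ r ∧ r ≤ x then gb q (x - y) (x - r) else 0

/-- common factor -/
noncomputable def CB (q : A) (x y r : ℕ) : A :=
  if y ≤ r ∧ r ≤ x + 1 then qf q (x - y) * iq q (x + 1 - r) * iq q (r - y) else 0

lemma bb_L1 {q : A} (hq : IsNilpotent q) (x y r : ℕ) :
    bb q x y r = CB q x y r * (1 - q ^ (x + 1 - r)) := by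
  unfold bb CB
  by_cases h : y ≤ r ∧ r ≤ x
  · have e1 : x + 1 - r = (x - r) + 1 := by omega
    have e2 : x - y - (x - r) = r - y := by omega
    rw [if_pos h, if_pos (by omega), gb_eq hq (by omega), iq_eq hq (x - r), e1, e2]
    ring
  · rw [if_neg h]
    by_cases h2 : y ≤ r ∧ r ≤ x + 1
    · have e1 : x + 1 - r = 0 := by omega
      rw [if_pos h2, e1]
      simp
    · rw [if_neg h2, zero_mul]

lemma bb_L4 {q : A} (hq : IsNilpotent q) (x y r : ℕ) :
    bb q (x + 1) (y + 1) r = CB q x y r * (1 - q ^ (r - y)) := by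
  unfold bb CB
  by_cases h : y + 1 ≤ r ∧ r ≤ x + 1
  · have e1 : r - y = (r - y - 1) + 1 := by omega
    have e2 : x + 1 - (y + 1) = x - y := by omega
    have e3 : x - y - (x + 1 - r) = r - y - 1 := by omega
    rw [if_pos h, if_pos (by omega), e2, gb_eq hq (by omega), e3, iq_eq hq (r - y - 1), ← e1]
    ring
  · rw [if_neg h]
    by_cases h2 : y ≤ r ∧ r ≤ x + 1
    · have e1 : r - y = 0 := by omega
      rw [if_pos h2, e1]
      simp
    · rw [if_neg h2, zero_mul]

lemma bb_R {q : A} (hq : IsNilpotent q) (x y r : ℕ) (hr : 1 ≤ r) :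
    bb q x y (r - 1) = CB q x y r * (1 - q ^ (r - y)) := by
  rw [← bb_L4 hq]
  unfold bb
  by_cases h : y + 1 ≤ r ∧ r ≤ x + 1
  · have e2 : x + 1 - (y + 1) = x - y := by omega
    have e3 : x - (r - 1) = x + 1 - r := by omega
    rw [if_pos h, if_pos (by omega), e2, e3]
  · rw [if_neg h, if_neg (by omega)]

lemma bb_L3 {q : A} (hq : IsNilpotent q) (x y r : ℕ) (hxy : y ≤ x) :
    bb q (x + 1) y r = CB q x y r * (1 - q ^ (x + 1 - r) * q ^ (r - y)) := by
  unfold bb CB
  by_cases h : y ≤ r ∧ r ≤ x + 1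
  · have e1 : x + 1 - y = (x - y) + 1 := by omega
    have e3 : x - y + 1 - (x + 1 - r) = r - y := by omega
    have e4 : q ^ (x + 1 - r) * q ^ (r - y) = q ^ (x - y + 1) := by
      rw [← pow_add]; congr 1; omega
    rw [if_pos h, if_pos h, e1, gb_eq hq (by omega), e3, qf_succ, e4]
    ring
  · rw [if_neg h, if_neg h, zero_mul]

lemma bb_L2 {q : A} (hq : IsNilpotent q) (x y r : ℕ) (hxy : y ≤ x) :
    (1 - q ^ (x - y)) * bb q x (y + 1) r =
      CB q x y r * ((1 - q ^ (x + 1 - r)) * (1 - q ^ (r - y))) := by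
  unfold bb CB
  by_cases h : y + 1 ≤ r ∧ r ≤ x
  · have e1 : x - y = (x - (y + 1)) + 1 := by omega
    have e3 : x - (y + 1) - (x - r) = r - y - 1 := by omega
    have e4 : x + 1 - r = (x - r) + 1 := by omega
    have e5 : r - y = (r - y - 1) + 1 := by omega
    have e6 : iq q (r - y - 1) = iq q (r - y) * (1 - q ^ (r - y)) := by
      rw [iq_eq hq (r - y - 1), ← e5]
    rw [if_pos h, if_pos (by omega), e1, gb_eq hq (by omega), e3, qf_succ, e4, e6,
      iq_eq hq (x - r)]
    ring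
  · rw [if_neg h, mul_zero]
    by_cases h2 : y ≤ r ∧ r ≤ x + 1
    · rw [if_pos h2]
      rcases Nat.lt_or_ge y r with h3 | h3
      · have e1 : x + 1 - r = 0 := by omega
        rw [e1]; simp
      · have e1 : r - y = 0 := by omega
        rw [e1]; simp
    · rw [if_neg h2, zero_mul]

lemma CB_ne_zero {q : A} {x y r : ℕ} (h : CB q x y r ≠ 0) : y ≤ r ∧ r ≤ x + 1 := by
  by_contra hc
  apply h
  unfold CB
  rw [if_neg hc]

/-! ### the fold -/

/-- left transfer -/
def TBL (u : A) (α γ : ℕ → A) (i : ℕ) : Bool → Bool → A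
  | false, false => 1 - α i
  | false, true => u * ((1 - α i) * (1 - γ i))
  | true, false => 1 - α i * γ i
  | true, true => u * (1 - γ i)

def sBL (u : A) : Bool → A
  | false => 1
  | true => u

/-- right transfer -/
def TBR (u : A) (α γ : ℕ → A) (i : ℕ) : Bool → Bool → A
  | false, false => 1 - α (i + 1)
  | false, true => u * ((1 - γ (i + 1)) * (1 - γ i * α (i + 1)))
  | true, false => 1 - α (i + 1)
  | true, true => u * (1 - γ (i + 1))

def sBR (u : A) (α γ : ℕ → A) : Bool → A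
  | false => 1 - α 0
  | true => u * (1 - γ 0)

lemma fold_B (u : A) (α γ : ℕ → A) (n : ℕ) :
    Z (sBL u) (TBL u α γ) (n + 1) false + Z (sBL u) (TBL u α γ) (n + 1) true =
      (1 + u) * (Z (sBR u α γ) (TBR u α γ) n false + Z (sBR u α γ) (TBR u α γ) n true) ∧
    Z (sBL u) (TBL u α γ) (n + 1) true = u * Z (sBL u) (TBL u α γ) (n + 1) false -
      (1 + u) * u * γ n * Z (sBR u α γ) (TBR u α γ) n false := by
  induction n with
  | zero =>
    constructor <;> simp only [Z, sBL, sBR, TBL] <;> ring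
  | succ n ih =>
    obtain ⟨h1, h2⟩ := ih
    rw [Z_succ (sBL u) _ (n + 1) false, Z_succ (sBL u) _ (n + 1) true,
      Z_succ (sBR u α γ) _ n false, Z_succ (sBR u α γ) _ n true]
    generalize Z (sBL u) (TBL u α γ) (n + 1) false = a0 at *
    generalize Z (sBL u) (TBL u α γ) (n + 1) true = a1 at *
    generalize Z (sBR u α γ) (TBR u α γ) n false = b0 at *
    generalize Z (sBR u α γ) (TBR u α γ) n true = b1 at *
    simp only [TBL, TBR]
    generalize α (n + 1) = x at *
    generalize γ (n + 1) = y at *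
    generalize γ n = c at *
    constructor
    · linear_combination ((1 - x) + u * (1 - y)) * h1 + (1 - y) * x * h2
    · linear_combination (-(u * y * (1 - x))) * h1

lemma sum_wt_B (α γ : ℕ → A) (n r : ℕ) :
    ∑ s ∈ powersetCard (r + 1) (range (n + 2)), wt (sBL 1) (TBL 1 α γ) (n + 1) s =
      ∑ s ∈ powersetCard (r + 1) (range (n + 1)), wt (sBR 1 α γ) (TBR 1 α γ) n s +
      ∑ s ∈ powersetCard r (range (n + 1)), wt (sBR 1 α γ) (TBR 1 α γ) n s := by
  rw [← coeff_Z2, ← coeff_Z2, ← coeff_Z2]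
  have e0 : lift0 (sBL (1 : A)) = sBL Polynomial.X := by
    funext b; cases b <;> simp [lift0, sBL]
  have e0' : lift0 (sBR 1 α γ) =
      sBR Polynomial.X (fun i => Polynomial.C (α i)) (fun i => Polynomial.C (γ i)) := by
    funext b; cases b <;> simp [lift0, sBR]
  have e1 : liftT (TBL 1 α γ) =
      TBL Polynomial.X (fun i => Polynomial.C (α i)) (fun i => Polynomial.C (γ i)) := by
    funext i b b'; cases b <;> cases b' <;> simp [liftT, TBL]
  have e2 : liftT (TBR 1 α γ) =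
      TBR Polynomial.X (fun i => Polynomial.C (α i)) (fun i => Polynomial.C (γ i)) := by
    funext i b b'; cases b <;> cases b' <;> simp [liftT, TBR]
  rw [e0, e0', e1, e2]
  obtain ⟨h1, -⟩ := fold_B (Polynomial.X) (fun i => Polynomial.C (α i))
    (fun i => Polynomial.C (γ i)) n
  rw [h1]
  generalize Z (sBR Polynomial.X (fun i => Polynomial.C (α i)) (fun i => Polynomial.C (γ i)))
    (TBR Polynomial.X (fun i => Polynomial.C (α i)) (fun i => Polynomial.C (γ i))) n false +
    Z (sBR Polynomial.X (fun i => Polynomial.C (α i)) (fun i => Polynomial.C (γ i)))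
    (TBR Polynomial.X (fun i => Polynomial.C (α i)) (fun i => Polynomial.C (γ i))) n true = b
  rw [add_mul, one_mul, Polynomial.coeff_add, Polynomial.coeff_X_mul]

/-! ### the branching kernel -/

/-- weight of a pair of interlacing sequences -/
def bw (q : A) (m : ℕ) (μ ρ : ℕ →₀ ℕ) : A :=
  ∏ i ∈ range m, bb q (μ i) (μ (i + 1)) (ρ i)

lemma bb_ne_zero {q : A} {x y r : ℕ} (h : bb q x y r ≠ 0) : y ≤ r ∧ r ≤ x := by
  by_contra hc
  apply h
  unfold bb
  rw [if_neg hc]

lemma bw_ne_zero {q : A} {m : ℕ} {μ ρ : ℕ →₀ ℕ} (h : bw q m μ ρ ≠ 0) {i : ℕ} (hi : i < m) :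
    μ (i + 1) ≤ ρ i ∧ ρ i ≤ μ i := by
  apply bb_ne_zero (q := q)
  intro h0
  exact h (prod_eq_zero (mem_range.mpr hi) h0)

/-- the common factor -/
noncomputable def CBw (q : A) (m : ℕ) (μ ρ : ℕ →₀ ℕ) : A :=
  ∏ i ∈ range m, CB q (μ i) (μ (i + 1)) (ρ i)

def alB (q : A) (μ ρ : ℕ →₀ ℕ) (i : ℕ) : A := q ^ (μ i + 1 - ρ i)

def gaB (q : A) (μ ρ : ℕ →₀ ℕ) (i : ℕ) : A := q ^ (ρ i - μ (i + 1))

lemma BL_term {q : A} (hq : IsNilpotent q) (m : ℕ) {μ : ℕ →₀ ℕ} (hμ : Antitone μ) (ρ : ℕ →₀ ℕ)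
    (s : Finset ℕ) (hs : s ⊆ range (m + 1)) :
    wE q (m + 1) μ s * bw q m (μ + ind s) ρ =
      CBw q m μ ρ * wt (sBL 1) (TBL 1 (alB q μ ρ) (gaB q μ ρ)) m s := by
  unfold wE bw CBw wt
  have hlast : m + 1 ∉ s := fun h => by simpa using hs h
  have h0 : sBL (1 : A) (decide (0 ∈ s)) = 1 := by
    by_cases h : 0 ∈ s <;> simp [h, sBL]
  rw [prod_range_succ, if_neg (fun h => hlast h.2), mul_one, h0, one_mul, ← prod_mul_distrib,
    ← prod_mul_distrib]
  apply prod_congr rfl
  intro i _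
  have hd : μ (i + 1) ≤ μ i := hμ (Nat.le_succ i)
  by_cases h1 : i ∈ s <;> by_cases h2 : i + 1 ∈ s
  · simp [h1, h2, TBL, gaB, bb_L4 hq]
  · simp [h1, h2, TBL, gaB, alB, bb_L3 hq _ _ _ hd]
  · simp [h1, h2, TBL, gaB, alB, bb_L2 hq _ _ _ hd]
  · simp [h1, h2, TBL, alB, bb_L1 hq (μ i)]

lemma BR_term {q : A} (hq : IsNilpotent q) (n : ℕ) {μ : ℕ →₀ ℕ} (ρ : ℕ →₀ ℕ)
    (s : Finset ℕ) (hs : s ⊆ range (n + 1)) (hle : ind s ≤ ρ) :
    bw q (n + 1) μ (ρ - ind s) * wE q (n + 1) (ρ - ind s) s =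
      CBw q (n + 1) μ ρ * wt (sBR 1 (alB q μ ρ) (gaB q μ ρ))
        (TBR 1 (alB q μ ρ) (gaB q μ ρ)) n s := by
  have hle' := ind_le_iff.mp hle
  have hlast : n + 1 ∉ s := fun h => by simpa using hs h
  have hb : ∀ i, bb q (μ i) (μ (i + 1)) ((ρ - ind s) i) =
      CB q (μ i) (μ (i + 1)) (ρ i) * (if i ∈ s then 1 - gaB q μ ρ i else 1 - alB q μ ρ i) := by
    intro i
    by_cases h : i ∈ s
    · simp [h, gaB, bb_R hq _ _ _ (hle' i h)]
    · simp [h, alB, bb_L1 hq (μ i)]
  by_cases hne : ∀ i < n + 1, μ (i + 1) ≤ ρ i ∧ ρ i ≤ μ i + 1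
  · have elast : (if n ∉ s ∧ n + 1 ∈ s then
        1 - q ^ ((ρ - ind s) n - (ρ - ind s) (n + 1)) else 1) = 1 := if_neg (fun h => hlast h.2)
    unfold wE bw CBw wt
    rw [prod_congr rfl (fun i _ => hb i), prod_mul_distrib, mul_assoc]
    congr 1
    rw [prod_range_succ' (fun i => if i ∈ s then 1 - gaB q μ ρ i else 1 - alB q μ ρ i),
      prod_range_succ (fun i => if i ∉ s ∧ i + 1 ∈ s then
        1 - q ^ ((ρ - ind s) i - (ρ - ind s) (i + 1)) else 1), elast, mul_one]
    have e0 : (if 0 ∈ s then 1 - gaB q μ ρ 0 else 1 - alB q μ ρ 0) =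
        sBR 1 (alB q μ ρ) (gaB q μ ρ) (decide (0 ∈ s)) := by
      by_cases h : 0 ∈ s <;> simp [h, sBR]
    rw [e0, mul_comm (∏ _ ∈ range n, _), mul_assoc, ← prod_mul_distrib]
    congr 1
    apply prod_congr rfl
    intro i hi
    have hi' := mem_range.mp hi
    by_cases h1 : i ∈ s <;> by_cases h2 : i + 1 ∈ s
    · simp [h1, h2, TBR]
    · simp [h1, h2, TBR]
    · have e1 := hne i (by omega)
      have e2 := hne (i + 1) (by omega)
      have e3 := hle' (i + 1) h2
      have e4 : ρ i - (ρ (i + 1) - 1) = (ρ i - μ (i + 1)) + (μ (i + 1) + 1 - ρ (i + 1)) := by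
        omega
      simp only [h1, h2, not_false_eq_true, and_self, if_true, decide_true, decide_false, TBR,
        Finsupp.coe_tsub, Pi.sub_apply, ind_apply, if_false, Nat.sub_zero, one_mul]
      rw [e4, pow_add]
      rfl
    · simp [h1, h2, TBR]
  · push Not at hne
    obtain ⟨i, hi, hc⟩ := hne
    have hz : CB q (μ i) (μ (i + 1)) (ρ i) = 0 := by
      unfold CB
      rw [if_neg]
      intro h
      have := hc h.1
      omega
    have z1 : CBw q (n + 1) μ ρ = 0 := by
      unfold CBw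
      exact prod_eq_zero (mem_range.mpr hi) hz
    have z2 : bw q (n + 1) μ (ρ - ind s) = 0 := by
      unfold bw
      apply prod_eq_zero (mem_range.mpr hi)
      rw [hb, hz, zero_mul]
    rw [z1, z2, zero_mul, zero_mul]

lemma wtR_eq_zero {q : A} {μ ρ : ℕ →₀ ℕ} {n : ℕ} {s : Finset ℕ} (hsm : s ⊆ range (n + 1))
    (hs : ¬ ind s ≤ ρ) :
    wt (sBR 1 (alB q μ ρ) (gaB q μ ρ)) (TBR 1 (alB q μ ρ) (gaB q μ ρ)) n s = 0 := by
  rw [ind_le_iff] at hs
  push Not at hs
  obtain ⟨i, hi, hai⟩ := hs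
  have hai : ρ i = 0 := by omega
  unfold wt
  cases i with
  | zero => simp [hi, sBR, gaB, hai]
  | succ i =>
    have : i + 1 < n + 1 := mem_range.mp (hsm hi)
    rw [prod_eq_zero (mem_range.mpr (show i < n by omega)), mul_zero]
    have : ∀ b, TBR 1 (alB q μ ρ) (gaB q μ ρ) i b true = 0 := by
      intro b; cases b <;> simp [TBR, gaB, hai]
    simp [hi, this]

/-- the kernel form of the branching identity -/
lemma kernel_B {q : A} (hq : IsNilpotent q) (m r : ℕ) {μ : ℕ →₀ ℕ} (hμ : Antitone μ)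
    (ρ : ℕ →₀ ℕ) :
    ∑ s ∈ powersetCard (r + 1) (range (m + 1)), wE q (m + 1) μ s * bw q m (μ + ind s) ρ =
    ∑ s ∈ (powersetCard (r + 1) (range m)).filter (fun s => ind s ≤ ρ),
      bw q m μ (ρ - ind s) * wE q m (ρ - ind s) s +
    ∑ s ∈ (powersetCard r (range m)).filter (fun s => ind s ≤ ρ),
      bw q m μ (ρ - ind s) * wE q m (ρ - ind s) s := by
  cases m with
  | zero =>
    cases r with
    | zero =>
      have e1 : powersetCard (0 + 1) (range (0 + 1)) = {{0}} := by decide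
      have e2 : (ind (∅ : Finset ℕ)) ≤ ρ := by intro i; simp
      have e3 : powersetCard (0 + 1) (range 0) = ∅ := by
        rw [powersetCard_eq_empty]; simp
      rw [e1, e3]
      simp [wE, bw, filter_singleton, e2]
    | succ r =>
      have e1 : powersetCard (r + 1 + 1) (range (0 + 1)) = ∅ := by
        rw [powersetCard_eq_empty]; simp
      have e2 : powersetCard (r + 1 + 1) (range 0) = ∅ := by
        rw [powersetCard_eq_empty]; simp
      have e3 : powersetCard (r + 1) (range 0) = ∅ := by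
        rw [powersetCard_eq_empty]; simp
      rw [e1, e2, e3]
      simp
  | succ n =>
    rw [sum_congr rfl (fun s hs => BL_term hq (n + 1) hμ ρ s (mem_powersetCard.mp hs).1),
      ← mul_sum, sum_wt_B]
    have key : ∀ r, ∑ s ∈ (powersetCard r (range (n + 1))).filter (fun s => ind s ≤ ρ),
        bw q (n + 1) μ (ρ - ind s) * wE q (n + 1) (ρ - ind s) s =
        CBw q (n + 1) μ ρ * ∑ s ∈ powersetCard r (range (n + 1)),
          wt (sBR 1 (alB q μ ρ) (gaB q μ ρ)) (TBR 1 (alB q μ ρ) (gaB q μ ρ)) n s := by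
      intro r
      rw [sum_congr rfl (fun s hs => BR_term hq n ρ s
        (mem_powersetCard.mp (mem_filter.mp hs).1).1 (mem_filter.mp hs).2), ← mul_sum]
      congr 1
      apply sum_filter_of_ne
      intro s hs h
      by_contra hc
      exact h (wtR_eq_zero (mem_powersetCard.mp hs).1 hc)
    rw [key, key, mul_add]

/-! ### the branching operator -/

/-- sequences supported in `range m` with entries less than `N` -/
noncomputable def Box (m N : ℕ) : Finset (ℕ →₀ ℕ) := (range m).finsupp (fun _ => range N)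

lemma mem_Box {m N : ℕ} {ρ : ℕ →₀ ℕ} :
    ρ ∈ Box m N ↔ ρ.support ⊆ range m ∧ ∀ i < m, ρ i < N := by
  unfold Box
  rw [mem_finsupp_iff]
  simp only [mem_range]

/-- the branching operator on functionals -/
noncomputable def Bh (q : A) (m : ℕ) (φ : (ℕ →₀ ℕ) → A) (μ : ℕ →₀ ℕ) : A :=
  ∑ ρ ∈ Box m (μ 0 + 1), bw q m μ ρ * φ ρ

/-- the branching operator -/
noncomputable def Bop (q : A) (m : ℕ) : Module.End A (M A) :=
  Finsupp.linearCombination A (fun μ : Pt =>
    ∑ ρ ∈ Box m (μ.1 0 + 1), bw q m μ.1 ρ • ket A ρ)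

lemma Bh_eq {q : A} {m : ℕ} (φ : (ℕ →₀ ℕ) → A) {μ : ℕ →₀ ℕ} (hμ : Antitone μ) {N : ℕ}
    (hN : μ 0 < N) : Bh q m φ μ = ∑ ρ ∈ Box m N, bw q m μ ρ * φ ρ := by
  unfold Bh
  apply sum_subset
  · intro ρ hρ
    rw [mem_Box] at hρ ⊢
    exact ⟨hρ.1, fun i hi => lt_of_lt_of_le (hρ.2 i hi) hN⟩
  · intro ρ hρ hρ2
    have : bw q m μ ρ = 0 := by
      by_contra hc
      apply hρ2
      rw [mem_Box] at hρ ⊢
      refine ⟨hρ.1, fun i hi => ?_⟩
      have h1 := (bw_ne_zero hc hi).2
      have h2 : μ i ≤ μ 0 := hμ (Nat.zero_le i)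
      omega
    rw [this, zero_mul]

lemma antitone_of_bw {q : A} {m : ℕ} {μ ρ : ℕ →₀ ℕ} (hρ : ρ.support ⊆ range m)
    (h : bw q m μ ρ ≠ 0) : Antitone (ρ : ℕ → ℕ) := by
  apply antitone_nat_of_succ_le
  intro i
  by_cases hi : i + 1 < m
  · have h1 := bw_ne_zero h hi
    have h2 := bw_ne_zero h (by omega : i < m)
    omega
  · have : ρ (i + 1) = 0 := by
      by_contra h0
      have := mem_range.mp (hρ (Finsupp.mem_support_iff.mpr h0))
      omega
    omega

lemma Bop_ket (q : A) (m : ℕ) {μ : ℕ →₀ ℕ} (hμ : Antitone μ) :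
    Bop q m (ket A μ) = ∑ ρ ∈ Box m (μ 0 + 1), bw q m μ ρ • ket A ρ := by
  have : ket A μ = Finsupp.single (⟨μ, hμ⟩ : Pt) 1 := ket_coe ⟨μ, hμ⟩
  rw [this, Bop, Finsupp.linearCombination_single, one_smul]

lemma lin_Bop (q : A) (m : ℕ) (φ : (ℕ →₀ ℕ) → A) (v : M A) :
    lin φ (Bop q m v) = lin (Bh q m φ) v := by
  have : (lin φ).comp (Bop q m) = lin (Bh q m φ) := by
    apply Finsupp.lhom_ext'
    intro μ
    ext1
    simp only [LinearMap.coe_comp, Function.comp_apply, Finsupp.lsingle_apply]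
    rw [← ket_coe, lin_ket_of_antitone _ μ.2, Bop_ket _ _ μ.2, map_sum, Bh]
    apply sum_congr rfl
    intro ρ hρ
    rw [map_smul, smul_eq_mul]
    by_cases h : bw q m μ.1 ρ = 0
    · rw [h, zero_mul, zero_mul]
    · rw [lin_ket_of_antitone _ (antitone_of_bw (mem_Box.mp hρ).1 h)]
  exact LinearMap.congr_fun this v

lemma regroupB {q : A} (m r : ℕ) {μ : ℕ →₀ ℕ} (hμ : Antitone μ) (φ : (ℕ →₀ ℕ) → A) :
    Bh q m (Eh q m r φ) μ = ∑ ρ ∈ Box m (μ 0 + 2),
      (∑ s ∈ (powersetCard r (range m)).filter (fun s => ind s ≤ ρ),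
        bw q m μ (ρ - ind s) * wE q m (ρ - ind s) s) * φ ρ := by
  unfold Bh Eh
  simp only [sum_mul, mul_sum, sum_filter]
  rw [sum_comm]
  conv_rhs => rw [sum_comm]
  apply sum_congr rfl
  intro s hs
  obtain ⟨hs1, hs2⟩ := mem_powersetCard.mp hs
  have hsupp : (ind s).support ⊆ range m := by
    intro i hi
    rw [Finsupp.mem_support_iff, ind_apply] at hi
    by_cases h : i ∈ s
    · exact hs1 h
    · simp [h] at hi
  simp only [ite_mul, zero_mul]
  rw [← sum_filter]
  refine sum_bij_ne_zero (fun ρ _ _ => ρ + ind s) ?_ ?_ ?_ ?_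
  · intro ρ hρ _
    rw [mem_Box] at hρ
    rw [mem_filter, mem_Box]
    refine ⟨⟨?_, ?_⟩, ?_⟩
    · intro i hi
      rcases mem_union.mp (Finsupp.support_add hi) with h | h
      · exact hρ.1 h
      · exact hsupp h
    · intro i hi
      have h1 := hρ.2 i hi
      have h2 : ind s i ≤ 1 := by rw [ind_apply]; split_ifs <;> omega
      simp only [Finsupp.coe_add, Pi.add_apply]
      omega
    · intro i
      simp
  · intro ρ _ _ ρ' _ _ h
    exact add_right_cancel h
  · intro ρ hρ hne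
    rw [mem_filter, mem_Box] at hρ
    obtain ⟨⟨h1, h2⟩, h3⟩ := hρ
    have hbw : bw q m μ (ρ - ind s) ≠ 0 := by
      intro h0
      apply hne
      rw [h0]
      ring
    have hcan : ρ - ind s + ind s = ρ := tsub_add_cancel_of_le h3
    refine ⟨ρ - ind s, ?_, ?_, hcan⟩
    · rw [mem_Box]
      constructor
      · intro i hi
        apply h1
        rw [Finsupp.mem_support_iff] at hi ⊢
        simp only [Finsupp.coe_tsub, Pi.sub_apply] at hi
        omega
      · intro i hi
        have h4 := (bw_ne_zero hbw hi).2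
        have h5 : μ i ≤ μ 0 := hμ (Nat.zero_le i)
        omega
    · rw [hcan, ← mul_assoc]
      exact hne
  · intro ρ _ _
    rw [add_tsub_cancel_right]
    ring

/-- `B E_{r+1} = (E_{r+1} + E_r) B` -/
theorem Bop_E {q : A} (hq : IsNilpotent q) (m r : ℕ) :
    Bop q m * E q (m + 1) (r + 1) = E q m (r + 1) * Bop q m + E q m r * Bop q m := by
  apply end_ext
  intro φ μ hμ
  rw [LinearMap.add_apply, map_add, Module.End.mul_apply, Module.End.mul_apply,
    Module.End.mul_apply, lin_Bop, lin_E, lin_E, lin_E, lin_Bop, lin_Bop,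
    lin_ket_of_antitone _ hμ, lin_ket_of_antitone _ hμ, lin_ket_of_antitone _ hμ,
    regroupB _ _ hμ, regroupB _ _ hμ, ← sum_add_distrib]
  have e1 : Eh q (m + 1) (r + 1) (Bh q m φ) μ =
      ∑ s ∈ powersetCard (r + 1) (range (m + 1)), ∑ ρ ∈ Box m (μ 0 + 2),
        wE q (m + 1) μ s * bw q m (μ + ind s) ρ * φ ρ := by
    unfold Eh
    apply sum_congr rfl
    intro s hs
    by_cases h : wE q (m + 1) μ s = 0
    · simp [h]
    · have ha := antitone_of_wE hμ (mem_powersetCard.mp hs).1 h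
      have h2 : (μ + ind s) 0 < μ 0 + 2 := by
        have h2 : ind s 0 ≤ 1 := by rw [ind_apply]; split_ifs <;> omega
        simp only [Finsupp.coe_add, Pi.add_apply]
        omega
      rw [Bh_eq φ ha h2, mul_sum]
      apply sum_congr rfl
      intro ρ _
      ring
  rw [e1, sum_comm]
  apply sum_congr rfl
  intro ρ _
  rw [← sum_mul, kernel_B hq m r hμ ρ, add_mul]

theorem Bop_Ex {q : A} (hq : IsNilpotent q) (m : ℕ) (x : A) :
    Bop q m * Ex q (m + 1) x = (1 + x) • (Ex q m x * Bop q m) := by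
  have e1 : Ex q (m + 1) x = 1 + ∑ r ∈ range (m + 1), x ^ (r + 1) • E q (m + 1) (r + 1) := by
    unfold Ex
    rw [sum_range_succ', add_comm]
    simp [E_zero]
  have e2 : Ex q m x = 1 + ∑ r ∈ range (m + 1), x ^ (r + 1) • E q m (r + 1) := by
    rw [Ex_eq q m x (le_refl (m + 2) |>.trans' (by omega) : m + 1 ≤ m + 2), sum_range_succ',
      add_comm]
    simp [E_zero]
  rw [e1, mul_add, mul_one, mul_sum]
  have e3 : ∀ r ∈ range (m + 1), Bop q m * x ^ (r + 1) • E q (m + 1) (r + 1) =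
      (x ^ (r + 1) • E q m (r + 1)) * Bop q m + x • ((x ^ r • E q m r) * Bop q m) := by
    intro r _
    rw [mul_smul_comm, Bop_E hq, smul_add, smul_mul_assoc, smul_mul_assoc, smul_smul, pow_succ']
  have e4 : ∑ r ∈ range (m + 1), x ^ r • E q m r = Ex q m x := rfl
  have e5 : Bop q m + (∑ r ∈ range (m + 1), x ^ (r + 1) • E q m (r + 1)) * Bop q m =
      Ex q m x * Bop q m := by
    rw [e2, add_mul, one_mul]
  rw [sum_congr rfl e3, sum_add_distrib, ← sum_mul, ← smul_sum, ← sum_mul, add_smul, one_smul,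
    e4, ← add_assoc, e5]

theorem Bop_Phi {q : A} (hq : IsNilpotent q) (p : A) (m L : ℕ) :
    Bop q m * Phi q p (m + 1) L =
      (∏ j ∈ range L, (1 + p * q ^ j)) • (Phi q p m L * Bop q m) := by
  induction L with
  | zero => simp [Phi]
  | succ L ih =>
    rw [Phi_succ, Phi_succ, ← mul_assoc, ih, smul_mul_assoc, mul_assoc, Bop_Ex hq,
      mul_smul_comm, smul_smul, prod_range_succ, mul_assoc]

theorem Bop_Phi_pow {q : A} (hq : IsNilpotent q) (p : A) (m L N : ℕ) :
    Bop q m * Phi q p (m + 1) L ^ N =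
      (∏ j ∈ range L, (1 + p * q ^ j)) ^ N • (Phi q p m L ^ N * Bop q m) := by
  induction N with
  | zero => simp
  | succ N ih =>
    rw [pow_succ, ← mul_assoc, ih, smul_mul_assoc, mul_assoc, Bop_Phi hq, mul_smul_comm,
      smul_smul, ← mul_assoc, ← pow_succ, ← pow_succ]

lemma Box_one (m : ℕ) : Box m 1 = {0} := by
  ext ρ
  rw [mem_Box, mem_singleton]
  constructor
  · rintro ⟨h1, h2⟩
    ext i
    by_cases hi : i < m
    · have := h2 i hi
      simp only [Finsupp.coe_zero, Pi.zero_apply]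
      omega
    · by_contra h0
      exact hi (mem_range.mp (h1 (Finsupp.mem_support_iff.mpr h0)))
  · rintro rfl
    simp

lemma Bop_ket_zero (q : A) (m : ℕ) : Bop q m (ket A 0) = ket A 0 := by
  have h : Antitone ((0 : ℕ →₀ ℕ) : ℕ → ℕ) := by intro i j _; simp
  rw [Bop_ket q m h]
  have e : (0 : ℕ →₀ ℕ) 0 + 1 = 1 := by simp
  rw [e, Box_one, sum_singleton]
  simp [bw, bb]

/-! ### the functional `W` as a branched `L♭` -/

lemma sum_finsupp_prod' (s : Finset ℕ) (t : ℕ → Finset ℕ) (f : ℕ → ℕ → A) :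
    ∑ ρ ∈ s.finsupp t, ∏ i ∈ s, f i (ρ i) = ∏ i ∈ s, ∑ x ∈ t i, f i x := by
  rw [prod_sum, Finset.finsupp, sum_map]
  refine sum_congr (by congr; exact Subsingleton.elim _ _) ?_
  intro p _
  rw [← prod_attach]
  apply prod_congr rfl
  intro x _
  simp

lemma sum_bb (q : A) {x y N : ℕ} (hxy : y ≤ x) (hN : x < N) (f : ℕ → A) :
    ∑ r ∈ range N, bb q x y r * f r =
      ∑ c ∈ range (x - y + 1), gb q (x - y) c * f (x - c) := by
  unfold bb
  simp only [ite_mul, zero_mul]
  rw [← sum_filter]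
  refine sum_nbij' (fun r => x - r) (fun c => x - c) ?_ ?_ ?_ ?_ ?_
  · intro r hr
    simp only [mem_filter, mem_range] at hr ⊢
    omega
  · intro c hc
    simp only [mem_filter, mem_range] at hc ⊢
    omega
  · intro r hr
    simp only [mem_filter, mem_range] at hr ⊢
    omega
  · intro c hc
    simp only [mem_range] at hc ⊢
    omega
  · intro r hr
    simp only [mem_filter, mem_range] at hr ⊢
    have : x - (x - r) = r := by omega
    rw [this]

lemma sum_bb_even (p : A) {x y N : ℕ} (hxy : y ≤ x) (hN : x < N) :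
    ∑ r ∈ range N, bb (p ^ 2) x y r * p ^ (r - y) = ∏ j ∈ range (x - y), (1 + p ^ (j + 1)) := by
  rw [sum_bb _ hxy hN, ← RS2_p_left, RS2]
  apply sum_congr rfl
  intro c hc
  have hc' := mem_range.mp hc
  have : x - c - y = x - y - c := by omega
  rw [this, one_pow, mul_one]

lemma sum_bb_odd (p : A) {x y N : ℕ} (hxy : y ≤ x) (hN : x < N) :
    ∑ r ∈ range N, bb (p ^ 2) x y r * p ^ (x - r) = ∏ j ∈ range (x - y), (1 + p ^ (j + 1)) := by
  rw [sum_bb _ hxy hN, ← RS2_p_right, RS2]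
  apply sum_congr rfl
  intro c hc
  have hc' := mem_range.mp hc
  have : x - (x - c) = c := by omega
  rw [this, one_pow, mul_one]

lemma Bh_Lbf (p : A) (k : ℕ) {μ : ℕ →₀ ℕ} (hμ : Antitone μ) :
    Bh (p ^ 2) (2 * k) (Lbf p k) μ = Wf p (2 * k + 1) μ := by
  set h : ℕ → ℕ → A := fun i r => if Even i then p ^ (r - μ (i + 1)) else p ^ (μ i - r) with hh
  have e1 : ∀ ρ ∈ Box (2 * k) (μ 0 + 1), bw (p ^ 2) (2 * k) μ ρ * Lbf p k ρ =
      ∏ i ∈ range (2 * k), (bb (p ^ 2) (μ i) (μ (i + 1)) (ρ i) * h i (ρ i)) := by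
    intro ρ _
    rw [prod_mul_distrib]
    by_cases hz : bw (p ^ 2) (2 * k) μ ρ = 0
    · unfold bw at hz ⊢
      rw [hz, zero_mul, zero_mul]
    · unfold Lbf
      rw [prod_range_pair (fun i => h i (ρ i))]
      unfold bw
      congr 1
      apply prod_congr rfl
      intro i hi
      have hi' := mem_range.mp hi
      have h1 := bw_ne_zero hz (show 2 * i < 2 * k by omega)
      have h2 := bw_ne_zero hz (show 2 * i + 1 < 2 * k by omega)
      simp only [hh]
      rw [if_pos (even_two_mul i), if_neg (by simp), ← pow_add]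
      congr 1
      omega
  unfold Bh
  rw [sum_congr rfl e1, Box, sum_finsupp_prod' (range (2 * k)) (fun _ => range (μ 0 + 1))
    (fun i r => bb (p ^ 2) (μ i) (μ (i + 1)) r * h i r)]
  unfold Wf
  rw [Nat.add_sub_cancel]
  apply prod_congr rfl
  intro i _
  have h1 : μ (i + 1) ≤ μ i := hμ (Nat.le_succ i)
  have h2 : μ i < μ 0 + 1 := Nat.lt_succ_of_le (hμ (Nat.zero_le i))
  by_cases he : Even i
  · simp only [hh, if_pos he]
    exact sum_bb_even p h1 h2
  · simp only [hh, if_neg he]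
    exact sum_bb_odd p h1 h2

/-- odd number of columns reduced to even -/
theorem odd_reduction {p : A} (hp : IsNilpotent p) (k N L : ℕ) :
    lin (Wf p (2 * k + 1)) (((Phi (p ^ 2) p (2 * k + 1) L) ^ N) (ket A 0)) =
      (∏ j ∈ range L, (1 + p * (p ^ 2) ^ j)) ^ N *
        lin (Lbf p k) (((Phi (p ^ 2) p (2 * k) L) ^ N) (ket A 0)) := by
  have hq : IsNilpotent (p ^ 2) := hp.pow_succ 1
  have e1 : lin (Wf p (2 * k + 1)) = lin (Bh (p ^ 2) (2 * k) (Lbf p k)) :=
    lin_congr (fun μ hμ => (Bh_Lbf p k hμ).symm)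
  rw [e1, ← lin_Bop, ← Module.End.mul_apply, Bop_Phi_pow hq, LinearMap.smul_apply, map_smul,
    Module.End.mul_apply, Bop_ket_zero, smul_eq_mul]

end MP4905

end

section

open Finset

namespace MP4905

universe u

variable {A : Type u} [CommRing A]

lemma IsNilpotent.mul_right' {x : A} (hx : IsNilpotent x) (y : A) : IsNilpotent (x * y) := by
  obtain ⟨n, hn⟩ := hx
  exact ⟨n, by rw [mul_pow, hn, zero_mul]⟩

lemma IsNilpotent.mul_left' {x : A} (hx : IsNilpotent x) (y : A) : IsNilpotent (y * x) := by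
  rw [mul_comm]; exact IsNilpotent.mul_right' hx y

/-- `∏_{i<j} (y_i y_j;q)_∞` -/
noncomputable def D2 (q : A) : List A → A
  | [] => 1
  | y :: ys => (ys.map (fun z => qinf q (y * z))).prod * D2 q ys

/-- `∏_{i,j} (y_i y'_j;q)_∞` -/
noncomputable def DD (q : A) (ys ys' : List A) : A :=
  (ys.map (fun y => (ys'.map (fun z => qinf q (y * z))).prod)).prod

/-- `∏_i (z y_i;q)_∞` -/
noncomputable def D1 (q z : A) (ys : List A) : A := (ys.map (fun y => qinf q (z * y))).prod

lemma D1_append (q z : A) (ys ys' : List A) :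
    D1 q z (ys ++ ys') = D1 q z ys * D1 q z ys' := by
  simp [D1]

lemma D2_append (q : A) (ys ys' : List A) :
    D2 q (ys ++ ys') = D2 q ys * D2 q ys' * DD q ys ys' := by
  induction ys with
  | nil => simp [D2, DD]
  | cons y ys ih =>
    simp only [List.cons_append, D2, ih, DD, List.map_cons, List.prod_cons, List.map_append,
      List.prod_append]
    ring

lemma isUnit_D1 {q z : A} {ys : List A} (hy : ∀ y ∈ ys, IsNilpotent y) :
    IsUnit (D1 q z ys) := by
  unfold D1
  rw [List.prod_isUnit_iff]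
  intro a ha
  obtain ⟨y, hy', rfl⟩ := List.mem_map.mp ha
  exact isUnit_qinf (IsNilpotent.mul_left' (hy y hy') z)

lemma isUnit_DD {q : A} {ys ys' : List A} (hy : ∀ y ∈ ys, IsNilpotent y) :
    IsUnit (DD q ys ys') := by
  unfold DD
  rw [List.prod_isUnit_iff]
  intro a ha
  obtain ⟨y, hy', rfl⟩ := List.mem_map.mp ha
  rw [List.prod_isUnit_iff]
  intro b hb
  obtain ⟨z, hz', rfl⟩ := List.mem_map.mp hb
  exact isUnit_qinf (IsNilpotent.mul_right' (hy y hy') z)

/-! ### `L♭(v(Y))` -/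

lemma L_K_Mle {q p : A} (hq : IsNilpotent q) {k : ℕ} (hk : 0 < k) {y : A} (hy : IsNilpotent y)
    {w : M A} (hw : w ∈ Mle A (2 * k - 1)) :
    qinf q (p * y) * lin (Lbf p k) (K q (2 * k) y w) = lin (phz q p k y) w := by
  refine Mle_induction (P := fun w => qinf q (p * y) * lin (Lbf p k) (K q (2 * k) y w) =
    lin (phz q p k y) w) ?_ ?_ ?_ ?_ hw
  · simp
  · intro v w hv hw
    rw [map_add, map_add, mul_add, hv, hw, map_add]
  · intro a v hv
    rw [map_smul, map_smul, map_smul, smul_eq_mul, smul_eq_mul, ← hv]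
    ring
  · intro μ hμ h0
    rw [L_K hq hk hy hμ, lin_ket_of_antitone _ hμ, phz_eq hk, h0, Nat.zero_sub, RS2_zero, mul_one,
      ← mul_assoc, qinf_mul_ez (IsNilpotent.mul_left' hy p), one_mul]

theorem L_vY {q p : A} (hq : IsNilpotent q) (k : ℕ) (ys : List A) (h : ys.length ≤ 2 * k)
    (hy : ∀ y ∈ ys, IsNilpotent y) :
    D1 q p ys * D2 q ys * lin (Lbf p k) (vY q (2 * k) ys) = 1 := by
  induction ys with
  | nil =>
    rw [vY_nil, lin_ket_of_antitone _ (by intro a b _; simp)]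
    simp [D1, D2, Lbf]
  | cons y ys ih =>
    simp only [List.length_cons] at h
    have hys : ∀ y ∈ ys, IsNilpotent y := fun z hz => hy z (List.mem_cons_of_mem _ hz)
    have hk : 0 < k := by omega
    have hw : vY q (2 * k) ys ∈ Mle A (2 * k - 1) :=
      Mle_mono (by omega) (vY_mem_Mle ys (by omega))
    have h1 := L_K_Mle (p := p) hq hk (hy y List.mem_cons_self) hw
    have h2 := phz_vY hq p k ys (by omega) hys y
    have h3 := ih (by omega) hys
    rw [← h2, ← h1] at h3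
    rw [vY_cons, D2]
    simp only [D1, List.map_cons, List.prod_cons] at h3 ⊢
    linear_combination h3

/-! ### `W(v(Y))` -/

lemma Wf_eq_phz {p : A} (k : ℕ) (hk : 0 < k) {μ : ℕ →₀ ℕ} (h0 : μ (2 * k - 1) = 0) :
    Wf p (2 * k) μ = phz (p ^ 2) p k 1 μ := by
  unfold Wf phz
  obtain ⟨k, rfl⟩ : ∃ j, k = j + 1 := ⟨k - 1, by omega⟩
  have e1 : 2 * (k + 1) - 1 = 2 * k + 1 := by omega
  rw [e1] at h0
  have e2 := prod_range_pair (fun i => ∏ j ∈ range (μ i - μ (i + 1)), (1 + p ^ (j + 1))) (k + 1)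
  rw [e1]
  have e3 : ∏ i ∈ range (2 * (k + 1)), ∏ j ∈ range (μ i - μ (i + 1)), (1 + p ^ (j + 1)) =
      ∏ i ∈ range (2 * k + 1), ∏ j ∈ range (μ i - μ (i + 1)), (1 + p ^ (j + 1)) := by
    rw [show 2 * (k + 1) = 2 * k + 1 + 1 by ring, prod_range_succ, h0]
    simp
  rw [← e3, e2]
  apply prod_congr rfl
  intro i _
  rw [one_mul, RS2_p_left, RS2_p_right]

theorem W_vY {p : A} (hp : IsNilpotent p) (k : ℕ) (ys : List A) (h : ys.length < 2 * k)
    (hy : ∀ y ∈ ys, IsNilpotent y) :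
    D1 (p ^ 2) 1 ys * lin (Wf p (2 * k)) (vY (p ^ 2) (2 * k) ys) =
      lin (Lbf p k) (vY (p ^ 2) (2 * k) ys) := by
  have hq : IsNilpotent (p ^ 2) := hp.pow_succ 1
  have h2 := phz_vY hq p k ys (by omega) hy 1
  rw [← h2]
  have hk : 0 < k := by omega
  have hw : vY (p ^ 2) (2 * k) ys ∈ Mle A (2 * k - 1) :=
    Mle_mono (by omega) (vY_mem_Mle ys (by omega))
  unfold D1
  congr 1
  refine Mle_induction (P := fun w => lin (Wf p (2 * k)) w = lin (phz (p ^ 2) p k 1) w)
    ?_ ?_ ?_ ?_ hw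
  · simp
  · intro v w hv hw
    rw [map_add, map_add, hv, hw]
  · intro a v hv
    rw [map_smul, map_smul, hv]
  · intro μ hμ h0
    rw [lin_ket_of_antitone _ hμ, lin_ket_of_antitone _ hμ, Wf_eq_phz k hk h0]

/-! ### `L♭(K(-p) v(Y))` -/

lemma XXf_shift (q p : A) (k : ℕ) (hk : 0 < k) (y : A) (μ : ℕ →₀ ℕ) :
    XXf q p k y (μ + ind (range (2 * k))) = XXf q p k y μ := by
  unfold XXf
  congr 1
  · apply prod_congr rfl
    intro i hi
    have hi' := mem_range.mp hi
    have h1 : 2 * i ∈ range (2 * k) := by simp; omega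
    have h2 : 2 * i + 1 ∈ range (2 * k) := by simp; omega
    simp only [Finsupp.coe_add, Pi.add_apply, ind_apply, h1, h2, if_true]
    rw [Nat.add_sub_add_right]
  · apply prod_congr rfl
    intro i hi
    have hi' := mem_range.mp hi
    have h1 : 2 * i + 1 ∈ range (2 * k) := by simp; omega
    have h2 : 2 * i + 2 ∈ range (2 * k) := by simp; omega
    simp only [Finsupp.coe_add, Pi.add_apply, ind_apply, h1, h2, if_true]
    rw [Nat.add_sub_add_right]

lemma lin_congr_Mle {φ ψ : (ℕ →₀ ℕ) → A} {n : ℕ} (h : ∀ μ : ℕ →₀ ℕ, Antitone (μ : ℕ → ℕ) →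
    μ n = 0 → φ μ = ψ μ) {v : M A} (hv : v ∈ Mle A n) : lin φ v = lin ψ v := by
  refine Mle_induction (P := fun v => lin φ v = lin ψ v) ?_ ?_ ?_ ?_ hv
  · simp
  · intro v w hv hw
    rw [map_add, map_add, hv, hw]
  · intro a v hv
    rw [map_smul, map_smul, hv]
  · intro μ hμ h0
    rw [lin_ket_of_antitone _ hμ, lin_ket_of_antitone _ hμ, h μ hμ h0]

lemma isNilpotent_prod {ys : List A} (h : ys ≠ []) (hy : ∀ y ∈ ys, IsNilpotent y) :
    IsNilpotent ys.prod := by
  cases ys with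
  | nil => exact absurd rfl h
  | cons y ys =>
    rw [List.prod_cons]
    exact IsNilpotent.mul_right' (hy y List.mem_cons_self) _

theorem LK_vY {p : A} (hp : IsNilpotent p) (k : ℕ) (hk : 0 < k) (ys : List A)
    (h : ys.length = 2 * k) (hy : ∀ y ∈ ys, IsNilpotent y) :
    qinf (p ^ 2) (-(p ^ 2)) * (D1 (p ^ 2) (-p) ys *
      lin (Lbf p k) (K (p ^ 2) (2 * k) (-p) (vY (p ^ 2) (2 * k) ys))) =
      qinf (p ^ 2) (-(p ^ 2 * ys.prod)) * lin (Lbf p k) (vY (p ^ 2) (2 * k) ys) := by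
  have hq : IsNilpotent (p ^ 2) := hp.pow_succ 1
  have hnp : IsNilpotent (-p) := hp.neg
  have hP : IsNilpotent ys.prod := by
    apply isNilpotent_prod _ hy
    rintro rfl
    simp at h
    omega
  obtain ⟨B, hB⟩ := hP
  set v := vY (p ^ 2) (2 * k) ys with hv
  obtain ⟨n, hn⟩ : ∃ n, 2 * k = n + 1 := ⟨2 * k - 1, by omega⟩
  have hvM : v ∈ Mle A (n + 1) := by
    rw [← hn, ← h]
    exact vY_mem_Mle ys (le_of_eq h)
  have hE : Ep (p ^ 2) (n + 1) (n + 1) v = ys.prod • v := by
    have := Ep_vY hq (2 * k) (2 * k) ys (le_of_eq h) hy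
    rw [← h, es_length, h, ← hv, hn] at this
    exact this
  have hX : ∀ μ : ℕ →₀ ℕ, Antitone (μ : ℕ → ℕ) → μ (n + 1) = 0 →
      XXf (p ^ 2) p k (-p) (μ + ind (range (n + 1))) = 1 * XXf (p ^ 2) p k (-p) μ := by
    intro μ _ _
    rw [← hn, XXf_shift _ _ _ hk, one_mul]
  have l1 := last_row hq n hB hvM hE (XXf (p ^ 2) p k (-p)) hX (fun _ => 1)
  have l2 := last_row hq n hB hvM hE (XXf (p ^ 2) p k (-p)) hX
    (fun s => RS2 (p ^ 2) (-p * p) 1 s)
  simp only [one_mul, mul_one] at l1 l2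
  rw [euler_one hq hB] at l1
  have e1 : lin (Lbf p k) (K (p ^ 2) (2 * k) (-p) v) =
      ez (p ^ 2) (p * -p) * lin (XXf (p ^ 2) p k (-p)) v := by
    have : (lin (Lbf p k)).comp (K (p ^ 2) (2 * k) (-p)) =
        ez (p ^ 2) (p * -p) • lin (XXf (p ^ 2) p k (-p)) := by
      apply map_ext
      intro μ hμ
      rw [LinearMap.comp_apply, L_K hq hk hnp hμ, LinearMap.smul_apply, lin_ket_of_antitone _ hμ,
        smul_eq_mul]
    have := LinearMap.congr_fun this v
    simpa using this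
  have e2 : lin (phz (p ^ 2) p k (-p)) v =
      lin (fun μ => XXf (p ^ 2) p k (-p) μ * RS2 (p ^ 2) (-p * p) 1 (μ n)) v := by
    apply lin_congr_Mle _ hvM
    intro μ hμ h0
    rw [phz_eq hk]
    have e : 2 * k - 1 = n := by omega
    rw [e, hn, h0, Nat.sub_zero]
  have e3 := phz_vY hq p k ys (le_of_eq h) hy (-p)
  have e4 := RS2_gen hq (-p * p) ys.prod hB
  rw [← hv, e2, l2] at e3
  have e5 : p * -p = -(p ^ 2) := by ring
  have e6 : -p * p * ys.prod = -(p ^ 2 * ys.prod) := by ring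
  rw [e5] at e1
  rw [e6] at e4
  have e7 : qinf (p ^ 2) (-(p ^ 2)) * ez (p ^ 2) (-(p ^ 2)) = 1 := qinf_mul_ez hq.neg
  have e8 : qinf (p ^ 2) ys.prod * ez (p ^ 2) ys.prod = 1 := qinf_mul_ez ⟨B, hB⟩
  rw [e1, l1, ← e3]
  unfold D1
  generalize (List.map (fun y => qinf (p ^ 2) (-p * y)) ys).prod = a
  generalize qinf (p ^ 2) (-(p ^ 2)) = b at *
  generalize ez (p ^ 2) (-(p ^ 2)) = b' at *
  generalize qinf (p ^ 2) ys.prod = c at *
  generalize ez (p ^ 2) ys.prod = c' at *
  generalize qinf (p ^ 2) (-(p ^ 2 * ys.prod)) = d at *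
  generalize (∑ s ∈ range B, RS2 (p ^ 2) (-p * p) 1 s * ys.prod ^ s * iq (p ^ 2) s) = S at *
  generalize (lin fun μ => XXf (p ^ 2) p k (-p) μ * if μ n = 0 then 1 else 0) v = X0
  -- `b b' = 1`, `c c' = 1`, `c d S = 1`; claim `b a b' c' X0 = d a S X0`
  have h1 : c' = d * S := by
    calc c' = c' * (c * d * S) := by rw [e4, mul_one]
      _ = (c * c') * (d * S) := by ring
      _ = d * S := by rw [e8, one_mul]
  rw [h1]
  linear_combination (a * d * S * X0) * e7

/-! ### the Gaussian form on `v(y)`, `v(y')` -/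

lemma vY_stable {q : A} (m m' : ℕ) (ys : List A) (h : ys.length ≤ m) (h' : ys.length ≤ m') :
    vY q m ys = vY q m' ys := by
  induction ys with
  | nil => rw [vY_nil, vY_nil]
  | cons y ys ih =>
    simp only [List.length_cons] at h h'
    rw [vY_cons, vY_cons, ih (by omega) (by omega)]
    have hw : vY q m' ys ∈ Mle A ys.length := vY_mem_Mle ys (by omega)
    refine Mle_induction (P := fun w => K q m y w = K q m' y w) ?_ ?_ ?_ ?_ hw
    · simp
    · intro v w hv hw
      rw [map_add, map_add, hv, hw]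
    · intro a v hv
      rw [map_smul, map_smul, hv]
    · intro μ hμ h0
      unfold K
      rw [LinearMap.sum_apply, LinearMap.sum_apply]
      apply sum_congr rfl
      intro j _
      rw [LinearMap.smul_apply, LinearMap.smul_apply, g_stable m m' ys.length (by omega)
        (by omega) hμ h0]

lemma bil_zero_right (β : (ℕ →₀ ℕ) → (ℕ →₀ ℕ) → A) (u : M A) : bil β u 0 = 0 := by
  have := bil_smul_right β 0 u 0
  simpa using this

lemma bG_K {p : A} (hp : IsNilpotent p) {k : ℕ} (hk : 0 < k) {y : A} (hy : IsNilpotent y)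
    {u w : M A} (hu : u ∈ Mle A (k - 1)) (hw : w ∈ Mle A k) :
    bil (bG p k) (K (p ^ 2) k y u) w =
      qinf (p ^ 2) (-p * y) * bil (fun R R' => bgz p k R y R') u w := by
  obtain ⟨B, hB⟩ := hy
  refine Mle_induction (P := fun u => bil (bG p k) (K (p ^ 2) k y u) w =
      qinf (p ^ 2) (-p * y) * bil (fun R R' => bgz p k R y R') u w) ?_ ?_ ?_ ?_ hu
  · simp [bil]
  · intro v w' hv hw'
    rw [map_add, bil_add_left, bil_add_left, hv, hw']
    ring
  · intro a v hv
    rw [map_smul, bil_smul_left, bil_smul_left, hv]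
    ring
  · intro R hR hR0
    refine Mle_induction (P := fun w => bil (bG p k) (K (p ^ 2) k y (ket A R)) w =
      qinf (p ^ 2) (-p * y) * bil (fun R R' => bgz p k R y R') (ket A R) w) ?_ ?_ ?_ ?_ hw
    · rw [bil_zero_right, bil_zero_right, mul_zero]
    · intro v w' hv hw'
      rw [bil_add_right, bil_add_right, hv, hw']
      ring
    · intro a v hv
      rw [bil_smul_right, bil_smul_right, hv]
      ring
    · intro R' hR' hR'0
      rw [bil_ket_left _ hR, lin_ket_of_antitone _ hR']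
      have e1 : bil (bG p k) (K (p ^ 2) k y (ket A R)) (ket A R') =
          lin (fun ν : ℕ →₀ ℕ => ∏ i ∈ range k, p ^ (((ν i : ℤ) - R' i).natAbs ^ 2))
            (K (p ^ 2) k y (ket A R)) := by
        unfold bil
        congr 2
        funext ν
        rw [lin_ket_of_antitone _ hR']
        rfl
      rw [e1, BG_K hp hk hB hR R']
      obtain ⟨k, rfl⟩ : ∃ j, k = j + 1 := ⟨k - 1, by omega⟩
      rw [Nat.add_sub_cancel] at hR0 ⊢
      exact exchange_chain hp hB k R R' hR hR' hR0 hR'0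

lemma bG_symm (p : A) (k : ℕ) (R R' : ℕ →₀ ℕ) : bG p k R R' = bG p k R' R := by
  unfold bG
  apply prod_congr rfl
  intro i _
  rw [← Int.natAbs_neg]
  congr 3
  ring

lemma bil_symm {β : (ℕ →₀ ℕ) → (ℕ →₀ ℕ) → A} (hβ : ∀ μ ν, β μ ν = β ν μ) (u w : M A) :
    bil β u w = bil β w u := by
  have : bilL β = (bilL β).flip := by
    apply map_ext
    intro μ hμ
    apply map_ext
    intro ν hν
    rw [LinearMap.flip_apply, bilL_apply, bilL_apply, bil_ket_left _ hμ, bil_ket_left _ hν,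
      lin_ket_of_antitone _ hμ, lin_ket_of_antitone _ hν, hβ]
  have := LinearMap.congr_fun (LinearMap.congr_fun this u) w
  simpa using this

lemma bil_bgz_vY {p : A} (hp : IsNilpotent p) (k : ℕ) (u : M A) (ys : List A)
    (h : ys.length ≤ k) (hy : ∀ y ∈ ys, IsNilpotent y) (z : A) :
    D1 (p ^ 2) z ys * bil (fun R R' => bgz p k R z R') u (vY (p ^ 2) k ys) =
      bil (bG p k) u (vY (p ^ 2) k ys) := by
  unfold bil
  rw [← lin_smul]
  congr 1
  apply lin_congr
  intro R _
  exact bgz_vY hp k R ys h hy z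

theorem bG_vY {p : A} (hp : IsNilpotent p) (k : ℕ) (hk : 0 < k) (ys ys' : List A)
    (h : ys.length ≤ k) (h' : ys'.length ≤ k) (hy : ∀ y ∈ ys, IsNilpotent y)
    (hy' : ∀ y ∈ ys', IsNilpotent y) :
    DD (p ^ 2) ys ys' * bil (bG p k) (vY (p ^ 2) k ys) (vY (p ^ 2) k ys') =
      D1 (p ^ 2) (-p) ys * D1 (p ^ 2) (-p) ys' := by
  have step : ∀ (ys ys' : List A), ys.length ≤ k → ys'.length ≤ k →
      (∀ y ∈ ys, IsNilpotent y) → (∀ y ∈ ys', IsNilpotent y) →
      DD (p ^ 2) ys ys' * bil (bG p k) (vY (p ^ 2) k ys) (vY (p ^ 2) k ys') =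
      D1 (p ^ 2) (-p) ys * bil (bG p k) (ket A 0) (vY (p ^ 2) k ys') := by
    intro ys ys' h h' hy hy'
    induction ys with
    | nil => simp [DD, D1]
    | cons y ys ih =>
      simp only [List.length_cons] at h
      have hys : ∀ y ∈ ys, IsNilpotent y := fun z hz => hy z (List.mem_cons_of_mem _ hz)
      have hu : vY (p ^ 2) k ys ∈ Mle A (k - 1) :=
        Mle_mono (by omega) (vY_mem_Mle ys (by omega))
      have hw : vY (p ^ 2) k ys' ∈ Mle A k := Mle_mono h' (vY_mem_Mle ys' h')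
      have h1 := bG_K hp hk (hy y List.mem_cons_self) hu hw
      have h2 := bil_bgz_vY hp k (vY (p ^ 2) k ys) ys' h' hy' y
      have h3 := ih (by omega) hys
      rw [vY_cons, h1]
      simp only [DD, D1, List.map_cons, List.prod_cons] at h2 h3 ⊢
      linear_combination (qinf (p ^ 2) (-p * y) *
        (List.map (fun y => (List.map (fun z => qinf (p ^ 2) (y * z)) ys').prod) ys).prod) * h2 +
        qinf (p ^ 2) (-p * y) * h3
  rw [step ys ys' h h' hy hy', bil_symm (bG_symm p k)]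
  have := step ys' [] h' (by simp) hy' (by simp)
  have e : DD (p ^ 2) ys' [] = 1 := by simp [DD]
  rw [e, one_mul, vY_nil] at this
  rw [this, bil_ket_left _ (by intro a b _; simp), lin_ket_of_antitone _ (by intro a b _; simp)]
  simp [bG]

/-! ### the diagonal forms -/

theorem bb_vY_vY {q : A} (hq : IsNilpotent q) (k : ℕ) (ys ys' : List A)
    (h' : ys'.length ≤ k) (hy : ∀ y ∈ ys, IsNilpotent y)
    (hy' : ∀ y ∈ ys', IsNilpotent y) :
    DD q ys ys' * bil (bdiag (bf q k)) (vY q k ys) (vY q k ys') = 1 := by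
  have step : ∀ (ys ys' : List A), ys'.length ≤ k →
      (∀ y ∈ ys, IsNilpotent y) → (∀ y ∈ ys', IsNilpotent y) →
      DD q ys ys' * bil (bdiag (bf q k)) (vY q k ys) (vY q k ys') =
      bil (bdiag (bf q k)) (ket A 0) (vY q k ys') := by
    intro ys ys' h' hy hy'
    induction ys with
    | nil => simp [DD]
    | cons y ys ih =>
      have hys : ∀ y ∈ ys, IsNilpotent y := fun z hz => hy z (List.mem_cons_of_mem _ hz)
      have h2 := bb_vY hq k (vY q k ys) ys' h' hy' (hy y List.mem_cons_self)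
      have h3 := ih hys
      rw [← h2] at h3
      rw [vY_cons]
      simp only [DD, List.map_cons, List.prod_cons] at h3 ⊢
      linear_combination h3
  have hsymm : ∀ μ ν, bdiag (bf q k) μ ν = bdiag (bf q k) ν μ := by
    intro μ ν
    unfold bdiag
    by_cases h : μ = ν
    · subst h; rfl
    · rw [if_neg h, if_neg (Ne.symm h)]
  rw [step ys ys' h' hy hy', bil_symm hsymm]
  have := step ys' [] (by simp) hy' (by simp)
  have e : DD q ys' [] = 1 := by simp [DD]
  rw [e, one_mul, vY_nil] at this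
  rw [this, bil_ket_left _ (by intro a b _; simp), lin_ket_of_antitone _ (by intro a b _; simp)]
  simp [bdiag, bf]

/-- `D(R) = ∏_{i<k-1} (q)_{R_i-R_{i+1}} (q²;q²)_{R_{k-1}}` -/
def dD (q : A) (k : ℕ) (R : ℕ →₀ ℕ) : A :=
  (∏ i ∈ range (k - 1), qf q (R i - R (i + 1))) * qf (q ^ 2) (R (k - 1))

lemma qf_sq (q : A) (n : ℕ) : qf (q ^ 2) n = qf q n * qpoch q (-q) n := by
  unfold qf qpoch
  rw [← prod_mul_distrib]
  apply prod_congr rfl
  intro j _
  rw [← pow_mul]
  ring

lemma dD_eq (q : A) (k : ℕ) (hk : 0 < k) {R : ℕ →₀ ℕ} (hR : R k = 0) :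
    dD q k R = bf q k R * qpoch q (-q) (R (k - 1)) := by
  obtain ⟨k, rfl⟩ : ∃ j, k = j + 1 := ⟨k - 1, by omega⟩
  unfold dD bf
  rw [Nat.add_sub_cancel, prod_range_succ, hR, Nat.sub_zero, qf_sq]
  ring

lemma E_top_ket (q : A) (n : ℕ) {μ : ℕ →₀ ℕ} (hμ : Antitone (μ : ℕ → ℕ)) :
    E q n n (ket A μ) = ket A (μ + ind (range n)) := by
  rw [E_ket _ _ _ hμ]
  have e : powersetCard n (range n) = {range n} := by
    have := powersetCard_self (range n)
    rwa [card_range] at this
  rw [e, sum_singleton]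
  have : wE q n μ (range n) = 1 := by
    unfold wE
    apply prod_eq_one
    intro i hi
    rw [if_neg]
    tauto
  rw [this, one_smul]

theorem bD_vY {q : A} (hq : IsNilpotent q) (k : ℕ) (hk : 0 < k) (ys ys' : List A)
    (h : ys.length = k) (h' : ys'.length = k) (hy : ∀ y ∈ ys, IsNilpotent y)
    (hy' : ∀ y ∈ ys', IsNilpotent y) :
    DD q ys ys' * bil (bdiag (dD q k)) (vY q k ys) (vY q k ys') =
      qinf q (-(q * (ys.prod * ys'.prod))) := by
  obtain ⟨n, rfl⟩ : ∃ n, k = n + 1 := ⟨k - 1, by omega⟩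
  set v := vY q (n + 1) ys with hv
  set w := vY q (n + 1) ys' with hw
  have hP : IsNilpotent ys.prod := by
    apply isNilpotent_prod _ hy
    rintro rfl
    simp at h
  obtain ⟨B, hB⟩ := hP
  have hvM : v ∈ Mle A (n + 1) := by
    have := vY_mem_Mle (q := q) (m := n + 1) ys (le_of_eq h)
    rw [h] at this
    exact this
  have hE : Ep q (n + 1) (n + 1) v = ys.prod • v := by
    have := Ep_vY hq (n + 1) (n + 1) ys (le_of_eq h) hy
    rw [← h, es_length, h, ← hv] at this
    exact this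
  have hE' : Ep q (n + 1) (n + 1) w = ys'.prod • w := by
    have := Ep_vY hq (n + 1) (n + 1) ys' (le_of_eq h') hy'
    rw [← h', es_length, h', ← hw] at this
    exact this
  set X : (ℕ →₀ ℕ) → A := fun μ => lin (bdiag (bf q (n + 1)) μ) w with hXdef
  have hX : ∀ μ : ℕ →₀ ℕ, Antitone (μ : ℕ → ℕ) → μ (n + 1) = 0 →
      X (μ + ind (range (n + 1))) = ys'.prod * X μ := by
    intro μ hμ h0
    have hshift : Antitone ((μ + ind (range (n + 1)) : ℕ →₀ ℕ) : ℕ → ℕ) := by
      apply antitone_nat_of_succ_le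
      intro i
      have hd : μ (i + 1) ≤ μ i := hμ (Nat.le_succ i)
      simp only [Finsupp.coe_add, Pi.add_apply, ind_apply, mem_range]
      split_ifs <;> omega
    have e1 := bil_adj q (n + 1) (n + 1) (ket A μ) w
    rw [E_top_ket q (n + 1) hμ, hE', bil_smul_right, bil_ket_left _ hμ, bil_ket_left _ hshift] at e1
    exact e1
  have l1 := last_row hq n hB hvM hE X hX (fun _ => 1)
  have l2 := last_row hq n hB hvM hE X hX (fun s => qpoch q (-q) s)
  have hz : (ys'.prod * ys.prod) ^ B = 0 := by rw [mul_pow, hB, mul_zero]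
  have e1 : bil (bdiag (dD q (n + 1))) v w =
      lin (fun μ => X μ * qpoch q (-q) (μ n)) v := by
    unfold bil
    apply lin_congr_Mle _ hvM
    intro μ hμ h0
    rw [hXdef]
    simp only
    have : (bdiag (dD q (n + 1)) μ) = fun ν => qpoch q (-q) (μ n) * bdiag (bf q (n + 1)) μ ν := by
      funext ν
      unfold bdiag
      split_ifs with hh
      · rw [dD_eq q (n + 1) (by omega) h0, Nat.add_sub_cancel]
        ring
      · ring
    rw [this, lin_smul]
    ring
  have e2 : bil (bdiag (bf q (n + 1))) v w = lin (fun μ => X μ * 1) v := by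
    unfold bil
    simp only [mul_one]
    rfl
  have e3 := bb_vY_vY hq (n + 1) ys ys' (le_of_eq h') hy hy'
  rw [← hv, ← hw, e2, l1] at e3
  simp only [one_mul] at e3
  rw [euler_one hq hz] at e3
  have e4 := qbinomial hq (-q) (ys'.prod * ys.prod) hz
  have e5 : qinf q (ys'.prod * ys.prod) * ez q (ys'.prod * ys.prod) = 1 := qinf_mul_ez ⟨B, hz⟩
  have e6 : ∑ s ∈ range B, qpoch q (-q) s * (ys'.prod * ys.prod) ^ s * iq q s =
      ez q (ys'.prod * ys.prod) * qinf q (-q * (ys'.prod * ys.prod)) := by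
    rw [← e4]
    calc _ = (qinf q (ys'.prod * ys.prod) * ez q (ys'.prod * ys.prod)) *
        ∑ s ∈ range B, qpoch q (-q) s * (ys'.prod * ys.prod) ^ s * iq q s := by rw [e5, one_mul]
      _ = _ := by ring
  rw [e1, l2, e6]
  have e7 : -(q * (ys.prod * ys'.prod)) = -q * (ys'.prod * ys.prod) := by ring
  rw [e7]
  linear_combination qinf q (-q * (ys'.prod * ys.prod)) * e3

/-! ### `Γ` -/

theorem Gam_vY {p : A} (hp : IsNilpotent p) (k : ℕ) (hk : 0 < k) (ys : List A)
    (h : ys.length ≤ k) (hy : ∀ y ∈ ys, IsNilpotent y) :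
    D1 (p ^ 2) 1 ys * lin (Gam p k) (vY (p ^ 2) k ys) = D1 (p ^ 2) (-p) ys := by
  induction ys with
  | nil =>
    rw [vY_nil, lin_ket_of_antitone _ (by intro a b _; simp)]
    simp [D1, Gam]
  | cons y ys ih =>
    simp only [List.length_cons] at h
    have hys : ∀ y ∈ ys, IsNilpotent y := fun z hz => hy z (List.mem_cons_of_mem _ hz)
    have hu : vY (p ^ 2) k ys ∈ Mle A (k - 1) :=
      Mle_mono (by omega) (vY_mem_Mle ys (by omega))
    have h1 : qinf (p ^ 2) y * lin (Gam p k) (K (p ^ 2) k y (vY (p ^ 2) k ys)) =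
        qinf (p ^ 2) (-(p * y)) * lin (Gam p k) (vY (p ^ 2) k ys) := by
      refine Mle_induction (P := fun u => qinf (p ^ 2) y * lin (Gam p k) (K (p ^ 2) k y u) =
        qinf (p ^ 2) (-(p * y)) * lin (Gam p k) u) ?_ ?_ ?_ ?_ hu
      · simp
      · intro v w hv hw
        rw [map_add, map_add, map_add, mul_add, mul_add, hv, hw]
      · intro a v hv
        rw [map_smul, map_smul, map_smul, smul_eq_mul, smul_eq_mul]
        linear_combination a * hv
      · intro μ hμ h0
        rw [Gam_K hp hk (hy y List.mem_cons_self) hμ h0, lin_ket_of_antitone _ hμ]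
    have h2 := ih (by omega) hys
    rw [vY_cons]
    simp only [D1, List.map_cons, List.prod_cons, one_mul] at h2 ⊢
    have e : -p * y = -(p * y) := by ring
    rw [e]
    linear_combination (List.map (fun y => qinf (p ^ 2) y) ys).prod * h1 +
      qinf (p ^ 2) (-(p * y)) * h2

/-! ### the prefactor -/

/-- `pref(y) = ∏_{i<j} (y_i y_j;q)_∞ ∏_j (q y_j²;q²)_∞` -/
noncomputable def pf (p : A) (ys : List A) : A :=
  D2 (p ^ 2) ys * (D1 (p ^ 2) p ys * D1 (p ^ 2) (-p) ys)

lemma isUnit_cancel {a b c : A} (ha : IsUnit a) (h : a * b = a * c) : b = c :=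
  ha.mul_left_cancel h

theorem H1 {p : A} (hp : IsNilpotent p) (k : ℕ) (hk : 0 < k) (ys ys' : List A)
    (h : ys.length ≤ k) (h' : ys'.length ≤ k) (hy : ∀ y ∈ ys, IsNilpotent y)
    (hy' : ∀ y ∈ ys', IsNilpotent y) :
    pf p ys * (pf p ys' * lin (Lbf p k) (vY (p ^ 2) (2 * k) (ys ++ ys'))) =
      bil (bG p k) (vY (p ^ 2) k ys) (vY (p ^ 2) k ys') := by
  have hq : IsNilpotent (p ^ 2) := hp.pow_succ 1
  apply isUnit_cancel (isUnit_DD (q := p ^ 2) (ys' := ys') hy)
  rw [bG_vY hp k hk ys ys' h h' hy hy']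
  have hyy : ∀ y ∈ ys ++ ys', IsNilpotent y := by
    intro y hm
    rcases List.mem_append.mp hm with hm | hm
    · exact hy y hm
    · exact hy' y hm
  have e := L_vY (p := p) hq k (ys ++ ys') (by simp; omega) hyy
  rw [D1_append, D2_append] at e
  unfold pf
  linear_combination (D1 (p ^ 2) (-p) ys * D1 (p ^ 2) (-p) ys') * e

theorem H3 {p : A} (hp : IsNilpotent p) (k : ℕ) (hk : 0 < k) (ys ys' : List A)
    (h : ys.length = k) (h' : ys'.length = k) (hy : ∀ y ∈ ys, IsNilpotent y)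
    (hy' : ∀ y ∈ ys', IsNilpotent y) :
    pf p ys * (pf p ys' * (qinf (p ^ 2) (-(p ^ 2)) *
      lin (Lbf p k) (K (p ^ 2) (2 * k) (-p) (vY (p ^ 2) (2 * k) (ys ++ ys'))))) =
      bil (bdiag (dD (p ^ 2) k)) (vY (p ^ 2) k ys) (vY (p ^ 2) k ys') := by
  have hq : IsNilpotent (p ^ 2) := hp.pow_succ 1
  apply isUnit_cancel (isUnit_DD (q := p ^ 2) (ys' := ys') hy)
  rw [bD_vY hq k hk ys ys' h h' hy hy']
  have hyy : ∀ y ∈ ys ++ ys', IsNilpotent y := by
    intro y hm
    rcases List.mem_append.mp hm with hm | hm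
    · exact hy y hm
    · exact hy' y hm
  have e := L_vY (p := p) hq k (ys ++ ys') (by simp; omega) hyy
  have e2 := LK_vY hp k hk (ys ++ ys') (by simp; omega) hyy
  rw [D1_append, List.prod_append] at e2
  rw [D1_append, D2_append] at e
  unfold pf
  linear_combination (D2 (p ^ 2) ys * D1 (p ^ 2) p ys * D2 (p ^ 2) ys' * D1 (p ^ 2) p ys' *
    DD (p ^ 2) ys ys') * e2 + qinf (p ^ 2) (-(p ^ 2 * (ys.prod * ys'.prod))) * e

theorem H4 {p : A} (hp : IsNilpotent p) (k : ℕ) (hk : 0 < k) (ys : List A)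
    (h : ys.length ≤ k) (hy : ∀ y ∈ ys, IsNilpotent y) :
    pf p ys * lin (Wf p (2 * k)) (vY (p ^ 2) (2 * k) ys) =
      lin (Gam p k) (vY (p ^ 2) k ys) := by
  have hq : IsNilpotent (p ^ 2) := hp.pow_succ 1
  apply isUnit_cancel (isUnit_D1 (q := p ^ 2) (z := 1) hy)
  rw [Gam_vY hp k hk ys h hy]
  have e1 := W_vY hp k ys (by omega) hy
  have e2 := L_vY (p := p) hq k ys (by omega) hy
  rw [← e1] at e2
  unfold pf
  linear_combination D1 (p ^ 2) (-p) ys * e2

end MP4905

end

section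

open Finset

namespace MP4905

universe u

variable {A : Type u} [CommRing A]

/-! ### expansion of products of `K`'s -/

lemma Kop_eq_gen (q : A) (m : ℕ) {k B : ℕ} (y : Fin k → A) (hy : ∀ i, y i ^ B = 0) :
    Kop q m y = gen B y (Gop q m) := by
  unfold Kop gen Gop
  have h1 := (MultilinearMap.mkPiAlgebraFin A k (Module.End A (M A))).map_sum_finset
    (fun (i : Fin k) (n : ℕ) => y i ^ n • g q m n) (fun _ => range B)
  simp only [MultilinearMap.mkPiAlgebraFin_apply] at h1
  have h2 : (fun i => K q m (y i)) = fun i => ∑ n ∈ range B, y i ^ n • g q m n := by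
    funext i
    exact K_eq q m (hy i)
  rw [h2, h1]
  apply sum_congr rfl
  intro n _
  have h3 := (MultilinearMap.mkPiAlgebraFin A k (Module.End A (M A))).map_smul_univ
    (fun i => y i ^ n i) (fun i => g q m (n i))
  simp only [MultilinearMap.mkPiAlgebraFin_apply] at h3
  exact h3

lemma vY_append (q : A) (m : ℕ) (ys ys' : List A) :
    vY q m (ys ++ ys') = (ys.map (K q m)).prod (vY q m ys') := by
  induction ys with
  | nil => simp
  | cons y ys ih => simp [ih]

lemma vY_ofFn (q : A) (m : ℕ) {k : ℕ} (y : Fin k → A) (ys' : List A) :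
    vY q m (List.ofFn y ++ ys') = Kop q m y (vY q m ys') := by
  rw [vY_append, List.map_ofFn]
  rfl

lemma vY_ofFn' (q : A) (m : ℕ) {k : ℕ} (y : Fin k → A) :
    vY q m (List.ofFn y) = Kop q m y (ket A 0) := by
  have := vY_ofFn q m y []
  rwa [List.append_nil, vY_nil] at this

/-! ### the list of factors of the prefactor -/

/-- the prefactor as a list of triples -/
def trip (q : A) (L : ℕ) : (k : ℕ) → List (A × Fin k × Fin k)
  | 0 => []
  | k + 1 => (List.range L).map (fun s => (q ^ (2 * s + 1), 0, 0)) ++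
      ((List.finRange k).flatMap (fun j => (List.range L).map (fun s => (q ^ s, 0, j.succ))) ++
      (trip q L k).map (fun t => (t.1, t.2.1.succ, t.2.2.succ)))

lemma trip_map {A' : Type*} [CommRing A'] (f : A →+* A') (q : A) (L k : ℕ) :
    (trip q L k).map (fun t => (f t.1, t.2)) = trip (f q) L k := by
  induction k with
  | zero => rfl
  | succ k ih =>
    simp only [trip, List.map_append, List.map_map, List.map_flatMap]
    congr 1
    · apply List.map_congr_left
      intro s _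
      simp
    · congr 1
      · apply List.flatMap_congr
        intro j _
        apply List.map_congr_left
        intro s _
        simp
      · rw [← ih, List.map_map]
        rfl

/-- the product of the factors -/
def tprodF {k : ℕ} (l : List (A × Fin k × Fin k)) (y : Fin k → A) : A :=
  (l.map (fun t => 1 - t.1 * (y t.2.1 * y t.2.2))).prod

lemma list_prod_range (f : ℕ → A) (L : ℕ) :
    ((List.range L).map f).prod = ∏ s ∈ range L, f s := by
  induction L with
  | zero => simp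
  | succ L ih => rw [List.range_succ, List.map_append, List.prod_append, ih, prod_range_succ]; simp

lemma list_prod_flatMap {ι κ : Type*} (l : List ι) (f : ι → List κ) (h : κ → A) :
    ((l.flatMap f).map h).prod = (l.map (fun i => ((f i).map h).prod)).prod := by
  induction l with
  | nil => simp
  | cons a l ih => simp [List.flatMap_cons, ih]

lemma tprodF_trip {p : A} (hp : IsNilpotent p) {L : ℕ} (hL : (p ^ 2) ^ L = 0) (k : ℕ)
    (y : Fin k → A) : tprodF (trip (p ^ 2) L k) y = pf p (List.ofFn y) := by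
  have hq : IsNilpotent (p ^ 2) := hp.pow_succ 1
  have hcl : nilpotencyClass (p ^ 2) ≤ L := Nat.sInf_le hL
  induction k with
  | zero => simp [trip, tprodF, pf, D2, D1]
  | succ k ih =>
    have hi := ih (fun i => y i.succ)
    unfold tprodF at hi ⊢
    simp only [trip, List.map_append, List.prod_append, List.map_map]
    rw [list_prod_flatMap]
    simp only [List.map_map, Function.comp_def]
    rw [hi, List.ofFn_succ]
    unfold pf
    simp only [D2, D1, List.map_cons, List.prod_cons]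
    have e1 : ((List.range L).map (fun s => 1 - (p ^ 2) ^ (2 * s + 1) * (y 0 * y 0))).prod =
        qinf (p ^ 2) (p * y 0) * qinf (p ^ 2) (-p * y 0) := by
      rw [list_prod_range, qinf_eq_prod hq _ hcl, qinf_eq_prod hq _ hcl, ← prod_mul_distrib]
      apply prod_congr rfl
      intro s _
      ring
    have e2 : ((List.finRange k).map (fun j => ((List.range L).map
        (fun s => 1 - (p ^ 2) ^ s * (y 0 * y j.succ))).prod)).prod =
        ((List.ofFn fun i => y i.succ).map (fun z => qinf (p ^ 2) (y 0 * z))).prod := by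
      rw [List.map_ofFn, List.ofFn_eq_map]
      congr 1
      apply List.map_congr_left
      intro j _
      simp only [Function.comp_apply]
      rw [list_prod_range, qinf_eq_prod hq _ hcl]
      apply prod_congr rfl
      intro s _
      ring
    rw [e1, e2]
    ring

/-! ### extraction of coefficients -/

/-- apply the prefactor in both sets of variables -/
def dbl {k : ℕ} (l : List (A × Fin k × Fin k)) (H : (Fin k → ℕ) → (Fin k → ℕ) → A)
    (n n' : Fin k → ℕ) : A :=
  Dl l (fun b => Dl l (fun a => H a b) n) n'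

lemma gen_map {A' : Type u} [CommRing A'] (f : A →+* A') {k B : ℕ} (y : Fin k → A)
    (F : (Fin k → ℕ) → A) : f (gen B y F) = gen B (fun i => f (y i)) (fun n => f (F n)) := by
  unfold gen
  rw [map_sum]
  apply sum_congr rfl
  intro n _
  rw [smul_eq_mul, map_mul, map_prod]
  simp only [map_pow, smul_eq_mul]

lemma gen_mul {k B : ℕ} (y : Fin k → A) (c : A) (F : (Fin k → ℕ) → A) :
    c * gen B y F = gen B y (fun n => c * F n) := by
  unfold gen
  rw [mul_sum]
  apply sum_congr rfl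
  intro n _
  simp only [smul_eq_mul]
  ring

/-- extraction of a coefficient in one set of variables -/
theorem extract1 {k : ℕ} (l : List (A × Fin k × Fin k)) (H β : (Fin k → ℕ) → A) (B : ℕ)
    (h : ∀ (U : Type u) [CommRing U] (f : A →+* U) (y : Fin k → U), (∀ i, y i ^ B = 0) →
      tprodF (l.map (fun t => (f t.1, t.2))) y * gen B y (fun n => f (H n)) =
        gen B y (fun n => f (β n)))
    (n : Fin k → ℕ) (hn : ∀ i, n i < B) : Dl l H n = β n := by
  obtain ⟨U, _, f, y, hy, hU⟩ := exists_univ A k B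
  apply hU _ _ _ n hn
  rw [← h U f y hy]
  have := gen_Dl B y hy (l.map (fun t => (f t.1, t.2))) (fun n => f (H n))
  rw [smul_eq_mul] at this
  unfold tprodF
  rw [← this]
  congr 1
  funext n
  exact Dl_ringHom f l H n

/-- extraction of coefficients in two sets of variables -/
theorem extract2 {k : ℕ} (l : List (A × Fin k × Fin k)) (H β : (Fin k → ℕ) → (Fin k → ℕ) → A)
    (B : ℕ)
    (h : ∀ (U : Type u) [CommRing U] (f : A →+* U) (y y' : Fin k → U), (∀ i, y i ^ B = 0) →
      (∀ i, y' i ^ B = 0) →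
      tprodF (l.map (fun t => (f t.1, t.2))) y * (tprodF (l.map (fun t => (f t.1, t.2))) y' *
        gen B y' (fun n' => gen B y (fun n => f (H n n')))) =
        gen B y' (fun n' => gen B y (fun n => f (β n n'))))
    (n n' : Fin k → ℕ) (hn : ∀ i, n i < B) (hn' : ∀ i, n' i < B) : dbl l H n n' = β n n' := by
  obtain ⟨U1, _, f1, y, hy, hU1⟩ := exists_univ A k B
  obtain ⟨U2, _, f2, y', hy', hU2⟩ := exists_univ U1 k B
  have hy2 : ∀ i, (fun i => f2 (y i)) i ^ B = 0 := by
    intro i; simp only; rw [← map_pow, hy, map_zero]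
  set l1 := l.map (fun t => (f1 t.1, t.2)) with hl1
  set l2 := l.map (fun t => ((f2.comp f1) t.1, t.2)) with hl2
  have hl12 : l1.map (fun t => (f2 t.1, t.2)) = l2 := by
    rw [hl1, hl2, List.map_map]; rfl
  have key := h U2 (f2.comp f1) (fun i => f2 (y i)) y' hy2 hy'
  -- an identity in `U1` for each `n'`
  have step : ∀ n' : Fin k → ℕ, (∀ i, n' i < B) →
      gen B y (fun n => f1 (dbl l H n n')) = gen B y (fun n => f1 (β n n')) := by
    apply hU2 (fun n' => gen B y (fun n => f1 (dbl l H n n')))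
      (fun n' => gen B y (fun n => f1 (β n n')))
    have r1 : gen B y' (fun n' => f2 (gen B y (fun n => f1 (β n n')))) =
        gen B y' (fun n' => gen B (fun i => f2 (y i)) (fun n => (f2.comp f1) (β n n'))) := by
      congr 1
      funext n'
      rw [gen_map]
      rfl
    rw [r1, ← key]
    -- left side
    have e1 : ∀ n', gen B y (fun n => f1 (dbl l H n n')) =
        Dl l1 (fun b => tprodF l1 y * gen B y (fun a => f1 (H a b))) n' := by
      intro n'
      have e2 : ∀ b, tprodF l1 y * gen B y (fun a => f1 (H a b)) =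
          gen B y (fun n => f1 (Dl l (fun a => H a b) n)) := by
        intro b
        have := gen_Dl B y hy l1 (fun a => f1 (H a b))
        rw [smul_eq_mul] at this
        unfold tprodF
        rw [← this]
        congr 1
        funext n
        rw [Dl_ringHom f1 l]
      simp only [e2]
      -- `gen` commutes with `Dl` in the other variable
      have e3 := Dl_map l1 (X := (Fin k → ℕ) → U1) (X' := U1)
        ({ toFun := fun F => gen B y F
           map_add' := fun F G => gen_add B y F G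
           map_smul' := fun c F => by
            simp only [RingHom.id_apply]
            have := gen_mul (B := B) y c F
            rw [smul_eq_mul, this]
            rfl } : ((Fin k → ℕ) → U1) →ₗ[U1] U1)
        (fun b n => f1 (Dl l (fun a => H a b) n))
      have e4 := congrFun e3 n'
      simp only [LinearMap.coe_mk, AddHom.coe_mk] at e4
      rw [← e4]
      congr 1
      funext n
      have e5 := Dl_map l1 (X := (Fin k → ℕ) → U1) (X' := U1) (LinearMap.proj n)
        (fun b n => f1 (Dl l (fun a => H a b) n))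
      have e6 := congrFun e5 n'
      simp only [LinearMap.proj_apply] at e6
      rw [e6]
      unfold dbl
      rw [Dl_ringHom f1 l]
    have e7 : (fun n' => f2 (gen B y (fun n => f1 (dbl l H n n')))) =
        Dl l2 (fun b => f2 (tprodF l1 y) *
          gen B (fun i => f2 (y i)) (fun n => (f2.comp f1) (H n b))) := by
      funext n'
      rw [e1, Dl_ringHom f2 l1, hl12]
      congr 1
      funext b
      rw [map_mul, gen_map]
      rfl
    rw [e7]
    have e8 := gen_Dl B y' hy' l2 (fun b => f2 (tprodF l1 y) *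
      gen B (fun i => f2 (y i)) (fun n => (f2.comp f1) (H n b)))
    rw [smul_eq_mul] at e8
    rw [e8, ← gen_mul]
    have e9 : f2 (tprodF l1 y) = tprodF l2 (fun i => f2 (y i)) := by
      unfold tprodF
      rw [map_list_prod, hl1, hl2]
      simp only [List.map_map]
      congr 1
      apply List.map_congr_left
      intro t _
      simp
    rw [e9]
    unfold tprodF
    ring
  exact hU1 _ _ (step n' hn') n hn

end MP4905

end

section

open Finset

namespace MP4905

universe u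

variable {A : Type u} [CommRing A]

/-! ### more naturality -/

section nat

variable {A' : Type u} [CommRing A']

lemma map_Gam (f : A →+* A') (p : A) (k : ℕ) (μ : ℕ →₀ ℕ) : f (Gam p k μ) = Gam (f p) k μ := by
  unfold Gam; simp only [map_mul, map_prod, map_add, map_one, map_pow]

lemma map_bG (f : A →+* A') (p : A) (k : ℕ) (μ ν : ℕ →₀ ℕ) :
    f (bG p k μ ν) = bG (f p) k μ ν := by
  unfold bG; rw [map_prod]; simp only [map_pow]

lemma map_dD (f : A →+* A') (q : A) (k : ℕ) (μ : ℕ →₀ ℕ) : f (dD q k μ) = dD (f q) k μ := by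
  unfold dD; rw [map_mul, map_prod, map_qf, map_pow]; simp only [map_qf]

lemma map_bdiag (f : A →+* A') (d : (ℕ →₀ ℕ) → A) (μ ν : ℕ →₀ ℕ) :
    f (bdiag d μ ν) = bdiag (fun μ => f (d μ)) μ ν := by
  unfold bdiag; split_ifs; rfl; simp

lemma map_bil (f : A →+* A') (β : (ℕ →₀ ℕ) → (ℕ →₀ ℕ) → A) (u w : M A) :
    f (bil β u w) = bil (fun μ ν => f (β μ ν)) (mapM f u) (mapM f w) := by
  unfold bil
  rw [← lin_mapM]
  congr 2
  funext μ
  rw [← lin_mapM]

end nat

/-! ### expansion of the pairings -/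

lemma gen_apply {k B : ℕ} (y : Fin k → A) (F : (Fin k → ℕ) → Module.End A (M A)) (v : M A) :
    (gen B y F) v = gen B y (fun n => F n v) := by
  unfold gen
  rw [LinearMap.sum_apply]
  rfl

lemma gen_linear {k B : ℕ} {X X' : Type*} [AddCommGroup X] [Module A X] [AddCommGroup X']
    [Module A X'] (φ : X →ₗ[A] X') (y : Fin k → A) (F : (Fin k → ℕ) → X) :
    φ (gen B y F) = gen B y (fun n => φ (F n)) := by
  unfold gen
  rw [map_sum]
  apply sum_congr rfl
  intro n _
  rw [map_smul]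

lemma gen_comm {k B : ℕ} (y y' : Fin k → A) (F : (Fin k → ℕ) → (Fin k → ℕ) → A) :
    gen B y (fun n => gen B y' (fun n' => F n n')) =
      gen B y' (fun n' => gen B y (fun n => F n n')) := by
  unfold gen
  simp only [smul_eq_mul, mul_sum]
  rw [sum_comm]
  apply sum_congr rfl
  intro n' _
  apply sum_congr rfl
  intro n _
  ring

/-- a functional of `S T v` with `S`, `T` products of `K`'s and an operator in between -/
lemma lin_Kop_Kop (q : A) (m : ℕ) {k B : ℕ} (y y' : Fin k → A) (hy : ∀ i, y i ^ B = 0)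
    (hy' : ∀ i, y' i ^ B = 0) (φ : (ℕ →₀ ℕ) → A) (T : Module.End A (M A)) (v : M A) :
    lin φ (Kop q m y (T (Kop q m y' v))) =
      gen B y' (fun n' => gen B y (fun n => lin φ (Gop q m n (T (Gop q m n' v))))) := by
  rw [Kop_eq_gen q m y hy, Kop_eq_gen q m y' hy', gen_apply, gen_apply, gen_linear (lin φ),
    ← gen_comm]
  congr 1
  funext n
  exact gen_linear ((lin φ).comp ((Gop q m n).comp T)) y' (fun n' => Gop q m n' v)

lemma bil_gen_gen (q : A) (m : ℕ) {k B : ℕ} (y y' : Fin k → A) (hy : ∀ i, y i ^ B = 0)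
    (hy' : ∀ i, y' i ^ B = 0) (β : (ℕ →₀ ℕ) → (ℕ →₀ ℕ) → A) :
    bil β (vY q m (List.ofFn y)) (vY q m (List.ofFn y')) =
      gen B y' (fun n' => gen B y (fun n =>
        bil β (Gop q m n (ket A 0)) (Gop q m n' (ket A 0)))) := by
  rw [vY_ofFn', vY_ofFn', Kop_eq_gen q m y hy, Kop_eq_gen q m y' hy', gen_apply, gen_apply]
  rw [← bilL_apply, gen_linear (bilL β (gen B y fun n => (Gop q m n) (ket A 0)))]
  congr 1
  funext n'
  exact gen_linear ((bilL β).flip (Gop q m n' (ket A 0))) y (fun n => Gop q m n (ket A 0))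

lemma Commute_K_Gop {q : A} (hq : IsNilpotent q) {p : A} (hp : IsNilpotent p) (m : ℕ) {L : ℕ}
    (hL : p * q ^ L = 0) {k : ℕ} (n : Fin k → ℕ) :
    Commute (K q m (-p)) (Gop q m n) := by
  unfold Gop
  apply Commute.list_prod_right
  intro x hx
  obtain ⟨i, rfl⟩ := List.mem_ofFn.mp hx
  exact Commute_K_g hq hp m hL (n i)

/-- `B`-bound for two exponent vectors -/
lemma exists_bound {k : ℕ} (n n' : Fin k → ℕ) : ∃ B, (∀ i, n i < B) ∧ (∀ i, n' i < B) := by
  refine ⟨∑ i, n i + ∑ i, n' i + 1, fun i => ?_, fun i => ?_⟩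
  · have := single_le_sum (f := n) (fun j _ => Nat.zero_le _) (mem_univ i)
    omega
  · have := single_le_sum (f := n') (fun j _ => Nat.zero_le _) (mem_univ i)
    omega

lemma nil_of_pow {B : ℕ} {k : ℕ} {y : Fin k → A} (hy : ∀ i, y i ^ B = 0) :
    ∀ z ∈ List.ofFn y, IsNilpotent z := by
  intro z hz
  obtain ⟨i, rfl⟩ := List.mem_ofFn.mp hz
  exact ⟨B, hy i⟩

/-- coefficient form of `H1` -/
theorem C1 {p : A} (hp : IsNilpotent p) {L : ℕ} (hL : (p ^ 2) ^ L = 0) (k : ℕ) (hk : 0 < k)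
    (n n' : Fin k → ℕ) :
    dbl (trip (p ^ 2) L k)
      (fun a b => lin (Lbf p k) (Gop (p ^ 2) (2 * k) a (Gop (p ^ 2) (2 * k) b (ket A 0)))) n n' =
      bil (bG p k) (Gop (p ^ 2) k n (ket A 0)) (Gop (p ^ 2) k n' (ket A 0)) := by
  have hq : IsNilpotent (p ^ 2) := hp.pow_succ 1
  obtain ⟨B, hn, hn'⟩ := exists_bound n n'
  refine extract2 (trip (p ^ 2) L k) _ (fun n n' =>
    bil (bG p k) (Gop (p ^ 2) k n (ket A 0)) (Gop (p ^ 2) k n' (ket A 0))) B ?_ n n' hn hn'
  intro U _ f y y' hy hy'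
  have hfp : IsNilpotent (f p) := hp.map f
  have hfL : ((f p) ^ 2) ^ L = 0 := by rw [← map_pow, ← map_pow, hL, map_zero]
  rw [trip_map, map_pow, tprodF_trip hfp hfL, tprodF_trip hfp hfL]
  have h1 := H1 hfp k hk (List.ofFn y) (List.ofFn y') (by simp) (by simp) (nil_of_pow hy)
    (nil_of_pow hy')
  rw [bil_gen_gen _ _ y y' hy hy', vY_ofFn, vY_ofFn'] at h1
  have h2 := lin_Kop_Kop ((f p) ^ 2) (2 * k) y y' hy hy' (Lbf (f p) k) 1 (ket U 0)
  simp only [Module.End.one_apply] at h2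
  rw [h2] at h1
  have e1 : ∀ n n' : Fin k → ℕ,
      f (lin (Lbf p k) (Gop (p ^ 2) (2 * k) n (Gop (p ^ 2) (2 * k) n' (ket A 0)))) =
      lin (Lbf (f p) k) (Gop ((f p) ^ 2) (2 * k) n (Gop ((f p) ^ 2) (2 * k) n' (ket U 0))) := by
    intro n n'
    rw [← lin_mapM, mapM_Gop f hq, mapM_Gop f hq, mapM_ket, map_pow]
    congr 2
    funext μ
    rw [map_Lbf]
  have e2 : ∀ n n' : Fin k → ℕ,
      f (bil (bG p k) (Gop (p ^ 2) k n (ket A 0)) (Gop (p ^ 2) k n' (ket A 0))) =
      bil (bG (f p) k) (Gop ((f p) ^ 2) k n (ket U 0)) (Gop ((f p) ^ 2) k n' (ket U 0)) := by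
    intro n n'
    rw [map_bil, mapM_Gop f hq, mapM_Gop f hq, mapM_ket, map_pow]
    congr 1
    funext μ ν
    rw [map_bG]
  simp only [e1, e2]
  exact h1

/-- coefficient form of `H3` -/
theorem C3 {p : A} (hp : IsNilpotent p) {L : ℕ} (hL : (p ^ 2) ^ L = 0) (k : ℕ) (hk : 0 < k)
    (n n' : Fin k → ℕ) :
    dbl (trip (p ^ 2) L k)
      (fun a b => qinf (p ^ 2) (-(p ^ 2)) * lin (Lbf p k)
        (Gop (p ^ 2) (2 * k) a (K (p ^ 2) (2 * k) (-p) (Gop (p ^ 2) (2 * k) b (ket A 0))))) n n' =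
      bil (bdiag (dD (p ^ 2) k)) (Gop (p ^ 2) k n (ket A 0)) (Gop (p ^ 2) k n' (ket A 0)) := by
  have hq : IsNilpotent (p ^ 2) := hp.pow_succ 1
  obtain ⟨B, hn, hn'⟩ := exists_bound n n'
  refine extract2 (trip (p ^ 2) L k) _ (fun n n' =>
    bil (bdiag (dD (p ^ 2) k)) (Gop (p ^ 2) k n (ket A 0)) (Gop (p ^ 2) k n' (ket A 0)))
    B ?_ n n' hn hn'
  intro U _ f y y' hy hy'
  have hfp : IsNilpotent (f p) := hp.map f
  have hfq : IsNilpotent ((f p) ^ 2) := hfp.pow_succ 1
  have hfL : ((f p) ^ 2) ^ L = 0 := by rw [← map_pow, ← map_pow, hL, map_zero]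
  rw [trip_map, map_pow, tprodF_trip hfp hfL, tprodF_trip hfp hfL]
  have h1 := H3 hfp k hk (List.ofFn y) (List.ofFn y') (by simp) (by simp) (nil_of_pow hy)
    (nil_of_pow hy')
  rw [bil_gen_gen _ _ y y' hy hy', vY_ofFn, vY_ofFn'] at h1
  have hcomm : Commute (K ((f p) ^ 2) (2 * k) (-(f p))) (Kop ((f p) ^ 2) (2 * k) y) := by
    rw [Kop_eq_gen _ _ y hy]
    unfold gen
    apply Commute.sum_right
    intro n _
    exact (Commute_K_Gop hfq hfp (2 * k) (L := L) (by rw [hfL, mul_zero]) n).smul_right _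
  have h3 : K ((f p) ^ 2) (2 * k) (-(f p)) (Kop ((f p) ^ 2) (2 * k) y
      (Kop ((f p) ^ 2) (2 * k) y' (ket U 0))) =
      Kop ((f p) ^ 2) (2 * k) y (K ((f p) ^ 2) (2 * k) (-(f p))
      (Kop ((f p) ^ 2) (2 * k) y' (ket U 0))) := by
    rw [← Module.End.mul_apply, hcomm.eq, Module.End.mul_apply]
  rw [h3, lin_Kop_Kop ((f p) ^ 2) (2 * k) y y' hy hy' (Lbf (f p) k)
    (K ((f p) ^ 2) (2 * k) (-(f p))) (ket U 0)] at h1
  have e1 : ∀ n n' : Fin k → ℕ,
      f (qinf (p ^ 2) (-(p ^ 2)) * lin (Lbf p k) (Gop (p ^ 2) (2 * k) n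
        (K (p ^ 2) (2 * k) (-p) (Gop (p ^ 2) (2 * k) n' (ket A 0))))) =
      qinf ((f p) ^ 2) (-((f p) ^ 2)) * lin (Lbf (f p) k) (Gop ((f p) ^ 2) (2 * k) n
        (K ((f p) ^ 2) (2 * k) (-(f p)) (Gop ((f p) ^ 2) (2 * k) n' (ket U 0)))) := by
    intro n n'
    rw [map_mul, map_qinf f hq, ← lin_mapM, mapM_Gop f hq, mapM_K f hq _ hp.neg, mapM_Gop f hq,
      mapM_ket, map_neg, map_neg, map_pow]
    congr 3
    funext μ
    rw [map_Lbf]
  have e2 : ∀ n n' : Fin k → ℕ,
      f (bil (bdiag (dD (p ^ 2) k)) (Gop (p ^ 2) k n (ket A 0)) (Gop (p ^ 2) k n' (ket A 0))) =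
      bil (bdiag (dD ((f p) ^ 2) k)) (Gop ((f p) ^ 2) k n (ket U 0))
        (Gop ((f p) ^ 2) k n' (ket U 0)) := by
    intro n n'
    rw [map_bil, mapM_Gop f hq, mapM_Gop f hq, mapM_ket, map_pow]
    congr 1
    funext μ ν
    rw [map_bdiag]
    congr 1
    funext μ
    rw [map_dD, map_pow]
  simp only [e1, e2]
  rw [← h1]
  congr 2
  have := gen_mul (B := B) y' (qinf ((f p) ^ 2) (-((f p) ^ 2)))
    (fun n' => gen B y (fun n => lin (Lbf (f p) k) (Gop ((f p) ^ 2) (2 * k) n
        (K ((f p) ^ 2) (2 * k) (-(f p)) (Gop ((f p) ^ 2) (2 * k) n' (ket U 0))))))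
  rw [this]
  congr 1
  funext n'
  rw [gen_mul]

/-- coefficient form of `H4` -/
theorem C4 {p : A} (hp : IsNilpotent p) {L : ℕ} (hL : (p ^ 2) ^ L = 0) (k : ℕ) (hk : 0 < k)
    (n : Fin k → ℕ) :
    Dl (trip (p ^ 2) L k) (fun a => lin (Wf p (2 * k)) (Gop (p ^ 2) (2 * k) a (ket A 0))) n =
      lin (Gam p k) (Gop (p ^ 2) k n (ket A 0)) := by
  have hq : IsNilpotent (p ^ 2) := hp.pow_succ 1
  obtain ⟨B, hn, _⟩ := exists_bound n n
  refine extract1 (trip (p ^ 2) L k) _ (fun n => lin (Gam p k) (Gop (p ^ 2) k n (ket A 0)))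
    B ?_ n hn
  intro U _ f y hy
  have hfp : IsNilpotent (f p) := hp.map f
  have hfL : ((f p) ^ 2) ^ L = 0 := by rw [← map_pow, ← map_pow, hL, map_zero]
  rw [trip_map, map_pow, tprodF_trip hfp hfL]
  have h1 := H4 hfp k hk (List.ofFn y) (by simp) (nil_of_pow hy)
  rw [vY_ofFn', vY_ofFn', Kop_eq_gen _ _ y hy, Kop_eq_gen _ _ y hy, gen_apply, gen_apply,
    gen_linear, gen_linear] at h1
  have e1 : ∀ n : Fin k → ℕ,
      f (lin (Wf p (2 * k)) (Gop (p ^ 2) (2 * k) n (ket A 0))) =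
      lin (Wf (f p) (2 * k)) (Gop ((f p) ^ 2) (2 * k) n (ket U 0)) := by
    intro n
    rw [← lin_mapM, mapM_Gop f hq, mapM_ket, map_pow]
    congr 2
    funext μ
    rw [map_Wf]
  have e2 : ∀ n : Fin k → ℕ,
      f (lin (Gam p k) (Gop (p ^ 2) k n (ket A 0))) =
      lin (Gam (f p) k) (Gop ((f p) ^ 2) k n (ket U 0)) := by
    intro n
    rw [← lin_mapM, mapM_Gop f hq, mapM_ket, map_pow]
    congr 2
    funext μ
    rw [map_Gam]
  simp only [e1, e2]
  exact h1

end MP4905

end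

section

/-!
The basic transfer relation: action of `Φ` on the vectors `J_R`.
-/

open Finset

namespace MP4905

universe u

variable {A : Type u} [CommRing A]

/-- products of `g`'s acting on the vacuum do not depend on the number of columns -/
lemma Gop_stable (q : A) (m m' : ℕ) : ∀ (k : ℕ), k ≤ m → k ≤ m' → ∀ n : Fin k → ℕ,
    Gop q m n (ket A 0) = Gop q m' n (ket A 0) := by
  intro k
  induction k with
  | zero => intro _ _ n; rw [Gop_zero, Gop_zero]
  | succ k ih =>
    intro h h' n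
    rw [Gop_succ, Gop_succ, Module.End.mul_apply, Module.End.mul_apply,
      ← ih (by omega) (by omega)]
    have hmem := Gop_rows (q := q) m k (by omega) (fun i => n i.succ)
    have hle : Submodule.span A {v | ∃ μ : ℕ →₀ ℕ, μ k = 0 ∧ deg μ = ∑ i : Fin k, n i.succ ∧
        v = ket A μ} ≤ LinearMap.eqLocus (g q m (n 0)) (g q m' (n 0)) := by
      rw [Submodule.span_le]
      rintro v ⟨μ, h0, _, rfl⟩
      change g q m (n 0) (ket A μ) = g q m' (n 0) (ket A μ)
      by_cases ha : Antitone (μ : ℕ → ℕ)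
      · exact g_stable m m' k (by omega) (by omega) ha h0 (n 0)
      · rw [ket_of_not ha, map_zero, map_zero]
    exact hle hmem

lemma Dl_apply {k : ℕ} (l : List (A × Fin k × Fin k)) (F : (Fin k → ℕ) → Module.End A (M A))
    (n : Fin k → ℕ) (v : M A) : (Dl l F n) v = Dl l (fun n => F n v) n :=
  congrFun (Dl_map l (LinearMap.applyₗ v : Module.End A (M A) →ₗ[A] M A) F) n

/-- the pairing of two `Dl`-modified families -/
lemma lin_Dl_Dl {k : ℕ} (l : List (A × Fin k × Fin k)) (F : (Fin k → ℕ) → Module.End A (M A))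
    (c : A) (φ : M A →ₗ[A] A) (T : Module.End A (M A)) (v : M A) (n n' : Fin k → ℕ) :
    c * φ (Dl l F n (T (Dl l F n' v))) = dbl l (fun a b => c * φ (F a (T (F b v)))) n n' := by
  unfold dbl
  have h1 : (Dl l F n') v = Dl l (fun b => F b v) n' := Dl_apply l F n' v
  have h2 := congrFun (Dl_map l (c • (φ.comp ((Dl l F n).comp T))) (fun b => F b v)) n'
  rw [h1]
  have h3 : c * φ ((Dl l F n) (T (Dl l (fun b => F b v) n'))) =
      (c • (φ.comp ((Dl l F n).comp T))) (Dl l (fun b => F b v) n') := rfl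
  rw [h3, h2]
  congr 1
  funext b
  have h4 := congrFun (Dl_map l (c • (φ.comp
    (LinearMap.applyₗ (T (F b v)) : Module.End A (M A) →ₗ[A] M A))) F) n
  exact h4

/-- the submodule spanned by kets with at most `k` rows and degree `< d` -/
noncomputable def Low (A : Type u) [CommRing A] (k d : ℕ) : Submodule A (M A) :=
  Submodule.span A {v | ∃ ν : ℕ →₀ ℕ, ν k = 0 ∧ deg ν < d ∧ v = ket A ν}

/-- The operators `A_R`. -/
theorem exists_AR {p : A} (hp : IsNilpotent p) {L : ℕ} (hL : (p ^ 2) ^ L = 0) (k : ℕ)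
    (hk : 0 < k) :
    ∃ AR : (ℕ →₀ ℕ) → Module.End A (M A),
      (∀ R : ℕ →₀ ℕ, R k = 0 → Antitone R →
        AR R (ket A 0) - ket A R ∈ Low A k (deg R)) ∧
      (∀ R r, Commute (E (p ^ 2) (2 * k) r) (AR R)) ∧
      (∀ R, Commute (K (p ^ 2) (2 * k) (-p)) (AR R)) ∧
      (∀ R, Commute (Phi (p ^ 2) p (2 * k) L) (AR R)) ∧
      (∀ R R' : ℕ →₀ ℕ, R k = 0 → R' k = 0 → Antitone R → Antitone R' →
        lin (Lbf p k) (AR R (AR R' (ket A 0))) = bG p k R R') ∧
      (∀ R R' : ℕ →₀ ℕ, R k = 0 → R' k = 0 → Antitone R → Antitone R' →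
        qinf (p ^ 2) (-(p ^ 2)) *
          lin (Lbf p k) (AR R (K (p ^ 2) (2 * k) (-p) (AR R' (ket A 0)))) =
          bdiag (dD (p ^ 2) k) R R') ∧
      (∀ R : ℕ →₀ ℕ, R k = 0 → Antitone R →
        lin (Wf p (2 * k)) (AR R (ket A 0)) = Gam p k R) := by
  classical
  have hq : IsNilpotent (p ^ 2) := hp.pow_succ 1
  -- choose the coefficients
  have hex : ∀ R : ℕ →₀ ℕ, ∃ t : (Fin k → ℕ) →₀ A, R k = 0 → Antitone R →
      (∀ n ∈ t.support, ∑ i, n i = deg R) ∧
      t.sum (fun n a => a • Gop (p ^ 2) k n (ket A 0)) = ket A R := by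
    intro R
    by_cases h : R k = 0 ∧ Antitone (R : ℕ → ℕ)
    swap
    · exact ⟨0, fun h1 h2 => absurd ⟨h1, h2⟩ h⟩
    have hmem := span_G hq k k le_rfl h.2 h.1
    have hset : {v | ∃ n : Fin k → ℕ, ∑ i, n i = deg R ∧ v = Gop (p ^ 2) k n (ket A 0)} =
        (fun n : Fin k → ℕ => Gop (p ^ 2) k n (ket A 0)) '' {n | ∑ i, n i = deg R} := by
      ext v
      constructor
      · rintro ⟨n, h1, h2⟩; exact ⟨n, h1, h2.symm⟩
      · rintro ⟨n, h1, h2⟩; exact ⟨n, h1, h2.symm⟩
    rw [hset, Finsupp.mem_span_image_iff_linearCombination] at hmem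
    obtain ⟨t, ht, hsum⟩ := hmem
    refine ⟨t, fun _ _ => ⟨fun n hn => ?_, ?_⟩⟩
    · exact (Finsupp.mem_supported _ _).mp ht hn
    · rw [← hsum, Finsupp.linearCombination_apply]
  choose t ht using hex
  set l := trip (p ^ 2) L k with hl
  set Dn : (Fin k → ℕ) → Module.End A (M A) := Dl l (fun n => Gop (p ^ 2) (2 * k) n) with hDn
  set AR : (ℕ →₀ ℕ) → Module.End A (M A) := fun R => (t R).sum (fun n a => a • Dn n) with hAR
  -- commutation
  have hcomm : ∀ X : Module.End A (M A),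
      (∀ n : Fin k → ℕ, Commute X (Gop (p ^ 2) (2 * k) n)) → ∀ R, Commute X (AR R) := by
    intro X hX R
    have hS : ∀ n, Dn n ∈ Subalgebra.toSubmodule (Subalgebra.centralizer A {X}) := by
      intro n
      have hG : ∀ n : Fin k → ℕ, Gop (p ^ 2) (2 * k) n ∈
          Subalgebra.toSubmodule (Subalgebra.centralizer A {X}) := by
        intro n
        rw [Subalgebra.mem_toSubmodule, Subalgebra.mem_centralizer_iff]
        intro g hg
        rw [Set.mem_singleton_iff.mp hg]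
        exact (hX n).eq
      have h1 := Dl_sub_mem l (fun n => Gop (p ^ 2) (2 * k) n) n _ (fun n' _ => hG n')
      have h2 := Submodule.add_mem _ h1 (hG n)
      rw [sub_add_cancel] at h2
      exact h2
    have hAm : AR R ∈ Subalgebra.toSubmodule (Subalgebra.centralizer A {X}) := by
      refine Submodule.sum_mem _ fun n _ => Submodule.smul_mem _ _ (hS n)
    rw [Subalgebra.mem_toSubmodule, Subalgebra.mem_centralizer_iff] at hAm
    exact hAm X rfl
  have hpL : p * (p ^ 2) ^ L = 0 := by rw [hL, mul_zero]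
  have hexp : ∀ (R R' : ℕ →₀ ℕ) (c : A) (φ : M A →ₗ[A] A) (T : Module.End A (M A)),
      c * φ (AR R (T (AR R' (ket A 0)))) =
        (t R).sum (fun n a => (t R').sum (fun n' a' => a * (a' *
          (dbl l (fun a b => c * φ (Gop (p ^ 2) (2 * k) a (T (Gop (p ^ 2) (2 * k) b (ket A 0)))))
            n n')))) := by
    intro R R' c φ T
    simp only [hAR, Finsupp.sum, LinearMap.sum_apply, LinearMap.smul_apply, map_sum, map_smul,
      mul_sum, smul_eq_mul]
    rw [sum_comm]
    apply sum_congr rfl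
    intro n _
    apply sum_congr rfl
    intro n' _
    rw [← lin_Dl_Dl]
    ring
  have hbil : ∀ (β : (ℕ →₀ ℕ) → (ℕ →₀ ℕ) → A) (R R' : ℕ →₀ ℕ), R k = 0 → R' k = 0 →
      Antitone R → Antitone R' →
      (t R).sum (fun n a => (t R').sum (fun n' a' => a * (a' *
        bil β (Gop (p ^ 2) k n (ket A 0)) (Gop (p ^ 2) k n' (ket A 0))))) = β R R' := by
    intro β R R' h0 h0' ha ha'
    have e1 : β R R' = bilL β (ket A R) (ket A R') := by
      rw [bilL_apply, bil_ket_left β ha, lin_ket_of_antitone _ ha']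
    rw [e1, ← (ht R h0 ha).2, ← (ht R' h0' ha').2]
    simp only [Finsupp.sum, map_sum, map_smul, LinearMap.sum_apply, LinearMap.smul_apply,
      smul_eq_mul, mul_sum, bilL_apply]
    rw [sum_comm]
    apply sum_congr rfl
    intro n _
    apply sum_congr rfl
    intro n' _
    ring
  refine ⟨AR, ?_, ?_, ?_, ?_, ?_, ?_, ?_⟩
  · -- leading term
    intro R h0 ha
    have e1 : ket A R = (t R).sum (fun n a => a • Gop (p ^ 2) (2 * k) n (ket A 0)) := by
      rw [← (ht R h0 ha).2]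
      apply Finsupp.sum_congr
      intro n _
      rw [Gop_stable (p ^ 2) k (2 * k) k le_rfl (by omega)]
    rw [e1]
    simp only [hAR, Finsupp.sum, LinearMap.sum_apply, LinearMap.smul_apply]
    rw [← sum_sub_distrib]
    refine Submodule.sum_mem _ fun n hn => ?_
    rw [← smul_sub]
    refine Submodule.smul_mem _ _ ?_
    rw [hDn, Dl_apply]
    refine Dl_sub_mem l (fun n => Gop (p ^ 2) (2 * k) n (ket A 0)) n _ ?_
    intro n' hn'
    have hd := (ht R h0 ha).1 n hn
    have := Gop_rows (q := p ^ 2) (2 * k) k (by omega) n'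
    refine Submodule.span_mono ?_ this
    rintro v ⟨μ, h1, h2, h3⟩
    exact ⟨μ, h1, by omega, h3⟩
  · intro R r
    refine hcomm _ (fun n => ?_) R
    unfold Gop
    apply Commute.list_prod_right
    intro x hx
    obtain ⟨i, rfl⟩ := List.mem_ofFn.mp hx
    exact Commute_E_g hq _ _ _
  · intro R
    exact hcomm _ (fun n => Commute_K_Gop hq hp (2 * k) hpL n) R
  · intro R
    refine hcomm _ (fun n => ?_) R
    unfold Gop
    apply Commute.list_prod_right
    intro x hx
    obtain ⟨i, rfl⟩ := List.mem_ofFn.mp hx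
    exact Commute_Phi_g hq p (2 * k) L _
  · intro R R' h0 h0' ha ha'
    have h1 := hexp R R' 1 (lin (Lbf p k)) 1
    simp only [one_mul, Module.End.one_apply] at h1
    rw [h1, ← hbil (bG p k) R R' h0 h0' ha ha']
    apply Finsupp.sum_congr
    intro n _
    apply Finsupp.sum_congr
    intro n' _
    rw [C1 hp hL k hk]
  · intro R R' h0 h0' ha ha'
    rw [hexp R R' (qinf (p ^ 2) (-(p ^ 2))) (lin (Lbf p k)) (K (p ^ 2) (2 * k) (-p)),
      ← hbil (bdiag (dD (p ^ 2) k)) R R' h0 h0' ha ha']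
    apply Finsupp.sum_congr
    intro n _
    apply Finsupp.sum_congr
    intro n' _
    rw [C3 hp hL k hk]
  · intro R h0 ha
    have e1 : Gam p k R = lin (Gam p k) (ket A R) := by rw [lin_ket_of_antitone _ ha]
    rw [e1, ← (ht R h0 ha).2]
    simp only [hAR, Finsupp.sum, LinearMap.sum_apply, LinearMap.smul_apply, map_sum, map_smul]
    apply sum_congr rfl
    intro n _
    congr 1
    rw [← C4 hp hL k hk, hDn, Dl_apply]
    exact congrFun (Dl_map l (lin (Wf p (2 * k))) (fun n => Gop (p ^ 2) (2 * k) n (ket A 0))) n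

end MP4905

end

section

/-!
The transfer relation and its iteration.
-/

open Finset

namespace MP4905

universe u

variable {A : Type u} [CommRing A]

lemma E_mem_Mle (q : A) (m r : ℕ) {v : M A} (hv : v ∈ Mle A m) : E q m r v ∈ Mle A m := by
  refine Mle_induction (P := fun v => E q m r v ∈ Mle A m) ?_ ?_ ?_ ?_ hv
  · rw [map_zero]; exact Submodule.zero_mem _
  · intro v w h1 h2; rw [map_add]; exact Submodule.add_mem _ h1 h2
  · intro a v h; rw [map_smul]; exact Submodule.smul_mem _ _ h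
  · intro μ ha h0
    rw [E_ket q m r ha]
    refine Submodule.sum_mem _ fun s hs => Submodule.smul_mem _ _ (ket_mem_Mle ?_)
    rw [Finsupp.add_apply, h0, ind_apply, if_neg, zero_add]
    intro hm
    exact absurd (mem_range.mp ((mem_powersetCard.mp hs).1 hm)) (lt_irrefl m)

lemma Ex_mem_Mle (q : A) (m : ℕ) (x : A) {v : M A} (hv : v ∈ Mle A m) :
    Ex q m x v ∈ Mle A m := by
  unfold Ex
  rw [LinearMap.sum_apply]
  exact Submodule.sum_mem _ fun r _ => Submodule.smul_mem _ _ (E_mem_Mle q m r hv)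

lemma Phi_mem_Mle (q p : A) (m L : ℕ) : ∀ {v : M A}, v ∈ Mle A m → Phi q p m L v ∈ Mle A m := by
  induction L with
  | zero => intro v hv; simpa [Phi] using hv
  | succ L ih =>
    intro v hv
    rw [Phi_succ, Module.End.mul_apply]
    exact ih (Ex_mem_Mle q m _ hv)

lemma isUnit_dD {q : A} (hq : IsNilpotent q) (k : ℕ) (R : ℕ →₀ ℕ) : IsUnit (dD q k R) := by
  unfold dD
  refine IsUnit.mul ?_ ?_
  · rw [IsUnit.prod_iff]
    intro i _
    exact isUnit_qf hq _
  · exact isUnit_qf (hq.pow_succ 1) _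

/-- the transfer relation -/
theorem T_rel {p : A} (hp : IsNilpotent p) {L : ℕ} (hL : (p ^ 2) ^ L = 0) (k : ℕ)
    (AR : (ℕ →₀ ℕ) → Module.End A (M A))
    (h1 : ∀ R : ℕ →₀ ℕ, R k = 0 → Antitone R →
        AR R (ket A 0) - ket A R ∈ Low A k (deg R))
    (h2 : ∀ R r, Commute (E (p ^ 2) (2 * k) r) (AR R))
    (h3 : ∀ R, Commute (K (p ^ 2) (2 * k) (-p)) (AR R))
    (h5 : ∀ R R' : ℕ →₀ ℕ, R k = 0 → R' k = 0 → Antitone R → Antitone R' →
        lin (Lbf p k) (AR R (AR R' (ket A 0))) = bG p k R R')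
    (h6 : ∀ R R' : ℕ →₀ ℕ, R k = 0 → R' k = 0 → Antitone R → Antitone R' →
        qinf (p ^ 2) (-(p ^ 2)) *
          lin (Lbf p k) (AR R (K (p ^ 2) (2 * k) (-p) (AR R' (ket A 0)))) =
          bdiag (dD (p ^ 2) k) R R')
    (φ : M A →ₗ[A] A)
    (hφ : ∀ r ≤ 2 * k, ∀ v, φ (E (p ^ 2) (2 * k) r v) = φ (E (p ^ 2) (2 * k) (2 * k - r) v))
    (R : ℕ →₀ ℕ) (h0 : R k = 0) (ha : Antitone R) (T : Finset (ℕ →₀ ℕ))
    (hT : ∀ R' ∈ T, R' k = 0 ∧ Antitone (R' : ℕ → ℕ))
    (hT' : ∀ R' : ℕ →₀ ℕ, R' k = 0 → Antitone R' → R' ∉ T → bG p k R R' = 0) :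
    φ (Phi (p ^ 2) p (2 * k) L (AR R (ket A 0))) =
      ∑ R' ∈ T, qinf (p ^ 2) (-(p ^ 2)) * bG p k R R' * Ring.inverse (dD (p ^ 2) k R') *
        φ (AR R' (ket A 0)) := by
  classical
  have hq : IsNilpotent (p ^ 2) := hp.pow_succ 1
  have hpL : p * (p ^ 2) ^ L = 0 := by rw [hL, mul_zero]
  set good : Set (ℕ →₀ ℕ) := {R' | R' k = 0 ∧ Antitone (R' : ℕ → ℕ)} with hgood
  set J : (ℕ →₀ ℕ) → M A := fun R' => AR R' (ket A 0) with hJ
  set Js : Submodule A (M A) := Submodule.span A (J '' good) with hJs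
  have hLowMle : ∀ d, Low A k d ≤ Mle A k := by
    intro d
    refine Submodule.span_mono ?_
    rintro v ⟨ν, e1, _, e2⟩
    exact ⟨ν, e1, e2⟩
  have hJM : J R ∈ Mle A k := by
    have e1 := Submodule.add_mem _ (hLowMle _ (h1 R h0 ha)) (ket_mem_Mle (A := A) h0)
    rw [sub_add_cancel] at e1
    exact e1
  have hw : Phi (p ^ 2) p (2 * k) L (J R) ∈ Mle A (2 * k) :=
    Phi_mem_Mle _ _ _ _ (Mle_mono (by omega) hJM)
  have hspan : Mle A (2 * k) ≤ Js ⊔ Null (p ^ 2) (2 * k) := by
    intro v hv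
    refine Mle_induction (P := fun v => v ∈ Js ⊔ Null (p ^ 2) (2 * k)) ?_ ?_ ?_ ?_ hv
    · exact Submodule.zero_mem _
    · intro v w e1 e2; exact Submodule.add_mem _ e1 e2
    · intro a v e; exact Submodule.smul_mem _ _ e
    · intro μ hμ hμ0
      refine span_S (p ^ 2) k Js ?_ μ hμ0 hμ
      intro μ hμ0 hμ hlow
      have e1 : J μ ∈ Js ⊔ Null (p ^ 2) (2 * k) :=
        Submodule.mem_sup_left (Submodule.subset_span ⟨μ, ⟨hμ0, hμ⟩, rfl⟩)
      have e2 : J μ - ket A μ ∈ Js ⊔ Null (p ^ 2) (2 * k) := by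
        have hle : Low A k (deg μ) ≤ Js ⊔ Null (p ^ 2) (2 * k) := by
          unfold Low
          rw [Submodule.span_le]
          rintro v ⟨ν, e3, e4, rfl⟩
          by_cases hν : Antitone (ν : ℕ → ℕ)
          · exact hlow ν e3 hν e4
          · rw [ket_of_not hν]
            exact Submodule.zero_mem _
        exact hle (h1 μ hμ0 hμ)
      have e3 := Submodule.sub_mem _ e1 e2
      rwa [sub_sub_cancel] at e3
  obtain ⟨j, hj, nl, hnl, hsum⟩ := Submodule.mem_sup.mp (hspan hw)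
  rw [hJs, Finsupp.mem_span_image_iff_linearCombination] at hj
  obtain ⟨a, hasupp, haj⟩ := hj
  rw [Finsupp.linearCombination_apply] at haj
  -- symmetric functionals kill `Null`
  have hkill : ∀ ψ : M A →ₗ[A] A,
      (∀ r ≤ 2 * k, ∀ v, ψ (E (p ^ 2) (2 * k) r v) = ψ (E (p ^ 2) (2 * k) (2 * k - r) v)) →
      ψ nl = 0 := by
    intro ψ hψ
    have : Null (p ^ 2) (2 * k) ≤ LinearMap.ker ψ := by
      unfold Null
      rw [Submodule.span_le]
      rintro v ⟨r, w, hr, rfl⟩
      change ψ (E (p ^ 2) (2 * k) r w - E (p ^ 2) (2 * k) (2 * k - r) w) = 0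
      rw [map_sub, hψ r hr, sub_self]
    exact this hnl
  have hval : ∀ ψ : M A →ₗ[A] A,
      (∀ r ≤ 2 * k, ∀ v, ψ (E (p ^ 2) (2 * k) r v) = ψ (E (p ^ 2) (2 * k) (2 * k - r) v)) →
      ψ (Phi (p ^ 2) p (2 * k) L (J R)) = a.sum (fun R' x => x * ψ (J R')) := by
    intro ψ hψ
    rw [← hsum, map_add, hkill ψ hψ, add_zero, ← haj]
    simp only [Finsupp.sum, map_sum, map_smul, smul_eq_mul]
  -- the dual functionals
  have hagood : ∀ R', a R' ≠ 0 → R' k = 0 ∧ Antitone (R' : ℕ → ℕ) := by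
    intro R' hR'
    exact (Finsupp.mem_supported _ _).mp hasupp (Finsupp.mem_support_iff.mpr hR')
  have hdual : ∀ R' : ℕ →₀ ℕ, R' k = 0 → Antitone R' →
      qinf (p ^ 2) (-(p ^ 2)) * bG p k R R' = a R' * dD (p ^ 2) k R' := by
    intro R' h0' ha'
    set ψ : M A →ₗ[A] A := qinf (p ^ 2) (-(p ^ 2)) • ((lin (Lbf p k)).comp
      ((AR R').comp (K (p ^ 2) (2 * k) (-p)))) with hψ
    have hψa : ∀ v, ψ v = qinf (p ^ 2) (-(p ^ 2)) * lin (Lbf p k) (AR R'
      (K (p ^ 2) (2 * k) (-p) v)) := fun v => rfl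
    have hψE : ∀ r v, ψ (E (p ^ 2) (2 * k) r v) = qinf (p ^ 2) (-(p ^ 2)) *
        lin (Lbf p k) (E (p ^ 2) (2 * k) r (AR R' (K (p ^ 2) (2 * k) (-p) v))) := by
      intro r v
      rw [hψa]
      have e1 : K (p ^ 2) (2 * k) (-p) (E (p ^ 2) (2 * k) r v) =
          E (p ^ 2) (2 * k) r (K (p ^ 2) (2 * k) (-p) v) := by
        rw [← Module.End.mul_apply, ← (Commute_E_K hq (2 * k) r (-p)).eq, Module.End.mul_apply]
      have e2 : AR R' (E (p ^ 2) (2 * k) r (K (p ^ 2) (2 * k) (-p) v)) =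
          E (p ^ 2) (2 * k) r (AR R' (K (p ^ 2) (2 * k) (-p) v)) := by
        rw [← Module.End.mul_apply, ← (h2 R' r).eq, Module.End.mul_apply]
      rw [e1, e2]
    have hψs : ∀ r ≤ 2 * k, ∀ v, ψ (E (p ^ 2) (2 * k) r v) =
        ψ (E (p ^ 2) (2 * k) (2 * k - r) v) := by
      intro r hr v
      rw [hψE, hψE, L_reflect (p ^ 2) p k r hr]
    have e1 := hval ψ hψs
    have e2 : ψ (Phi (p ^ 2) p (2 * k) L (J R)) =
        qinf (p ^ 2) (-(p ^ 2)) * bG p k R R' := by
      rw [hψa]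
      have e3 : K (p ^ 2) (2 * k) (-p) (Phi (p ^ 2) p (2 * k) L (J R)) = J R := by
        rw [← Module.End.mul_apply, K_mul_Phi_eq_one hq hp (2 * k) hpL, Module.End.one_apply]
      rw [e3, h5 R' R h0' h0 ha' ha]
      congr 1
      unfold bG
      apply prod_congr rfl
      intro i _
      congr 2
      omega
    rw [e2] at e1
    rw [e1]
    have e4 : ∀ R'' : ℕ →₀ ℕ, R'' k = 0 → Antitone R'' → ψ (J R'') =
        bdiag (dD (p ^ 2) k) R' R'' := by
      intro R'' h0'' ha''
      rw [hψa, h6 R' R'' h0' h0'' ha' ha'']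
    rw [Finsupp.sum]
    have e5 : ∀ R'' ∈ a.support, a R'' * ψ (J R'') =
        if R' = R'' then a R' * dD (p ^ 2) k R' else 0 := by
      intro R'' hR''
      obtain ⟨e6, e7⟩ := hagood R'' (Finsupp.mem_support_iff.mp hR'')
      rw [e4 R'' e6 e7]
      unfold bdiag
      split_ifs with h
      · rw [h]
      · rw [mul_zero]
    rw [sum_congr rfl e5, sum_ite_eq]
    split_ifs with h
    · rfl
    · rw [Finsupp.notMem_support_iff.mp h, zero_mul]
  have hsol : ∀ R' : ℕ →₀ ℕ, R' k = 0 → Antitone R' →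
      a R' = qinf (p ^ 2) (-(p ^ 2)) * bG p k R R' * Ring.inverse (dD (p ^ 2) k R') := by
    intro R' h0' ha'
    rw [hdual R' h0' ha', mul_assoc, Ring.mul_inverse_cancel _ (isUnit_dD hq k R'), mul_one]
  have hsub : a.support ⊆ T := by
    intro R' hR'
    obtain ⟨e6, e7⟩ := hagood R' (Finsupp.mem_support_iff.mp hR')
    by_contra hcon
    apply Finsupp.mem_support_iff.mp hR'
    rw [hsol R' e6 e7, hT' R' e6 e7 hcon]
    ring
  rw [show AR R (ket A 0) = J R from rfl, hval φ hφ, Finsupp.sum]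
  rw [sum_subset hsub]
  · apply sum_congr rfl
    intro R' hR'
    rw [hsol R' (hT R' hR').1 (hT R' hR').2]
  · intro R' _ hR'
    rw [Finsupp.notMem_support_iff.mp hR', zero_mul]

/-- iterated sums over a finite set `T` -/
noncomputable def chain (p : A) (k : ℕ) (T : Finset (ℕ →₀ ℕ)) (ψ : (ℕ →₀ ℕ) → A) :
    ℕ → (ℕ →₀ ℕ) → A
  | 0, R => ψ R
  | N + 1, R => ∑ R' ∈ T, qinf (p ^ 2) (-(p ^ 2)) * bG p k R R' *
      Ring.inverse (dD (p ^ 2) k R') * chain p k T ψ N R'

/-- the condition on `T` used in the iteration: it consists of good sequences and contains all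
good sequences with entries at most `B` -/
def BoxT (k : ℕ) (T : Finset (ℕ →₀ ℕ)) (B : ℕ) : Prop :=
  (∀ R' ∈ T, R' k = 0 ∧ Antitone (R' : ℕ → ℕ)) ∧
    ∀ R' : ℕ →₀ ℕ, R' k = 0 → Antitone R' → R' 0 ≤ B → R' ∈ T

lemma bG_eq_zero {p : A} {b : ℕ} (hb : p ^ b = 0) (k : ℕ) (hk : 0 < k) {R R' : ℕ →₀ ℕ}
    (h : R 0 + b ≤ R' 0) : bG p k R R' = 0 := by
  unfold bG
  apply prod_eq_zero (mem_range.mpr hk)
  have h1 : b ≤ ((R 0 : ℤ) - R' 0).natAbs := by omega
  have h2 : b ≤ ((R 0 : ℤ) - R' 0).natAbs ^ 2 := h1.trans (Nat.le_self_pow (by omega) _)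
  exact pow_eq_zero_of_le h2 hb

theorem iterate {p : A} {b : ℕ} (hb : p ^ b = 0) {L : ℕ} (hL : (p ^ 2) ^ L = 0) (k : ℕ)
    (hk : 0 < k)
    (AR : (ℕ →₀ ℕ) → Module.End A (M A))
    (h1 : ∀ R : ℕ →₀ ℕ, R k = 0 → Antitone R →
        AR R (ket A 0) - ket A R ∈ Low A k (deg R))
    (h2 : ∀ R r, Commute (E (p ^ 2) (2 * k) r) (AR R))
    (h3 : ∀ R, Commute (K (p ^ 2) (2 * k) (-p)) (AR R))
    (h5 : ∀ R R' : ℕ →₀ ℕ, R k = 0 → R' k = 0 → Antitone R → Antitone R' →
        lin (Lbf p k) (AR R (AR R' (ket A 0))) = bG p k R R')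
    (h6 : ∀ R R' : ℕ →₀ ℕ, R k = 0 → R' k = 0 → Antitone R → Antitone R' →
        qinf (p ^ 2) (-(p ^ 2)) *
          lin (Lbf p k) (AR R (K (p ^ 2) (2 * k) (-p) (AR R' (ket A 0)))) =
          bdiag (dD (p ^ 2) k) R R')
    (ψ : (ℕ →₀ ℕ) → A) (T : Finset (ℕ →₀ ℕ)) :
    ∀ (N : ℕ) (φ : M A →ₗ[A] A),
      (∀ r ≤ 2 * k, ∀ v, φ (E (p ^ 2) (2 * k) r v) = φ (E (p ^ 2) (2 * k) (2 * k - r) v)) →
      (∀ R : ℕ →₀ ℕ, R k = 0 → Antitone R → φ (AR R (ket A 0)) = ψ R) →
      ∀ (R : ℕ →₀ ℕ), R k = 0 → Antitone R → BoxT k T (R 0 + N * b) →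
      φ ((Phi (p ^ 2) p (2 * k) L ^ N) (AR R (ket A 0))) = chain p k T ψ N R := by
  have hp : IsNilpotent p := ⟨b, hb⟩
  have hq : IsNilpotent (p ^ 2) := hp.pow_succ 1
  have hpL : p * (p ^ 2) ^ L = 0 := by rw [hL, mul_zero]
  intro N
  induction N with
  | zero =>
    intro φ _ hψ R h0 ha _
    rw [pow_zero, Module.End.one_apply]
    exact hψ R h0 ha
  | succ N ih =>
    intro φ hφ hψ R h0 ha hbox
    have hcomm : ∀ n, Commute (Phi (p ^ 2) p (2 * k) L ^ N) (E (p ^ 2) (2 * k) n) := fun n =>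
      (Commute_Phi_E hq hp (2 * k) hpL n).pow_left N
    have hsym : ∀ r ≤ 2 * k, ∀ v,
        (φ.comp (Phi (p ^ 2) p (2 * k) L ^ N)) (E (p ^ 2) (2 * k) r v) =
        (φ.comp (Phi (p ^ 2) p (2 * k) L ^ N)) (E (p ^ 2) (2 * k) (2 * k - r) v) := by
      intro r hr v
      rw [LinearMap.comp_apply, LinearMap.comp_apply, ← Module.End.mul_apply,
        ← Module.End.mul_apply, (hcomm r).eq, (hcomm (2 * k - r)).eq, Module.End.mul_apply,
        Module.End.mul_apply]
      exact hφ r hr _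
    have hT := T_rel hp hL k AR h1 h2 h3 h5 h6 (φ.comp (Phi (p ^ 2) p (2 * k) L ^ N)) hsym R h0 ha
      T hbox.1 (by
        intro R' e1 e2 e3
        by_contra hne
        apply e3
        apply hbox.2 R' e1 e2
        by_contra hcon
        apply hne
        apply bG_eq_zero hb k hk
        have : (N + 1) * b = N * b + b := by ring
        have h4 : 0 ≤ N * b := Nat.zero_le _
        omega)
    rw [pow_succ, Module.End.mul_apply]
    rw [LinearMap.comp_apply] at hT
    rw [hT, chain]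
    apply sum_congr rfl
    intro R' hR'
    by_cases hne : bG p k R R' = 0
    · rw [hne]; ring
    · congr 1
      rw [LinearMap.comp_apply]
      refine ih φ hφ hψ R' (hbox.1 R' hR').1 (hbox.1 R' hR').2 ⟨hbox.1, ?_⟩
      intro R'' e1 e2 e3
      apply hbox.2 R'' e1 e2
      have h4 : R' 0 < R 0 + b := by
        by_contra hcon
        exact hne (bG_eq_zero hb k hk (by omega))
      have : (N + 1) * b = N * b + b := by ring
      omega

end MP4905

end

section

/-!
The two core identities over a ring in which `p` is nilpotent.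
-/

open Finset

namespace MP4905

universe u

variable {A : Type u} [CommRing A]

lemma Low_zero (k : ℕ) : Low A k 0 = ⊥ := by
  unfold Low
  rw [Submodule.span_eq_bot]
  rintro v ⟨ν, _, h, _⟩
  exact absurd h (Nat.not_lt_zero _)

lemma deg_zero_ : deg (0 : ℕ →₀ ℕ) = 0 := by simp [deg]

theorem core {p : A} {b : ℕ} (hb : p ^ b = 0) {L : ℕ} (hL : (p ^ 2) ^ L = 0) (k : ℕ)
    (hk : 0 < k) (N : ℕ) (T : Finset (ℕ →₀ ℕ)) (hT : BoxT k T (N * b)) :
    lin (Wf p (2 * k)) ((Phi (p ^ 2) p (2 * k) L ^ N) (ket A 0)) =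
        chain p k T (Gam p k) N 0 ∧
      lin (Lbf p k) ((Phi (p ^ 2) p (2 * k) L ^ N) (ket A 0)) =
        chain p k T (bG p k 0) N 0 := by
  have hp : IsNilpotent p := ⟨b, hb⟩
  obtain ⟨AR, h1, h2, h3, _, h5, h6, h7⟩ := exists_AR hp hL k hk
  have hz0 : (0 : ℕ →₀ ℕ) k = 0 := rfl
  have hza : Antitone ((0 : ℕ →₀ ℕ) : ℕ → ℕ) := fun i j _ => by simp
  have hJ0 : AR 0 (ket A 0) = ket A 0 := by
    have := h1 0 hz0 hza
    rw [deg_zero_, Low_zero, Submodule.mem_bot, sub_eq_zero] at this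
    exact this
  have hbox : BoxT k T ((0 : ℕ →₀ ℕ) 0 + N * b) := by
    rw [Finsupp.zero_apply, zero_add]
    exact hT
  constructor
  · have := iterate hb hL k hk AR h1 h2 h3 h5 h6 (Gam p k) T N (lin (Wf p (2 * k)))
      (fun r hr v => W_reflect p (2 * k) r hr v) (fun R h0 ha => h7 R h0 ha) 0 hz0 hza hbox
    rw [hJ0] at this
    exact this
  · have := iterate hb hL k hk AR h1 h2 h3 h5 h6 (bG p k 0) T N (lin (Lbf p k))
      (fun r hr v => L_reflect (p ^ 2) p k r hr v) (fun R h0 ha => by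
        have h8 := h5 R 0 h0 hz0 ha hza
        rw [hJ0] at h8
        rw [h8]
        unfold bG
        apply prod_congr rfl
        intro i _
        congr 2
        omega) 0 hz0 hza hbox
    rw [hJ0] at this
    exact this

end MP4905

end

section

/-!
The Hall-Littlewood polynomials given by the branching rule satisfy the Pieri rule for
the elementary symmetric functions.
-/

open Finset

namespace MP4905

universe u

variable {A : Type u} [CommRing A]

/-- `E(x_1) ⋯ E(x_n) |0⟩` -/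
noncomputable def Pil (q : A) (m : ℕ) (xs : List A) : M A :=
  (xs.map (fun x => Ex q m x)).prod (ket A 0)

open Classical in
/-- coefficient of `|μ⟩` -/
noncomputable def cf (A : Type u) [CommRing A] (μ : ℕ →₀ ℕ) : M A →ₗ[A] A :=
  lin (fun ν => if ν = μ then 1 else 0)

lemma Pil_nil (q : A) (m : ℕ) : Pil q m [] = ket A 0 := by simp [Pil]

lemma Pil_cons (q : A) (m : ℕ) (x : A) (xs : List A) :
    Pil q m (x :: xs) = Ex q m x (Pil q m xs) := by
  simp [Pil]

lemma Pil_append (q : A) (m : ℕ) (xs ys : List A) :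
    Pil q m (xs ++ ys) = (xs.map (fun x => Ex q m x)).prod (Pil q m ys) := by
  simp [Pil]

lemma cf_ket (μ : ℕ →₀ ℕ) {ν : ℕ →₀ ℕ} (hν : Antitone (ν : ℕ → ℕ)) :
    cf A μ (ket A ν) = if ν = μ then 1 else 0 := by
  classical
  unfold cf
  rw [lin_ket_of_antitone _ hν]

lemma cf_of_not {μ : ℕ →₀ ℕ} (hμ : ¬ Antitone (μ : ℕ → ℕ)) (v : M A) : cf A μ v = 0 := by
  have : cf A μ = 0 := by
    apply map_ext
    intro ν hν
    rw [cf_ket μ hν, if_neg, LinearMap.zero_apply]
    rintro rfl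
    exact hμ hν
  rw [this, LinearMap.zero_apply]

lemma cf_mapM {A' : Type u} [CommRing A'] (f : A →+* A') (μ : ℕ →₀ ℕ) (v : M A) :
    f (cf A μ v) = cf A' μ (mapM f v) := by
  classical
  unfold cf
  rw [← lin_mapM]
  congr 2
  funext ν
  split_ifs <;> simp

lemma mapM_Pil {A' : Type u} [CommRing A'] (f : A →+* A') (q : A) (m : ℕ) (xs : List A) :
    mapM f (Pil q m xs) = Pil (f q) m (xs.map f) := by
  induction xs with
  | nil => rw [Pil_nil, List.map_nil, Pil_nil, mapM_ket]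
  | cons x xs ih => rw [Pil_cons, mapM_Ex, ih, List.map_cons, Pil_cons]

lemma Pil_mem_Mle (q : A) (m : ℕ) (xs : List A) : Pil q m xs ∈ Mle A m := by
  induction xs with
  | nil => rw [Pil_nil]; exact ket_mem_Mle rfl
  | cons x xs ih => rw [Pil_cons]; exact Ex_mem_Mle q m x ih

/-! ### stability -/

/-- kill all kets with more than `m` columns -/
noncomputable def prM (A : Type u) [CommRing A] (m : ℕ) : Module.End A (M A) :=
  Finsupp.linearCombination A (fun μ : Pt => if μ.1 m = 0 then ket A μ.1 else 0)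

lemma prM_ket (m : ℕ) {μ : ℕ →₀ ℕ} (hμ : Antitone (μ : ℕ → ℕ)) :
    prM A m (ket A μ) = if μ m = 0 then ket A μ else 0 := by
  have : ket A μ = Finsupp.single (⟨μ, hμ⟩ : Pt) 1 := ket_coe ⟨μ, hμ⟩
  rw [this, prM, Finsupp.linearCombination_single, one_smul]
  split_ifs
  · rw [← this]
  · rfl

lemma prM_ket' (m : ℕ) (μ : ℕ →₀ ℕ) :
    prM A m (ket A μ) = if μ m = 0 then ket A μ else 0 := by
  by_cases hμ : Antitone (μ : ℕ → ℕ)
  · exact prM_ket m hμ
  · rw [ket_of_not hμ, map_zero]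
    split_ifs <;> rfl

lemma prM_E (q : A) {m m' : ℕ} (h : m ≤ m') (r : ℕ) :
    prM A m * E q m' r = E q m r * prM A m := by
  apply map_ext
  intro μ hμ
  rw [Module.End.mul_apply, Module.End.mul_apply, prM_ket m hμ, E_ket q m' r hμ, map_sum]
  simp only [map_smul, prM_ket']
  by_cases h0 : μ m = 0
  · rw [if_pos h0, E_ket q m r hμ]
    symm
    have hsub : powersetCard r (range m) ⊆ powersetCard r (range m') :=
      powersetCard_mono (range_subset_range.mpr h)
    rw [← sum_subset hsub]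
    · apply sum_congr rfl
      intro s hs
      have hs' := (mem_powersetCard.mp hs).1
      have h1 : (μ + ind s : ℕ →₀ ℕ) m = 0 := by
        rw [Finsupp.add_apply, h0, ind_apply, if_neg, zero_add]
        intro hm
        exact absurd (mem_range.mp (hs' hm)) (lt_irrefl m)
      rw [if_pos h1]
      congr 1
      unfold wE
      apply prod_subset (range_subset_range.mpr h)
      intro i _ hi
      rw [if_neg]
      rintro ⟨_, h2⟩
      have := mem_range.mp (hs' h2)
      apply hi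
      rw [mem_range]
      omega
    · intro s hs hns
      by_cases h1 : (μ + ind s : ℕ →₀ ℕ) m = 0
      · rw [if_pos h1]
        by_cases ha : Antitone ((μ + ind s : ℕ →₀ ℕ) : ℕ → ℕ)
        · exfalso
          apply hns
          rw [mem_powersetCard] at hs ⊢
          refine ⟨?_, hs.2⟩
          intro i hi
          rw [mem_range]
          by_contra hc
          have h2 : (μ + ind s : ℕ →₀ ℕ) i = 0 := antitone_zero ha h1 (by omega)
          rw [Finsupp.add_apply, ind_apply, if_pos hi] at h2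
          omega
        · rw [ket_of_not ha, smul_zero]
      · rw [if_neg h1, smul_zero]
  · rw [if_neg h0, map_zero]
    apply sum_eq_zero
    intro s _
    rw [if_neg, smul_zero]
    rw [Finsupp.add_apply]
    omega

lemma prM_Ex (q : A) {m m' : ℕ} (h : m ≤ m') (x : A) :
    prM A m * Ex q m' x = Ex q m x * prM A m := by
  rw [Ex_eq q m x (show m + 1 ≤ m' + 1 by omega), Ex, mul_sum, sum_mul]
  apply sum_congr rfl
  intro r _
  rw [mul_smul_comm, smul_mul_assoc, prM_E q h r]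

lemma prM_Pil (q : A) {m m' : ℕ} (h : m ≤ m') (xs : List A) :
    prM A m (Pil q m' xs) = Pil q m xs := by
  induction xs with
  | nil =>
    rw [Pil_nil, Pil_nil, prM_ket', if_pos]
    rfl
  | cons x xs ih =>
    rw [Pil_cons, Pil_cons, ← Module.End.mul_apply, prM_Ex q h, Module.End.mul_apply, ih]

lemma cf_prM {m : ℕ} {μ : ℕ →₀ ℕ} (h0 : μ m = 0) (v : M A) : cf A μ (prM A m v) = cf A μ v := by
  have : (cf A μ).comp (prM A m) = cf A μ := by
    apply map_ext
    intro ν hν
    rw [LinearMap.comp_apply, prM_ket m hν]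
    split_ifs with h
    · rfl
    · rw [map_zero, cf_ket μ hν, if_neg]
      rintro rfl
      exact h h0
  exact LinearMap.congr_fun this v

lemma cf_Pil_stable (q : A) {m m' : ℕ} {μ : ℕ →₀ ℕ} (h0 : μ m = 0) (h : m ≤ m') (xs : List A) :
    cf A μ (Pil q m' xs) = cf A μ (Pil q m xs) := by
  rw [← prM_Pil q h xs, cf_prM h0]

/-! ### scaling -/

/-- the degree operator `|μ⟩ ↦ z^{|μ|} |μ⟩` -/
noncomputable def Zop (z : A) : Module.End A (M A) :=
  Finsupp.linearCombination A (fun μ : Pt => z ^ deg μ.1 • ket A μ.1)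

lemma Zop_ket (z : A) {μ : ℕ →₀ ℕ} (hμ : Antitone (μ : ℕ → ℕ)) :
    Zop z (ket A μ) = z ^ deg μ • ket A μ := by
  have : ket A μ = Finsupp.single (⟨μ, hμ⟩ : Pt) 1 := ket_coe ⟨μ, hμ⟩
  rw [this, Zop, Finsupp.linearCombination_single, one_smul, ← this]

lemma Zop_ket' (z : A) (μ : ℕ →₀ ℕ) :
    Zop z (ket A μ) = z ^ deg μ • ket A μ := by
  by_cases hμ : Antitone (μ : ℕ → ℕ)
  · exact Zop_ket z hμ
  · rw [ket_of_not hμ, map_zero, smul_zero]

lemma Zop_E (z q : A) (m r : ℕ) : Zop z * E q m r = z ^ r • (E q m r * Zop z) := by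
  apply map_ext
  intro μ hμ
  rw [Module.End.mul_apply, LinearMap.smul_apply, Module.End.mul_apply, Zop_ket z hμ, map_smul,
    E_ket q m r hμ, map_sum, smul_sum, smul_sum]
  apply sum_congr rfl
  intro s hs
  rw [map_smul, Zop_ket', deg_add, deg_ind, (mem_powersetCard.mp hs).2, pow_add, smul_smul,
    smul_smul, smul_smul]
  congr 1
  ring

lemma Zop_Ex (z q : A) (m : ℕ) (x : A) : Zop z * Ex q m x = Ex q m (z * x) * Zop z := by
  unfold Ex
  rw [mul_sum, sum_mul]
  apply sum_congr rfl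
  intro r _
  rw [mul_smul_comm, smul_mul_assoc, Zop_E, smul_smul, mul_pow]
  congr 1
  ring

lemma deg_zero' : deg (0 : ℕ →₀ ℕ) = 0 := by simp [deg]

lemma Zop_Pil (z q : A) (m : ℕ) (xs : List A) :
    Zop z (Pil q m xs) = Pil q m (xs.map (fun x => z * x)) := by
  induction xs with
  | nil => rw [Pil_nil, List.map_nil, Pil_nil, Zop_ket', deg_zero', pow_zero, one_smul]
  | cons x xs ih =>
    rw [Pil_cons, ← Module.End.mul_apply, Zop_Ex, Module.End.mul_apply, ih, List.map_cons,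
      Pil_cons]

lemma cf_Zop (z : A) (μ : ℕ →₀ ℕ) (v : M A) : cf A μ (Zop z v) = z ^ deg μ * cf A μ v := by
  have : (cf A μ).comp (Zop z) = z ^ deg μ • cf A μ := by
    apply map_ext
    intro ν hν
    rw [LinearMap.comp_apply, Zop_ket z hν, map_smul, LinearMap.smul_apply, cf_ket μ hν]
    split_ifs with h
    · rw [h]
    · rw [smul_zero, smul_zero]
  exact LinearMap.congr_fun this v

/-! ### the Pieri rule -/

lemma Bop_Pil {q : A} (hq : IsNilpotent q) (m : ℕ) (xs : List A) :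
    Bop q m (Pil q (m + 1) xs) = (xs.map (fun x => 1 + x)).prod • Pil q m xs := by
  induction xs with
  | nil => rw [Pil_nil, Pil_nil, Bop_ket_zero, List.map_nil, List.prod_nil, one_smul]
  | cons x xs ih =>
    rw [Pil_cons, ← Module.End.mul_apply, Bop_Ex hq, LinearMap.smul_apply, Module.End.mul_apply,
      ih, map_smul, smul_smul, Pil_cons, List.map_cons, List.prod_cons]

lemma cf_Bop (q : A) (m : ℕ) {μ : ℕ →₀ ℕ} (hm : μ.support ⊆ range m) {ν : ℕ →₀ ℕ}
    (hν : Antitone (ν : ℕ → ℕ)) : cf A μ (Bop q m (ket A ν)) = bw q m ν μ := by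
  classical
  unfold cf
  rw [lin_Bop, lin_ket_of_antitone _ hν, Bh]
  simp only [mul_ite, mul_one, mul_zero]
  rw [sum_ite_eq']
  split_ifs with h
  · rfl
  · by_contra hne
    apply h
    rw [mem_Box]
    refine ⟨hm, fun i hi => ?_⟩
    have h1 := bw_ne_zero (fun h => hne h.symm) hi
    have h2 : ν i ≤ ν 0 := hν (Nat.zero_le i)
    omega

/-- the Pieri sum as a functional -/
noncomputable def Lam (q : A) (m r : ℕ) (μ : ℕ →₀ ℕ) : M A →ₗ[A] A :=
  ∑ c ∈ finsuppAntidiag (range (m + 1)) r, pw q m (μ + c) μ • cf A (μ + c)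

lemma pw_eq_bw (q : A) (m : ℕ) (κ μ : ℕ →₀ ℕ) : pw q m κ μ = bw q m κ μ := rfl

lemma support_subset_of_zero {μ : ℕ →₀ ℕ} (hμ : Antitone (μ : ℕ → ℕ)) {m : ℕ} (h : μ m = 0) :
    μ.support ⊆ range m := by
  intro i hi
  rw [mem_range]
  by_contra hc
  exact Finsupp.mem_support_iff.mp hi (antitone_zero hμ h (by omega))

lemma Lam_ket (q : A) (m r : ℕ) {μ : ℕ →₀ ℕ} (hμ : Antitone (μ : ℕ → ℕ)) (hm : μ m = 0)
    {ν : ℕ →₀ ℕ} (hν : Antitone (ν : ℕ → ℕ)) (hν0 : ν (m + 1) = 0) :
    Lam q m r μ (ket A ν) = if deg ν = deg μ + r then bw q m ν μ else 0 := by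
  classical
  unfold Lam
  rw [LinearMap.sum_apply]
  simp only [LinearMap.smul_apply, cf_ket _ hν, smul_eq_mul, mul_ite, mul_one, mul_zero]
  rw [← sum_filter]
  split_ifs with hd
  · by_cases hb : bw q m ν μ = 0
    · rw [hb]
      apply sum_eq_zero
      intro c hc
      rw [← (mem_filter.mp hc).2, pw_eq_bw, hb]
    · -- `μ ≤ ν`
      have hle : μ ≤ ν := by
        intro i
        by_cases hi : i < m
        · exact (bw_ne_zero hb hi).2
        · rw [antitone_zero hμ hm (by omega)]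
          exact Nat.zero_le _
      have hadd : μ + (ν - μ) = ν := by
        rw [add_comm]; exact tsub_add_cancel_of_le hle
      have hmem : ν - μ ∈ finsuppAntidiag (range (m + 1)) r := by
        have hsupp : (ν - μ).support ⊆ range (m + 1) := by
          intro i hi
          rw [mem_range]
          by_contra hc
          apply Finsupp.mem_support_iff.mp hi
          rw [Finsupp.tsub_apply, antitone_zero hν hν0 (show m + 1 ≤ i by omega)]
          simp
        rw [mem_finsuppAntidiag]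
        refine ⟨?_, hsupp⟩
        rw [sum_range_of_support hsupp]
        have : deg μ + deg (ν - μ) = deg ν := by rw [← deg_add, hadd]
        omega
      have hfil : (finsuppAntidiag (range (m + 1)) r).filter (fun c => ν = μ + c) = {ν - μ} := by
        ext c
        rw [mem_filter, mem_singleton]
        constructor
        · rintro ⟨_, h⟩
          rw [h, add_tsub_cancel_left]
        · rintro rfl
          exact ⟨hmem, hadd.symm⟩
      rw [hfil, sum_singleton, hadd, pw_eq_bw]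
  · apply sum_eq_zero
    intro c hc
    exfalso
    obtain ⟨h1, h2⟩ := mem_filter.mp hc
    apply hd
    rw [h2, deg_add]
    congr 1
    rw [mem_finsuppAntidiag] at h1
    rw [← sum_range_of_support h1.2, h1.1]

lemma map_pw' {A' : Type u} [CommRing A'] (f : A →+* A') (q : A) (m : ℕ) (κ μ : ℕ →₀ ℕ) :
    f (pw q m κ μ) = pw (f q) m κ μ := by
  unfold pw bb'
  rw [map_prod]
  apply prod_congr rfl
  intro i _
  split_ifs
  · rw [map_gb]
  · rw [map_zero]

open Polynomial in
/-- extraction of the homogeneous parts -/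
lemma coeff_Bop (q : A) (m r : ℕ) {μ : ℕ →₀ ℕ} (hμ : Antitone (μ : ℕ → ℕ)) (hm : μ m = 0)
    {v : M A} (hv : v ∈ Mle A (m + 1)) :
    (cf A[X] μ (Bop (C q) m (Zop (X : A[X]) (mapM C v)))).coeff (deg μ + r) =
      Lam q m r μ v := by
  refine Mle_induction (P := fun v => (cf A[X] μ (Bop (C q) m (Zop (X : A[X])
    (mapM C v)))).coeff (deg μ + r) = Lam q m r μ v) ?_ ?_ ?_ ?_ hv
  · simp
  · intro v w h1 h2
    simp only [map_add, Polynomial.coeff_add, h1, h2]
  · intro a v h
    rw [mapM_smul, map_smul, map_smul, map_smul, map_smul, smul_eq_mul, Polynomial.coeff_C_mul,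
      h, smul_eq_mul]
  · intro ν hν hν0
    rw [mapM_ket, Zop_ket _ hν, map_smul, map_smul,
      cf_Bop _ _ (support_subset_of_zero hμ hm) hν, Lam_ket q m r hμ hm hν hν0, smul_eq_mul]
    have h1 : bw (C q) m ν μ = C (bw q m ν μ) := by
      rw [← pw_eq_bw, ← pw_eq_bw, map_pw']
    rw [h1, mul_comm, Polynomial.coeff_C_mul, Polynomial.coeff_X_pow]
    split_ifs with h2 h3 h3
    · rw [mul_one]
    · exact absurd h2.symm h3
    · exact absurd h3.symm h2
    · rw [mul_zero]

open Polynomial in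
lemma coeff_prod_esy {n : ℕ} (x : Fin n → A) (r : ℕ) :
    (∏ i : Fin n, (1 + (X : A[X]) * C (x i))).coeff r = esy x r := by
  classical
  rw [Finset.prod_one_add, Polynomial.finsetSum_coeff]
  unfold esy
  have h1 : ∀ t : Finset (Fin n), (∏ i ∈ t, ((X : A[X]) * C (x i))).coeff r =
      if t.card = r then ∏ i ∈ t, x i else 0 := by
    intro t
    rw [prod_mul_distrib, prod_const, ← map_prod, mul_comm, Polynomial.coeff_C_mul,
      Polynomial.coeff_X_pow]
    split_ifs with h2 h3 h3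
    · rw [mul_one]
    · exact absurd h2.symm h3
    · exact absurd h3.symm h2
    · rw [mul_zero]
  simp only [h1]
  rw [← sum_filter]
  apply sum_congr _ (fun _ _ => rfl)
  ext t
  rw [mem_filter, mem_powerset, mem_powersetCard]

/-- branching polynomials: coefficient of `|μ⟩` in `E(x_1) ⋯ E(x_n)|0⟩` -/
noncomputable def Ptab (q : A) {n : ℕ} (x : Fin n → A) (μ : ℕ →₀ ℕ) : A :=
  cf A μ (Pil q μ.support.card (List.ofFn x))

lemma zero_at_card {μ : ℕ →₀ ℕ} (hμ : Antitone (μ : ℕ → ℕ)) : μ μ.support.card = 0 := by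
  by_contra h
  have hsub : range (μ.support.card + 1) ⊆ μ.support := by
    intro i hi
    rw [Finsupp.mem_support_iff]
    intro h0
    exact h (antitone_zero hμ h0 (by have := mem_range.mp hi; omega))
  have := card_le_card hsub
  rw [card_range] at this
  omega

lemma card_le_of_zero {μ : ℕ →₀ ℕ} (hμ : Antitone (μ : ℕ → ℕ)) {m : ℕ} (h : μ m = 0) :
    μ.support.card ≤ m := by
  have := card_le_card (support_subset_of_zero hμ h)
  rwa [card_range] at this

lemma Ptab_eq (q : A) {n : ℕ} (x : Fin n → A) {μ : ℕ →₀ ℕ} {m : ℕ} (h : μ m = 0) :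
    Ptab q x μ = cf A μ (Pil q m (List.ofFn x)) := by
  by_cases hμ : Antitone (μ : ℕ → ℕ)
  · rw [Ptab, cf_Pil_stable q (zero_at_card hμ) (card_le_of_zero hμ h)]
  · rw [Ptab, cf_of_not hμ, cf_of_not hμ]

open Polynomial in
lemma cf_Bop_Pil {q : A} (hq : IsNilpotent q) {n : ℕ} (x : Fin n → A) (m : ℕ) {μ : ℕ →₀ ℕ} (hm : μ m = 0) : cf A[X] μ (Bop (C q) m (Zop (X : A[X]) (mapM C (Pil q (m + 1) (List.ofFn x))))) =
      (∏ i : Fin n, (1 + (X : A[X]) * C (x i))) * (X ^ deg μ * C (Ptab q x μ)) := by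
    rw [mapM_Pil, Zop_Pil, Bop_Pil (hq.map C), map_smul, smul_eq_mul]
    congr 1
    · rw [List.map_map, List.map_map, List.map_ofFn, List.prod_ofFn]
      rfl
    · rw [← Zop_Pil, cf_Zop, ← mapM_Pil, ← cf_mapM, Ptab_eq q x hm]

open Polynomial in
lemma coeff_shift (c e : A) (n r : ℕ) (F : A[X]) (hF : F.coeff r = e) :
   (F * (X ^ n * C c)).coeff (n + r) = e * c := by
  have h3 : F * (X ^ n * C c) = C c * (F * X ^ n) := by ring
  rw [h3, Polynomial.coeff_C_mul, add_comm n r, Polynomial.coeff_mul_X_pow, hF, mul_comm]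

lemma Ptab_pieri_aux {q : A} (hq : IsNilpotent q) {n : ℕ} (x : Fin n → A) (m r : ℕ) {μ : ℕ →₀ ℕ} (hμ : Antitone (μ : ℕ → ℕ)) (hm : μ m = 0) :
   esy x r * Ptab q x μ = Lam q m r μ (Pil q (m + 1) (List.ofFn x)) := by
  have h2 := coeff_Bop q m r hμ hm (Pil_mem_Mle q (m + 1) (List.ofFn x))
  rw [cf_Bop_Pil hq x m hm, coeff_shift _ _ _ _ _ (coeff_prod_esy x r)] at h2
  exact h2

theorem Ptab_pieri {q : A} (hq : IsNilpotent q) {n : ℕ} (x : Fin n → A) :
    IsPieri q (esy x) (Ptab q x) := by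
  intro m r μ hμ hm
  have h4 := Ptab_pieri_aux hq x m r hμ hm
  rw [Lam, LinearMap.sum_apply] at h4
  refine h4.trans ?_
  refine sum_congr rfl fun c hc => ?_
  have h0 : (μ + c : ℕ →₀ ℕ) (m + 1) = 0 := by
    rw [Finsupp.add_apply, antitone_zero hμ hm (by omega), zero_add]
    rw [mem_finsuppAntidiag] at hc
    by_contra h
    have := mem_range.mp (hc.2 (Finsupp.mem_support_iff.mpr h))
    omega
  rw [Ptab_eq q x h0, LinearMap.smul_apply, smul_eq_mul]
lemma Ptab_zero (q : A) {n : ℕ} (x : Fin n → A) : Ptab q x 0 = 1 := by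
  have h : ∀ xs : List A, Pil q 0 xs = ket A 0 := by
    intro xs
    induction xs with
    | nil => exact Pil_nil q 0
    | cons x xs ih =>
      rw [Pil_cons, ih]
      unfold Ex
      simp [E_zero]
  rw [Ptab_eq q x (m := 0) rfl, h, cf_ket 0 (by intro i j _; simp), if_pos rfl]

end MP4905

end

section

/-!
Unrolling the chain sums.
-/

open Finset

namespace MP4905

universe u

variable {A : Type u} [CommRing A]

theorem chain_unroll (p : A) (k : ℕ) (T : Finset (ℕ →₀ ℕ)) (ψ : (ℕ →₀ ℕ) → A) (N : ℕ)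
    (R : ℕ →₀ ℕ) :
    chain p k T ψ N R = ∑ Rs ∈ Fintype.piFinset (fun _ : Fin N => T),
      (∏ a : Fin N, (qinf (p ^ 2) (-(p ^ 2)) *
        bG p k ((Fin.snoc Rs R : Fin (N + 1) → (ℕ →₀ ℕ)) a.succ) (Rs a) *
        Ring.inverse (dD (p ^ 2) k (Rs a)))) *
        ψ ((Fin.snoc Rs R : Fin (N + 1) → (ℕ →₀ ℕ)) 0) := by
  induction N generalizing R with
  | zero =>
    rw [chain]
    simp only [Finset.univ_eq_empty, Finset.prod_empty, one_mul]
    rw [Fintype.piFinset_of_isEmpty]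
    simp
    rfl
  | succ N ih =>
    rw [chain]
    have h1 : ∀ R' ∈ T, qinf (p ^ 2) (-(p ^ 2)) * bG p k R R' *
        Ring.inverse (dD (p ^ 2) k R') * chain p k T ψ N R' =
        ∑ Rs ∈ Fintype.piFinset (fun _ : Fin N => T),
        qinf (p ^ 2) (-(p ^ 2)) * bG p k R R' * Ring.inverse (dD (p ^ 2) k R') *
        ((∏ a : Fin N, (qinf (p ^ 2) (-(p ^ 2)) *
        bG p k ((Fin.snoc Rs R' : Fin (N + 1) → (ℕ →₀ ℕ)) a.succ) (Rs a) *
        Ring.inverse (dD (p ^ 2) k (Rs a)))) *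
        ψ ((Fin.snoc Rs R' : Fin (N + 1) → (ℕ →₀ ℕ)) 0)) := by
      intro R' _
      rw [ih, Finset.mul_sum]
    rw [Finset.sum_congr rfl h1, ← Finset.sum_product']
    refine Finset.sum_nbij' (fun x => (Fin.snoc x.2 x.1 : Fin (N + 1) → (ℕ →₀ ℕ)))
      (fun Rs => (Rs (Fin.last N), Fin.init Rs)) ?_ ?_ ?_ ?_ ?_
    · rintro ⟨x, Rs⟩ h
      rw [Finset.mem_product] at h
      rw [Fintype.mem_piFinset]
      intro a
      refine Fin.lastCases ?_ ?_ a
      · rw [Fin.snoc_last]; exact h.1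
      · intro b; rw [Fin.snoc_castSucc]; exact Fintype.mem_piFinset.mp h.2 b
    · intro Rs h
      rw [Fintype.mem_piFinset] at h
      rw [Finset.mem_product, Fintype.mem_piFinset]
      exact ⟨h _, fun a => h _⟩
    · rintro ⟨x, Rs⟩ h
      simp only [Fin.snoc_last, Fin.init_snoc]
    · intro Rs h
      simp only [Fin.snoc_init_self]
    · rintro ⟨x, Rs⟩ h
      dsimp only
      rw [Fin.prod_univ_castSucc]
      simp only [Fin.snoc_castSucc, Fin.snoc_last, Fin.succ_castSucc, Fin.succ_last,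
        ← Fin.castSucc_zero (n := N + 1)]
      ring

theorem Rof_apply {k : ℕ} (r : Fin k → ℕ) (i : ℕ) :
    Rof r i = ∑ j : Fin k, if i ≤ (j : ℕ) then r j else 0 := by
  unfold Rof
  rw [Finsupp.finsetSum_apply]
  refine Finset.sum_congr rfl fun j _ => ?_
  rw [Finsupp.smul_apply, ind_apply]
  simp only [Finset.mem_range, Nat.lt_succ_iff, smul_eq_mul, mul_ite, mul_one, mul_zero]

lemma Rof_sub {k : ℕ} (r : Fin k → ℕ) (i : Fin k) :
    Rof r i = r i + Rof r (i + 1) := by
  rw [Rof_apply, Rof_apply]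
  have : ∀ j : Fin k, (if (i : ℕ) ≤ (j : ℕ) then r j else 0) =
      (if i = j then r j else 0) + (if (i : ℕ) + 1 ≤ (j : ℕ) then r j else 0) := by
    intro j
    rcases eq_or_ne i j with h | h
    · subst h
      rw [if_pos le_rfl, if_pos rfl, if_neg (by omega), add_zero]
    · have h' : (i : ℕ) ≠ j := fun e => h (Fin.ext e)
      rw [if_neg h, zero_add]
      split_ifs <;> omega
  rw [Finset.sum_congr rfl fun j _ => this j, Finset.sum_add_distrib, Finset.sum_ite_eq,
    if_pos (Finset.mem_univ _)]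

lemma Rof_ge {k : ℕ} (r : Fin k → ℕ) {i : ℕ} (hi : k ≤ i) : Rof r i = 0 := by
  rw [Rof_apply]
  refine Finset.sum_eq_zero fun j _ => ?_
  have := j.2
  rw [if_neg (by omega)]

lemma Rof_antitone {k : ℕ} (r : Fin k → ℕ) : Antitone (Rof r : ℕ → ℕ) := by
  intro a b hab
  rw [Rof_apply, Rof_apply]
  refine Finset.sum_le_sum fun j _ => ?_
  split_ifs <;> omega

lemma Rof_injective (k : ℕ) : Function.Injective (Rof : (Fin k → ℕ) → (ℕ →₀ ℕ)) := by
  intro r s h
  funext i
  have h1 := Rof_sub r i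
  have h2 := Rof_sub s i
  rw [h] at h1
  omega

lemma Rof_bigR {N k : ℕ} (r : Fin N → Fin k → ℕ) (a : Fin N) (i : Fin k) :
    Rof (r a) i = St.bigR r a i := by
  rw [Rof_apply, St.bigR, ← Finset.sum_filter]
  refine Finset.sum_congr ?_ fun _ _ => rfl
  ext j
  rw [Finset.mem_filter, Finset.mem_Ici, Fin.le_def]
  exact ⟨fun h => h.2, fun h => ⟨Finset.mem_univ _, h⟩⟩

lemma Rof_of_good {k : ℕ} {R : ℕ →₀ ℕ} (h0 : R k = 0) (ha : Antitone (R : ℕ → ℕ)) :
    Rof (fun j : Fin k => R j - R (j + 1)) = R := by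
  have key : ∀ m, ∀ i, i + m = k → Rof (fun j : Fin k => R j - R (j + 1)) i = R i := by
    intro m
    induction m with
    | zero =>
      intro i hi
      have : i = k := by omega
      subst this
      rw [Rof_ge _ le_rfl, h0]
    | succ m ih =>
      intro i hi
      have hik : i < k := by omega
      have h1 := Rof_sub (fun j : Fin k => R j - R (j + 1)) ⟨i, hik⟩
      simp only at h1
      rw [h1, ih (i + 1) (by omega)]
      have : R (i + 1) ≤ R i := ha (Nat.le_succ i)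
      omega
  ext i
  by_cases hi : i ≤ k
  · exact key (k - i) i (by omega)
  · have h1 : R i ≤ R k := ha (by omega)
    rw [Rof_ge _ (by omega)]
    omega

theorem BoxT_image (k B : ℕ) (hk : 0 < k) :
    BoxT k ((Fintype.piFinset (fun _ : Fin k => range (B + 1))).image Rof) B := by
  constructor
  · intro R' h
    rw [Finset.mem_image] at h
    obtain ⟨r, _, rfl⟩ := h
    exact ⟨Rof_ge r le_rfl, Rof_antitone r⟩
  · intro R' h0 ha hB
    rw [Finset.mem_image]
    refine ⟨fun j : Fin k => R' j - R' (j + 1), ?_, Rof_of_good h0 ha⟩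
    rw [Fintype.mem_piFinset]
    intro j
    rw [Finset.mem_range]
    have : R' j ≤ R' 0 := ha (Nat.zero_le _)
    omega

lemma sum_image_pi {k : ℕ} (N B : ℕ) (G : (Fin N → (ℕ →₀ ℕ)) → A) :
    ∑ Rs ∈ Fintype.piFinset (fun _ : Fin N =>
      (Fintype.piFinset (fun _ : Fin k => range (B + 1))).image Rof), G Rs =
    ∑ r ∈ Fintype.piFinset (fun _ : Fin N => Fintype.piFinset (fun _ : Fin k => range (B + 1))),
      G (fun a => Rof (r a)) := by
  rw [Fintype.piFinset_image, Finset.sum_image]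
  intro r _ s _ h
  funext a
  exact Rof_injective k (congrFun h a)

/-- the sequence `R^{(1)}, …, R^{(N)}, 0` -/
noncomputable def Sn {N k : ℕ} (r : Fin N → Fin k → ℕ) : Fin (N + 1) → (ℕ →₀ ℕ) :=
  Fin.snoc (fun a => Rof (r a)) 0

lemma Sn_Yv {N k : ℕ} (r : Fin N → Fin k → ℕ) (a : Fin (N + 1)) (i : Fin k) :
    ((Sn r a i : ℕ) : ℤ) = Yv r i a := by
  refine Fin.lastCases ?_ ?_ a
  · unfold Sn
    rw [Yv_last, Fin.snoc_last]
    rfl
  · intro b
    unfold Sn
    rw [Yv_castSucc, Fin.snoc_castSucc, Rof_bigR]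

lemma prod_bG {N k : ℕ} (p : A) (r : Fin N → Fin k → ℕ) :
    ∏ a : Fin N, bG p k (Sn r a.succ) (Sn r a.castSucc) =
      p ^ (∑ i : Fin k, ∑ a : Fin N, ((Yv r i a.succ - Yv r i a.castSucc) ^ 2).toNat) := by
  unfold bG
  rw [Finset.prod_comm, ← Finset.prod_pow_eq_pow_sum, Finset.prod_range]
  refine Finset.prod_congr rfl fun i _ => ?_
  rw [← Finset.prod_pow_eq_pow_sum]
  refine Finset.prod_congr rfl fun a _ => ?_
  rw [Sn_Yv, Sn_Yv]
  congr 1
  zify
  rw [sq_abs, Int.toNat_of_nonneg (sq_nonneg _)]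

lemma bG_zero {N k : ℕ} (p : A) (r : Fin N → Fin k → ℕ) :
    bG p k 0 (Sn r 0) = p ^ (∑ i : Fin k, (Yv r i 0 ^ 2).toNat) := by
  unfold bG
  rw [← Finset.prod_pow_eq_pow_sum, Finset.prod_range]
  refine Finset.prod_congr rfl fun i _ => ?_
  rw [Sn_Yv]
  congr 1
  zify
  rw [sq_abs, Int.toNat_of_nonneg (sq_nonneg _)]
  simp

theorem chain_F (p : A) (k B : ℕ) (hk : 0 < k) (N : ℕ) :
    chain p k ((Fintype.piFinset (fun _ : Fin k => range (B + 1))).image Rof) (bG p k 0) N 0 =
      qinf (p ^ 2) (-(p ^ 2)) ^ N *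
      ∑ r ∈ Fintype.piFinset (fun _ : Fin N => Fintype.piFinset (fun _ : Fin k => range (B + 1))),
        p ^ (St.twoQ r).toNat * ∏ a : Fin N, Ring.inverse (dD (p ^ 2) k (Rof (r a))) := by
  rw [chain_unroll, sum_image_pi, Finset.mul_sum]
  refine Finset.sum_congr rfl fun r _ => ?_
  have h1 := prod_bG p r
  have h2 := bG_zero p r
  have h3 : (St.twoQ r).toNat = (∑ i : Fin k, (Yv r i 0 ^ 2).toNat) +
      ∑ i : Fin k, ∑ a : Fin N, ((Yv r i a.succ - Yv r i a.castSucc) ^ 2).toNat := by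
    rw [twoQ_eq, ← Finset.sum_add_distrib]
    zify
    rw [Int.toNat_of_nonneg]
    · refine Finset.sum_congr rfl fun i _ => ?_
      rw [Int.toNat_of_nonneg (sq_nonneg _)]
      congr 1
      refine Finset.sum_congr rfl fun a _ => ?_
      rw [Int.toNat_of_nonneg (sq_nonneg _)]
    · exact Finset.sum_nonneg fun i _ => add_nonneg (sq_nonneg _)
        (Finset.sum_nonneg fun a _ => sq_nonneg _)
  rw [h3, pow_add p, ← h1, ← h2, Finset.prod_mul_distrib, Finset.prod_mul_distrib,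
    Finset.prod_const, Finset.card_univ, Fintype.card_fin]
  have h4 : ∏ a : Fin N, bG p k (Sn r a.succ) (Sn r a.castSucc) =
      ∏ a : Fin N, bG p k ((Fin.snoc (fun a => Rof (r a)) 0 : Fin (N + 1) → (ℕ →₀ ℕ)) a.succ)
        (Rof (r a)) := by
    refine Finset.prod_congr rfl fun a _ => ?_
    unfold Sn
    rw [Fin.snoc_castSucc]
  rw [h4]
  unfold Sn
  ring

theorem chain_G (p : A) (k B N : ℕ) :
    chain p (k + 1) ((Fintype.piFinset (fun _ : Fin (k + 1) => range (B + 1))).image Rof)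
      (Gam p (k + 1)) (N + 1) 0 =
      qinf (p ^ 2) (-(p ^ 2)) ^ (N + 1) *
      ∑ r ∈ Fintype.piFinset (fun _ : Fin (N + 1) =>
          Fintype.piFinset (fun _ : Fin (k + 1) => range (B + 1))),
        p ^ (St.twoQ r - (St.R11 r : ℤ) ^ 2).toNat *
          (∏ j ∈ range (St.R11 r), (1 + p * (p ^ 2) ^ j)) *
          ∏ a : Fin (N + 1), Ring.inverse (dD (p ^ 2) (k + 1) (Rof (r a))) := by
  rw [chain_unroll, sum_image_pi, Finset.mul_sum]
  refine Finset.sum_congr rfl fun r _ => ?_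
  have h1 := prod_bG p r
  have hR : St.R11 r = Sn r 0 0 := by
    have := Sn_Yv r 0 0
    have h2 := Yv_castSucc r 0 0
    rw [Fin.castSucc_zero] at h2
    rw [h2] at this
    unfold St.R11
    exact_mod_cast this.symm
  have h2 : Gam p (k + 1) (Sn r 0) = (∏ j ∈ range (St.R11 r), (1 + p * (p ^ 2) ^ j)) *
      p ^ (∑ i : Fin k, (Yv r i.succ 0 ^ 2).toNat) := by
    unfold Gam
    rw [hR, Nat.add_sub_cancel, ← Finset.prod_pow_eq_pow_sum]
    congr 1
    rw [Finset.prod_range]
    refine Finset.prod_congr rfl fun i _ => ?_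
    rw [← Sn_Yv]
    congr 1
  have h3 : (St.twoQ r - (St.R11 r : ℤ) ^ 2).toNat =
      (∑ i : Fin k, (Yv r i.succ 0 ^ 2).toNat) +
      ∑ i : Fin (k + 1), ∑ a : Fin (N + 1),
        ((Yv r i a.succ - Yv r i a.castSucc) ^ 2).toNat := by
    have e0 : (St.R11 r : ℤ) = Yv r 0 0 := by
      rw [hR]
      exact Sn_Yv r 0 0
    rw [twoQ_eq, Finset.sum_add_distrib, Fin.sum_univ_succ (fun i => Yv r i 0 ^ 2), e0]
    have e1 : Yv r 0 0 ^ 2 + ∑ i : Fin k, Yv r i.succ 0 ^ 2 +
        ∑ x : Fin (k + 1), ∑ a : Fin (N + 1), (Yv r x a.succ - Yv r x a.castSucc) ^ 2 -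
        Yv r 0 0 ^ 2 = ∑ i : Fin k, Yv r i.succ 0 ^ 2 +
        ∑ x : Fin (k + 1), ∑ a : Fin (N + 1), (Yv r x a.succ - Yv r x a.castSucc) ^ 2 := by ring
    rw [e1]
    zify
    rw [Int.toNat_of_nonneg]
    · have a1 : ∀ i : Fin k, ((Yv r i.succ 0 ^ 2).toNat : ℤ) = Yv r i.succ 0 ^ 2 :=
        fun i => Int.toNat_of_nonneg (sq_nonneg _)
      have a2 : ∀ (i : Fin (k + 1)) (a : Fin (N + 1)),
          (((Yv r i a.succ - Yv r i a.castSucc) ^ 2).toNat : ℤ) =
            (Yv r i a.succ - Yv r i a.castSucc) ^ 2 :=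
        fun i a => Int.toNat_of_nonneg (sq_nonneg _)
      simp only [a1, a2]
    · exact add_nonneg (Finset.sum_nonneg fun i _ => sq_nonneg _)
        (Finset.sum_nonneg fun i _ => Finset.sum_nonneg fun a _ => sq_nonneg _)
  rw [h3, pow_add p, ← h1, Finset.prod_mul_distrib, Finset.prod_mul_distrib,
    Finset.prod_const, Finset.card_univ, Fintype.card_fin]
  have h4 : ∏ a : Fin (N + 1), bG p (k + 1) (Sn r a.succ) (Sn r a.castSucc) =
      ∏ a : Fin (N + 1), bG p (k + 1)
        ((Fin.snoc (fun a => Rof (r a)) 0 : Fin (N + 2) → (ℕ →₀ ℕ)) a.succ)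
        (Rof (r a)) := by
    refine Finset.prod_congr rfl fun a _ => ?_
    unfold Sn
    rw [Fin.snoc_castSucc]
  rw [h4]
  have h5 : Gam p (k + 1) ((Fin.snoc (fun a => Rof (r a)) 0 : Fin (N + 2) → (ℕ →₀ ℕ)) 0) =
      Gam p (k + 1) (Sn r 0) := rfl
  rw [h5, h2]
  ring

lemma map_poch (f : PowerSeries ℚ →+* A) (a : PowerSeries ℚ) (n : ℕ) :
    f (St.poch a a n) = qf (f a) n := by
  unfold St.poch qf
  rw [map_prod]
  refine Finset.prod_congr rfl fun j _ => ?_
  rw [map_sub, map_one, map_mul, map_pow, pow_succ']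

theorem map_Dr (f : PowerSeries ℚ →+* A) {N k : ℕ} (hk : 0 < k) (r : Fin N → Fin k → ℕ) :
    f (St.Dr r) = ∏ a : Fin N, dD ((f PowerSeries.X) ^ 2) k (Rof (r a)) := by
  unfold St.Dr
  rw [map_prod]
  refine Finset.prod_congr rfl fun a _ => ?_
  obtain ⟨m, rfl⟩ : ∃ m, k = m + 1 := ⟨k - 1, by omega⟩
  rw [map_prod, Fin.prod_univ_castSucc]
  unfold dD
  rw [Nat.add_sub_cancel, Finset.prod_range]
  congr 1
  · refine Finset.prod_congr rfl fun i _ => ?_
    have hi := i.2
    rw [if_neg (by rw [Fin.val_castSucc]; omega), map_poch, map_pow]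
    have := Rof_sub (r a) i.castSucc
    rw [Fin.val_castSucc] at this
    congr 1
    omega
  · rw [if_pos (by rw [Fin.val_last]), map_poch, map_pow]
    have := Rof_sub (r a) (Fin.last m)
    rw [Fin.val_last, Rof_ge _ le_rfl, add_zero] at this
    rw [this, ← pow_mul]

end MP4905

end
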