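import Pool.Agent.Work.MP_4905b1_co.Bd.B03
import Pool.Agent.Work.MP_4905b1_co.Bd.B04
import Pool.Agent.Work.MP_4905b1_co.Bd.B01

/-! Bundle of small proof modules (one section per former module). -/

section

/-!
The normalised alternating sums satisfy the Pieri rule.
-/

open Finset

namespace MP4905

universe u

variable {A : Type u} [CommRing A]

/-- `v_λ(t)` in terms of the columns -/
def vcol (t : A) (n : ℕ) (μ : ℕ →₀ ℕ) : A :=
  St.tfac t (n - μ 0) * ∏ i ∈ μ.support, St.tfac t (μ i - μ (i + 1))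

lemma vcol_eq (t : A) (n : ℕ) {μ : ℕ →₀ ℕ} {m : ℕ} (h : ∀ i, m ≤ i → μ i = 0) :
    vcol t n μ = St.tfac t (n - μ 0) * ∏ i ∈ range m, St.tfac t (μ i - μ (i + 1)) := by
  unfold vcol
  congr 1
  apply prod_subset
  · intro i hi
    rw [mem_range]
    by_contra hc
    exact Finsupp.mem_support_iff.mp hi (h i (by omega))
  · intro i _ hi
    rw [Finsupp.notMem_support_iff.mp hi, Nat.zero_sub, tfac_zero]

lemma isUnit_vcol {t : A} (ht : ∀ k, IsUnit (St.tfac t k)) (n : ℕ) (μ : ℕ →₀ ℕ) :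
    IsUnit (vcol t n μ) := by
  unfold vcol
  refine (ht _).mul ?_
  rw [IsUnit.prod_iff]
  intro i _
  exact ht _

lemma gb_tfac' (t : A) {n k : ℕ} (h : k ≤ n) :
    gb t n k * (St.tfac t k * St.tfac t (n - k)) = St.tfac t n := by
  have := gb_tfac t (n - k) k
  rwa [Nat.sub_add_cancel h] at this

/-- the numerical identity behind the comparison of the two Pieri rules -/
lemma vcol_identity {t : A} {n m : ℕ} {μ c : ℕ →₀ ℕ}
    (hμ : Antitone (μ : ℕ → ℕ)) (hm : μ m = 0) (hc : c.support ⊆ range (m + 1))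
    (h0 : μ 0 + c 0 ≤ n) (hv : ∀ i < m, c (i + 1) ≤ μ i - μ (i + 1)) :
    vcol t n (μ + c) * (gb t (n - μ 0) (c 0) *
        ∏ i ∈ range m, gb t (μ i - μ (i + 1)) (c (i + 1))) =
      vcol t n μ * pw t m (μ + c) μ := by
  have hc0 : ∀ i, m + 1 ≤ i → c i = 0 := by
    intro i hi
    by_contra h
    have := mem_range.mp (hc (Finsupp.mem_support_iff.mpr h))
    omega
  have hμ0 : ∀ i, m ≤ i → μ i = 0 := fun i hi => antitone_zero hμ hm hi
  have hdec : ∀ i, μ (i + 1) ≤ μ i := fun i => hμ (Nat.le_succ i)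
  rw [vcol_eq t n (μ := μ + c) (m := m + 1) (fun i hi => by
    rw [Finsupp.add_apply, hc0 i hi, hμ0 i (by omega)]), vcol_eq t n (μ := μ) (m := m) hμ0]
  have hpw : pw t m (μ + c) μ =
      ∏ i ∈ range m, gb t ((μ i - μ (i + 1) - c (i + 1)) + c i) (c i) := by
    unfold pw bb'
    apply prod_congr rfl
    intro i hi
    have h1 := hv i (mem_range.mp hi)
    have h2 := hdec i
    rw [if_pos]
    · congr 1
      · simp only [Finsupp.add_apply]; omega
      · simp only [Finsupp.add_apply]; omega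
    · simp only [Finsupp.add_apply]; omega
  rw [hpw, prod_range_succ]
  have h1 : ∀ i < m, St.tfac t ((μ + c : ℕ →₀ ℕ) i - (μ + c : ℕ →₀ ℕ) (i + 1)) =
      gb t ((μ i - μ (i + 1) - c (i + 1)) + c i) (c i) *
        (St.tfac t (c i) * St.tfac t (μ i - μ (i + 1) - c (i + 1))) := by
    intro i hi
    rw [gb_tfac]
    congr 1
    have h1 := hv i hi
    have h2 := hdec i
    simp only [Finsupp.add_apply]
    omega
  have h2 : ∀ i < m, St.tfac t (μ i - μ (i + 1)) =
      gb t (μ i - μ (i + 1)) (c (i + 1)) *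
        (St.tfac t (c (i + 1)) * St.tfac t (μ i - μ (i + 1) - c (i + 1))) := by
    intro i hi
    rw [gb_tfac' t (hv i hi)]
  have h3 : St.tfac t (n - μ 0) = gb t (n - μ 0) (c 0) *
      (St.tfac t (c 0) * St.tfac t (n - (μ + c : ℕ →₀ ℕ) 0)) := by
    rw [← gb_tfac' t (show c 0 ≤ n - μ 0 by omega)]
    congr 3
    simp only [Finsupp.add_apply]
    omega
  have h4 : St.tfac t ((μ + c : ℕ →₀ ℕ) m - (μ + c : ℕ →₀ ℕ) (m + 1)) = St.tfac t (c m) := by
    congr 1
    simp only [Finsupp.add_apply, hc0 (m + 1) le_rfl, hm, hμ0 (m + 1) (by omega)]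
    omega
  rw [prod_congr rfl (fun i hi => h1 i (mem_range.mp hi)),
    prod_congr rfl (fun i hi => h2 i (mem_range.mp hi)), h3, h4]
  simp only [prod_mul_distrib]
  have h5 : (∏ i ∈ range m, St.tfac t (c i)) * St.tfac t (c m) =
      (∏ i ∈ range m, St.tfac t (c (i + 1))) * St.tfac t (c 0) := by
    rw [← prod_range_succ, prod_range_succ']
  calc _ = St.tfac t (n - (μ + c : ℕ →₀ ℕ) 0) *
        (∏ i ∈ range m, gb t ((μ i - μ (i + 1) - c (i + 1)) + c i) (c i)) *
        (∏ i ∈ range m, St.tfac t (μ i - μ (i + 1) - c (i + 1))) *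
        gb t (n - μ 0) (c 0) * (∏ i ∈ range m, gb t (μ i - μ (i + 1)) (c (i + 1))) *
        ((∏ i ∈ range m, St.tfac t (c i)) * St.tfac t (c m)) := by ring
    _ = _ := by rw [h5]; ring

open Classical in
/-- the normalised alternating sums -/
noncomputable def fAlt (t : A) {n : ℕ} (x : Fin n → A) (μ : ℕ →₀ ℕ) : A :=
  if μ 0 ≤ n then Ring.inverse (vcol t n μ) * Alt t x (rows μ) else 0

theorem fAlt_pieri {t : A} (ht : ∀ k, IsUnit (St.tfac t k)) {n : ℕ} (x : Fin n → A) :
    IsPieri t (esy x) (fAlt t x) := by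
  intro m r μ hμ hm
  by_cases hn : μ 0 ≤ n
  swap
  · have h1 : fAlt t x μ = 0 := if_neg hn
    rw [h1, mul_zero]
    symm
    apply sum_eq_zero
    intro c _
    have h2 : fAlt t x (μ + c) = 0 := by
      apply if_neg
      rw [Finsupp.add_apply]
      omega
    rw [h2, mul_zero]
  have h1 : fAlt t x μ = Ring.inverse (vcol t n μ) * Alt t x (rows μ) := if_pos hn
  rw [h1, mul_left_comm, alt_pieri t x r m hμ hm hn, mul_sum]
  apply sum_congr rfl
  intro c hc
  rw [mem_finsuppAntidiag] at hc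
  by_cases hvalid : μ 0 + c 0 ≤ n ∧ ∀ i < m, c (i + 1) ≤ μ i - μ (i + 1)
  · have h2 : fAlt t x (μ + c) =
        Ring.inverse (vcol t n (μ + c)) * Alt t x (rows (μ + c)) := by
      apply if_pos
      rw [Finsupp.add_apply]
      exact hvalid.1
    rw [h2]
    have h3 := vcol_identity (t := t) hμ hm hc.2 hvalid.1 hvalid.2
    have u1 := isUnit_vcol ht n μ
    have u2 := isUnit_vcol ht n (μ + c)
    have e1 : Ring.inverse (vcol t n μ) * vcol t n μ = 1 := Ring.inverse_mul_cancel _ u1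
    have e2 : Ring.inverse (vcol t n (μ + c)) * vcol t n (μ + c) = 1 :=
      Ring.inverse_mul_cancel _ u2
    set I1 := Ring.inverse (vcol t n μ)
    set I2 := Ring.inverse (vcol t n (μ + c))
    set G := gb t (n - μ 0) (c 0) * ∏ i ∈ range m, gb t (μ i - μ (i + 1)) (c (i + 1))
    calc I1 * (G * Alt t x (rows (μ + c)))
        = I1 * (I2 * vcol t n (μ + c)) * G * Alt t x (rows (μ + c)) := by rw [e2]; ring
      _ = I1 * I2 * (vcol t n (μ + c) * G) * Alt t x (rows (μ + c)) := by ring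
      _ = (I1 * vcol t n μ) * I2 * pw t m (μ + c) μ * Alt t x (rows (μ + c)) := by
          rw [h3]; ring
      _ = _ := by rw [e1]; ring
  · -- both sides vanish
    have hz : (gb t (n - μ 0) (c 0) * ∏ i ∈ range m, gb t (μ i - μ (i + 1)) (c (i + 1))) = 0 := by
      rw [not_and_or] at hvalid
      rcases hvalid with h | h
      · rw [gb_eq_zero t (show n - μ 0 < c 0 by omega), zero_mul]
      · push Not at h
        obtain ⟨i, hi, h⟩ := h
        have h5 : ∏ i ∈ range m, gb t (μ i - μ (i + 1)) (c (i + 1)) = 0 := by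
          apply prod_eq_zero (mem_range.mpr hi)
          exact gb_eq_zero t h
        rw [h5, mul_zero]
    rw [hz, zero_mul, mul_zero]
    symm
    rw [not_and_or] at hvalid
    rcases hvalid with h | h
    · have h2 : fAlt t x (μ + c) = 0 := by
        apply if_neg
        rw [Finsupp.add_apply]
        exact h
      rw [h2, mul_zero]
    · push Not at h
      obtain ⟨i, hi, h⟩ := h
      have h2 : pw t m (μ + c) μ = 0 := by
        unfold pw
        apply prod_eq_zero (mem_range.mpr hi)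
        unfold bb'
        rw [if_neg]
        simp only [Finsupp.add_apply]
        omega
      rw [h2, zero_mul]

lemma rows_zero : rows (0 : ℕ →₀ ℕ) = fun _ => 0 := by
  funext j
  simp [rows]

lemma fAlt_zero {t : A} (ht : ∀ k, IsUnit (St.tfac t k)) {n : ℕ} (x : Fin n → A) :
    fAlt t x 0 = Vdm x := by
  have h1 : fAlt t x 0 = Ring.inverse (vcol t n 0) * Alt t x (rows 0) := by
    apply if_pos
    simp
  rw [h1, rows_zero, alt_zero, ← mul_assoc]
  have h2 : vcol t n 0 = St.tfac t n := by simp [vcol]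
  rw [h2, Ring.inverse_mul_cancel _ (ht n), one_mul]

lemma isUnit_tfac_of_nilpotent {t : A} (ht : IsNilpotent t) (k : ℕ) : IsUnit (St.tfac t k) := by
  unfold St.tfac
  rw [IsUnit.prod_iff]
  intro i _
  rw [sum_range_succ', pow_zero]
  apply IsNilpotent.isUnit_add_one
  apply isNilpotent_sum
  intro j _
  exact ht.pow_succ j

end MP4905

end

section

/-!
Rows and columns of partitions.
-/

open Finset

namespace MP4905

universe u

variable {A : Type u} [CommRing A]

lemma lt_rows_iff {μ : ℕ →₀ ℕ} (hμ : Antitone (μ : ℕ → ℕ)) (i j : ℕ) :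
    i < rows μ j ↔ j < μ i := by
  -- the set of the indices is an initial segment
  have hex : ∃ k, μ.support.filter (fun i => j < μ i) = range k := by
    refine ⟨#{i ∈ μ.support | j < μ i}, ?_⟩
    set s := μ.support.filter (fun i => j < μ i) with hs
    have hdown : ∀ a b, a ≤ b → b ∈ s → a ∈ s := by
      intro a b hab hb
      rw [hs, mem_filter] at hb ⊢
      have := hμ hab
      refine ⟨?_, lt_of_lt_of_le hb.2 this⟩
      rw [Finsupp.mem_support_iff]
      omega
    symm
    apply eq_of_subset_of_card_le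
    · intro a ha
      rw [mem_range] at ha
      by_contra hna
      have hsub : s ⊆ range a := by
        intro b hb
        rw [mem_range]
        by_contra hcon
        exact hna (hdown a b (by omega) hb)
      have := card_le_card hsub
      rw [card_range] at this
      omega
    · rw [card_range]
  obtain ⟨k, hk⟩ := hex
  have h1 : rows μ j = k := by
    unfold rows
    rw [hk, card_range]
  rw [h1, ← mem_range, ← hk, mem_filter, Finsupp.mem_support_iff]
  constructor
  · exact fun h => h.2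
  · intro h
    exact ⟨by omega, h⟩

lemma rows_antitone {μ : ℕ →₀ ℕ} : Antitone (rows μ) := by
  intro a b hab
  unfold rows
  apply card_le_card
  intro i hi
  rw [mem_filter] at hi ⊢
  exact ⟨hi.1, by omega⟩

/-- the conjugate partition -/
noncomputable def conj (μ : ℕ →₀ ℕ) : ℕ →₀ ℕ :=
  Finsupp.onFinset (range (μ.support.sup μ + 1)) (rows μ) (by
    intro j hj
    rw [mem_range]
    by_contra hc
    apply hj
    unfold rows
    rw [card_eq_zero]
    rw [filter_eq_empty_iff]
    intro i hi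
    have := Finset.le_sup (f := μ) hi
    omega)

@[simp] lemma conj_apply (μ : ℕ →₀ ℕ) (j : ℕ) : conj μ j = rows μ j := rfl

lemma conj_antitone (μ : ℕ →₀ ℕ) : Antitone (conj μ : ℕ → ℕ) := rows_antitone

lemma lt_conj_iff {μ : ℕ →₀ ℕ} (hμ : Antitone (μ : ℕ → ℕ)) (i j : ℕ) :
    i < conj μ j ↔ j < μ i := lt_rows_iff hμ i j

lemma conj_conj {μ : ℕ →₀ ℕ} (hμ : Antitone (μ : ℕ → ℕ)) : conj (conj μ) = μ := by
  ext i
  apply eq_of_forall_lt_iff
  intro j
  rw [lt_conj_iff (conj_antitone μ), lt_conj_iff hμ]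

lemma rows_conj {μ : ℕ →₀ ℕ} (hμ : Antitone (μ : ℕ → ℕ)) (j : ℕ) : rows (conj μ) j = μ j := by
  rw [← conj_apply, conj_conj hμ]

lemma conj_eq_zero_iff {μ : ℕ →₀ ℕ} (hμ : Antitone (μ : ℕ → ℕ)) (m : ℕ) :
    conj μ m = 0 ↔ μ 0 ≤ m := by
  have := lt_conj_iff hμ 0 m
  omega

lemma conj_zero_eq {μ : ℕ →₀ ℕ} (hμ : Antitone (μ : ℕ → ℕ)) :
    conj μ 0 = μ.support.card := by
  rw [conj_apply]
  unfold rows
  congr 1
  rw [filter_eq_self]
  intro i hi
  have := Finsupp.mem_support_iff.mp hi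
  omega

/-- number of indices `< n` with value `i`, in terms of the columns -/
lemma card_filter_eq {μ : ℕ →₀ ℕ} (hμ : Antitone (μ : ℕ → ℕ)) {n : ℕ}
    (hn : conj μ 0 ≤ n) (i : ℕ) :
    #{j ∈ range n | μ j = i} =
      (if i = 0 then n else conj μ (i - 1)) - conj μ i := by
  have hle : conj μ i ≤ (if i = 0 then n else conj μ (i - 1)) := by
    split_ifs with h
    · rw [h]; exact hn
    · exact conj_antitone μ (by omega)
  have h1 : (range n).filter (fun j => μ j = i) =
      Ico (conj μ i) (if i = 0 then n else conj μ (i - 1)) := by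
    ext j
    rw [mem_filter, mem_range, mem_Ico]
    have e1 := lt_conj_iff hμ j i
    by_cases h : i = 0
    · subst h
      simp only [if_true]
      omega
    · rw [if_neg h]
      have e2 := lt_conj_iff hμ j (i - 1)
      have e3 : conj μ (i - 1) ≤ n := (conj_antitone μ (Nat.zero_le (i - 1))).trans hn
      omega
  rw [h1, Nat.card_Ico]

lemma deg_eq_sum_rows (μ : ℕ →₀ ℕ) : deg (conj μ) = deg μ := by
  have h1 : deg (conj μ) = ∑ j ∈ range (μ.support.sup μ + 1), rows μ j := by
    apply deg_eq_sum_range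
    intro j hj
    rw [conj_apply]
    unfold rows
    rw [card_eq_zero, filter_eq_empty_iff]
    intro i hi
    have := Finset.le_sup (f := μ) hi
    omega
  rw [h1]
  unfold rows
  simp only [card_filter]
  rw [sum_comm]
  unfold deg
  rw [Finsupp.sum]
  apply sum_congr rfl
  intro i hi
  rw [← card_filter]
  have hle := Finset.le_sup (f := μ) hi
  have : (range (μ.support.sup μ + 1)).filter (fun j => j < μ i) = range (μ i) := by
    ext j
    rw [mem_filter, mem_range, mem_range]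
    omega
  rw [this, card_range]

/-! ### partitions -/

/-- the columns of a partition -/
noncomputable def colP (l : St.Ptn) : ℕ →₀ ℕ := conj l.part

/-- the partition with given columns -/
noncomputable def ofCol (μ : ℕ →₀ ℕ) : St.Ptn := ⟨conj μ, conj_antitone μ⟩

lemma ofCol_colP (l : St.Ptn) : ofCol (colP l) = l := by
  unfold ofCol colP
  cases l with
  | mk part anti =>
    congr 1
    exact conj_conj anti

lemma colP_ofCol {μ : ℕ →₀ ℕ} (hμ : Antitone (μ : ℕ → ℕ)) : colP (ofCol μ) = μ :=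
  conj_conj hμ

lemma colP_antitone (l : St.Ptn) : Antitone (colP l : ℕ → ℕ) := conj_antitone _

lemma colP_injective : Function.Injective colP := by
  intro l l' h
  rw [← ofCol_colP l, h, ofCol_colP]

lemma size_eq (l : St.Ptn) : l.size = deg (colP l) := (deg_eq_sum_rows l.part).symm

lemma len_eq (l : St.Ptn) : l.len = colP l 0 := (conj_zero_eq l.anti).symm

lemma colP_eq_zero_iff (l : St.Ptn) (m : ℕ) : colP l m = 0 ↔ l.part 0 ≤ m :=
  conj_eq_zero_iff l.anti m

lemma mult_eq (l : St.Ptn) {i : ℕ} (hi : 0 < i) : l.mult i = colP l (i - 1) - colP l i := by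
  have h := card_filter_eq l.anti (n := l.len) (by rw [conj_zero_eq l.anti]; rfl) i
  rw [if_neg (by omega)] at h
  rw [colP, ← h]
  unfold St.Ptn.mult
  congr 1
  ext j
  rw [mem_filter, mem_filter, Finsupp.mem_support_iff, mem_range]
  constructor
  · rintro ⟨h1, h2⟩
    refine ⟨?_, h2⟩
    rw [len_eq, colP, lt_conj_iff l.anti]
    omega
  · rintro ⟨_, h2⟩
    exact ⟨by omega, h2⟩

lemma vlam_eq (t : A) {n : ℕ} (l : St.Ptn) (hn : l.len ≤ n) :
    St.vlam t n l = vcol t n (colP l) := by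
  have hn' : conj l.part 0 ≤ n := by rw [conj_zero_eq l.anti]; exact hn
  have h0 : ∀ i, l.part 0 ≤ i → colP l i = 0 := by
    intro i hi
    exact (colP_eq_zero_iff l i).mpr hi
  rw [vcol_eq t n h0]
  unfold St.vlam
  rw [prod_range_succ', mul_comm]
  congr 1
  · rw [card_filter_eq l.anti hn', if_pos rfl]
    rfl
  · apply prod_congr rfl
    intro i _
    rw [card_filter_eq l.anti hn', if_neg (by omega)]
    rfl

lemma isHL_iff (t : A) (n : ℕ) (l : St.Ptn) (hn : l.len ≤ n) (P : MvPolynomial (Fin n) A) :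
    St.IsHL t n l P ↔
      vcol (MvPolynomial.C t) n (colP l) *
        Vdm (fun i : Fin n => (MvPolynomial.X i : MvPolynomial (Fin n) A)) * P =
      Alt (MvPolynomial.C t) (fun i : Fin n => (MvPolynomial.X i : MvPolynomial (Fin n) A))
        (rows (colP l)) := by
  unfold St.IsHL
  rw [vlam_eq t l hn]
  have h1 : (MvPolynomial.C (vcol t n (colP l)) : MvPolynomial (Fin n) A) =
      vcol (MvPolynomial.C t) n (colP l) := by
    unfold vcol
    rw [map_mul, map_prod, tfac_map]
    simp only [tfac_map]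
  have h2 : (∑ w : Equiv.Perm (Fin n), ((Equiv.Perm.sign w : ℤˣ) : ℤ) •
      MvPolynomial.rename w ((∏ i : Fin n, (MvPolynomial.X i : MvPolynomial (Fin n) A) ^
        l.part i) * ∏ i : Fin n, ∏ j ∈ Ioi i,
          (MvPolynomial.X i - MvPolynomial.C t * MvPolynomial.X j))) =
      Alt (MvPolynomial.C t) (fun i : Fin n => (MvPolynomial.X i : MvPolynomial (Fin n) A))
        (rows (colP l)) := by
    unfold Alt
    apply sum_congr rfl
    intro w _
    congr 1
    have h3 : ∀ j, rows (colP l) j = l.part j := fun j => rows_conj l.anti j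
    simp only [h3, map_mul, map_prod, map_pow, map_sub, MvPolynomial.rename_X,
      MvPolynomial.rename_C]
  rw [h1, h2]
  rfl

end MP4905

end

section

/-!
The Hall-Littlewood functions at `t = q = X ^ 2` over `ℚ⟦X⟧`, their power sum expansions, and the
evaluation `p_r ↦ N/(1-q^r)` modulo powers of `X`.
-/

open Finset

namespace MP4905

/-- power series in `X = q^{1/2}` -/
abbrev PS : Type := PowerSeries ℚ

/-- the parameter `q` -/
noncomputable abbrev qq : PS := PowerSeries.X ^ 2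

lemma isUnit_tfac_PS (k : ℕ) : IsUnit (St.tfac qq k) := by
  unfold St.tfac
  rw [IsUnit.prod_iff]
  intro i _
  rw [PowerSeries.isUnit_iff_constantCoeff, map_sum, sum_range_succ']
  simp [qq]

/-- the universal polynomials in the elementary symmetric functions -/
noncomputable def UU : (ℕ →₀ ℕ) → MvPolynomial ℕ PS := Classical.choose (pieri_univ qq)

lemma UU_spec (V : Type) [CommRing V] [Algebra PS V] (e : ℕ → V) (f : (ℕ →₀ ℕ) → V)
    (h : IsPieri (algebraMap PS V qq) e f) (μ : ℕ →₀ ℕ) (hμ : Antitone (μ : ℕ → ℕ)) :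
    f μ = MvPolynomial.aeval e (UU μ) * f 0 :=
  Classical.choose_spec (pieri_univ qq) V e f h μ hμ

/-- the variables -/
noncomputable abbrev XX (n : ℕ) (i : Fin n) : MvPolynomial (Fin n) PS := MvPolynomial.X i

lemma isUnit_tfac_MV (n k : ℕ) :
    IsUnit (St.tfac (MvPolynomial.C qq : MvPolynomial (Fin n) PS) k) := by
  rw [← tfac_map]
  exact (isUnit_tfac_PS k).map _

theorem isHL_UU (l : St.Ptn) (n : ℕ) (hn : l.len ≤ n) :
    St.IsHL qq n l (MvPolynomial.aeval (esy (XX n)) (UU (colP l))) := by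
  rw [isHL_iff qq n l hn]
  have ht := isUnit_tfac_MV n
  have h1 := UU_spec (MvPolynomial (Fin n) PS) (esy (XX n))
    (fAlt (MvPolynomial.C qq) (XX n)) (fAlt_pieri ht (XX n)) (colP l) (colP_antitone l)
  rw [fAlt_zero ht] at h1
  have h2 : fAlt (MvPolynomial.C qq) (XX n) (colP l) =
      Ring.inverse (vcol (MvPolynomial.C qq) n (colP l)) *
        Alt (MvPolynomial.C qq) (XX n) (rows (colP l)) := by
    apply if_pos
    rw [← len_eq]
    exact hn
  rw [h2] at h1
  have hu := isUnit_vcol ht n (colP l)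
  have h3 : Alt (MvPolynomial.C qq) (XX n) (rows (colP l)) =
      vcol (MvPolynomial.C qq) n (colP l) * (Ring.inverse (vcol (MvPolynomial.C qq) n (colP l)) *
        Alt (MvPolynomial.C qq) (XX n) (rows (colP l))) := by
    rw [← mul_assoc, Ring.mul_inverse_cancel _ hu, one_mul]
  rw [h3, h1]
  ring

theorem isHL_unique (l : St.Ptn) (n : ℕ) (hn : l.len ≤ n) {P P' : MvPolynomial (Fin n) PS}
    (h : St.IsHL qq n l P) (h' : St.IsHL qq n l P') : P = P' := by
  rw [isHL_iff qq n l hn] at h h'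
  have ht := isUnit_tfac_MV n
  have hu := isUnit_vcol ht n (colP l)
  have hv := vdm_ne_zero PS n
  have hne : vcol (MvPolynomial.C qq) n (colP l) * Vdm (XX n) ≠ 0 :=
    mul_ne_zero hu.ne_zero hv
  exact mul_left_cancel₀ hne (h.trans h'.symm)

/-- the expansion in power sums -/
theorem exists_F : ∃ F : St.Ptn → MvPolynomial ℕ+ PS, St.ExpressesHL qq F := by
  obtain ⟨Nw, hNw⟩ := newton PS
  refine ⟨fun l => MvPolynomial.bind₁ Nw (UU (colP l)), fun l n hn => ?_⟩
  rw [MvPolynomial.aeval_bind₁]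
  have h1 : (fun i => MvPolynomial.aeval (fun r : ℕ+ => MvPolynomial.psum (Fin n) PS r) (Nw i)) =
      esy (XX n) := by
    funext r
    rw [hNw n r, esymm_eq]
  rw [h1]
  exact isHL_UU l n hn

theorem F_eq {F : St.Ptn → MvPolynomial ℕ+ PS} (hF : St.ExpressesHL qq F) (l : St.Ptn) (n : ℕ)
    (hn : l.len ≤ n) :
    MvPolynomial.aeval (fun r : ℕ+ => MvPolynomial.psum (Fin n) PS r) (F l) =
      MvPolynomial.aeval (esy (XX n)) (UU (colP l)) :=
  isHL_unique l n hn (hF l n hn) (isHL_UU l n hn)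

/-! ### evaluation in a ring where `q` is nilpotent -/

section eval

variable {A : Type} [CommRing A]

lemma eval_F (f : PS →+* A) (hq : IsNilpotent (f qq)) {F : St.Ptn → MvPolynomial ℕ+ PS}
    (hF : St.ExpressesHL qq F) (l : St.Ptn) {n : ℕ} (hn : l.len ≤ n) (a : Fin n → A) :
    MvPolynomial.eval₂ f (fun r : ℕ+ => ∑ i : Fin n, a i ^ (r : ℕ)) (F l) =
      Ptab (f qq) a (colP l) := by
  let _ : Algebra PS A := f.toAlgebra
  have halg : algebraMap PS A = f := rfl
  have h1 := F_eq hF l n hn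
  have h2 := congrArg (MvPolynomial.eval₂Hom f a) h1
  have h3 : (MvPolynomial.eval₂Hom f a) (MvPolynomial.aeval
      (fun r : ℕ+ => MvPolynomial.psum (Fin n) PS r) (F l)) =
      MvPolynomial.eval₂ f (fun r : ℕ+ => ∑ i : Fin n, a i ^ (r : ℕ)) (F l) := by
    rw [MvPolynomial.aeval_def, MvPolynomial.eval₂_comp_left (MvPolynomial.eval₂Hom f a)]
    congr 1
    · ext x
      simp [MvPolynomial.algebraMap_eq]
    · funext r
      simp [MvPolynomial.psum]
  have h4 : (MvPolynomial.eval₂Hom f a) (MvPolynomial.aeval (esy (XX n)) (UU (colP l))) =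
      MvPolynomial.aeval (esy a) (UU (colP l)) := by
    rw [MvPolynomial.aeval_def, MvPolynomial.aeval_def,
      MvPolynomial.eval₂_comp_left (MvPolynomial.eval₂Hom f a), halg]
    congr 1
    · ext x
      simp [MvPolynomial.algebraMap_eq]
    · funext r
      rw [Function.comp_apply, esy_map]
      congr 1
      funext i
      simp
  rw [← h3, h2, h4]
  have h5 := UU_spec A (esy a) (Ptab (f qq) a) (by rw [halg]; exact Ptab_pieri hq a)
    (colP l) (colP_antitone l)
  rw [Ptab_zero, mul_one] at h5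
  exact h5.symm

/-- the alphabet `1, q, …, q^{J-1}`, repeated `N` times -/
def alph (q : A) (N J : ℕ) (i : Fin (N * J)) : A := q ^ ((i : ℕ) % J)

lemma sum_alph (q : A) (N J r : ℕ) :
    ∑ i : Fin (N * J), alph q N J i ^ r = (N : A) * ∑ j ∈ range J, (q ^ r) ^ j := by
  have h1 : ∑ i : Fin (N * J), alph q N J i ^ r = ∑ i ∈ range (N * J), (q ^ (i % J)) ^ r := by
    rw [Finset.sum_range]
    rfl
  rw [h1]
  induction N with
  | zero => simp
  | succ N ih =>
    have e1 : (N + 1) * J = N * J + J := by ring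
    rw [e1, sum_range_add]
    have e2 : ∑ i ∈ range (N * J), (q ^ (i % J)) ^ r = (N : A) * ∑ j ∈ range J, (q ^ r) ^ j := by
      apply ih
      rw [Finset.sum_range]
      rfl
    rw [e2, Nat.cast_succ, add_mul, one_mul]
    congr 1
    apply sum_congr rfl
    intro j hj
    have hj' := mem_range.mp hj
    rw [Nat.add_comm (N * J) j, Nat.add_mul_mod_self_right, Nat.mod_eq_of_lt hj', ← pow_mul,
      ← pow_mul, mul_comm]

lemma geom_inv {q : A} {J : ℕ} (hJ : q ^ J = 0) (r : ℕ) (hr : 0 < r) :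
    (1 - q ^ r) * ∑ j ∈ range J, (q ^ r) ^ j = 1 := by
  rw [mul_neg_geom_sum, ← pow_mul, pow_eq_zero_of_le (Nat.le_mul_of_pos_left J hr) hJ, sub_zero]

lemma map_ratio (f : PS →+* A) {J : ℕ} (hJ : (f qq) ^ J = 0) (N : ℕ) (r : ℕ+) :
    f ((N : PS) * (1 - qq ^ (r : ℕ))⁻¹) =
      ∑ i : Fin (N * J), alph (f qq) N J i ^ (r : ℕ) := by
  rw [sum_alph, map_mul, map_natCast]
  congr 1
  have h1 : (1 - qq ^ (r : ℕ)) * (1 - qq ^ (r : ℕ))⁻¹ = 1 := by
    apply PowerSeries.mul_inv_cancel
    simp [qq]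
  have h2 := congrArg f h1
  rw [map_mul, map_one, map_sub, map_one, map_pow] at h2
  have h3 := geom_inv hJ (r : ℕ) r.pos
  have h4 : IsUnit (1 - f qq ^ (r : ℕ)) := IsUnit.of_mul_eq_one _ h3
  exact h4.mul_left_cancel (h2.trans h3.symm)

lemma Pil_alph (q p : A) (m N J : ℕ) :
    Pil q m (List.ofFn (fun i => p * alph q N J i)) = (Phi q p m J ^ N) (ket A 0) := by
  have h1 : List.ofFn (fun i => p * alph q N J i) =
      List.flatten (List.ofFn (fun _ : Fin N => List.ofFn (fun j : Fin J => p * q ^ (j : ℕ)))) := by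
    rw [List.ofFn_mul]
    congr 1
    congr 1
    funext i
    congr 1
    funext j
    unfold alph
    have hj : (j : ℕ) < J := j.2
    have : ((i : ℕ) * J + (j : ℕ)) % J = j := by
      rw [Nat.add_comm, Nat.add_mul_mod_self_right, Nat.mod_eq_of_lt hj]
    simp only [this]
  have h2 : (List.map (fun x => Ex q m x) (List.ofFn (fun j : Fin J => p * q ^ (j : ℕ)))).prod =
      Phi q p m J := by
    unfold Phi
    rw [List.map_ofFn]
    congr 1
    apply List.ext_getElem
    · simp
    · intro i h1 h2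
      simp
  unfold Pil
  rw [h1, List.map_flatten, List.prod_flatten, List.map_ofFn, List.map_ofFn]
  have h3 : (List.prod ∘ (List.map fun x => Ex q m x) ∘ fun _ : Fin N =>
      List.ofFn fun j : Fin J => p * q ^ (j : ℕ)) = fun _ => Phi q p m J := by
    funext i
    exact h2
  rw [h3, List.ofFn_const, List.prod_replicate]

lemma Phi_stable (q : A) {p : A} (m : ℕ) {L : ℕ} (hL : p * q ^ L = 0) (J : ℕ) (hJ : L ≤ J) :
    Phi q p m J = Phi q p m L := by
  induction J, hJ using Nat.le_induction with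
  | base => rfl
  | succ J hJ ih =>
    have h0 : p * q ^ J = 0 := by
      have : q ^ J = q ^ L * q ^ (J - L) := by rw [← pow_add]; congr 1; omega
      rw [this, ← mul_assoc, hL, zero_mul]
    rw [Phi_succ, ih, h0]
    have : Ex q m (0 : A) = 1 := by
      unfold Ex
      rw [sum_range_succ', sum_eq_zero]
      · simp [E_zero]
      · intro r _
        rw [zero_pow (by omega), zero_smul]
    rw [this, mul_one]

/-- the value of `q^{|λ|/2} P'_λ(1^N; q)` -/
theorem map_Pprime (f : PS →+* A) (hp : IsNilpotent (f PowerSeries.X))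
    {F : St.Ptn → MvPolynomial ℕ+ PS} (hF : St.ExpressesHL qq F) (l : St.Ptn) {m N L : ℕ}
    (hN : 0 < N) (hm : l.part 0 ≤ m) (hL : f PowerSeries.X * (f PowerSeries.X ^ 2) ^ L = 0) :
    f (PowerSeries.X ^ l.size * St.Pprime F N l) =
      cf A (colP l) ((Phi (f PowerSeries.X ^ 2) (f PowerSeries.X) m L ^ N) (ket A 0)) := by
  have hqf : f qq = f PowerSeries.X ^ 2 := by simp [qq]
  have hq : IsNilpotent (f qq) := by rw [hqf]; exact hp.pow_succ 1
  obtain ⟨J0, hJ0⟩ := hq
  set J := max (max J0 L) l.len with hJdef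
  have hJ : (f qq) ^ J = 0 := pow_eq_zero_of_le (by omega) hJ0
  have hn : l.len ≤ N * J := by
    calc l.len ≤ J := by omega
      _ ≤ N * J := Nat.le_mul_of_pos_left J hN
  have h1 : f (St.Pprime F N l) = Ptab (f qq) (alph (f qq) N J) (colP l) := by
    rw [← eval_F f ⟨J, hJ⟩ hF l hn (alph (f qq) N J)]
    unfold St.Pprime
    rw [MvPolynomial.eval, MvPolynomial.coe_eval₂Hom, MvPolynomial.eval₂_comp_left f]
    congr 1
    funext r
    exact map_ratio f hJ N r
  rw [map_mul, map_pow, h1, size_eq]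
  have h0 : colP l m = 0 := (colP_eq_zero_iff l m).mpr hm
  rw [Ptab_eq (f qq) _ h0, ← cf_Zop, Zop_Pil, List.map_ofFn]
  have h2 := Pil_alph (f qq) (f PowerSeries.X) m N J
  have h3 : ((fun x => f PowerSeries.X * x) ∘ alph (f qq) N J) =
      (fun i => f PowerSeries.X * alph (f qq) N J i) := rfl
  rw [h3, h2, hqf, Phi_stable _ m hL J (by omega)]

end eval

end MP4905

end

section

/-!
Assembly of the final theorem.
-/

open Finset

namespace MP4905

/-! ### the sum over partitions -/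

section

variable {A : Type} [CommRing A]

lemma cf_coe (μ : Pt) (v : M A) : cf A μ.1 v = v μ := by
  classical
  unfold cf lin
  rw [Finsupp.linearCombination_apply, Finsupp.sum]
  simp only [smul_eq_mul, mul_ite, mul_one, mul_zero]
  have h1 : ∀ ν ∈ v.support, (if ν.1 = μ.1 then v ν else 0) = if ν = μ then v ν else 0 := by
    intro ν _
    by_cases h : ν = μ
    · rw [if_pos h, if_pos (by rw [h])]
    · rw [if_neg h, if_neg (fun hc => h (Subtype.ext hc))]
  rw [sum_congr rfl h1, sum_ite_eq']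
  split_ifs with h
  · rfl
  · exact (Finsupp.notMem_support_iff.mp h).symm

lemma Mle_support {m : ℕ} {v : M A} (hv : v ∈ Mle A m) : ∀ μ : Pt, μ.1 m ≠ 0 → v μ = 0 := by
  refine Mle_induction (P := fun v => ∀ μ : Pt, μ.1 m ≠ 0 → v μ = 0) ?_ ?_ ?_ ?_ hv
  · intro μ _; rfl
  · intro v w h1 h2 μ hμ
    rw [Finsupp.add_apply, h1 μ hμ, h2 μ hμ, add_zero]
  · intro a v h μ hμ
    rw [Finsupp.smul_apply, h μ hμ, smul_zero]
  · intro ν hν h0 μ hμ
    have : ket A ν = Finsupp.single (⟨ν, hν⟩ : Pt) 1 := ket_coe ⟨ν, hν⟩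
    rw [this, Finsupp.single_apply, if_neg]
    rintro rfl
    exact hμ h0

lemma Phi_pow_mem_Mle (q p : A) (m L N : ℕ) : (Phi q p m L ^ N) (ket A 0) ∈ Mle A m := by
  induction N with
  | zero => rw [pow_zero, Module.End.one_apply]; exact ket_mem_Mle rfl
  | succ N ih =>
    rw [pow_succ', Module.End.mul_apply]
    exact Phi_mem_Mle q p m L ih

end

lemma rb_poch_mult (b : ℕ) (n : ℕ) :
    rb b (St.poch (-PowerSeries.X) PowerSeries.X n) =
      ∏ j ∈ range n, (1 + (rb b PowerSeries.X) ^ (j + 1)) := by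
  unfold St.poch
  rw [map_prod]
  apply prod_congr rfl
  intro j _
  simp only [map_sub, map_one, map_mul, map_neg, map_pow]
  ring

lemma rb_Sterm {F : St.Ptn → MvPolynomial ℕ+ PS} (hF : St.ExpressesHL qq F) {m N b L : ℕ}
    (hN : 0 < N) (hL : rb b PowerSeries.X * (rb b PowerSeries.X ^ 2) ^ L = 0)
    (l : {l : St.Ptn // l.part 0 ≤ m}) :
    rb b (St.Sterm F m N l) =
      cf _ (colP l.1) ((Phi (rb b PowerSeries.X ^ 2) (rb b PowerSeries.X) m L ^ N) (ket _ 0)) *
        Wf (rb b PowerSeries.X) m (colP l.1) := by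
  unfold St.Sterm
  rw [map_mul, map_Pprime (rb b) ⟨b, rb_X_pow b⟩ hF l.1 hN l.2 hL]
  congr 1
  unfold Wf
  rw [map_prod, prod_Ico_eq_prod_range]
  apply prod_congr rfl
  intro i _
  rw [rb_poch_mult, mult_eq l.1 (by omega)]
  congr 2
  have : 1 + i - 1 = i := by omega
  rw [this, add_comm 1 i]

theorem S_mod {F : St.Ptn → MvPolynomial ℕ+ PS} (hF : St.ExpressesHL qq F) {m N b L : ℕ}
    (hN : 0 < N) (hL : rb b PowerSeries.X * (rb b PowerSeries.X ^ 2) ^ L = 0) :
    ∃ T : Finset {l : St.Ptn // l.part 0 ≤ m},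
      (∀ l, l ∉ T → rb b (St.Sterm F m N l) = 0) ∧
      ∑ l ∈ T, rb b (St.Sterm F m N l) =
        lin (Wf (rb b PowerSeries.X) m)
          ((Phi (rb b PowerSeries.X ^ 2) (rb b PowerSeries.X) m L ^ N) (ket _ 0)) := by
  classical
  set p := rb b PowerSeries.X with hp
  set v := (Phi (p ^ 2) p m L ^ N) (ket _ 0) with hv
  have hvm : v ∈ Mle _ m := Phi_pow_mem_Mle _ _ _ _ _
  set T0 : Finset St.Ptn := v.support.image (fun μ => ofCol μ.1) with hT0
  have hT0m : ∀ l ∈ T0, l.part 0 ≤ m := by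
    intro l hl
    rw [hT0, mem_image] at hl
    obtain ⟨μ, hμ, rfl⟩ := hl
    rw [← colP_eq_zero_iff, colP_ofCol μ.2]
    by_contra hne
    exact Finsupp.mem_support_iff.mp hμ (Mle_support hvm μ hne)
  refine ⟨T0.subtype (fun l : St.Ptn => l.part 0 ≤ m), ?_, ?_⟩
  · intro l hl
    rw [rb_Sterm hF hN hL]
    have h1 : cf _ (colP l.1) v = 0 := by
      by_contra hne
      apply hl
      rw [mem_subtype, hT0, mem_image]
      refine ⟨⟨colP l.1, colP_antitone l.1⟩, ?_, ofCol_colP l.1⟩
      rw [Finsupp.mem_support_iff]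
      have := cf_coe ⟨colP l.1, colP_antitone l.1⟩ v
      rw [← this]
      exact hne
    rw [h1, zero_mul]
  · have h1 : ∀ l ∈ T0.subtype (fun l : St.Ptn => l.part 0 ≤ m), rb b (St.Sterm F m N l) =
        (fun l : St.Ptn => cf _ (colP l) v * Wf p m (colP l)) l.1 := by
      intro l _
      exact rb_Sterm hF hN hL l
    rw [sum_congr rfl h1, sum_subtype_of_mem (fun l : St.Ptn => cf _ (colP l) v *
      Wf p m (colP l)) hT0m, hT0, sum_image]
    · unfold lin
      rw [Finsupp.linearCombination_apply, Finsupp.sum]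
      apply sum_congr rfl
      intro μ _
      rw [colP_ofCol μ.2, cf_coe, smul_eq_mul]
    · intro μ _ ν _ h
      have := congrArg colP h
      simp only at this
      rw [colP_ofCol μ.2, colP_ofCol ν.2] at this
      exact Subtype.ext this

/-! ### prefactors -/

lemma exists_L (b : ℕ) : ((rb b PowerSeries.X) ^ 2) ^ b = 0 := by
  rw [← pow_mul]
  exact pow_eq_zero_of_le (by omega) (rb_X_pow b)

lemma nil_rb (b : ℕ) : IsNilpotent (rb b PowerSeries.X) := ⟨b, rb_X_pow b⟩

lemma nil_rb2 (b : ℕ) : IsNilpotent ((rb b PowerSeries.X) ^ 2) := (nil_rb b).pow_succ 1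

lemma X_dvd_X_sq : (PowerSeries.X : PS) ∣ PowerSeries.X ^ 2 := ⟨PowerSeries.X, by ring⟩

lemma rb_pref_G (b : ℕ) :
    rb b (St.pochInf (-PowerSeries.X ^ 2) (PowerSeries.X ^ 2)) =
      qinf ((rb b PowerSeries.X) ^ 2) (-((rb b PowerSeries.X) ^ 2)) := by
  set n := max b (nilpotencyClass ((rb b PowerSeries.X) ^ 2)) with hn
  rw [rb_pochInf _ _ X_dvd_X_sq b n (by omega),
    qinf_eq_prod (nil_rb2 b) _ (show nilpotencyClass ((rb b PowerSeries.X) ^ 2) ≤ n by omega)]
  unfold St.poch
  rw [map_prod]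
  apply prod_congr rfl
  intro j _
  simp only [map_sub, map_one, map_mul, map_neg, map_pow]

lemma rb_pref_F0 (b L : ℕ) (hL : b ≤ L) :
    rb b (St.pochInf (-PowerSeries.X) (PowerSeries.X ^ 2)) =
      ∏ j ∈ range L, (1 + rb b PowerSeries.X * ((rb b PowerSeries.X) ^ 2) ^ j) := by
  rw [rb_pochInf _ _ X_dvd_X_sq b L hL]
  unfold St.poch
  rw [map_prod]
  apply prod_congr rfl
  intro j _
  simp only [map_sub, map_one, map_mul, map_neg, map_pow]
  ring

lemma poch_split (n : ℕ) : St.poch (-PowerSeries.X : PS) PowerSeries.X (2 * n) =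
    St.poch (-PowerSeries.X : PS) (PowerSeries.X ^ 2) n *
      St.poch (-PowerSeries.X ^ 2 : PS) (PowerSeries.X ^ 2) n := by
  induction n with
  | zero => simp [St.poch]
  | succ n ih =>
    have e : 2 * (n + 1) = 2 * n + 1 + 1 := by ring
    unfold St.poch at ih ⊢
    rw [e, prod_range_succ, prod_range_succ, ih, prod_range_succ, prod_range_succ]
    ring

lemma rb_pref_F (b : ℕ) :
    rb b (St.pochInf (-PowerSeries.X) PowerSeries.X) =
      rb b (St.pochInf (-PowerSeries.X) (PowerSeries.X ^ 2)) *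
        rb b (St.pochInf (-PowerSeries.X ^ 2) (PowerSeries.X ^ 2)) := by
  rw [rb_pochInf _ _ (dvd_refl _) b (2 * b) (by omega), poch_split,
    rb_pochInf _ _ X_dvd_X_sq b b le_rfl, rb_pochInf _ _ X_dvd_X_sq b b le_rfl, map_mul]

/-! ### the fermionic terms -/

lemma Dr_constantCoeff {N k : ℕ} (r : Fin N → Fin k → ℕ) :
    PowerSeries.constantCoeff (St.Dr r) = 1 := by
  unfold St.Dr
  rw [map_prod]
  apply prod_eq_one
  intro a _
  rw [map_prod]
  apply prod_eq_one
  intro i _
  split_ifs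
  · unfold St.poch
    rw [map_prod]
    apply prod_eq_one
    intro j _
    simp
  · unfold St.poch
    rw [map_prod]
    apply prod_eq_one
    intro j _
    simp

lemma rb_Dr_inv (b : ℕ) {N k : ℕ} (hk : 0 < k) (r : Fin N → Fin k → ℕ) :
    rb b (St.Dr r)⁻¹ =
      ∏ a : Fin N, Ring.inverse (dD ((rb b PowerSeries.X) ^ 2) k (Rof (r a))) := by
  have h1 : St.Dr r * (St.Dr r)⁻¹ = 1 := by
    apply PowerSeries.mul_inv_cancel
    rw [Dr_constantCoeff]
    exact one_ne_zero
  have h2 := congrArg (rb b) h1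
  rw [map_mul, map_one, map_Dr (rb b) hk r] at h2
  have h3 : (∏ a : Fin N, dD ((rb b PowerSeries.X) ^ 2) k (Rof (r a))) *
      ∏ a : Fin N, Ring.inverse (dD ((rb b PowerSeries.X) ^ 2) k (Rof (r a))) = 1 := by
    rw [← prod_mul_distrib]
    apply prod_eq_one
    intro a _
    exact Ring.mul_inverse_cancel _ (isUnit_dD (nil_rb2 b) k _)
  have h4 : IsUnit (∏ a : Fin N, dD ((rb b PowerSeries.X) ^ 2) k (Rof (r a))) :=
    IsUnit.of_mul_eq_one _ h3
  exact h4.mul_left_cancel (h2.trans h3.symm)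

lemma rb_Fterm (b : ℕ) {N k : ℕ} (hk : 0 < k) (r : Fin N → Fin k → ℕ) :
    rb b (St.Fterm r) = (rb b PowerSeries.X) ^ (St.twoQ r).toNat *
      ∏ a : Fin N, Ring.inverse (dD ((rb b PowerSeries.X) ^ 2) k (Rof (r a))) := by
  unfold St.Fterm
  rw [map_mul, map_pow, rb_Dr_inv b hk]

lemma rb_Gterm (b : ℕ) {N k : ℕ} (r : Fin (N + 1) → Fin (k + 1) → ℕ) :
    rb b (St.Gterm r) = (rb b PowerSeries.X) ^ (St.twoQ r - (St.R11 r : ℤ) ^ 2).toNat *
      (∏ j ∈ range (St.R11 r), (1 + rb b PowerSeries.X * ((rb b PowerSeries.X) ^ 2) ^ j)) *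
      ∏ a : Fin (N + 1), Ring.inverse (dD ((rb b PowerSeries.X) ^ 2) (k + 1) (Rof (r a))) := by
  unfold St.Gterm
  rw [map_mul, map_mul, map_pow, rb_Dr_inv b (Nat.succ_pos k)]
  congr 2
  unfold St.poch
  rw [map_prod]
  apply prod_congr rfl
  intro j _
  simp only [map_sub, map_one, map_mul, map_neg, map_pow]
  ring

/-- the box of all `r` with entries at most `B` -/
def Bx (N k B : ℕ) : Finset (Fin N → Fin k → ℕ) :=
  Fintype.piFinset (fun _ : Fin N => Fintype.piFinset (fun _ : Fin k => range (B + 1)))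

lemma notMem_Bx {N k B : ℕ} {r : Fin N → Fin k → ℕ} (h : r ∉ Bx N k B) :
    ∃ a i, B < r a i := by
  by_contra hcon
  push Not at hcon
  apply h
  unfold Bx
  rw [Fintype.mem_piFinset]
  intro a
  rw [Fintype.mem_piFinset]
  intro i
  rw [mem_range]
  have := hcon a i
  omega

lemma Fterm_vanish (b : ℕ) {N k : ℕ} (r : Fin N → Fin k → ℕ) (h : r ∉ Bx N k (N * b)) :
    rb b (St.Fterm r) = 0 := by
  obtain ⟨a, i, hai⟩ := notMem_Bx h
  unfold St.Fterm
  apply rb_X_pow_mul
  have h1 := twoQ_bound r a i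
  by_contra hlt
  push Not at hlt
  have h2 : St.twoQ r < b := by omega
  have h3 : (N : ℤ) * St.twoQ r ≤ N * b := by
    apply mul_le_mul_of_nonneg_left (by omega) (by omega)
  have h4 : ((N * b : ℕ) : ℤ) < r a i := by exact_mod_cast hai
  push_cast at h4
  omega

lemma Gterm_vanish (b : ℕ) {N k : ℕ} (r : Fin (N + 1) → Fin (k + 1) → ℕ)
    (h : r ∉ Bx (N + 1) (k + 1) ((N + 1) * b)) : rb b (St.Gterm r) = 0 := by
  obtain ⟨a, i, hai⟩ := notMem_Bx h
  unfold St.Gterm
  rw [mul_assoc]
  apply rb_X_pow_mul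
  have h1 := twoQ_bound' r a i
  by_contra hlt
  push Not at hlt
  have h2 : St.twoQ r - (St.R11 r : ℤ) ^ 2 < b := by omega
  have h3 : ((N : ℤ) + 1) * (St.twoQ r - (St.R11 r : ℤ) ^ 2) ≤ (N + 1) * b := by
    apply mul_le_mul_of_nonneg_left (by omega) (by omega)
  have h4 : (((N + 1) * b : ℕ) : ℤ) < r a i := by exact_mod_cast hai
  push_cast at h4
  omega

theorem F_summable (N k : ℕ) : St.FSummable (fun r : Fin N → Fin k → ℕ => St.Fterm r) :=
  fsummable_of _ fun b => ⟨Bx N k (N * b), fun r hr => Fterm_vanish b r hr⟩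

theorem G_summable (N k : ℕ) :
    St.FSummable (fun r : Fin (N + 1) → Fin (k + 1) → ℕ => St.Gterm r) :=
  fsummable_of _ fun b => ⟨Bx (N + 1) (k + 1) ((N + 1) * b), fun r hr => Gterm_vanish b r hr⟩

/-! ### the two sides modulo `X^b` -/

theorem even_mod (b k N : ℕ) :
    lin (Wf (rb b PowerSeries.X) (2 * (k + 1)))
      ((Phi (rb b PowerSeries.X ^ 2) (rb b PowerSeries.X) (2 * (k + 1)) b ^ (N + 1)) (ket _ 0)) =
      rb b (St.Gser (k + 1) (N + 1)) := by
  have hc := (core (rb_X_pow b) (exists_L b) (k + 1) (Nat.succ_pos k) (N + 1) _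
    (BoxT_image (k + 1) ((N + 1) * b) (Nat.succ_pos k))).1
  rw [hc, chain_G]
  unfold St.Gser
  rw [map_mul, map_pow, rb_pref_G, rb_fsum _ b (Bx (N + 1) (k + 1) ((N + 1) * b))
    (fun r hr => Gterm_vanish b r hr)]
  congr 1
  unfold Bx
  apply sum_congr rfl
  intro r _
  rw [rb_Gterm]

theorem odd_mod (b k N : ℕ) :
    lin (Wf (rb b PowerSeries.X) (2 * k + 1))
      ((Phi (rb b PowerSeries.X ^ 2) (rb b PowerSeries.X) (2 * k + 1) b ^ N) (ket _ 0)) =
      rb b (St.Fser k N) := by
  rw [odd_reduction (nil_rb b) k N b]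
  unfold St.Fser
  by_cases hk : k = 0
  · subst hk
    rw [if_pos rfl, map_pow, rb_pref_F0 b b le_rfl]
    have h1 : ∀ N, (Phi (rb b PowerSeries.X ^ 2) (rb b PowerSeries.X) (2 * 0) b ^ N) (ket _ 0) =
        ket _ 0 := by
      have h2 : Phi (rb b PowerSeries.X ^ 2) (rb b PowerSeries.X) (2 * 0) b = 1 := by
        unfold Phi
        apply List.prod_eq_one
        intro x hx
        obtain ⟨j, _, rfl⟩ := List.mem_map.mp hx
        unfold Ex
        simp [E_zero]
      intro N
      rw [h2, one_pow, Module.End.one_apply]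
    rw [h1, lin_ket_of_antitone _ (by intro i j _; simp)]
    simp [Lbf]
  · rw [if_neg hk, map_mul, map_pow, rb_pref_F, rb_pref_F0 b b le_rfl, rb_pref_G]
    have hk' : 0 < k := Nat.pos_of_ne_zero hk
    have hc := (core (rb_X_pow b) (exists_L b) k hk' N _ (BoxT_image k (N * b) hk')).2
    rw [hc, chain_F _ _ _ hk', rb_fsum _ b (Bx N k (N * b)) (fun r hr => Fterm_vanish b r hr),
      mul_pow, mul_assoc]
    congr 2
    unfold Bx
    apply sum_congr rfl
    intro r _
    rw [rb_Fterm b hk']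

theorem S_summable {F : St.Ptn → MvPolynomial ℕ+ PS} (hF : St.ExpressesHL qq F) {m N : ℕ}
    (hN : 0 < N) : St.FSummable (St.Sterm F m N) := by
  apply fsummable_of
  intro b
  obtain ⟨T, hT, _⟩ := S_mod hF (m := m) (b := b) (L := b) hN (by rw [exists_L b, mul_zero])
  exact ⟨T, hT⟩

theorem main_even {F : St.Ptn → MvPolynomial ℕ+ PS} (hF : St.ExpressesHL qq F) (k N : ℕ) :
    St.fsum (St.Sterm F (2 * (k + 1)) (N + 1)) = St.Gser (k + 1) (N + 1) := by
  apply eq_of_rb
  intro b
  obtain ⟨T, hT, hsum⟩ := S_mod hF (m := 2 * (k + 1)) (b := b) (L := b) (Nat.succ_pos N)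
    (by rw [exists_L b, mul_zero])
  rw [rb_fsum _ b T hT, hsum, even_mod]

theorem main_odd {F : St.Ptn → MvPolynomial ℕ+ PS} (hF : St.ExpressesHL qq F) (k : ℕ) {N : ℕ}
    (hN : 0 < N) :
    St.fsum (St.Sterm F (2 * k + 1) N) = St.Fser k N := by
  apply eq_of_rb
  intro b
  obtain ⟨T, hT, hsum⟩ := S_mod hF (m := 2 * k + 1) (b := b) (L := b) hN
    (by rw [exists_L b, mul_zero])
  rw [rb_fsum _ b T hT, hsum, odd_mod]

end MP4905

end
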